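import Mathlib

/-! A local homeomorphism with local sections through every point, onto a simply connected
space, is a homeomorphism. -/

open Topology unitInterval Function Set

namespace Pool.Agent.V11198

variable {V M : Type*} [TopologicalSpace V] [TopologicalSpace M] {e : V → M}

/-- local sections through every point -/
def LocSec (e : V → M) : Prop :=
  ∀ q : M, ∃ U : Set M, IsOpen U ∧ q ∈ U ∧ ∀ x, e x ∈ U → ∃ s : M → V, ContinuousOn s U ∧
    (∀ u ∈ U, e (s u) = u) ∧ s (e x) = x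

/-- path lifting -/
theorem exists_path_lift (hsec : LocSec e) (γ : C(I, M)) (x : V) (γ_0 : γ 0 = e x) :
    ∃ Γ : C(I, V), Γ 0 = x ∧ e ∘ Γ = γ := by
  choose U U_open mem_base hU using hsec
  obtain ⟨t, t_0, t_mono, ⟨n_max, h_max⟩, t_sub⟩ :=
    exists_monotone_Icc_subset_open_cover_unitInterval
    (fun x ↦ (U_open x).preimage γ.continuous) fun t _ ↦ Set.mem_iUnion.2 ⟨γ t, mem_base _⟩
  suffices ∀ n, ∃ Γ : I → V, ContinuousOn Γ (Set.Icc 0 (t n)) ∧
      (Set.Icc 0 (t n)).EqOn (e ∘ Γ) γ ∧ Γ 0 = x by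
    obtain ⟨Γ, cont, eqOn, Γ_0⟩ := this n_max
    rw [h_max _ le_rfl] at cont eqOn
    have huniv : Set.Icc (0 : I) 1 = univ := by
      rw [Set.eq_univ_iff_forall]
      exact fun t ↦ ⟨bot_le, le_top⟩
    rw [huniv] at cont
    exact ⟨⟨Γ, continuousOn_univ.mp cont⟩, Γ_0, funext fun _ ↦ eqOn ⟨bot_le, le_top⟩⟩
  intro n
  induction n with
  | zero =>
    refine ⟨fun _ ↦ x, continuous_const.continuousOn, fun t ht ↦ ?_, rfl⟩
    rw [t_0, Set.Icc_self, Set.mem_singleton_iff] at ht
    subst ht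
    exact γ_0.symm
  | succ n ih =>
    obtain ⟨Γ, cont, eqOn, Γ_0⟩ := ih
    obtain ⟨q, t_sub⟩ := t_sub n
    have h0n : (0 : I) ≤ t n := by rw [← t_0]; exact t_mono n.zero_le
    have pΓtn : e (Γ (t n)) = γ (t n) := eqOn ⟨h0n, le_rfl⟩
    obtain ⟨s, hs1, hs2, hs3⟩ := hU q (Γ (t n)) (by
      rw [pΓtn]; exact t_sub ⟨le_rfl, t_mono n.le_succ⟩)
    refine ⟨fun r ↦ if r ≤ t n then Γ r else s (γ r),
      .if (fun r hr ↦ ?_) (cont.mono fun _ h ↦ ?_) ?_, fun r hr ↦ ?_, ?_⟩
    · cases frontier_Iic_subset _ hr.2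
      rw [← pΓtn, hs3]
    · rw [closure_le_eq continuous_id' continuous_const] at h
      exact ⟨h.1.1, h.2⟩
    · refine ContinuousOn.comp (t := U q) hs1 γ.continuous.continuousOn ?_
      simp_rw [not_le]
      intro r h
      exact t_sub ⟨closure_lt_subset_le continuous_const continuous_subtype_val h.2, h.1.2⟩
    · rw [Function.comp_apply]
      split_ifs with h
      · exact eqOn ⟨hr.1, h⟩
      · exact hs2 _ (t_sub ⟨le_of_not_ge h, hr.2⟩)
    · dsimp only
      rwa [if_pos h0n]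

theorem exists_inverse_of_locSec [T2Space V] [PreconnectedSpace V] [SimplyConnectedSpace M]
    [LocallyPathConnectedSpace M] (he : IsLocalHomeomorph e) (hsec : LocSec e) (x₀ : V) :
    ∃ f : M → V, Continuous f ∧ (∀ y, e (f y) = y) ∧ ∀ x, f (e x) = x := by
  have sep : IsSeparatedMap e := T2Space.isSeparatedMap e
  obtain ⟨F, ⟨hF0, hF⟩, -⟩ := he.existsUnique_continuousMap_lifts (ContinuousMap.id M) (e x₀) x₀ rfl
    (fun γ hγ => by
      obtain ⟨Γ, h1, h2⟩ := exists_path_lift hsec γ x₀ hγ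
      exact ⟨Γ, h1, by simpa using h2⟩)
    (fun γ γ' Γ Γ' hγ hγ' hΓ hΓ' h1 h2 h3 => by
      have h1' : ∀ t, e (Γ t) = γ t := fun t => congrFun h1 t
      have h2' : ∀ t, e (Γ' t) = γ' t := fun t => congrFun h2 t
      -- a homotopy
      let p₀ : Path (e x₀) (γ 1) := ⟨γ, hγ, rfl⟩
      let p₁ : Path (e x₀) (γ 1) := ⟨γ', hγ', h3.symm⟩
      obtain ⟨H⟩ := SimplyConnectedSpace.paths_homotopic p₀ p₁
      have hH0 : ∀ t, H (t, 0) = e x₀ := fun t => by
        have := H.eq_fst t (x := 0) (by simp)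
        rw [this]
        exact hγ
      have hlift : ∀ t : I, ∃ Λ : C(I, V), Λ 0 = x₀ ∧
          e ∘ Λ = fun s => H (t, s) := by
        intro t
        exact exists_path_lift hsec ⟨fun s => H (t, s), by fun_prop⟩ x₀ (hH0 t)
      choose Λ hΛ0 hΛ using hlift
      have hmon := he.monodromy_theorem sep H Λ (fun t s => congrFun (hΛ t) s)
        (fun t => by rw [hΛ0, hΛ0]) 1
      have e0 : ⇑(Λ 0) = ⇑Γ := by
        refine sep.eq_of_comp_eq he.isLocallyInjective (Λ 0).continuous Γ.continuous ?_ 0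
          (by rw [hΛ0, hΓ])
        rw [hΛ 0]
        funext s
        rw [H.apply_zero]
        exact (h1' s).symm
      have e1 : ⇑(Λ 1) = ⇑Γ' := by
        refine sep.eq_of_comp_eq he.isLocallyInjective (Λ 1).continuous Γ'.continuous ?_ 0
          (by rw [hΛ0, hΓ'])
        rw [hΛ 1]
        funext s
        rw [H.apply_one]
        exact (h2' s).symm
      rw [e0, e1] at hmon
      exact hmon.symm)
  have hF' : ∀ y, e (F y) = y := fun y => congrFun hF y
  refine ⟨F, F.continuous, hF', ?_⟩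
  have h1 : (fun x => F (e x)) = id := by
    refine sep.eq_of_comp_eq he.isLocallyInjective (F.continuous.comp he.continuous)
      continuous_id ?_ x₀ hF0
    funext x
    exact hF' (e x)
  exact fun x => congrFun h1 x

end Pool.Agent.V11198
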