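import Mathlib
import Pool.Agent.H664.Flow

/-! Global smooth flows of smooth vector fields on finite dimensional spaces, given a priori bounds.
(The argument follows `Pool.Agent.Helper10.Asy.JB`.) -/

open scoped ContDiff Topology
open Set Filter

noncomputable section

namespace Pool.Agent.V11198

/-- truncated field -/
def trunc {E : Type} [NormedAddCommGroup E] [NormedSpace ℝ E] [FiniteDimensional ℝ E]
    (V : E → E) (n : ℕ) (p : E) : E :=
  (ContDiffBump.mk (c := (0 : E)) ((n : ℝ) + 1) ((n : ℝ) + 2) (by positivity) (by linarith)) p • V p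

section

variable {E : Type} [NormedAddCommGroup E] [NormedSpace ℝ E] [FiniteDimensional ℝ E]

lemma trunc_form (V : E → E) (n : ℕ) : ∃ χ : E → ℝ, (∀ p, 0 ≤ χ p ∧ χ p ≤ 1) ∧
    (∀ p, trunc V n p = χ p • V p) := by
  set f : ContDiffBump (0 : E) :=
    ContDiffBump.mk (c := (0 : E)) ((n : ℝ) + 1) ((n : ℝ) + 2) (by positivity) (by linarith)
  exact ⟨f, fun p => ⟨f.nonneg, f.le_one⟩, fun p => rfl⟩

lemma trunc_eq (V : E → E) (n : ℕ) (p : E) (hp : ‖p‖ ≤ n + 1) : trunc V n p = V p := by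
  unfold trunc
  rw [ContDiffBump.one_of_mem_closedBall, one_smul]
  simpa using hp

lemma trunc_contDiff {V : E → E} (hV : ContDiff ℝ ∞ V) (n : ℕ) : ContDiff ℝ ∞ (trunc V n) := by
  unfold trunc
  exact (ContDiffBump.contDiff _).smul hV

lemma trunc_supp (V : E → E) (n : ℕ) : HasCompactSupport (trunc V n) := by
  unfold trunc
  exact (ContDiffBump.hasCompactSupport _).smul_right

lemma exists_trunc_flow {V : E → E} (hV : ContDiff ℝ ∞ V) (n : ℕ) :
    ∃ g : ℝ → E → E, ∃ K : NNReal, LipschitzWith K (trunc V n) ∧ (∀ p, g 0 p = p) ∧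
      (∀ p τ, HasDerivAt (fun s => g s p) (trunc V n (g τ p)) τ) ∧
      ContDiff ℝ ∞ (fun z : ℝ × E => g z.1 z.2) := by
  have hc := trunc_contDiff hV n
  have hs := trunc_supp V n
  obtain ⟨K, hK⟩ := hc.lipschitzWith_of_hasCompactSupport hs (by simp)
  obtain ⟨M, hM⟩ := hs.exists_bound_of_continuous hc.continuous
  have hM' : ∀ x, ‖trunc V n x‖ ≤ (Real.toNNReal M : ℝ) := fun x =>
    (hM x).trans (Real.le_coe_toNNReal M)
  choose γ h0 h1 using Pool.Agent.H664.Flow.exists_solution hK hM'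
  have hflow : Pool.Agent.H664.Flow.IsFlowOf (⟨trunc V n, hc.continuous⟩ : C(E, E))
      (fun τ p => γ p τ) := ⟨fun p => h0 p, fun p t => h1 p t⟩
  have hcd : ContDiff ℝ ∞ (fun z : ℝ × E => γ z.2 z.1) := by
    rw [contDiff_infty]
    intro m
    have h2 := Pool.Agent.H664.Flow.contDiff_flow (X := ⟨trunc V n, hc.continuous⟩) (m := m + 1)
      (by simp) (hc.of_le (by exact_mod_cast le_top)) (K := K) hK hflow
    exact h2.of_le (by exact_mod_cast Nat.le_succ m)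
  exact ⟨fun τ p => γ p τ, K, hK, h0, h1, hcd⟩

theorem global_flow_aux {V : E → E} (hV : ContDiff ℝ ∞ V) (Bd : ℝ → ℝ → ℝ)
    (hmono : ∀ R R' T T', 0 ≤ R → R ≤ R' → 0 ≤ T → T ≤ T' → Bd R T ≤ Bd R' T')
    (hBd : ∀ (χ : E → ℝ), (∀ p, 0 ≤ χ p ∧ χ p ≤ 1) → ∀ γ : ℝ → E,
      (∀ τ, HasDerivAt γ (χ (γ τ) • V (γ τ)) τ) → ∀ τ, ‖γ τ‖ ≤ Bd ‖γ 0‖ |τ|) :
    ∃ φ : ℝ → E → E, (∀ p, φ 0 p = p) ∧
      (∀ p τ, HasDerivAt (fun s => φ s p) (V (φ τ p)) τ) ∧
      ContDiff ℝ ∞ (fun z : ℝ × E => φ z.1 z.2) := by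
  choose g K hK h0 h1 hC using exists_trunc_flow hV
  have hbnd : ∀ n x τ, ‖g n τ x‖ ≤ Bd ‖x‖ |τ| := by
    intro n x τ
    obtain ⟨χ, hχ1, hχ2⟩ := trunc_form V n
    have := hBd χ hχ1 (fun s => g n s x) (fun s => by
      have h := h1 n x s
      rw [hχ2] at h
      exact h) τ
    simpa only [h0] using this
  have agree : ∀ (n m : ℕ) (x : E) (τ : ℝ), Bd ‖x‖ |τ| ≤ (n : ℝ) + 1 → Bd ‖x‖ |τ| ≤ (m : ℝ) + 1 →
      g n τ x = g m τ x := by
    intro n m x τ hn hm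
    rcases eq_or_ne τ 0 with rfl | hτ
    · rw [h0, h0]
    have hT : 0 < |τ| := abs_pos.2 hτ
    have hin : ∀ t ∈ Ioo (-|τ|) |τ|, |t| ≤ |τ| := fun t ht => abs_le.2 ⟨ht.1.le, ht.2.le⟩
    have key := ODE_solution_unique_of_mem_Icc (v := fun _ => trunc V n) (s := fun _ => univ)
      (K := K n) (a := -|τ|) (b := |τ|) (t₀ := 0) (f := fun s => g n s x) (g := fun s => g m s x)
      (fun t _ => (hK n).lipschitzOnWith) ⟨by linarith, hT⟩
      (fun t _ => (h1 n x t).continuousAt.continuousWithinAt)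
      (fun t _ => h1 n x t) (fun t _ => mem_univ _)
      (fun t _ => (h1 m x t).continuousAt.continuousWithinAt)
      (fun t ht => by
        have h2 := h1 m x t
        have h3 : Bd ‖x‖ |t| ≤ Bd ‖x‖ |τ| :=
          hmono _ _ _ _ (norm_nonneg _) le_rfl (abs_nonneg _) (hin t ht)
        have h4 := (hbnd m x t).trans h3
        have h5 : trunc V m (g m t x) = trunc V n (g m t x) := by
          rw [trunc_eq V m _ (h4.trans hm), trunc_eq V n _ (h4.trans hn)]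
        rw [h5] at h2
        exact h2) (fun t _ => mem_univ _) (by simp only [h0])
    have hmem : τ ∈ Icc (-|τ|) |τ| := ⟨neg_abs_le τ, le_abs_self τ⟩
    exact key hmem
  set Φ : ℝ → E → E := fun τ x => g ⌈Bd ‖x‖ |τ|⌉₊ τ x with hΦ
  have hΦeq : ∀ (n : ℕ) (x : E) (τ : ℝ), Bd ‖x‖ |τ| ≤ (n : ℝ) + 1 → Φ τ x = g n τ x := by
    intro n x τ h
    refine agree _ _ x τ ?_ h
    have := Nat.le_ceil (Bd ‖x‖ |τ|)
    linarith
  have hloc : ∀ R T, ∃ N : ℕ, ∀ x τ, ‖x‖ ≤ R → |τ| ≤ T → Bd ‖x‖ |τ| ≤ (N : ℝ) + 1 ∧ Φ τ x = g N τ x := by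
    intro R T
    refine ⟨⌈Bd R T⌉₊, fun x τ hx hτ => ?_⟩
    have h2 : Bd ‖x‖ |τ| ≤ (⌈Bd R T⌉₊ : ℝ) + 1 := by
      have := Nat.le_ceil (Bd R T)
      have := hmono _ _ _ _ (norm_nonneg x) hx (abs_nonneg τ) hτ
      linarith
    exact ⟨h2, hΦeq _ _ _ h2⟩
  refine ⟨Φ, ?_, ?_, ?_⟩
  · intro p
    rw [hΦ]
    exact h0 _ _
  · intro p τ
    obtain ⟨N, hN⟩ := hloc ‖p‖ (|τ| + 1)
    have hev : (fun s => Φ s p) =ᶠ[𝓝 τ] (fun s => g N s p) := by
      have : {s : ℝ | |s| < |τ| + 1} ∈ 𝓝 τ :=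
        (isOpen_lt continuous_abs continuous_const).mem_nhds (by simp)
      filter_upwards [this] with s hs
      exact (hN p s le_rfl (le_of_lt hs)).2
    have h2 := (hN p τ le_rfl (by linarith))
    have h3 : trunc V N (g N τ p) = V (Φ τ p) := by
      rw [h2.2]
      exact trunc_eq V N _ ((hbnd N p τ).trans h2.1)
    have h4 := h1 N p τ
    rw [h3] at h4
    exact h4.congr_of_eventuallyEq hev
  · rw [contDiff_iff_contDiffAt]
    rintro ⟨τ, p⟩
    obtain ⟨N, hN⟩ := hloc (‖p‖ + 1) (|τ| + 1)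
    have hev : (fun z : ℝ × E => Φ z.1 z.2) =ᶠ[𝓝 (τ, p)] (fun z : ℝ × E => g N z.1 z.2) := by
      have e1 : {z : ℝ × E | |z.1| < |τ| + 1} ∈ 𝓝 (τ, p) :=
        (isOpen_lt (continuous_abs.comp continuous_fst) continuous_const).mem_nhds (by simp)
      have e2 : {z : ℝ × E | ‖z.2‖ < ‖p‖ + 1} ∈ 𝓝 (τ, p) :=
        (isOpen_lt (continuous_norm.comp continuous_snd) continuous_const).mem_nhds (by simp)
      filter_upwards [e1, e2] with z hz1 hz2
      exact (hN z.2 z.1 (le_of_lt hz2) (le_of_lt hz1)).2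
    exact (hC N).contDiffAt.congr_of_eventuallyEq hev

/-- local uniqueness for smooth autonomous equations, global version -/
theorem ode_unique {V : E → E} (hV : ContDiff ℝ ∞ V) {a b : ℝ → E}
    (ha : ∀ t, HasDerivAt a (V (a t)) t) (hb : ∀ t, HasDerivAt b (V (b t)) t) (t₀ : ℝ)
    (h : a t₀ = b t₀) : a = b := by
  set A : Set ℝ := {t | a t = b t} with hA
  have hac : Continuous a := continuous_iff_continuousAt.2 fun t => (ha t).continuousAt
  have hbc : Continuous b := continuous_iff_continuousAt.2 fun t => (hb t).continuousAt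
  have hclosed : IsClosed A := isClosed_eq hac hbc
  have hopen : IsOpen A := by
    rw [isOpen_iff_mem_nhds]
    intro t ht
    obtain ⟨K, s, hs, hL⟩ :=
      ((hV.of_le (by simp) : ContDiff ℝ 1 V).contDiffAt (x := a t)).exists_lipschitzOnWith
    have h1 : a =ᶠ[𝓝 t] b := by
      refine ODE_solution_unique_of_eventually (v := fun _ => V) (s := fun _ => s) (K := K)
        (Eventually.of_forall fun _ => hL) ?_ ?_ ht
      · filter_upwards [hac.continuousAt.preimage_mem_nhds hs] with r hr using ⟨ha r, hr⟩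
      · have hs' : s ∈ 𝓝 (b t) := by
          have : a t = b t := ht
          rwa [← this]
        filter_upwards [hbc.continuousAt.preimage_mem_nhds hs'] with r hr using ⟨hb r, hr⟩
    exact h1
  have : A = univ := IsClopen.eq_univ ⟨hclosed, hopen⟩ ⟨t₀, h⟩
  ext t
  have : t ∈ A := this ▸ mem_univ t
  rw [this]

theorem global_flow {V : E → E} (hV : ContDiff ℝ ∞ V)
    (hBd : ∀ R T : ℝ, ∃ B : ℝ, ∀ (χ : E → ℝ), (∀ p, 0 ≤ χ p ∧ χ p ≤ 1) → ∀ γ : ℝ → E,
      (∀ τ, HasDerivAt γ (χ (γ τ) • V (γ τ)) τ) → ‖γ 0‖ ≤ R → ∀ τ, |τ| ≤ T → ‖γ τ‖ ≤ B) :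
    ∃ φ : ℝ → E → E, (∀ p, φ 0 p = p) ∧
      (∀ p τ, HasDerivAt (fun s => φ s p) (V (φ τ p)) τ) ∧
      ContDiff ℝ ∞ (fun z : ℝ × E => φ z.1 z.2) ∧
      (∀ s t p, φ t (φ s p) = φ (s + t) p) := by
  choose B hB using hBd
  set Bd : ℝ → ℝ → ℝ := fun R T => ∑ i ∈ Finset.range (⌈max R T⌉₊ + 1), |B i i| with hBdd
  obtain ⟨φ, h0, h1, h2⟩ := global_flow_aux hV Bd (by
    intro R R' T T' _ hR _ hT
    refine Finset.sum_le_sum_of_subset_of_nonneg ?_ (fun _ _ _ => abs_nonneg _)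
    intro i hi
    rw [Finset.mem_range] at hi ⊢
    exact lt_of_lt_of_le hi (Nat.succ_le_succ (Nat.ceil_mono (max_le_max hR hT)))) (by
    intro χ hχ γ hγ τ
    have h3 := hB (⌈max ‖γ 0‖ |τ|⌉₊ : ℝ) (⌈max ‖γ 0‖ |τ|⌉₊ : ℝ) χ hχ γ hγ
      ((le_max_left _ _).trans (Nat.le_ceil _)) τ ((le_max_right _ _).trans (Nat.le_ceil _))
    refine h3.trans ((le_abs_self _).trans ?_)
    exact Finset.single_le_sum (f := fun i : ℕ => |B i i|) (fun _ _ => abs_nonneg _)
      (Finset.mem_range.2 (Nat.lt_succ_self _)))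
  refine ⟨φ, h0, h1, h2, ?_⟩
  intro s t p
  have h3 := ode_unique hV (a := fun t => φ t (φ s p)) (b := fun t => φ (s + t) p)
    (fun t => h1 _ t) (fun t => by
      have := (h1 p (s + t)).scomp t ((hasDerivAt_id t).const_add s)
      rw [one_smul] at this
      exact this) 0 (by simp [h0])
  exact congrFun h3 t

end

end Pool.Agent.V11198
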