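import Mathlib

/-! Riemannian and almost Kähler notions in charts. -/

set_option maxSynthPendingDepth 3

open scoped ContDiff Topology Manifold
open Set Filter

noncomputable section

namespace Pool.Agent.V11198

/-- A field of bilinear forms on the tangent spaces of `M`. -/
abbrev BField (E : Type*) [NormedAddCommGroup E] [NormedSpace ℝ E] (M : Type*)
    [TopologicalSpace M] [ChartedSpace E M] : Type _ :=
  ∀ x : M, TangentSpace 𝓘(ℝ, E) x →L[ℝ] TangentSpace 𝓘(ℝ, E) x →L[ℝ] ℝ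

/-- A field of endomorphisms of the tangent spaces of `M`. -/
abbrev EndField (E : Type*) [NormedAddCommGroup E] [NormedSpace ℝ E] (M : Type*)
    [TopologicalSpace M] [ChartedSpace E M] : Type _ :=
  ∀ x : M, TangentSpace 𝓘(ℝ, E) x →L[ℝ] TangentSpace 𝓘(ℝ, E) x

variable {E : Type*} [NormedAddCommGroup E] [NormedSpace ℝ E]
  {M : Type*} [TopologicalSpace M] [ChartedSpace E M]

/-- The derivative at `y` of the inverse of the chart centred at `q`. -/
def dInv (q : M) (y : E) :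
    E →L[ℝ] TangentSpace 𝓘(ℝ, E) ((extChartAt 𝓘(ℝ, E) q).symm y) :=
  mfderiv 𝓘(ℝ, E) 𝓘(ℝ, E) (extChartAt 𝓘(ℝ, E) q).symm y

/-- The expression of a field of bilinear forms in the chart centred at `q`. -/
def inChart (B : BField E M) (q : M) (y : E) : E →L[ℝ] E →L[ℝ] ℝ :=
  (ContinuousLinearMap.precomp ℝ (dInv q y)).comp
    ((B ((extChartAt 𝓘(ℝ, E) q).symm y)).comp (dInv q y))

lemma inChart_apply (B : BField E M) (q : M) (y u v : E) :
    inChart B q y u v = B ((extChartAt 𝓘(ℝ, E) q).symm y) (dInv q y u) (dInv q y v) := rfl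

/-- The expression of a field of endomorphisms in the chart centred at `q`. -/
def endInChart (J : EndField E M) (q : M) (y : E) : E →L[ℝ] E :=
  (mfderiv 𝓘(ℝ, E) 𝓘(ℝ, E) (extChartAt 𝓘(ℝ, E) q) ((extChartAt 𝓘(ℝ, E) q).symm y)).comp
    ((J ((extChartAt 𝓘(ℝ, E) q).symm y)).comp (dInv q y))

/-- `ω` is a symplectic form: smooth, alternating, nondegenerate and closed. -/
structure IsSymplecticForm (ω₂ : BField E M) : Prop where
  smooth : ∀ q, ContDiffOn ℝ ∞ (inChart ω₂ q) (extChartAt 𝓘(ℝ, E) q).target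
  alt : ∀ x u, ω₂ x u u = 0
  nondeg : ∀ x u, (∀ v, ω₂ x u v = 0) → u = 0
  closed : ∀ q, ∀ y ∈ (extChartAt 𝓘(ℝ, E) q).target, ∀ u v w,
    fderiv ℝ (inChart ω₂ q) y u v w + fderiv ℝ (inChart ω₂ q) y v w u +
      fderiv ℝ (inChart ω₂ q) y w u v = 0

/-- `J` is a smooth almost complex structure compatible with the symplectic form `ω₂`. -/
structure IsCompatibleJ (ω₂ : BField E M) (J : EndField E M) : Prop where
  smooth : ∀ q, ContDiffOn ℝ ∞ (endInChart J q) (extChartAt 𝓘(ℝ, E) q).target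
  sq : ∀ x v, J x (J x v) = -v
  inv : ∀ x u v, ω₂ x (J x u) (J x v) = ω₂ x u v
  pos : ∀ x v, v ≠ 0 → 0 < ω₂ x v (J x v)

/-- The metric `g_J (u, v) = ω₂ (u, J v)`. -/
def gMetric (ω₂ : BField E M) (J : EndField E M) : BField E M :=
  fun x => (ContinuousLinearMap.precomp ℝ (J x)).comp (ω₂ x)

lemma gMetric_apply (ω₂ : BField E M) (J : EndField E M) (x : M)
    (u v : TangentSpace 𝓘(ℝ, E) x) : gMetric ω₂ J x u v = ω₂ x u (J x v) := rfl

/-- The Christoffel symbol `Γ_y(u, v)` of a metric `G` on a domain of `E`: the vector with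
`2 G_y(Γ_y(u, v), w) = D_u G_y(v, w) + D_v G_y(u, w) - D_w G_y(u, v)` for all `w`. -/
def christoffel (G : E → E →L[ℝ] E →L[ℝ] ℝ) (y u v : E) : E :=
  (G y).inverse ((1 / 2 : ℝ) • (fderiv ℝ G y u v + fderiv ℝ G y v u -
    ((fderiv ℝ G y).flip u).flip v))

/-- The curvature `R(u, v) w = ∇_u ∇_v w - ∇_v ∇_u w` (for constant `u`, `v`, `w`) of the
connection with Christoffel symbols `Γ`. -/
def riemannCurv (Γ : E → E → E → E) (y u v w : E) : E :=
  fderiv ℝ (fun z => Γ z v w) y u - fderiv ℝ (fun z => Γ z u w) y v +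
    Γ y u (Γ y v w) - Γ y v (Γ y u w)

/-- The sectional curvatures of the metric `g` are nonpositive. -/
def NonposCurved (g : BField E M) : Prop :=
  ∀ q, ∀ y ∈ (extChartAt 𝓘(ℝ, E) q).target, ∀ u v,
    inChart g q y (riemannCurv (christoffel (inChart g q)) y u v v) u ≤ 0

/-- `γ` is a geodesic of `g`. -/
def IsGeodesic (g : BField E M) (γ : ℝ → M) : Prop :=
  ContMDiff 𝓘(ℝ, ℝ) 𝓘(ℝ, E) ∞ γ ∧ ∀ q t, γ t ∈ (chartAt E q).source →
    deriv (deriv (extChartAt 𝓘(ℝ, E) q ∘ γ)) t =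
      -christoffel (inChart g q) (extChartAt 𝓘(ℝ, E) q (γ t))
        (deriv (extChartAt 𝓘(ℝ, E) q ∘ γ) t) (deriv (extChartAt 𝓘(ℝ, E) q ∘ γ) t)

/-- Geodesic completeness: every tangent vector is the initial velocity of a geodesic defined
on the whole line. -/
def GeodesicallyComplete (g : BField E M) : Prop :=
  ∀ (x : M) (v : TangentSpace 𝓘(ℝ, E) x), ∃ γ : ℝ → M, IsGeodesic g γ ∧
    (⟨γ 0, mfderiv 𝓘(ℝ, ℝ) 𝓘(ℝ, E) γ 0 (1 : ℝ)⟩ : TangentBundle 𝓘(ℝ, E) M) = ⟨x, v⟩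

end Pool.Agent.V11198
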