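import Mathlib
import Pool.Agent.V11198.GFlow

/-! Moser's method on a finite dimensional vector space. -/

open scoped ContDiff Topology
open Set Filter

noncomputable section

namespace Pool.Agent.V11198

variable {E : Type} [NormedAddCommGroup E] [NormedSpace ℝ E]

/-- the autonomous field -/
def tField (W : ℝ × E → E) (p : ℝ × E) : ℝ × E := (1, W p)

lemma contDiff_tField {W : ℝ × E → E} (hW : ContDiff ℝ ∞ W) : ContDiff ℝ ∞ (tField W) :=
  contDiff_const.prodMk hW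

section moser

variable {W : ℝ × E → E} {R : ℝ × E → E}

lemma hasDerivAt_var (hW : ContDiff ℝ ∞ W) (hR : ContDiff ℝ ∞ R)
    (hRW : ∀ t x, HasDerivAt (fun s => R (s, x)) (W (t, R (t, x))) t) (t : ℝ) (x u : E) :
    HasDerivAt (fun s => fderiv ℝ R (s, x) (0, u))
      (fderiv ℝ W (t, R (t, x)) (0, fderiv ℝ R (t, x) (0, u))) t := by
  have hR2 : ContDiff ℝ 2 R := hR.of_le (by
    have : (2 : WithTop ℕ∞) = ((2 : ℕ∞) : WithTop ℕ∞) := rfl
    rw [this]
    exact WithTop.coe_le_coe.2 le_top)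
  have hdR : Differentiable ℝ R := hR.differentiable (by simp)
  have hdW : Differentiable ℝ W := hW.differentiable (by simp)
  have hD : Differentiable ℝ (fderiv ℝ R) := (hR.fderiv_right (m := ∞) (by simp)).differentiable (by simp)
  have hcurve : HasDerivAt (fun s : ℝ => ((s, x) : ℝ × E)) ((1, 0) : ℝ × E) t :=
    (hasDerivAt_id t).prodMk (hasDerivAt_const t x)
  have h1 : HasDerivAt (fun s => fderiv ℝ R (s, x)) (fderiv ℝ (fderiv ℝ R) (t, x) (1, 0)) t :=
    (hD (t, x)).hasFDerivAt.comp_hasDerivAt t hcurve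
  have h2 : HasDerivAt (fun s => fderiv ℝ R (s, x) (0, u))
      (fderiv ℝ (fderiv ℝ R) (t, x) (1, 0) (0, u)) t := by
    have := h1.clm_apply (hasDerivAt_const t ((0, u) : ℝ × E))
    simpa using this
  have hsymm := (hR2.contDiffAt (x := (t, x))).isSymmSndFDerivAt (by simp)
  have h3 : fderiv ℝ (fderiv ℝ R) (t, x) (1, 0) (0, u) =
      fderiv ℝ (fderiv ℝ R) (t, x) (0, u) (1, 0) := hsymm.eq _ _
  rw [h3] at h2
  have h4 : ∀ p : ℝ × E, fderiv ℝ R p (1, 0) = W (p.1, R p) := by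
    rintro ⟨s, y⟩
    have hcurve : HasDerivAt (fun s : ℝ => ((s, y) : ℝ × E)) ((1, 0) : ℝ × E) s :=
      (hasDerivAt_id s).prodMk (hasDerivAt_const s y)
    have h5 := (hdR (s, y)).hasFDerivAt.comp_hasDerivAt s hcurve
    exact h5.unique (hRW s y)
  have h5 : HasFDerivAt (fun p : ℝ × E => fderiv ℝ R p (1, 0))
      ((fderiv ℝ (fderiv ℝ R) (t, x)).flip (1, 0)) (t, x) := by
    have := (hD (t, x)).hasFDerivAt.clm_apply (hasFDerivAt_const ((1, 0) : ℝ × E) (t, x))
    simpa using this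
  have h6 : HasFDerivAt (fun p : ℝ × E => W (p.1, R p))
      ((fderiv ℝ W (t, R (t, x))).comp ((ContinuousLinearMap.fst ℝ ℝ E).prod (fderiv ℝ R (t, x))))
      (t, x) :=
    HasFDerivAt.comp (t, x) (g := W) (hdW (t, R (t, x))).hasFDerivAt
      (hasFDerivAt_fst.prodMk (hdR (t, x)).hasFDerivAt)
  have h7 : (fun p : ℝ × E => fderiv ℝ R p (1, 0)) = fun p : ℝ × E => W (p.1, R p) := funext h4
  rw [h7] at h5
  have h8 := DFunLike.congr_fun (h5.unique h6) ((0, u) : ℝ × E)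
  simp only [ContinuousLinearMap.flip_apply, ContinuousLinearMap.comp_apply,
    ContinuousLinearMap.prod_apply, ContinuousLinearMap.coe_fst'] at h8
  rw [h8] at h2
  exact h2

/-- **Moser's method**: the flow of `W` pulls back `Ω_t` to `Ω_0`. -/
theorem moser_pull {Ω : ℝ × E → E →L[ℝ] E →L[ℝ] ℝ} (hΩ : ContDiff ℝ ∞ Ω)
    (hW : ContDiff ℝ ∞ W) (hR : ContDiff ℝ ∞ R)
    (hRW : ∀ t x, HasDerivAt (fun s => R (s, x)) (W (t, R (t, x))) t)
    (hR0 : ∀ x, R (0, x) = x)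
    (hM : ∀ p u v, fderiv ℝ Ω p (1, W p) u v + Ω p (fderiv ℝ W p (0, u)) v +
      Ω p u (fderiv ℝ W p (0, v)) = 0) (t : ℝ) (x u v : E) :
    Ω (t, R (t, x)) (fderiv ℝ R (t, x) (0, u)) (fderiv ℝ R (t, x) (0, v)) = Ω (0, x) u v := by
  have hdΩ : Differentiable ℝ Ω := hΩ.differentiable (by simp)
  have hcurve : ∀ t, HasDerivAt (fun s : ℝ => ((s, R (s, x)) : ℝ × E)) (1, W (t, R (t, x))) t :=
    fun t => (hasDerivAt_id t).prodMk (hRW t x)
  have h1 : ∀ t, HasDerivAt (fun s => Ω (s, R (s, x)))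
      (fderiv ℝ Ω (t, R (t, x)) (1, W (t, R (t, x)))) t := by
    intro t
    have h := HasFDerivAt.comp_hasDerivAt (l := Ω) (f := fun s => (s, R (s, x))) t
      (hdΩ (t, R (t, x))).hasFDerivAt (hcurve t)
    exact h
  have h2 : ∀ t, HasDerivAt (fun s => Ω (s, R (s, x)) (fderiv ℝ R (s, x) (0, u))
      (fderiv ℝ R (s, x) (0, v))) 0 t := by
    intro t
    have h3 := ((h1 t).clm_apply (hasDerivAt_var hW hR hRW t x u)).clm_apply
      (hasDerivAt_var hW hR hRW t x v)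
    refine h3.congr_deriv ?_
    have := hM (t, R (t, x)) (fderiv ℝ R (t, x) (0, u)) (fderiv ℝ R (t, x) (0, v))
    simp only [add_apply]
    linarith
  have h3 : Ω (t, R (t, x)) (fderiv ℝ R (t, x) (0, u)) (fderiv ℝ R (t, x) (0, v)) =
      Ω (0, R (0, x)) (fderiv ℝ R (0, x) (0, u)) (fderiv ℝ R (0, x) (0, v)) :=
    is_const_of_deriv_eq_zero (fun t => (h2 t).differentiableAt) (fun t => (h2 t).deriv) t 0
  rw [h3, hR0]
  have h4 : ∀ w, fderiv ℝ R (0, x) (0, w) = w := by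
    intro w
    have hdR : Differentiable ℝ R := hR.differentiable (by simp)
    have h5 : HasFDerivAt (fun y : E => R (0, y))
        ((fderiv ℝ R (0, x)).comp (ContinuousLinearMap.inr ℝ ℝ E)) x := by
      refine HasFDerivAt.comp x (g := R) (f := fun y : E => ((0 : ℝ), y)) (hdR (0, x)).hasFDerivAt ?_
      exact hasFDerivAt_prodMk_right (0 : ℝ) x
    have h6 : (fun y : E => R (0, y)) = id := by ext y; exact hR0 y
    rw [h6] at h5
    have := DFunLike.congr_fun (h5.unique (hasFDerivAt_id x)) w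
    simpa using this
  rw [h4, h4]

end moser

variable [FiniteDimensional ℝ E]

/-- Moser's method, given a priori bounds for the truncated equations. -/
theorem moser {Ω : ℝ × E → E →L[ℝ] E →L[ℝ] ℝ} (hΩ : ContDiff ℝ ∞ Ω) {W : ℝ × E → E}
    (hW : ContDiff ℝ ∞ W)
    (hM : ∀ p u v, fderiv ℝ Ω p (1, W p) u v + Ω p (fderiv ℝ W p (0, u)) v +
      Ω p u (fderiv ℝ W p (0, v)) = 0)
    (hBd : ∀ R T : ℝ, ∃ B : ℝ, ∀ (χ : ℝ × E → ℝ), (∀ p, 0 ≤ χ p ∧ χ p ≤ 1) → ∀ γ : ℝ → ℝ × E,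
      (∀ τ, HasDerivAt γ (χ (γ τ) • tField W (γ τ)) τ) → ‖γ 0‖ ≤ R → ∀ τ, |τ| ≤ T → ‖γ τ‖ ≤ B) :
    ∃ Φ Ψ : E → E, ContDiff ℝ ∞ Φ ∧ ContDiff ℝ ∞ Ψ ∧ (∀ x, Ψ (Φ x) = x) ∧ (∀ x, Φ (Ψ x) = x) ∧
      ∀ x u v, Ω (1, Φ x) (fderiv ℝ Φ x u) (fderiv ℝ Φ x v) = Ω (0, x) u v := by
  obtain ⟨φ, h0, h1, h2, h3⟩ := global_flow (contDiff_tField hW) hBd
  have hd : ∀ p t, HasDerivAt (fun s => φ s p) (1, W (φ t p)) t := h1
  have hfst : ∀ p t, (φ t p).1 = p.1 + t := by
    intro p t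
    have h4 : ∀ t, HasDerivAt (fun s => (φ s p).1 - s) 0 t := by
      intro t
      have h := (hasFDerivAt_fst.comp_hasDerivAt t (hd p t)).fun_sub (hasDerivAt_id' t)
      have e : (ContinuousLinearMap.fst ℝ ℝ E) (1, W (φ t p)) - 1 = 0 := by simp
      rw [e] at h
      exact h
    have h5 := is_const_of_deriv_eq_zero (fun t => (h4 t).differentiableAt)
      (fun t => (h4 t).deriv) t 0
    simp only [h0, sub_zero] at h5
    linarith
  set R : ℝ × E → E := fun q => (φ q.1 (0, q.2)).2 with hR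
  have hRc : ContDiff ℝ ∞ R :=
    contDiff_snd.comp (h2.comp (contDiff_fst.prodMk (contDiff_const.prodMk contDiff_snd)))
  have hφR : ∀ t x, φ t (0, x) = (t, R (t, x)) := fun t x => Prod.ext (by simp [hfst]) rfl
  have hRW : ∀ t x, HasDerivAt (fun s => R (s, x)) (W (t, R (t, x))) t := by
    intro t x
    have := hasFDerivAt_snd.comp_hasDerivAt t (hd (0, x) t)
    rw [hφR] at this
    exact this
  have hR0 : ∀ x, R (0, x) = x := fun x => by simp [hR, h0]
  have hpull := moser_pull hΩ hW hRc hRW hR0 hM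
  refine ⟨fun x => R (1, x), fun x => (φ (-1) (1, x)).2, hRc.comp (contDiff_const.prodMk contDiff_id),
    contDiff_snd.comp (h2.comp (contDiff_const.prodMk (contDiff_const.prodMk contDiff_id))),
    ?_, ?_, ?_⟩
  · intro x
    simp only
    rw [← hφR, h3]
    simp [h0]
  · intro x
    have h5 : φ (-1) (1, x) = (0, (φ (-1) (1, x)).2) := Prod.ext (by simp [hfst]) rfl
    simp only [hR]
    rw [← h5, h3]
    simp [h0]
  · intro x u v
    have hf : ∀ w, fderiv ℝ (fun x => R (1, x)) x w = fderiv ℝ R (1, x) (0, w) := by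
      intro w
      have h5 : HasFDerivAt (fun y : E => R (1, y))
          ((fderiv ℝ R (1, x)).comp (ContinuousLinearMap.inr ℝ ℝ E)) x := by
        refine HasFDerivAt.comp x (g := R) (f := fun y : E => ((1 : ℝ), y))
          ((hRc.differentiable (by simp)) (1, x)).hasFDerivAt ?_
        exact hasFDerivAt_prodMk_right (1 : ℝ) x
      rw [h5.fderiv]
      rfl
    rw [hf, hf]
    exact hpull 1 x u v

end Pool.Agent.V11198
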