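import Mathlib
import Pool.Agent.V11198.MoserE

/-! A priori bounds. -/

open scoped ContDiff Topology InnerProductSpace
open Set Filter

noncomputable section

namespace Pool.Agent.V11198

variable {E : Type} [NormedAddCommGroup E] [InnerProductSpace ℝ E]

/-- the curve `(s, z)` solves the truncated equation -/
structure Curve (W : ℝ × E → E) (s c : ℝ → ℝ) (z : ℝ → E) : Prop where
  c0 : ∀ τ, 0 ≤ c τ
  c1 : ∀ τ, c τ ≤ 1
  ds : ∀ τ, HasDerivAt s (c τ) τ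
  dz : ∀ τ, HasDerivAt z (c τ • W (s τ, z τ)) τ

lemma Curve.of_gamma {W : ℝ × E → E} {χ : ℝ × E → ℝ} (hχ : ∀ p, 0 ≤ χ p ∧ χ p ≤ 1)
    {γ : ℝ → ℝ × E} (hγ : ∀ τ, HasDerivAt γ (χ (γ τ) • tField W (γ τ)) τ) :
    Curve W (fun τ => (γ τ).1) (fun τ => χ (γ τ)) (fun τ => (γ τ).2) where
  c0 τ := (hχ _).1
  c1 τ := (hχ _).2
  ds τ := by
    have h := hasFDerivAt_fst.comp_hasDerivAt τ (hγ τ)
    have e : (ContinuousLinearMap.fst ℝ ℝ E) (χ (γ τ) • tField W (γ τ)) = χ (γ τ) := by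
      simp [tField]
    rw [e] at h
    exact h
  dz τ := by
    have h := hasFDerivAt_snd.comp_hasDerivAt τ (hγ τ)
    have e : (ContinuousLinearMap.snd ℝ ℝ E) (χ (γ τ) • tField W (γ τ)) =
        χ (γ τ) • W ((γ τ).1, (γ τ).2) := by
      simp [tField]
    rw [e] at h
    exact h

variable {W : ℝ × E → E} {s c : ℝ → ℝ} {z : ℝ → E}

lemma Curve.reverse (h : Curve W s c z) :
    Curve (fun p => -W (-p.1, p.2)) (fun τ => -s (-τ)) (fun τ => c (-τ)) (fun τ => z (-τ)) where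
  c0 τ := h.c0 _
  c1 τ := h.c1 _
  ds τ := by
    have h1 : HasDerivAt (fun τ => -s (-τ)) (-((-1 : ℝ) • c (-τ))) τ :=
      ((h.ds (-τ)).scomp τ (hasDerivAt_neg τ)).neg
    rw [neg_smul, one_smul, neg_neg] at h1
    exact h1
  dz τ := by
    have h1 : HasDerivAt (fun τ => z (-τ)) ((-1 : ℝ) • (c (-τ) • W (s (-τ), z (-τ)))) τ :=
      (h.dz (-τ)).scomp τ (hasDerivAt_neg τ)
    rw [neg_smul, one_smul, ← smul_neg] at h1
    simpa only [neg_neg] using h1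

lemma Curve.mono_s (h : Curve W s c z) : Monotone s :=
  monotone_of_deriv_nonneg (fun τ => (h.ds τ).differentiableAt)
    (fun τ => by rw [(h.ds τ).deriv]; exact h.c0 τ)

lemma Curve.abs_s (h : Curve W s c z) (τ : ℝ) : |s τ| ≤ |s 0| + |τ| := by
  have h1 : ‖s τ - s 0‖ ≤ 1 * ‖τ - 0‖ :=
    Convex.norm_image_sub_le_of_norm_hasDerivWithin_le (f := s) (f' := c) (s := univ)
      (fun x _ => (h.ds x).hasDerivWithinAt) (fun x _ => by
        rw [Real.norm_eq_abs, abs_of_nonneg (h.c0 x)]; exact h.c1 x) convex_univ (mem_univ _)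
        (mem_univ _)
  rw [Real.norm_eq_abs, Real.norm_eq_abs, sub_zero, one_mul] at h1
  have := abs_sub_abs_le_abs_sub (s τ) (s 0)
  linarith

section linear

lemma gronwall_aux {z z' : ℝ → E} {K T : ℝ} (hz : ∀ τ, HasDerivAt z (z' τ) τ)
    (hK : ∀ τ ∈ Icc (-T) T, ‖z' τ‖ ≤ K * ‖z τ‖) {τ : ℝ} (hτ : |τ| ≤ T) :
    ‖z τ‖ ≤ ‖z 0‖ * Real.exp (K * |τ|) := by
  have key : ∀ (w w' : ℝ → E), (∀ τ, HasDerivAt w (w' τ) τ) →
      (∀ τ ∈ Icc (-T) T, ‖w' τ‖ ≤ K * ‖w τ‖) → ∀ τ, 0 ≤ τ → τ ≤ T →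
      ‖w τ‖ ≤ ‖w 0‖ * Real.exp (K * τ) := by
    intro w w' hw hwK τ h0 hT
    have h1 := norm_le_gronwallBound_of_norm_deriv_right_le (f := w) (f' := w') (δ := ‖w 0‖)
      (K := K) (ε := 0) (a := 0) (b := T)
      (fun x _ => (hw x).continuousAt.continuousWithinAt)
      (fun x _ => (hw x).hasDerivWithinAt) le_rfl
      (fun x hx => by
        rw [add_zero]
        exact hwK x ⟨by linarith [hx.1, hx.2], hx.2.le⟩) τ ⟨h0, hT⟩
    rw [gronwallBound_ε0, sub_zero] at h1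
    exact h1
  rcases le_total 0 τ with h | h
  · rw [abs_of_nonneg h] at hτ ⊢
    exact key z z' hz hK τ h hτ
  · rw [abs_of_nonpos h] at hτ ⊢
    have := key (fun t => z (-t)) (fun t => -z' (-t)) (fun t => by
      have h1 : HasDerivAt (fun t => z (-t)) ((-1 : ℝ) • z' (-t)) t :=
        (hz (-t)).scomp t (hasDerivAt_neg t)
      rw [neg_smul, one_smul] at h1
      exact h1) (fun t ht => by
        rw [norm_neg]
        exact hK (-t) ⟨by linarith [ht.2], by linarith [ht.1]⟩) (-τ) (by linarith) hτ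
    simpa using this

/-- linear growth gives a priori bounds -/
theorem bound_of_linear {W : ℝ × E → E} {k : ℝ → ℝ} (hk : Continuous k)
    (hW : ∀ s x, ‖W (s, x)‖ ≤ k s * ‖x‖) : ∀ R T : ℝ, ∃ B : ℝ, ∀ (χ : ℝ × E → ℝ),
      (∀ p, 0 ≤ χ p ∧ χ p ≤ 1) → ∀ γ : ℝ → ℝ × E,
      (∀ τ, HasDerivAt γ (χ (γ τ) • tField W (γ τ)) τ) → ‖γ 0‖ ≤ R → ∀ τ, |τ| ≤ T → ‖γ τ‖ ≤ B := by
  intro R T
  obtain ⟨K, hK⟩ := (isCompact_Icc (a := -(R + T)) (b := R + T)).exists_bound_of_continuousOn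
    hk.continuousOn
  refine ⟨max (R + T) (R * Real.exp (K * T)), ?_⟩
  intro χ hχ γ hγ h0 τ hτ
  have hc := Curve.of_gamma hχ hγ
  have hT : 0 ≤ T := (abs_nonneg _).trans hτ
  have hR : 0 ≤ R := (norm_nonneg _).trans h0
  have h0s : |(γ 0).1| ≤ R := (norm_fst_le (γ 0)).trans h0
  have h0z : ‖(γ 0).2‖ ≤ R := (norm_snd_le (γ 0)).trans h0
  have hK0 : 0 ≤ K := (norm_nonneg _).trans (hK 0 ⟨by linarith, by linarith⟩)
  have h1 : ∀ t ∈ Icc (-T) T, ‖χ (γ t) • W ((γ t).1, (γ t).2)‖ ≤ K * ‖(γ t).2‖ := by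
    intro t ht
    have h2 : |(γ t).1| ≤ |(γ 0).1| + |t| := hc.abs_s t
    have h3 : |t| ≤ T := abs_le.2 ⟨ht.1, ht.2⟩
    have h4 : (γ t).1 ∈ Icc (-(R + T)) (R + T) := by
      rw [Set.mem_Icc, ← abs_le]
      linarith
    have h5 : k (γ t).1 ≤ K := (le_abs_self _).trans (hK _ h4)
    rw [norm_smul, Real.norm_eq_abs, abs_of_nonneg (hχ _).1]
    have h6 := hW (γ t).1 (γ t).2
    have h7 : χ (γ t) * ‖W ((γ t).1, (γ t).2)‖ ≤ 1 * ‖W ((γ t).1, (γ t).2)‖ :=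
      mul_le_mul_of_nonneg_right (hχ _).2 (norm_nonneg _)
    have h8 : k (γ t).1 * ‖(γ t).2‖ ≤ K * ‖(γ t).2‖ := mul_le_mul_of_nonneg_right h5 (norm_nonneg _)
    linarith
  have h2 : ‖(γ τ).2‖ ≤ ‖(γ 0).2‖ * Real.exp (K * |τ|) :=
    gronwall_aux (z := fun t => (γ t).2) hc.dz h1 hτ
  have h3 : |(γ τ).1| ≤ |(γ 0).1| + |τ| := hc.abs_s τ
  rw [Prod.norm_def]
  refine max_le_max ?_ ?_
  · rw [Real.norm_eq_abs]
    linarith
  · refine h2.trans ?_
    have : Real.exp (K * |τ|) ≤ Real.exp (K * T) :=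
      Real.exp_le_exp.2 (mul_le_mul_of_nonneg_left hτ hK0)
    exact mul_le_mul h0z this (Real.exp_pos _).le hR

end linear

section radial

/-- the structure of the field near `s = 0` -/
structure Radial (W : ℝ × E → E) : Prop where
  sgn : ∀ s x, s * ⟪x, W (s, x)⟫_ℝ ≤ 0
  zero : ∀ x, ⟪x, W (0, x)⟫_ℝ = 0
  nonneg : ∀ s x, 0 ≤ ‖x‖ ^ 2 + s * ⟪x, W (s, x)⟫_ℝ
  loc : ∀ ρ : ℝ, ∃ C k : ℝ, 0 ≤ C ∧ 0 < k ∧ k ≤ 1 ∧ ∀ s x, |s| * ‖x‖ ≤ ρ →
    |⟪x, W (s, x)⟫_ℝ| ≤ C * ‖x‖ ^ 3 ∧ k * ‖x‖ ^ 2 ≤ ‖x‖ ^ 2 + s * ⟪x, W (s, x)⟫_ℝ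

lemma Radial.reverse (h : Radial W) : Radial (fun p => -W (-p.1, p.2)) where
  sgn s x := by
    have := h.sgn (-s) x
    simp only [inner_neg_right]
    linarith
  zero x := by
    have := h.zero x
    simp only [inner_neg_right, neg_zero, this]
  nonneg s x := by
    have := h.nonneg (-s) x
    simp only [inner_neg_right]
    linarith
  loc ρ := by
    obtain ⟨C, k, hC, hk, hk1, h1⟩ := h.loc ρ
    refine ⟨C, k, hC, hk, hk1, fun s x hsx => ?_⟩
    have := h1 (-s) x (by rwa [abs_neg])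
    simp only [inner_neg_right, abs_neg]
    refine ⟨this.1, ?_⟩
    linarith [this.2]

lemma zero_of_sgn (hW : Continuous W) (h : ∀ s x, s * ⟪x, W (s, x)⟫_ℝ ≤ 0) (x : E) :
    ⟪x, W (0, x)⟫_ℝ = 0 := by
  have hf : Continuous fun s : ℝ => ⟪x, W (s, x)⟫_ℝ := by fun_prop
  apply le_antisymm
  · have h1 : Tendsto (fun s : ℝ => ⟪x, W (s, x)⟫_ℝ) (𝓝[>] 0) (𝓝 ⟪x, W (0, x)⟫_ℝ) :=
      hf.continuousAt.tendsto.mono_left nhdsWithin_le_nhds
    refine le_of_tendsto h1 ?_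
    filter_upwards [self_mem_nhdsWithin] with s hs
    by_contra hcon
    push Not at hcon
    have := mul_pos (show (0:ℝ) < s from hs) hcon
    linarith [h s x]
  · have h1 : Tendsto (fun s : ℝ => ⟪x, W (s, x)⟫_ℝ) (𝓝[<] 0) (𝓝 ⟪x, W (0, x)⟫_ℝ) :=
      hf.continuousAt.tendsto.mono_left nhdsWithin_le_nhds
    refine ge_of_tendsto h1 ?_
    filter_upwards [self_mem_nhdsWithin] with s hs
    by_contra hcon
    push Not at hcon
    have := mul_pos_of_neg_of_neg (show s < (0:ℝ) from hs) hcon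
    linarith [h s x]

lemma Curve.deriv_N (h : Curve W s c z) (τ : ℝ) :
    HasDerivAt (fun τ => ‖z τ‖ ^ 2) (2 * (c τ * ⟪z τ, W (s τ, z τ)⟫_ℝ)) τ := by
  have := (h.dz τ).norm_sq
  simpa [real_inner_smul_right] using this

/-- forward bound -/
lemma Curve.forward (h : Curve W s c z) {C k : ℝ} (hC : 0 ≤ C) (hk : 0 < k) (hk1 : k ≤ 1)
    (hW : Radial W)
    (hloc : ∀ s' x, |s'| * ‖x‖ ≤ |s 0| * ‖z 0‖ →
      |⟪x, W (s', x)⟫_ℝ| ≤ C * ‖x‖ ^ 3 ∧ k * ‖x‖ ^ 2 ≤ ‖x‖ ^ 2 + s' * ⟪x, W (s', x)⟫_ℝ)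
    {τ : ℝ} (hτ : 0 ≤ τ) :
    √(‖z τ‖ ^ 2 + 1) ≤ √(‖z 0‖ ^ 2 + 1) * Real.exp (C / k * (|s 0| * √(‖z 0‖ ^ 2 + 1))) := by
  set n : ℝ → ℝ := fun τ => √(‖z τ‖ ^ 2 + 1) with hn
  have hpos : ∀ τ, 0 < ‖z τ‖ ^ 2 + 1 := fun τ => by positivity
  have hn0 : ∀ τ, 0 < n τ := fun τ => Real.sqrt_pos.2 (hpos τ)
  have hn2 : ∀ τ, n τ ^ 2 = ‖z τ‖ ^ 2 + 1 := fun τ => Real.sq_sqrt (hpos τ).le
  have hzn : ∀ τ, ‖z τ‖ ≤ n τ := fun τ => Real.le_sqrt_of_sq_le (by linarith)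
  have hdn : ∀ τ, HasDerivAt n (c τ * ⟪z τ, W (s τ, z τ)⟫_ℝ / n τ) τ := by
    intro τ
    have h1 := ((h.deriv_N τ).add_const (1 : ℝ)).sqrt (hpos τ).ne'
    refine h1.congr_deriv ?_
    have h2 : √(‖z τ‖ ^ 2 + 1) = n τ := rfl
    rw [h2]
    have := hn0 τ
    field_simp
  -- the region `s ≥ 0`
  have hA : ∀ a b, a ≤ b → 0 ≤ s a → n b ≤ n a := by
    intro a b hab hsa
    have hanti : AntitoneOn n (Icc a b) := by
      refine antitoneOn_of_deriv_nonpos (convex_Icc a b)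
        (fun x _ => (hdn x).continuousAt.continuousWithinAt)
        (fun x _ => (hdn x).differentiableAt.differentiableWithinAt) (fun x hx => ?_)
      rw [interior_Icc] at hx
      rw [(hdn x).deriv]
      have hsx : 0 ≤ s x := hsa.trans (h.mono_s hx.1.le)
      refine div_nonpos_of_nonpos_of_nonneg ?_ (hn0 x).le
      rcases hsx.eq_or_lt with h0 | h0
      · rw [← h0, hW.zero, mul_zero]
      · have := hW.sgn (s x) (z x)
        have h3 : ⟪z x, W (s x, z x)⟫_ℝ ≤ 0 := by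
          by_contra hle
          push Not at hle
          have := mul_pos h0 hle
          linarith
        exact mul_nonpos_of_nonneg_of_nonpos (h.c0 x) h3
    exact hanti ⟨le_rfl, hab⟩ ⟨hab, le_rfl⟩ hab
  -- the region `s ≤ 0`
  have hB : ∀ b, 0 ≤ b → s b ≤ 0 → n b ≤ n 0 * Real.exp (C / k * (|s 0| * n 0)) := by
    intro b hb hsb
    have hs0 : ∀ x, x ≤ b → s x ≤ 0 := fun x hx => (h.mono_s hx).trans hsb
    -- `|s| ‖z‖` decreases
    have hm : AntitoneOn (fun τ => s τ ^ 2 * ‖z τ‖ ^ 2) (Icc 0 b) := by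
      have hd : ∀ x, HasDerivAt (fun τ => s τ ^ 2 * ‖z τ‖ ^ 2)
          (2 * s x * c x * (‖z x‖ ^ 2 + s x * ⟪z x, W (s x, z x)⟫_ℝ)) x := by
        intro x
        have := ((h.ds x).fun_pow 2).fun_mul (h.deriv_N x)
        refine this.congr_deriv ?_
        push_cast
        ring
      refine antitoneOn_of_deriv_nonpos (convex_Icc 0 b)
        (fun x _ => (hd x).continuousAt.continuousWithinAt)
        (fun x _ => (hd x).differentiableAt.differentiableWithinAt) (fun x hx => ?_)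
      rw [interior_Icc] at hx
      rw [(hd x).deriv]
      have h1 := hW.nonneg (s x) (z x)
      have h2 : 2 * s x * c x ≤ 0 := by
        have := mul_nonpos_of_nonpos_of_nonneg (hs0 x hx.2.le) (h.c0 x)
        linarith
      exact mul_nonpos_of_nonpos_of_nonneg h2 h1
    have hρ : ∀ x ∈ Icc 0 b, |s x| * ‖z x‖ ≤ |s 0| * ‖z 0‖ := by
      intro x hx
      have h1 := hm ⟨le_rfl, hb⟩ hx hx.1
      simp only at h1
      refine (pow_le_pow_iff_left₀ (by positivity) (by positivity) (two_ne_zero)).1 ?_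
      rw [mul_pow, mul_pow, sq_abs, sq_abs]
      exact h1
    have hd : ∀ x, HasDerivAt (fun τ => Real.log (n τ) + C / k * (-s τ * n τ))
        (c x * ⟪z x, W (s x, z x)⟫_ℝ / n x / n x +
          C / k * (-c x * n x + -s x * (c x * ⟪z x, W (s x, z x)⟫_ℝ / n x))) x := by
      intro x
      exact ((hdn x).log (hn0 x).ne').fun_add
        ((((h.ds x).fun_neg).fun_mul (hdn x)).const_mul (C / k))
    have hL : AntitoneOn (fun τ => Real.log (n τ) + C / k * (-s τ * n τ)) (Icc 0 b) := by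
      refine antitoneOn_of_deriv_nonpos (convex_Icc 0 b)
        (fun x _ => (hd x).continuousAt.continuousWithinAt)
        (fun x _ => (hd x).differentiableAt.differentiableWithinAt) (fun x hx => ?_)
      rw [interior_Icc] at hx
      rw [(hd x).deriv]
      obtain ⟨h1, h2⟩ := hloc (s x) (z x) (hρ x ⟨hx.1.le, hx.2.le⟩)
      set q := ⟪z x, W (s x, z x)⟫_ℝ with hq
      have hnx := hn0 x
      have hzx := hzn x
      have hz0 := norm_nonneg (z x)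
      have hcx := h.c0 x
      -- `q ≤ C n^3`, `- s q ≤ (1-k) n^2`
      have h3 : q ≤ C * n x ^ 3 := by
        refine (le_abs_self q).trans (h1.trans ?_)
        exact mul_le_mul_of_nonneg_left (pow_le_pow_left₀ hz0 hzx 3) hC
      have hCk : 0 ≤ C / k := div_nonneg hC hk.le
      have h4 : -s x * q ≤ (1 - k) * n x ^ 2 := by
        have h5 : -s x * q ≤ (1 - k) * ‖z x‖ ^ 2 := by linarith
        exact h5.trans (mul_le_mul_of_nonneg_left (pow_le_pow_left₀ hz0 hzx 2) (by linarith))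
      have e : c x * q / n x / n x + C / k * (-c x * n x + -s x * (c x * q / n x)) =
          c x * (q / n x ^ 2 + C / k * (-n x + (-s x * q) / n x)) := by
        field_simp
      rw [e]
      refine mul_nonpos_of_nonneg_of_nonpos hcx ?_
      have h5 : q / n x ^ 2 ≤ C * n x := by
        rw [div_le_iff₀ (by positivity)]
        calc q ≤ C * n x ^ 3 := h3
          _ = C * n x * n x ^ 2 := by ring
      have h6 : (-s x * q) / n x ≤ (1 - k) * n x := by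
        rw [div_le_iff₀ hnx]
        calc -s x * q ≤ (1 - k) * n x ^ 2 := h4
          _ = (1 - k) * n x * n x := by ring
      have h7 : C / k * (-n x + (-s x * q) / n x) ≤ C / k * (-(k * n x)) := by
        refine mul_le_mul_of_nonneg_left ?_ hCk
        linarith
      have h8 : C / k * (-(k * n x)) = -(C * n x) := by field_simp
      linarith
    have h1 := hL ⟨le_rfl, hb⟩ ⟨hb, le_rfl⟩ hb
    simp only at h1
    have h2 : 0 ≤ C / k * (-s b * n b) := by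
      have : 0 ≤ -s b := by linarith
      have := (hn0 b).le
      positivity
    have h3 : Real.log (n b) ≤ Real.log (n 0) + C / k * (-s 0 * n 0) := by linarith
    have h4 : |s 0| = -s 0 := abs_of_nonpos (hs0 0 hb)
    rw [h4, ← Real.log_le_log_iff (hn0 b) (by have := hn0 0; positivity),
      Real.log_mul (hn0 0).ne' (Real.exp_pos _).ne', Real.log_exp]
    exact h3
  rcases le_total (s τ) 0 with h1 | h1
  · exact hB τ hτ h1
  rcases le_total 0 (s 0) with h2 | h2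
  · refine (hA 0 τ hτ h2).trans ?_
    have h3 : 1 ≤ Real.exp (C / k * (|s 0| * n 0)) := by
      rw [Real.one_le_exp_iff]
      have := (hn0 0).le
      positivity
    have := (hn0 0).le
    nlinarith
  · have hsc : Continuous s := continuous_iff_continuousAt.2 fun t => (h.ds t).continuousAt
    obtain ⟨τ₁, h3, h4⟩ := intermediate_value_Icc hτ hsc.continuousOn ⟨h2, h1⟩
    exact (hA τ₁ τ h3.2 h4.ge).trans (hB τ₁ h3.1 h4.le)

lemma Curve.forward_bound (h : Curve W s c z) (hW : Radial W) {R C k : ℝ} (hC : 0 ≤ C)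
    (hk : 0 < k) (hk1 : k ≤ 1)
    (hloc : ∀ s' x, |s'| * ‖x‖ ≤ R * R →
      |⟪x, W (s', x)⟫_ℝ| ≤ C * ‖x‖ ^ 3 ∧ k * ‖x‖ ^ 2 ≤ ‖x‖ ^ 2 + s' * ⟪x, W (s', x)⟫_ℝ)
    (hR : 0 ≤ R) (h1 : |s 0| ≤ R) (h2 : ‖z 0‖ ≤ R)
    {τ : ℝ} (hτ : 0 ≤ τ) :
    ‖z τ‖ ≤ √(R ^ 2 + 1) * Real.exp (C / k * (R * √(R ^ 2 + 1))) := by
  have h3 := h.forward hC hk hk1 hW (fun s' x hs' => hloc s' x (hs'.trans
    (mul_le_mul h1 h2 (norm_nonneg _) hR))) hτ
  have h4 : ‖z τ‖ ≤ √(‖z τ‖ ^ 2 + 1) := Real.le_sqrt_of_sq_le (by linarith)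
  have h5 : √(‖z 0‖ ^ 2 + 1) ≤ √(R ^ 2 + 1) := by
    apply Real.sqrt_le_sqrt
    have := pow_le_pow_left₀ (norm_nonneg (z 0)) h2 2
    linarith
  have h6 : 0 ≤ √(‖z 0‖ ^ 2 + 1) := Real.sqrt_nonneg _
  have h7 : 0 ≤ √(R ^ 2 + 1) := Real.sqrt_nonneg _
  have h8 : 0 ≤ C / k := div_nonneg hC hk.le
  refine (h4.trans h3).trans ?_
  refine mul_le_mul h5 (Real.exp_le_exp.2 ?_) (Real.exp_pos _).le h7
  exact mul_le_mul_of_nonneg_left (mul_le_mul h1 h5 h6 hR) h8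

/-- the radial structure gives a priori bounds -/
theorem bound_of_radial (hW : Radial W) : ∀ R T : ℝ, ∃ B : ℝ, ∀ (χ : ℝ × E → ℝ),
      (∀ p, 0 ≤ χ p ∧ χ p ≤ 1) → ∀ γ : ℝ → ℝ × E,
      (∀ τ, HasDerivAt γ (χ (γ τ) • tField W (γ τ)) τ) → ‖γ 0‖ ≤ R → ∀ τ, |τ| ≤ T → ‖γ τ‖ ≤ B := by
  intro R T
  obtain ⟨C, k, hC, hk, hk1, hloc⟩ := hW.loc (R * R)
  obtain ⟨C', k', hC', hk', hk1', hloc'⟩ := hW.reverse.loc (R * R)
  refine ⟨max (R + T) (max (√(R ^ 2 + 1) * Real.exp (C / k * (R * √(R ^ 2 + 1))))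
    (√(R ^ 2 + 1) * Real.exp (C' / k' * (R * √(R ^ 2 + 1))))), ?_⟩
  intro χ hχ γ hγ h0 τ hτ
  have hc := Curve.of_gamma hχ hγ
  have hT : 0 ≤ T := (abs_nonneg _).trans hτ
  have hR : 0 ≤ R := (norm_nonneg _).trans h0
  have h0s : |(γ 0).1| ≤ R := (norm_fst_le (γ 0)).trans h0
  have h0z : ‖(γ 0).2‖ ≤ R := (norm_snd_le (γ 0)).trans h0
  have h3 : |(γ τ).1| ≤ |(γ 0).1| + |τ| := hc.abs_s τ
  rw [Prod.norm_def]
  refine max_le_max ?_ ?_
  · rw [Real.norm_eq_abs]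
    linarith
  · rcases le_total 0 τ with h | h
    · refine le_trans ?_ (le_max_left _ _)
      exact hc.forward_bound hW hC hk hk1 hloc hR h0s h0z h
    · refine le_trans ?_ (le_max_right _ _)
      have h5 := hc.reverse.forward_bound hW.reverse hC' hk' hk1' hloc' hR
        (by simpa using h0s) (by simpa using h0z) (τ := -τ) (by linarith)
      simpa using h5

end radial

end Pool.Agent.V11198
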