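import Mathlib
import Pool.Agent.V11198.Bound

/-! Moser's method for exact paths. -/

set_option maxSynthPendingDepth 3

open scoped ContDiff Topology InnerProductSpace
open Set Filter

noncomputable section

namespace Pool.Agent.V11198

section

variable {E : Type} [NormedAddCommGroup E] [NormedSpace ℝ E]

/-- alternation of the space part -/
def altL (E : Type) [NormedAddCommGroup E] [NormedSpace ℝ E] :
    (ℝ × E →L[ℝ] E →L[ℝ] ℝ) →L[ℝ] (E →L[ℝ] E →L[ℝ] ℝ) :=
  let P : (ℝ × E →L[ℝ] E →L[ℝ] ℝ) →L[ℝ] (E →L[ℝ] E →L[ℝ] ℝ) :=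
    (ContinuousLinearMap.compL ℝ E (ℝ × E) (E →L[ℝ] ℝ)).flip (ContinuousLinearMap.inr ℝ ℝ E)
  P - (ContinuousLinearMap.flipₗᵢ ℝ E E ℝ).toContinuousLinearEquiv.toContinuousLinearMap.comp P

lemma altL_apply (B : ℝ × E →L[ℝ] E →L[ℝ] ℝ) (u v : E) :
    altL E B u v = B (0, u) v - B (0, v) u := rfl

/-- exterior derivative in the space variable -/
def dX (A : ℝ × E → E →L[ℝ] ℝ) (p : ℝ × E) : E →L[ℝ] E →L[ℝ] ℝ := altL E (fderiv ℝ A p)

lemma dX_apply (A : ℝ × E → E →L[ℝ] ℝ) (p : ℝ × E) (u v : E) :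
    dX A p u v = fderiv ℝ A p (0, u) v - fderiv ℝ A p (0, v) u := rfl

variable {A : ℝ × E → E →L[ℝ] ℝ}

lemma contDiff_dX (hA : ContDiff ℝ ∞ A) : ContDiff ℝ ∞ (dX A) :=
  (altL E).contDiff.comp (hA.fderiv_right (m := ∞) (by simp))

lemma fderiv_dX (hA : ContDiff ℝ ∞ A) (p q : ℝ × E) (u v : E) :
    fderiv ℝ (dX A) p q u v =
      fderiv ℝ (fderiv ℝ A) p q (0, u) v - fderiv ℝ (fderiv ℝ A) p q (0, v) u := by
  have h1 : Differentiable ℝ (fderiv ℝ A) :=
    (hA.fderiv_right (m := ∞) (by simp)).differentiable (by simp)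
  have h2 : HasFDerivAt (dX A) ((altL E).comp (fderiv ℝ (fderiv ℝ A) p)) p :=
    (altL E).hasFDerivAt.comp p (h1 p).hasFDerivAt
  rw [h2.fderiv]
  rfl

lemma symm2 (hA : ContDiff ℝ ∞ A) (p q r : ℝ × E) :
    fderiv ℝ (fderiv ℝ A) p q r = fderiv ℝ (fderiv ℝ A) p r q := by
  have hR2 : ContDiff ℝ 2 A := hA.of_le (by
    have : (2 : WithTop ℕ∞) = ((2 : ℕ∞) : WithTop ℕ∞) := rfl
    rw [this]
    exact WithTop.coe_le_coe.2 le_top)
  exact ((hR2.contDiffAt (x := p)).isSymmSndFDerivAt (by simp)).eq _ _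

/-- the Moser identity -/
lemma moser_identity (hA : ContDiff ℝ ∞ A) {W : ℝ × E → E} (hW : ContDiff ℝ ∞ W)
    (hι : ∀ p v, dX A p (W p) v = -fderiv ℝ A p (1, 0) v) (p : ℝ × E) (u v : E) :
    fderiv ℝ (dX A) p (1, W p) u v + dX A p (fderiv ℝ W p (0, u)) v +
      dX A p u (fderiv ℝ W p (0, v)) = 0 := by
  have h1 : Differentiable ℝ (fderiv ℝ A) :=
    (hA.fderiv_right (m := ∞) (by simp)).differentiable (by simp)
  have hdW : Differentiable ℝ W := hW.differentiable (by simp)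
  have hdd : Differentiable ℝ (dX A) := (contDiff_dX hA).differentiable (by simp)
  have key : ∀ a b : E, fderiv ℝ (dX A) p (0, a) (W p) b + dX A p (fderiv ℝ W p (0, a)) b =
      -fderiv ℝ (fderiv ℝ A) p (0, a) (1, 0) b := by
    intro a b
    have e1 : HasFDerivAt (fun p => dX A p (W p) b) (((dX A p).comp (fderiv ℝ W p) +
        (fderiv ℝ (dX A) p).flip (W p)).flip b) p := by
      have := ((hdd p).hasFDerivAt.clm_apply (hdW p).hasFDerivAt).clm_apply (hasFDerivAt_const b p)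
      simpa using this
    have e2 : HasFDerivAt (fun p => -fderiv ℝ A p (1, 0) b)
        (-((fderiv ℝ (fderiv ℝ A) p).flip (1, 0)).flip b) p := by
      have := (((h1 p).hasFDerivAt.clm_apply (hasFDerivAt_const ((1 : ℝ), (0 : E)) p)).clm_apply
        (hasFDerivAt_const b p)).fun_neg
      simpa using this
    have e3 : (fun p => dX A p (W p) b) = fun p => -fderiv ℝ A p (1, 0) b :=
      funext fun p => hι p b
    rw [e3] at e1
    have e4 := DFunLike.congr_fun (e1.unique e2) ((0, a) : ℝ × E)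
    simp only [ContinuousLinearMap.flip_apply, add_apply, neg_apply,
      ContinuousLinearMap.comp_apply] at e4
    linarith
  have k1 := key u v
  have k2 := key v u
  have anti : ∀ a b, dX A p a b = -dX A p b a := fun a b => by rw [dX_apply, dX_apply]; ring
  rw [anti u (fderiv ℝ W p (0, v))]
  have e1 : ((1 : ℝ), W p) = ((1 : ℝ), (0 : E)) + ((0 : ℝ), W p) := by simp
  have e2 : fderiv ℝ (dX A) p (1, W p) u v =
      fderiv ℝ (dX A) p (1, 0) u v + fderiv ℝ (dX A) p (0, W p) u v := by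
    rw [e1, map_add]; rfl
  rw [e2]
  simp only [fderiv_dX hA] at k1 k2 ⊢
  rw [symm2 hA p (1, 0) (0, u), symm2 hA p (1, 0) (0, v), symm2 hA p (0, W p) (0, u),
    symm2 hA p (0, W p) (0, v)]
  rw [symm2 hA p (0, u) (0, v)] at k1
  linarith

end

section sharp

variable {E P : Type} [NormedAddCommGroup E] [NormedSpace ℝ E] [FiniteDimensional ℝ E]
  [NormedAddCommGroup P] [NormedSpace ℝ P]

/-- smooth solution of a nondegenerate linear system -/
lemma exists_sharp {Ω : P → E →L[ℝ] E →L[ℝ] ℝ} (hΩ : ContDiff ℝ ∞ Ω)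
    (hnd : ∀ p v, (∀ w, Ω p v w = 0) → v = 0) {β : P → E →L[ℝ] ℝ} (hβ : ContDiff ℝ ∞ β) :
    ∃ W : P → E, ContDiff ℝ ∞ W ∧ ∀ p v, Ω p (W p) v = β p v := by
  have hfin : Module.finrank ℝ E = Module.finrank ℝ (E →L[ℝ] ℝ) := by
    rw [← (LinearMap.toContinuousLinearMap (𝕜 := ℝ) (E := E) (F' := ℝ)).finrank_eq,
      Subspace.dual_finrank_eq]
  have hinj : ∀ p, Function.Injective (Ω p) := fun p => by
    rw [injective_iff_map_eq_zero]
    intro v hv
    exact hnd p v (fun w => by rw [hv]; rfl)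
  let e : ∀ p, E ≃L[ℝ] (E →L[ℝ] ℝ) := fun p =>
    (LinearEquiv.ofInjectiveOfFinrankEq (Ω p : E →ₗ[ℝ] (E →L[ℝ] ℝ)) (hinj p)
      hfin).toContinuousLinearEquiv
  have he : ∀ p, (e p : E →L[ℝ] (E →L[ℝ] ℝ)) = Ω p := fun p => by
    ext v w
    rfl
  refine ⟨fun p => (Ω p).inverse (β p), ?_, ?_⟩
  · rw [contDiff_iff_contDiffAt]
    intro p
    have h0 : ContDiffAt ℝ ∞ (ContinuousLinearMap.inverse : (E →L[ℝ] (E →L[ℝ] ℝ)) → _) (Ω p) := by
      rw [← he p]
      exact contDiffAt_map_inverse (e p)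
    have h1 : ContDiffAt ℝ ∞ (fun p => (Ω p).inverse) p := h0.comp p hΩ.contDiffAt
    exact h1.clm_apply hβ.contDiffAt
  · intro p v
    have h1 : (Ω p).inverse = ((e p).symm : (E →L[ℝ] ℝ) →L[ℝ] E) := by
      rw [← he p, ContinuousLinearMap.inverse_equiv]
    simp only [h1]
    have h2 : Ω p ((e p).symm (β p)) = β p := by
      rw [← he p]
      exact (e p).apply_symm_apply (β p)
    rw [show ((e p).symm : (E →L[ℝ] ℝ) →L[ℝ] E) (β p) = (e p).symm (β p) from rfl, h2]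

end sharp

end Pool.Agent.V11198
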