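import Mathlib
import Pool.Agent.V11198.ExactM
import Pool.Agent.Helper186.ParamInt

/-! The Poincaré lemma for closed two-forms, with the radial primitive. -/

set_option maxSynthPendingDepth 3

open scoped ContDiff Topology InnerProductSpace
open Set Filter MeasureTheory

noncomputable section

namespace Pool.Agent.V11198

variable {E : Type} [NormedAddCommGroup E] [NormedSpace ℝ E]

/-- a smooth closed two-form on a vector space -/
structure CForm (σ : E → E →L[ℝ] E →L[ℝ] ℝ) : Prop where
  smooth : ContDiff ℝ ∞ σ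
  anti : ∀ x u v, σ x u v = -σ x v u
  closed : ∀ x u v w, fderiv ℝ σ x u v w + fderiv ℝ σ x v w u + fderiv ℝ σ x w u v = 0

variable {σ : E → E →L[ℝ] E →L[ℝ] ℝ}

lemma CForm.diff (h : CForm σ) : Differentiable ℝ σ := h.smooth.differentiable (by simp)

lemma fderiv_form_apply {σ : E → E →L[ℝ] E →L[ℝ] ℝ} {x : E} (h : DifferentiableAt ℝ σ x)
    (a u v : E) : fderiv ℝ (fun x => σ x u v) x a = fderiv ℝ σ x a u v := by
  have h1 := (h.hasFDerivAt.clm_apply (hasFDerivAt_const u x)).clm_apply (hasFDerivAt_const v x)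
  rw [h1.fderiv]
  simp

lemma CForm.danti (h : CForm σ) (x a u v : E) :
    fderiv ℝ σ x a u v = -fderiv ℝ σ x a v u := by
  rw [← fderiv_form_apply (h.diff x), ← fderiv_form_apply (h.diff x)]
  have : (fun x => σ x u v) = fun x => -σ x v u := funext fun x => h.anti x u v
  rw [this, fderiv_fun_neg]
  rfl

lemma CForm.radial (h : CForm σ) (x y u v : E) :
    fderiv ℝ σ x u y v - fderiv ℝ σ x v y u = fderiv ℝ σ x y u v := by
  have h1 := h.closed x y u v
  rw [h.danti x u v y] at h1
  linarith

/-- derivative along rays -/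
lemma CForm.hasDerivAt_ray (h : CForm σ) (x u v : E) (s : ℝ) :
    HasDerivAt (fun s : ℝ => σ (s • x) u v) (fderiv ℝ σ (s • x) x u v) s := by
  have h0 : HasDerivAt (fun s : ℝ => s • x) x s := by
    simpa using (hasDerivAt_id s).smul_const x
  have h1 : HasDerivAt (fun s : ℝ => σ (s • x)) (fderiv ℝ σ (s • x) x) s :=
    (h.diff (s • x)).hasFDerivAt.comp_hasDerivAt s h0
  have h2 := (h1.clm_apply (hasDerivAt_const s u)).clm_apply (hasDerivAt_const s v)
  simpa using h2

/-- the primitive `x ↦ σ x x` -/
lemma CForm.hasFDerivAt_scaled (h : CForm σ) (s : ℝ) (x : E) :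
    HasFDerivAt (fun y : E => σ (s • y) y)
      ((σ (s • x)) + ((fderiv ℝ σ (s • x)).comp (s • ContinuousLinearMap.id ℝ E)).flip x) x := by
  have h0 : HasFDerivAt (fun y : E => s • y) (s • ContinuousLinearMap.id ℝ E) x :=
    (hasFDerivAt_id x).const_smul s
  have h1 : HasFDerivAt (fun y : E => σ (s • y))
      ((fderiv ℝ σ (s • x)).comp (s • ContinuousLinearMap.id ℝ E)) x :=
    (h.diff (s • x)).hasFDerivAt.comp x h0
  have h2 := h1.clm_apply (hasFDerivAt_id x)
  simpa using h2

lemma CForm.fderiv_scaled (h : CForm σ) (s : ℝ) (x u w : E) :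
    fderiv ℝ (fun y : E => σ (s • y) y) x u w = σ (s • x) u w + s * fderiv ℝ σ (s • x) u x w := by
  rw [(h.hasFDerivAt_scaled s x).fderiv]
  simp

section integral

variable [FiniteDimensional ℝ E]

/-- **Poincaré lemma** with the radial primitive. -/
lemma CForm.poincare (h : CForm σ) : ∃ α : E → E →L[ℝ] ℝ, ContDiff ℝ ∞ α ∧
    (∀ x w, α x w = ∫ s in (0 : ℝ)..1, s * σ (s • x) x w) ∧
    ∀ x u v, fderiv ℝ α x u v - fderiv ℝ α x v u = σ x u v := by
  have hsm : ContDiff ℝ ∞ (fun q : ℝ × E => σ (q.1 • q.2)) := h.smooth.comp (by fun_prop)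
  have hk : ∀ w, ContDiff ℝ ∞ (fun q : ℝ × E => q.1 * σ (q.1 • q.2) q.2 w) := fun w =>
    contDiff_fst.mul ((hsm.clm_apply contDiff_snd).clm_apply contDiff_const)
  have hint : ∀ x : E, IntervalIntegrable (fun s : ℝ => s • σ (s • x) x) volume 0 1 := by
    intro x
    apply Continuous.intervalIntegrable
    have : Continuous (fun s : ℝ => σ (s • x)) := h.smooth.continuous.comp (by fun_prop)
    exact continuous_id.smul (this.clm_apply continuous_const)
  set α : E → E →L[ℝ] ℝ := fun x => ∫ s in (0 : ℝ)..1, s • σ (s • x) x with hα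
  have hαw : ∀ x w, α x w = ∫ s in (0 : ℝ)..1, s * σ (s • x) x w := by
    intro x w
    rw [hα]
    simp only
    rw [ContinuousLinearMap.intervalIntegral_apply (hint x)]
    rfl
  have hαs : ContDiff ℝ ∞ α := by
    rw [contDiff_clm_apply_iff]
    intro w
    have h1 := Pool.Agent.Helper186.contDiffOn_paramInt (U := (univ : Set E)) isOpen_univ 1
      (k := fun q : ℝ × E => q.1 * σ (q.1 • q.2) q.2 w) (hk w).contDiffOn
    rw [contDiffOn_univ] at h1
    have : (fun x => α x w) = fun y => ∫ s in (0 : ℝ)..1, s * σ (s • y) y w :=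
      funext fun x => hαw x w
    rw [this]
    exact h1
  refine ⟨α, hαs, hαw, ?_⟩
  -- the derivative
  have hd : ∀ x u w, fderiv ℝ α x u w =
      ∫ s in (0 : ℝ)..1, s * (σ (s • x) u w + s * fderiv ℝ σ (s • x) u x w) := by
    intro x u w
    have h1 : HasFDerivAt (fun x => α x w) ((fderiv ℝ α x).flip w) x := by
      have := (hαs.differentiable (by simp) x).hasFDerivAt.clm_apply (hasFDerivAt_const w x)
      simpa using this
    have h2 := Pool.Agent.Helper186.hasFDerivAt_paramInt (U := (univ : Set E)) isOpen_univ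
      (k := fun q : ℝ × E => q.1 * σ (q.1 • q.2) q.2 w)
      (((hk w).of_le (by simp)).contDiffOn) 1 (mem_univ x)
    have h3 : (fun x => α x w) = fun y => ∫ s in (0 : ℝ)..1, s * σ (s • y) y w :=
      funext fun x => hαw x w
    rw [h3] at h1
    have h4 := DFunLike.congr_fun (h1.unique h2) u
    have hF : ∀ s : ℝ, (fderiv ℝ (fun q : ℝ × E => q.1 * σ (q.1 • q.2) q.2 w) (s, x)).comp
        (ContinuousLinearMap.inr ℝ ℝ E) u = s * (σ (s • x) u w + s * fderiv ℝ σ (s • x) u x w) := by
      intro s
      have e1 : HasFDerivAt (fun y : E => s * σ (s • y) y w)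
          ((fderiv ℝ (fun q : ℝ × E => q.1 * σ (q.1 • q.2) q.2 w) (s, x)).comp
          (ContinuousLinearMap.inr ℝ ℝ E)) x := by
        have := ((hk w).differentiable (by simp) (s, x)).hasFDerivAt.comp x
          (hasFDerivAt_prodMk_right s x)
        exact this
      have e2 : HasFDerivAt (fun y : E => s * σ (s • y) y w)
          (s • (((σ (s • x)) + ((fderiv ℝ σ (s • x)).comp
            (s • ContinuousLinearMap.id ℝ E)).flip x).flip w)) x := by
        have := ((h.hasFDerivAt_scaled s x).clm_apply (hasFDerivAt_const w x)).const_mul s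
        simpa using this
      have e3 := DFunLike.congr_fun (e1.unique e2) u
      rw [e3]
      simp
      ring
    have hcontF : Continuous (fun s : ℝ => (fderiv ℝ (fun q : ℝ × E =>
        q.1 * σ (q.1 • q.2) q.2 w) (s, x)).comp (ContinuousLinearMap.inr ℝ ℝ E)) := by
      have e1 : Continuous (fderiv ℝ (fun q : ℝ × E => q.1 * σ (q.1 • q.2) q.2 w)) :=
        (hk w).continuous_fderiv (by simp)
      have e2 : Continuous (fun s : ℝ => (fderiv ℝ (fun q : ℝ × E =>
        q.1 * σ (q.1 • q.2) q.2 w) (s, x))) := e1.comp (by fun_prop)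
      exact e2.clm_comp continuous_const
    rw [ContinuousLinearMap.intervalIntegral_apply (hcontF.intervalIntegrable _ _)] at h4
    rw [ContinuousLinearMap.flip_apply] at h4
    rw [h4]
    exact intervalIntegral.integral_congr (fun s _ => hF s)
  intro x u v
  rw [hd, hd]
  have hc : ∀ a b : E, Continuous (fun s : ℝ =>
      s * (σ (s • x) a b + s * fderiv ℝ σ (s • x) a x b)) := by
    intro a b
    have h1 : Continuous (fun s : ℝ => σ (s • x)) := h.smooth.continuous.comp (by fun_prop)
    have h2 : Continuous (fun s : ℝ => fderiv ℝ σ (s • x)) :=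
      (h.smooth.continuous_fderiv (by simp)).comp (by fun_prop)
    have h3 := (h1.clm_apply (continuous_const (y := a))).clm_apply (continuous_const (y := b))
    have h4 := ((h2.clm_apply (continuous_const (y := a))).clm_apply
      (continuous_const (y := x))).clm_apply (continuous_const (y := b))
    exact continuous_id.mul (h3.add (continuous_id.mul h4))
  rw [← intervalIntegral.integral_sub ((hc u v).intervalIntegrable _ _)
    ((hc v u).intervalIntegrable _ _)]
  have hder : ∀ s : ℝ, HasDerivAt (fun s : ℝ => s ^ 2 * σ (s • x) u v)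
      (s * (σ (s • x) u v + s * fderiv ℝ σ (s • x) u x v) -
        s * (σ (s • x) v u + s * fderiv ℝ σ (s • x) v x u)) s := by
    intro s
    have h1 := (hasDerivAt_pow 2 s).fun_mul (h.hasDerivAt_ray x u v s)
    refine h1.congr_deriv ?_
    have h2 := h.radial (s • x) x u v
    have h3 := h.anti (s • x) v u
    rw [h3]
    simp only [Nat.cast_ofNat, pow_one, Nat.add_one_sub_one]
    rw [← h2]
    ring
  rw [intervalIntegral.integral_eq_sub_of_hasDerivAt (fun s _ => hder s)
    (((hc u v).sub (hc v u)).intervalIntegrable _ _)]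
  simp

end integral

end Pool.Agent.V11198
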