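import Mathlib
import Pool.Agent.V11198.Defs
import Pool.Agent.V11198.Poinc

/-! Pulling back fields of bilinear forms. -/

set_option maxSynthPendingDepth 3

open scoped ContDiff Topology Manifold
open Set Filter

noncomputable section

namespace Pool.Agent.V11198

variable {E : Type*} [NormedAddCommGroup E] [NormedSpace ℝ E]
  {M : Type*} [TopologicalSpace M] [ChartedSpace E M] [IsManifold 𝓘(ℝ, E) ∞ M]

/-! ### charts -/

lemma dInv_left {q : M} {y : E} (hy : y ∈ (extChartAt 𝓘(ℝ, E) q).target)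
    (v : TangentSpace 𝓘(ℝ, E) ((extChartAt 𝓘(ℝ, E) q).symm y)) :
    dInv q y (mfderiv 𝓘(ℝ, E) 𝓘(ℝ, E) (extChartAt 𝓘(ℝ, E) q)
      ((extChartAt 𝓘(ℝ, E) q).symm y) v) = v := by
  have h := mfderivWithin_extChartAt_symm_comp_mfderiv_extChartAt (I := 𝓘(ℝ, E)) hy
  rw [ModelWithCorners.range_eq_univ, mfderivWithin_univ] at h
  exact DFunLike.congr_fun h v

lemma dInv_right {q : M} {y : E} (hy : y ∈ (extChartAt 𝓘(ℝ, E) q).target) (v : E) :
    mfderiv 𝓘(ℝ, E) 𝓘(ℝ, E) (extChartAt 𝓘(ℝ, E) q)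
      ((extChartAt 𝓘(ℝ, E) q).symm y) (dInv q y v) = v := by
  have h := mfderiv_extChartAt_comp_mfderivWithin_extChartAt_symm (I := 𝓘(ℝ, E)) hy
  rw [ModelWithCorners.range_eq_univ, mfderivWithin_univ] at h
  exact DFunLike.congr_fun h v

lemma inChart_gMetric (ω₂ : BField E M) (J : EndField E M) {q : M} {y : E}
    (hy : y ∈ (extChartAt 𝓘(ℝ, E) q).target) (u v : E) :
    inChart (gMetric ω₂ J) q y u v = inChart ω₂ q y u (endInChart J q y v) := by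
  rw [inChart_apply, inChart_apply, gMetric_apply]
  congr 1
  exact (dInv_left hy _).symm

/-! ### pull back -/

variable {V : Type*} [NormedAddCommGroup V] [NormedSpace ℝ V]

/-- the pull back of a field of bilinear forms -/
def pull (e : V → M) (B : BField E M) (x : V) : V →L[ℝ] V →L[ℝ] ℝ :=
  (ContinuousLinearMap.precomp ℝ (mfderiv 𝓘(ℝ, V) 𝓘(ℝ, E) e x)).comp
    ((B (e x)).comp (mfderiv 𝓘(ℝ, V) 𝓘(ℝ, E) e x))

lemma pull_apply (e : V → M) (B : BField E M) (x u v : V) :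
    pull e B x u v = B (e x) (mfderiv 𝓘(ℝ, V) 𝓘(ℝ, E) e x u) (mfderiv 𝓘(ℝ, V) 𝓘(ℝ, E) e x v) :=
  rfl

variable {e : V → M}

lemma contDiffAt_chart (he : ContMDiff 𝓘(ℝ, V) 𝓘(ℝ, E) ∞ e) {q : M} {x : V}
    (hx : e x ∈ (chartAt E q).source) : ContDiffAt ℝ ∞ (extChartAt 𝓘(ℝ, E) q ∘ e) x := by
  rw [← contMDiffAt_iff_contDiffAt]
  exact (contMDiffAt_extChartAt' hx).comp x (he x)

lemma ev_source (he : ContMDiff 𝓘(ℝ, V) 𝓘(ℝ, E) ∞ e) {q : M} {x : V}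
    (hx : e x ∈ (chartAt E q).source) : ∀ᶠ x in 𝓝 x, e x ∈ (chartAt E q).source :=
  he.continuous.continuousAt.eventually ((chartAt E q).open_source.mem_nhds hx)

lemma mem_target {q : M} {x : M} (hx : x ∈ (chartAt E q).source) :
    extChartAt 𝓘(ℝ, E) q x ∈ (extChartAt 𝓘(ℝ, E) q).target :=
  (extChartAt 𝓘(ℝ, E) q).map_source (by rwa [extChartAt_source])

lemma symm_apply_chart {q : M} {x : M} (hx : x ∈ (chartAt E q).source) :
    (extChartAt 𝓘(ℝ, E) q).symm (extChartAt 𝓘(ℝ, E) q x) = x :=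
  (extChartAt 𝓘(ℝ, E) q).left_inv (by rwa [extChartAt_source])

lemma mfderiv_eq_dInv (he : ContMDiff 𝓘(ℝ, V) 𝓘(ℝ, E) ∞ e) {q : M} {x : V}
    (hx : e x ∈ (chartAt E q).source) (u : V) :
    (mfderiv 𝓘(ℝ, V) 𝓘(ℝ, E) e x u : E) = dInv q ((extChartAt 𝓘(ℝ, E) q ∘ e) x)
      (fderiv ℝ (extChartAt 𝓘(ℝ, E) q ∘ e) x u) := by
  have h1 : e =ᶠ[𝓝 x] (extChartAt 𝓘(ℝ, E) q).symm ∘ (extChartAt 𝓘(ℝ, E) q ∘ e) := by
    filter_upwards [ev_source he hx] with w hw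
    exact (symm_apply_chart hw).symm
  have h2 : MDifferentiableAt 𝓘(ℝ, E) 𝓘(ℝ, E) (extChartAt 𝓘(ℝ, E) q).symm
      ((extChartAt 𝓘(ℝ, E) q ∘ e) x) := by
    have h3 := (contMDiffOn_extChartAt_symm (I := 𝓘(ℝ, E)) (n := ∞) q).contMDiffAt
      ((isOpen_extChartAt_target q).mem_nhds (mem_target hx))
    exact h3.mdifferentiableAt (by simp)
  have h3 : MDifferentiableAt 𝓘(ℝ, V) 𝓘(ℝ, E) (extChartAt 𝓘(ℝ, E) q ∘ e) x :=
    ((contDiffAt_chart he hx).differentiableAt (by simp)).mdifferentiableAt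
  have h4 := mfderiv_comp x h2 h3
  have h5 := h1.mfderiv_eq (I := 𝓘(ℝ, V)) (I' := 𝓘(ℝ, E))
  rw [h5, h4, mfderiv_eq_fderiv]
  rfl

lemma pull_eq (he : ContMDiff 𝓘(ℝ, V) 𝓘(ℝ, E) ∞ e) (B : BField E M) {q : M} {x : V}
    (hx : e x ∈ (chartAt E q).source) (u v : V) :
    pull e B x u v = inChart B q ((extChartAt 𝓘(ℝ, E) q ∘ e) x)
      (fderiv ℝ (extChartAt 𝓘(ℝ, E) q ∘ e) x u) (fderiv ℝ (extChartAt 𝓘(ℝ, E) q ∘ e) x v) := by
  rw [pull_apply, inChart_apply]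
  have h1 := mfderiv_eq_dInv he hx u
  have h2 := mfderiv_eq_dInv he hx v
  have h3 : (extChartAt 𝓘(ℝ, E) q).symm ((extChartAt 𝓘(ℝ, E) q ∘ e) x) = e x :=
    symm_apply_chart hx
  have h4 : ∀ (x' : M), x' = e x → ∀ a b : E, (B x' : E →L[ℝ] E →L[ℝ] ℝ) a b =
      (B (e x) : E →L[ℝ] E →L[ℝ] ℝ) a b := by
    rintro _ rfl a b
    rfl
  have h5 := h4 _ h3 (mfderiv 𝓘(ℝ, V) 𝓘(ℝ, E) e x u) (mfderiv 𝓘(ℝ, V) 𝓘(ℝ, E) e x v)
  refine h5.symm.trans ?_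
  rw [h1, h2]

lemma contDiff_pull [FiniteDimensional ℝ V] (he : ContMDiff 𝓘(ℝ, V) 𝓘(ℝ, E) ∞ e) {B : BField E M}
    (hB : ∀ q, ContDiffOn ℝ ∞ (inChart B q) (extChartAt 𝓘(ℝ, E) q).target) :
    ContDiff ℝ ∞ (pull e B) := by
  rw [contDiff_clm_apply_iff]
  intro u
  rw [contDiff_clm_apply_iff]
  intro v
  rw [contDiff_iff_contDiffAt]
  intro x
  have hx : e x ∈ (chartAt E (e x)).source := mem_chart_source E _
  set h := extChartAt 𝓘(ℝ, E) (e x) ∘ e with hh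
  have h1 : ContDiffAt ℝ ∞ h x := contDiffAt_chart he hx
  have h2 : ContDiffAt ℝ ∞ (fderiv ℝ h) x := h1.fderiv_right (m := ∞) (by simp)
  have h3 : ContDiffAt ℝ ∞ (fun x => inChart B (e x) (h x)) x → True := fun _ => trivial
  have h4 : ContDiffAt ℝ ∞ (inChart B (e x)) (h x) :=
    (hB (e x)).contDiffAt ((isOpen_extChartAt_target _).mem_nhds (mem_target hx))
  have h5 : ContDiffAt ℝ ∞ (fun w => inChart B (e x) (h w)) x :=
    ContDiffAt.comp x (g := inChart B (e x)) h4 h1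
  have h6 : ContDiffAt ℝ ∞ (fun w => inChart B (e x) (h w) (fderiv ℝ h w u) (fderiv ℝ h w v)) x :=
    (h5.clm_apply (h2.clm_apply contDiffAt_const)).clm_apply (h2.clm_apply contDiffAt_const)
  refine h6.congr_of_eventuallyEq ?_
  filter_upwards [ev_source he hx] with w hw
  exact pull_eq he B hw u v

end Pool.Agent.V11198
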