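import Mathlib
import Pool.Agent.V11198.GFlow
import Pool.Agent.V11198.Pull
import Pool.Agent.V11198.CovTop
import Pool.Agent.Helper186.LocDiffeo

/-! Local sections of expanding maps. -/

set_option maxSynthPendingDepth 3

open scoped ContDiff Topology Manifold
open Set Filter

noncomputable section

namespace Pool.Agent.V11198

section lin

variable {V E : Type*} [NormedAddCommGroup V] [NormedSpace ℝ V] [FiniteDimensional ℝ V]
  [NormedAddCommGroup E] [NormedSpace ℝ E] [FiniteDimensional ℝ E]

/-- an injective linear map between spaces of the same dimension -/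
def injEquiv (A : V →L[ℝ] E) (hfr : Module.finrank ℝ V = Module.finrank ℝ E)
    (hi : Function.Injective A) : V ≃L[ℝ] E :=
  (LinearEquiv.ofInjectiveOfFinrankEq (A : V →ₗ[ℝ] E) hi hfr).toContinuousLinearEquiv

lemma injEquiv_coe (A : V →L[ℝ] E) (hfr : Module.finrank ℝ V = Module.finrank ℝ E)
    (hi : Function.Injective A) : (injEquiv A hfr hi : V →L[ℝ] E) = A := by
  ext v
  rfl

lemma apply_inv (A : V →L[ℝ] E) (hfr : Module.finrank ℝ V = Module.finrank ℝ E)
    (hi : Function.Injective A) (w : E) : A (A.inverse w) = w := by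
  have h1 : A.inverse = ((injEquiv A hfr hi).symm : E →L[ℝ] V) := by
    conv_lhs => rw [← injEquiv_coe A hfr hi]
    rw [ContinuousLinearMap.inverse_equiv]
  rw [h1]
  exact (injEquiv A hfr hi).apply_symm_apply w

lemma inv_contDiffAt (A : V →L[ℝ] E) (hfr : Module.finrank ℝ V = Module.finrank ℝ E)
    (hi : Function.Injective A) :
    ContDiffAt ℝ ∞ (ContinuousLinearMap.inverse : (V →L[ℝ] E) → _) A := by
  rw [← injEquiv_coe A hfr hi]
  exact contDiffAt_map_inverse (injEquiv A hfr hi)

end lin

variable {V E : Type} [NormedAddCommGroup V] [NormedSpace ℝ V] [FiniteDimensional ℝ V]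
  [NormedAddCommGroup E] [NormedSpace ℝ E] [FiniteDimensional ℝ E]
  {M : Type*} [TopologicalSpace M] [ChartedSpace E M] [IsManifold 𝓘(ℝ, E) ∞ M]
  {e : V → M}

/-- expanding maps -/
def Expanding (E : Type) [NormedAddCommGroup E] [NormedSpace ℝ E] [ChartedSpace E M]
    (e : V → M) : Prop :=
  ∀ q : M, ∃ r > 0, Metric.closedBall (extChartAt 𝓘(ℝ, E) q q) r ⊆ (extChartAt 𝓘(ℝ, E) q).target ∧
    ∃ C : ℝ, 0 ≤ C ∧ ∀ x, e x ∈ (chartAt E q).source →
      extChartAt 𝓘(ℝ, E) q (e x) ∈ Metric.closedBall (extChartAt 𝓘(ℝ, E) q q) r →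
      ∀ w, ‖w‖ ≤ C * ‖fderiv ℝ (extChartAt 𝓘(ℝ, E) q ∘ e) x w‖

theorem locSec_of_expanding [T2Space M] (he : ContMDiff 𝓘(ℝ, V) 𝓘(ℝ, E) ∞ e)
    (hfr : Module.finrank ℝ V = Module.finrank ℝ E) (hexp : Expanding E e) : LocSec e := by
  intro q
  obtain ⟨r, hr, hsub, C, hC0, hC⟩ := hexp q
  set φ := extChartAt 𝓘(ℝ, E) q with hφ
  set h : V → E := φ ∘ e with hh
  have hr2 : 0 < r / 2 := by linarith
  let b : ContDiffBump (φ q) := ⟨r / 2, r, hr2, by linarith⟩
  have hinj : ∀ x, e x ∈ (chartAt E q).source → h x ∈ Metric.closedBall (φ q) r →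
      Function.Injective (fderiv ℝ h x) := by
    intro x hx hx'
    rw [injective_iff_map_eq_zero]
    intro w hw
    have h1 := hC x hx hx' w
    have h2 : fderiv ℝ (φ ∘ e) x w = 0 := hw
    rw [h2, norm_zero, mul_zero] at h1
    exact norm_le_zero_iff.1 h1
  have hinvb : ∀ x, e x ∈ (chartAt E q).source → h x ∈ Metric.closedBall (φ q) r →
      ∀ w, ‖(fderiv ℝ h x).inverse w‖ ≤ C * ‖w‖ := by
    intro x hx hx' w
    have h1 := hC x hx hx' ((fderiv ℝ h x).inverse w)
    have h2 : fderiv ℝ (φ ∘ e) x ((fderiv ℝ h x).inverse w) = w :=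
      apply_inv _ hfr (hinj x hx hx') w
    rwa [h2] at h1
  classical
  -- the field
  set F : V × E → V × E := fun p => if e p.1 ∈ (chartAt E q).source then
    (b (h p.1) • (fderiv ℝ h p.1).inverse p.2, 0) else 0 with hF
  have hK : IsClosed (φ.symm '' Metric.closedBall (φ q) r) := by
    refine ((isCompact_closedBall _ _).image_of_continuousOn ?_).isClosed
    exact (continuousOn_extChartAt_symm q).mono hsub
  have hcont : Continuous e := he.continuous
  have hzero : ∀ p : V × E, e p.1 ∉ φ.symm '' Metric.closedBall (φ q) r → F p = 0 := by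
    intro p hp
    rw [hF]
    simp only
    split_ifs with hs
    · have h1 : h p.1 ∉ Metric.closedBall (φ q) r := by
        intro hcon
        exact hp ⟨h p.1, hcon, symm_apply_chart hs⟩
      have h2 : b (h p.1) = 0 := by
        apply b.zero_of_le_dist
        rw [Metric.mem_closedBall, not_le] at h1
        exact h1.le
      rw [h2, zero_smul]
      rfl
    · rfl
  have hFc : ContDiff ℝ ∞ F := by
    rw [contDiff_iff_contDiffAt]
    intro p
    by_cases hp : e p.1 ∈ φ.symm '' Metric.closedBall (φ q) r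
    · obtain ⟨y, hy, hyp⟩ := hp
      have hsrc : e p.1 ∈ (chartAt E q).source := by
        rw [← hyp, ← extChartAt_source 𝓘(ℝ, E)]
        exact φ.map_target (hsub hy)
      have hhp : h p.1 = y := by
        rw [hh, Function.comp, ← hyp]
        exact φ.right_inv (hsub hy)
      have hhp' : h p.1 ∈ Metric.closedBall (φ q) r := by rw [hhp]; exact hy
      have h1 : ContDiffAt ℝ ∞ h p.1 := contDiffAt_chart he hsrc
      have h2 : ContDiffAt ℝ ∞ (fun p : V × E => h p.1) p :=
        ContDiffAt.comp p (g := h) h1 contDiffAt_fst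
      have h3 : ContDiffAt ℝ ∞ (fun p : V × E => fderiv ℝ h p.1) p :=
        ContDiffAt.comp p (g := fderiv ℝ h) (h1.fderiv_right (m := ∞) (by simp)) contDiffAt_fst
      have h4 : ContDiffAt ℝ ∞ (fun p : V × E => (fderiv ℝ h p.1).inverse) p :=
        ContDiffAt.comp p (g := ContinuousLinearMap.inverse)
          (inv_contDiffAt _ hfr (hinj p.1 hsrc hhp')) h3
      have h5 : ContDiffAt ℝ ∞ (fun p : V × E => b (h p.1)) p :=
        ContDiffAt.comp p (g := b) b.contDiffAt h2
      have h6 : ContDiffAt ℝ ∞ (fun p : V × E =>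
          (b (h p.1) • (fderiv ℝ h p.1).inverse p.2, (0 : E))) p :=
        (h5.smul (h4.clm_apply contDiffAt_snd)).prodMk contDiffAt_const
      refine h6.congr_of_eventuallyEq ?_
      have h7 : ∀ᶠ p' : V × E in 𝓝 p, e p'.1 ∈ (chartAt E q).source :=
        (hcont.comp continuous_fst).continuousAt.eventually
          ((chartAt E q).open_source.mem_nhds hsrc)
      filter_upwards [h7] with p' hp'
      rw [hF]
      simp only [if_pos hp']
    · have h1 : F =ᶠ[𝓝 p] fun _ => 0 := by
        have h2 : ∀ᶠ p' : V × E in 𝓝 p, e p'.1 ∉ φ.symm '' Metric.closedBall (φ q) r :=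
          (hcont.comp continuous_fst).continuousAt.eventually (hK.isOpen_compl.mem_nhds hp)
        filter_upwards [h2] with p' hp' using hzero p' hp'
      exact contDiffAt_const.congr_of_eventuallyEq h1
  have hF2 : ∀ p, (F p).2 = 0 := by
    intro p
    rw [hF]
    simp only
    split_ifs <;> rfl
  have hF1 : ∀ p, ‖(F p).1‖ ≤ C * ‖p.2‖ := by
    intro p
    by_cases hp : e p.1 ∈ φ.symm '' Metric.closedBall (φ q) r
    · obtain ⟨y, hy, hyp⟩ := hp
      have hsrc : e p.1 ∈ (chartAt E q).source := by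
        rw [← hyp, ← extChartAt_source 𝓘(ℝ, E)]
        exact φ.map_target (hsub hy)
      have hhp : h p.1 = y := by
        rw [hh, Function.comp, ← hyp]
        exact φ.right_inv (hsub hy)
      have hhp' : h p.1 ∈ Metric.closedBall (φ q) r := by rw [hhp]; exact hy
      rw [hF]
      simp only [if_pos hsrc]
      rw [norm_smul, Real.norm_eq_abs, abs_of_nonneg b.nonneg]
      have h1 := hinvb p.1 hsrc hhp' p.2
      have h2 : b (h p.1) * ‖(fderiv ℝ h p.1).inverse p.2‖ ≤
          1 * ‖(fderiv ℝ h p.1).inverse p.2‖ :=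
        mul_le_mul_of_nonneg_right b.le_one (norm_nonneg _)
      linarith
    · rw [hzero p hp]
      simp only [Prod.fst_zero, norm_zero]
      positivity
  -- the flow
  obtain ⟨Φ, hΦ0, hΦd, hΦc, -⟩ := global_flow hFc (by
    intro R T
    refine ⟨max (R + C * R * T) R, ?_⟩
    intro χ hχ γ hγ h0 τ hτ
    have hR : 0 ≤ R := (norm_nonneg _).trans h0
    have g2 : ∀ τ, HasDerivAt (fun τ => (γ τ).2) 0 τ := by
      intro τ
      have h1 := hasFDerivAt_snd.comp_hasDerivAt τ (hγ τ)
      have e1 : (ContinuousLinearMap.snd ℝ V E) (χ (γ τ) • F (γ τ)) = 0 := by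
        simp [hF2]
      rw [e1] at h1
      exact h1
    have g2c : ∀ τ, (γ τ).2 = (γ 0).2 := fun τ =>
      is_const_of_deriv_eq_zero (fun t => (g2 t).differentiableAt) (fun t => (g2 t).deriv) τ 0
    have hb2 : ‖(γ 0).2‖ ≤ R := (norm_snd_le _).trans h0
    have g1 : ∀ τ, HasDerivAt (fun τ => (γ τ).1) (χ (γ τ) • (F (γ τ)).1) τ := by
      intro τ
      exact hasFDerivAt_fst.comp_hasDerivAt τ (hγ τ)
    have h1 : ‖(γ τ).1 - (γ 0).1‖ ≤ (C * R) * ‖τ - 0‖ := by
      refine Convex.norm_image_sub_le_of_norm_hasDerivWithin_le (f := fun τ => (γ τ).1)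
        (s := univ) (fun x _ => (g1 x).hasDerivWithinAt) (fun x _ => ?_) convex_univ
        (mem_univ _) (mem_univ _)
      rw [norm_smul, Real.norm_eq_abs, abs_of_nonneg (hχ _).1]
      have h2 := hF1 (γ x)
      rw [g2c] at h2
      have h3 : χ (γ x) * ‖(F (γ x)).1‖ ≤ 1 * ‖(F (γ x)).1‖ :=
        mul_le_mul_of_nonneg_right (hχ _).2 (norm_nonneg _)
      have h4 := mul_le_mul_of_nonneg_left hb2 hC0
      linarith
    rw [Real.norm_eq_abs, sub_zero] at h1
    have h2 : ‖(γ τ).1‖ ≤ R + C * R * T := by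
      have h3 := norm_sub_norm_le (γ τ).1 (γ 0).1
      have h4 : ‖(γ 0).1‖ ≤ R := (norm_fst_le _).trans h0
      have h5 : C * R * |τ| ≤ C * R * T := mul_le_mul_of_nonneg_left hτ (by positivity)
      linarith
    rw [Prod.norm_def]
    refine max_le_max h2 ?_
    rw [g2c]
    exact hb2)
  have hΦ2 : ∀ p t, (Φ t p).2 = p.2 := by
    intro p t
    have h1 : ∀ t, HasDerivAt (fun t => (Φ t p).2) 0 t := by
      intro t
      have h2 := hasFDerivAt_snd.comp_hasDerivAt t (hΦd p t)
      have e1 : (ContinuousLinearMap.snd ℝ V E) (F (Φ t p)) = 0 := hF2 _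
      rw [e1] at h2
      exact h2
    have h2 := is_const_of_deriv_eq_zero (fun t => (h1 t).differentiableAt)
      (fun t => (h1 t).deriv) t 0
    rw [h2, hΦ0]
  have hcφ : ContinuousOn φ (chartAt E q).source := by
    have := continuousOn_extChartAt (I := 𝓘(ℝ, E)) q
    rwa [extChartAt_source] at this
  refine ⟨(chartAt E q).source ∩ φ ⁻¹' Metric.ball (φ q) (r / 2),
    hcφ.isOpen_inter_preimage (chartAt E q).open_source Metric.isOpen_ball,
    ⟨mem_chart_source E q, Metric.mem_ball_self hr2⟩, ?_⟩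
  intro x hx
  refine ⟨fun u => (Φ 1 (x, φ u - h x)).1, ?_, ?_, ?_⟩
  · have h0 : Continuous fun p : V × E => Φ 1 p :=
      Continuous.comp (g := fun z : ℝ × (V × E) => Φ z.1 z.2) (f := fun p : V × E => ((1 : ℝ), p))
        hΦc.continuous (by fun_prop)
    have h1 : Continuous fun p : V × E => (Φ 1 p).1 := continuous_fst.comp h0
    refine h1.comp_continuousOn ?_
    exact continuousOn_const.prodMk ((hcφ.mono inter_subset_left).sub continuousOn_const)
  · intro u hu
    set w : E := φ u - h x with hw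
    set ξ : ℝ → V := fun t => (Φ t (x, w)).1 with hξ
    have hξd : ∀ t, HasDerivAt ξ (F (Φ t (x, w))).1 t := fun t => by
      have h1 := (ContinuousLinearMap.fst ℝ V E).hasFDerivAt.comp_hasDerivAt t (hΦd (x, w) t)
      exact h1
    have hξF : ∀ t, e (ξ t) ∈ (chartAt E q).source → (F (Φ t (x, w))).1 =
        b (h (ξ t)) • (fderiv ℝ h (ξ t)).inverse w := by
      intro t ht
      rw [hF]
      simp only
      rw [if_pos ht, hΦ2]
    have hξc : Continuous ξ := continuous_iff_continuousAt.2 fun t => (hξd t).continuousAt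
    have hξ0 : ξ 0 = x := by simp [hξ, hΦ0]
    -- the open interval
    set J : Set ℝ := {t | h x + t • w ∈ Metric.ball (φ q) (r / 2)} with hJ
    have hJo : IsOpen J := Metric.isOpen_ball.preimage (by fun_prop)
    have hJc : Convex ℝ J := by
      have h1 : J = (AffineMap.lineMap (h x) (h x + w) : ℝ →ᵃ[ℝ] E) ⁻¹'
          Metric.ball (φ q) (r / 2) := by
        ext t
        simp only [hJ, mem_ofPred_eq, mem_preimage, AffineMap.lineMap_apply]
        simp [add_comm]
      rw [h1]
      exact (convex_ball _ _).affine_preimage _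
    have h0J : (0 : ℝ) ∈ J := by
      simp only [hJ, mem_ofPred_eq, zero_smul, add_zero]
      exact hx.2
    have h1J : (1 : ℝ) ∈ J := by
      simp only [hJ, mem_ofPred_eq, one_smul, hw, add_sub_cancel]
      exact hu.2
    set P : ℝ → Prop := fun t => e (ξ t) ∈ (chartAt E q).source ∧ h (ξ t) = h x + t • w with hP
    have hloc : ∀ t ∈ J, P t → ∀ᶠ s in 𝓝 t, P s := by
      rintro t htJ ⟨ht1, ht2⟩
      have hhc : ContinuousAt (fun s => h (ξ s)) t :=
        ContinuousAt.comp (g := h) (contDiffAt_chart he ht1).continuousAt hξc.continuousAt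
      have hev : ∀ᶠ s in 𝓝 t, e (ξ s) ∈ (chartAt E q).source ∧
          h (ξ s) ∈ Metric.ball (φ q) (r / 2) := by
        refine ((hcont.comp hξc).continuousAt.eventually
          ((chartAt E q).open_source.mem_nhds ht1)).and ?_
        refine hhc.eventually (Metric.isOpen_ball.mem_nhds ?_)
        show h (ξ t) ∈ _
        rw [ht2]
        exact htJ
      obtain ⟨δ, hδ, hδ'⟩ := Metric.eventually_nhds_iff_ball.1 hev
      have hder : ∀ s ∈ Metric.ball t δ, HasDerivAt (fun s => h (ξ s) - s • w) 0 s := by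
        intro s hs
        obtain ⟨hs1, hs2⟩ := hδ' s hs
        have hs3 : h (ξ s) ∈ Metric.closedBall (φ q) r :=
          Metric.ball_subset_closedBall (Metric.ball_subset_ball (by linarith) hs2)
        have e1 : HasDerivAt (fun s => h (ξ s)) (fderiv ℝ h (ξ s) (F (Φ s (x, w))).1) s :=
          ((contDiffAt_chart he hs1).differentiableAt (by simp)).hasFDerivAt.comp_hasDerivAt s
            (hξd s)
        have e2 : fderiv ℝ h (ξ s) (F (Φ s (x, w))).1 = w := by
          rw [hξF s hs1, map_smul, apply_inv _ hfr (hinj _ hs1 hs3)]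
          have : b (h (ξ s)) = 1 := b.one_of_mem_closedBall (Metric.ball_subset_closedBall hs2)
          rw [this, one_smul]
        have e3 : HasDerivAt (fun s : ℝ => s • w) w s := by
          simpa using (hasDerivAt_id s).smul_const w
        have e4 := e1.fun_sub e3
        rw [e2, sub_self] at e4
        exact e4
      have hconst : ∀ s ∈ Metric.ball t δ, h (ξ s) - s • w = h (ξ t) - t • w := by
        intro s hs
        refine Metric.isOpen_ball.is_const_of_deriv_eq_zero
          (convex_ball t δ).isPreconnected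
          (fun s hs => (hder s hs).differentiableAt.differentiableWithinAt)
          (fun s hs => (hder s hs).deriv) hs (Metric.mem_ball_self hδ)
      filter_upwards [Metric.ball_mem_nhds t hδ] with s hs
      refine ⟨(hδ' s hs).1, ?_⟩
      have h2 := hconst s hs
      rw [ht2, add_sub_cancel_right] at h2
      rw [← h2]
      abel
    set u' : Set ℝ := {t | ∀ᶠ s in 𝓝 t, P s} with hu'
    have huo : IsOpen u' := isOpen_setOfPred_eventually_nhds
    have hP0 : P 0 := by
      refine ⟨?_, ?_⟩
      · rw [hξ0]; exact hx.1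
      · rw [hξ0, zero_smul, add_zero]
    have hsub' : J ⊆ u' := by
      refine hJc.isPreconnected.subset_of_closure_inter_subset huo ⟨0, h0J, hloc 0 h0J hP0⟩ ?_
      rintro t ⟨htc, htJ⟩
      have hfreq : ∃ᶠ s in 𝓝 t, P s := by
        rw [mem_closure_iff_frequently] at htc
        exact htc.mono fun r hr => hr.self_of_nhds
      have htt : h x + t • w ∈ φ.target :=
        hsub (Metric.ball_subset_closedBall (Metric.ball_subset_ball (by linarith) htJ))
      have hlim : ContinuousAt (fun s : ℝ => φ.symm (h x + s • w)) t :=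
        ContinuousAt.comp (f := fun s : ℝ => h x + s • w) (g := φ.symm)
          (continuousAt_extChartAt_symm'' htt) (by fun_prop)
      have heq : e (ξ t) = φ.symm (h x + t • w) := by
        by_contra hne
        have h3 := ((hcont.comp hξc).continuousAt (x := t)).prodMk hlim
        have h4 : {p : M × M | p.1 ≠ p.2} ∈ 𝓝 ((e ∘ ξ) t, φ.symm (h x + t • w)) :=
          (isOpen_ne_fun continuous_fst continuous_snd).mem_nhds hne
        obtain ⟨s, ⟨hs1, hs2⟩, hs3⟩ := (hfreq.and_eventually (h3.eventually h4)).exists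
        apply hs3
        simp only [Function.comp]
        rw [← hs2]
        exact (symm_apply_chart hs1).symm
      have hsrc : e (ξ t) ∈ (chartAt E q).source := by
        rw [heq, ← extChartAt_source 𝓘(ℝ, E)]
        exact φ.map_target htt
      refine hloc t htJ ⟨hsrc, ?_⟩
      rw [hh]
      simp only [Function.comp]
      rw [heq, φ.right_inv htt]
      rfl
    obtain ⟨h3, h4⟩ := (hsub' h1J).self_of_nhds
    rw [one_smul, hw, add_sub_cancel] at h4
    have h5 : φ (e (ξ 1)) = φ u := h4
    exact φ.injOn (by rw [hφ, extChartAt_source]; exact h3)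
      (by rw [hφ, extChartAt_source]; exact hu.1) h5
  · show (Φ 1 (x, φ (e x) - h x)).1 = x
    have h1 : φ (e x) - h x = 0 := sub_self _
    rw [h1]
    have hFz : F (x, 0) = 0 := by
      rw [hF]
      simp only
      split_ifs
      · rw [map_zero, smul_zero]; rfl
      · rfl
    have h2 := ode_unique hFc (a := fun t => Φ t (x, 0)) (b := fun _ => (x, 0))
      (fun t => hΦd _ t) (fun t => by
        rw [hFz]
        exact hasDerivAt_const t _) 0 (hΦ0 _)
    have h3 : Φ 1 (x, 0) = (x, 0) := congrFun h2 1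
    rw [h3]

/-- **An expanding map onto a simply connected manifold is a diffeomorphism.** -/
theorem diffeo_of_expanding [T2Space M] [SimplyConnectedSpace M]
    (he : ContMDiff 𝓘(ℝ, V) 𝓘(ℝ, E) ∞ e)
    (hfr : Module.finrank ℝ V = Module.finrank ℝ E) (hexp : Expanding E e) :
    ∃ f : M → V, ContMDiff 𝓘(ℝ, E) 𝓘(ℝ, V) ∞ f ∧ (∀ y, e (f y) = y) ∧ ∀ x, f (e x) = x := by
  have hinj : ∀ x, Function.Injective (mfderiv 𝓘(ℝ, V) 𝓘(ℝ, E) e x) := by
    intro x
    have hx : e x ∈ (chartAt E (e x)).source := mem_chart_source E _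
    obtain ⟨r, hr, hsub, C, hC0, hC⟩ := hexp (e x)
    rw [injective_iff_map_eq_zero]
    intro w hw
    have h1 := hC x hx (Metric.mem_closedBall_self hr.le) w
    have h2 : MDifferentiableAt 𝓘(ℝ, E) 𝓘(ℝ, E) (extChartAt 𝓘(ℝ, E) (e x)) (e x) :=
      mdifferentiableAt_extChartAt hx
    have h3 := mfderiv_comp x h2 ((he x).mdifferentiableAt (by simp))
    have h4 : fderiv ℝ (extChartAt 𝓘(ℝ, E) (e x) ∘ e) x w = 0 := by
      rw [← mfderiv_eq_fderiv, h3]
      have : (mfderiv 𝓘(ℝ, E) 𝓘(ℝ, E) (extChartAt 𝓘(ℝ, E) (e x)) (e x))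
          (mfderiv 𝓘(ℝ, V) 𝓘(ℝ, E) e x w) = 0 := by rw [hw, map_zero]
      exact this
    rw [h4, norm_zero, mul_zero] at h1
    exact norm_le_zero_iff.1 h1
  choose S v hSo hxS hinv hopen hvs using
    fun x => Pool.Agent.Helper186.local_inverse he (hinj x) hfr
  have hloc : IsLocalHomeomorph e := by
    intro x
    refine ⟨{ toFun := e, invFun := v x, source := S x, target := e '' S x,
              map_source' := fun y hy => mem_image_of_mem e hy,
              map_target' := ?_, left_inv' := fun y hy => hinv x y hy, right_inv' := ?_,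
              open_source := hSo x, open_target := hopen x _ subset_rfl (hSo x),
              continuousOn_toFun := he.continuous.continuousOn,
              continuousOn_invFun := ?_ }, hxS x, rfl⟩
    · rintro _ ⟨y, hy, rfl⟩
      rw [hinv x y hy]
      exact hy
    · rintro _ ⟨y, hy, rfl⟩
      rw [hinv x y hy]
    · rintro _ ⟨y, hy, rfl⟩
      exact (hvs x y hy).continuousAt.continuousWithinAt
  have hlpc : LocallyPathConnectedSpace M := ChartedSpace.locallyPathConnectedSpace E M
  obtain ⟨f, hfc, hf1, hf2⟩ := exists_inverse_of_locSec hloc (locSec_of_expanding he hfr hexp) 0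
  refine ⟨f, ?_, hf1, hf2⟩
  intro y
  have h1 : ContMDiffAt 𝓘(ℝ, E) 𝓘(ℝ, V) ∞ (v (f y)) y := by
    have := hvs (f y) (f y) (hxS _)
    rwa [hf1] at this
  refine h1.congr_of_eventuallyEq ?_
  have h2 : e '' S (f y) ∈ 𝓝 y :=
    (hopen _ _ subset_rfl (hSo _)).mem_nhds ⟨f y, hxS _, hf1 y⟩
  filter_upwards [h2] with y' hy'
  obtain ⟨z, hz, rfl⟩ := hy'
  rw [hf2, hinv _ z hz]

end Pool.Agent.V11198
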