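import Mathlib

/-! Geodesic variations in a chart. -/

set_option maxSynthPendingDepth 3

open scoped ContDiff Topology
open Set Filter

noncomputable section

namespace Pool.Agent.V11198

lemma two_le_inf : (2 : WithTop ℕ∞) ≤ ∞ := by
  have : (2 : WithTop ℕ∞) = ((2 : ℕ∞) : WithTop ℕ∞) := rfl
  rw [this]
  exact WithTop.coe_le_coe.2 le_top

section leibniz

variable {E F X : Type*} [NormedAddCommGroup E] [NormedSpace ℝ E]
  [NormedAddCommGroup F] [NormedSpace ℝ F] [NormedAddCommGroup X] [NormedSpace ℝ X]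

lemma leib {A : E → E →L[ℝ] E →L[ℝ] F} {c a b : X → E} {z : X}
    (hA : DifferentiableAt ℝ A (c z)) (hc : DifferentiableAt ℝ c z) (ha : DifferentiableAt ℝ a z)
    (hb : DifferentiableAt ℝ b z) (ξ : X) :
    fderiv ℝ (fun z => A (c z) (a z) (b z)) z ξ =
      fderiv ℝ A (c z) (fderiv ℝ c z ξ) (a z) (b z) + A (c z) (fderiv ℝ a z ξ) (b z) +
        A (c z) (a z) (fderiv ℝ b z ξ) := by
  have h1 : HasFDerivAt (fun z => A (c z)) ((fderiv ℝ A (c z)).comp (fderiv ℝ c z)) z :=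
    HasFDerivAt.comp z hA.hasFDerivAt hc.hasFDerivAt
  have h2 := (h1.clm_apply ha.hasFDerivAt).clm_apply hb.hasFDerivAt
  rw [h2.fderiv]
  simp only [add_apply, ContinuousLinearMap.comp_apply, ContinuousLinearMap.flip_apply]
  abel

lemma fderiv_fderiv_apply {f : X → E} {z : X} (hf : ContDiffAt ℝ 2 f z) (ξ η : X) :
    fderiv ℝ (fun z => fderiv ℝ f z ξ) z η = fderiv ℝ (fderiv ℝ f) z η ξ := by
  have h1 : DifferentiableAt ℝ (fderiv ℝ f) z :=
    (hf.fderiv_right (m := 1) (by norm_num)).differentiableAt (by simp)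
  have h2 := h1.hasFDerivAt.clm_apply (hasFDerivAt_const ξ z)
  rw [h2.fderiv]
  simp

lemma fderiv_comm {f : X → E} {z : X} (hf : ContDiffAt ℝ 2 f z) (ξ η : X) :
    fderiv ℝ (fun z => fderiv ℝ f z ξ) z η = fderiv ℝ (fun z => fderiv ℝ f z η) z ξ := by
  rw [fderiv_fderiv_apply hf, fderiv_fderiv_apply hf]
  exact (hf.isSymmSndFDerivAt (by simp)).eq _ _

end leibniz

variable {E : Type*} [NormedAddCommGroup E] [NormedSpace ℝ E]

/-- the curvature of a connection form -/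
def Rm (Γ : E → E →L[ℝ] E →L[ℝ] E) (y u v w : E) : E :=
  fderiv ℝ Γ y u v w - fderiv ℝ Γ y v u w + Γ y u (Γ y v w) - Γ y v (Γ y u w)

/-- a metric with its Levi-Civita connection in a chart, with nonpositive curvature -/
structure LocGeom (O : Set E) (G : E → E →L[ℝ] E →L[ℝ] ℝ) (Γ : E → E →L[ℝ] E →L[ℝ] E) : Prop where
  isOpen : IsOpen O
  smoothG : ContDiffOn ℝ ∞ G O
  smoothΓ : ContDiffOn ℝ ∞ Γ O
  symmG : ∀ y ∈ O, ∀ u v, G y u v = G y v u
  symmΓ : ∀ y ∈ O, ∀ u v, Γ y u v = Γ y v u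
  compat : ∀ y ∈ O, ∀ a u v, fderiv ℝ G y a u v = G y (Γ y a u) v + G y u (Γ y a v)
  nonneg : ∀ y ∈ O, ∀ u, 0 ≤ G y u u
  curv : ∀ y ∈ O, ∀ u v, G y (Rm Γ y u v v) u ≤ 0

variable {O : Set E} {G : E → E →L[ℝ] E →L[ℝ] ℝ} {Γ : E → E →L[ℝ] E →L[ℝ] E}

lemma LocGeom.dsymmΓ (h : LocGeom O G Γ) {y : E} (hy : y ∈ O) (a u v : E) :
    fderiv ℝ Γ y a u v = fderiv ℝ Γ y a v u := by
  have hd : DifferentiableAt ℝ Γ y :=
    (h.smoothΓ.contDiffAt (h.isOpen.mem_nhds hy)).differentiableAt (by simp)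
  have e : ∀ u v : E, fderiv ℝ (fun y => Γ y u v) y a = fderiv ℝ Γ y a u v := by
    intro u v
    have h1 := (hd.hasFDerivAt.clm_apply (hasFDerivAt_const u y)).clm_apply (hasFDerivAt_const v y)
    rw [h1.fderiv]
    simp
  rw [← e u v, ← e v u]
  have h2 : (fun y => Γ y u v) =ᶠ[𝓝 y] fun y => Γ y v u := by
    filter_upwards [h.isOpen.mem_nhds hy] with w hw using h.symmΓ w hw u v
  rw [h2.fderiv_eq]

/-- a variation through geodesics -/
structure GVar (O : Set E) (Γ : E → E →L[ℝ] E →L[ℝ] E) (Q : Set (ℝ × ℝ)) (c : ℝ × ℝ → E) :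
    Prop where
  isOpen : IsOpen Q
  smooth : ContDiffOn ℝ ∞ c Q
  mem : ∀ z ∈ Q, c z ∈ O
  geod : ∀ z ∈ Q, fderiv ℝ (fun z => fderiv ℝ c z (0, 1)) z (0, 1) =
    -Γ (c z) (fderiv ℝ c z (0, 1)) (fderiv ℝ c z (0, 1))

/-- time derivative -/
def ct (c : ℝ × ℝ → E) (z : ℝ × ℝ) : E := fderiv ℝ c z (0, 1)

/-- variation field -/
def cs (c : ℝ × ℝ → E) (z : ℝ × ℝ) : E := fderiv ℝ c z (1, 0)

/-- covariant derivative of the variation field -/
def cZ (Γ : E → E →L[ℝ] E →L[ℝ] E) (c : ℝ × ℝ → E) (z : ℝ × ℝ) : E :=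
  fderiv ℝ (cs c) z (0, 1) + Γ (c z) (ct c z) (cs c z)

namespace GVar

variable {Q : Set (ℝ × ℝ)} {c : ℝ × ℝ → E} {z : ℝ × ℝ}

section basic

variable (h : GVar O Γ Q c)
include h

lemma cda (hz : z ∈ Q) : ContDiffAt ℝ ∞ c z := h.smooth.contDiffAt (h.isOpen.mem_nhds hz)

lemma ct_cda (hz : z ∈ Q) : ContDiffAt ℝ ∞ (ct c) z :=
  ((h.cda hz).fderiv_right (m := ∞) (by simp)).clm_apply contDiffAt_const

lemma cs_cda (hz : z ∈ Q) : ContDiffAt ℝ ∞ (cs c) z :=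
  ((h.cda hz).fderiv_right (m := ∞) (by simp)).clm_apply contDiffAt_const

lemma comm (hz : z ∈ Q) : fderiv ℝ (cs c) z (0, 1) = fderiv ℝ (ct c) z (1, 0) :=
  fderiv_comm ((h.cda hz).of_le two_le_inf) _ _

lemma geod' (hz : z ∈ Q) : fderiv ℝ (ct c) z (0, 1) = -Γ (c z) (ct c z) (ct c z) := h.geod z hz

end basic

variable (hG : LocGeom O G Γ) (h : GVar O Γ Q c)
include hG h

lemma dG (hz : z ∈ Q) : DifferentiableAt ℝ G (c z) :=
  (hG.smoothG.contDiffAt (hG.isOpen.mem_nhds (h.mem z hz))).differentiableAt (by simp)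

lemma dΓ (hz : z ∈ Q) : DifferentiableAt ℝ Γ (c z) :=
  (hG.smoothΓ.contDiffAt (hG.isOpen.mem_nhds (h.mem z hz))).differentiableAt (by simp)

lemma cZ_cda (hz : z ∈ Q) : ContDiffAt ℝ ∞ (cZ Γ c) z := by
  have h1 := ((h.cs_cda hz).fderiv_right (m := ∞) (by simp)).clm_apply
    (contDiffAt_const (c := ((0 : ℝ), (1 : ℝ))))
  have h2 : ContDiffAt ℝ ∞ (fun z => Γ (c z)) z :=
    ContDiffAt.comp z (hG.smoothΓ.contDiffAt (hG.isOpen.mem_nhds (h.mem z hz))) (h.cda hz)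
  exact h1.add ((h2.clm_apply (h.ct_cda hz)).clm_apply (h.cs_cda hz))

/-- product rule for the metric -/
lemma metric_dt {a b : ℝ × ℝ → E} (hz : z ∈ Q) (ha : DifferentiableAt ℝ a z)
    (hb : DifferentiableAt ℝ b z) (ξ : ℝ × ℝ) :
    fderiv ℝ (fun z => G (c z) (a z) (b z)) z ξ =
      G (c z) (fderiv ℝ a z ξ + Γ (c z) (fderiv ℝ c z ξ) (a z)) (b z) +
        G (c z) (a z) (fderiv ℝ b z ξ + Γ (c z) (fderiv ℝ c z ξ) (b z)) := by
  rw [leib (dG hG h hz) ((h.cda hz).differentiableAt (by simp)) ha hb,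
    hG.compat _ (h.mem z hz)]
  simp only [map_add, add_apply]
  ring

lemma L1 (hz : z ∈ Q) : fderiv ℝ (fun z => G (c z) (ct c z) (ct c z)) z (0, 1) = 0 := by
  have hd := (h.ct_cda hz).differentiableAt (by simp)
  rw [metric_dt hG h hz hd hd, h.geod' hz]
  have : fderiv ℝ c z (0, 1) = ct c z := rfl
  rw [this]
  simp

lemma L2 (hz : z ∈ Q) : fderiv ℝ (fun z => G (c z) (ct c z) (cs c z)) z (0, 1) =
    1 / 2 * fderiv ℝ (fun z => G (c z) (ct c z) (ct c z)) z (1, 0) := by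
  have hd := (h.ct_cda hz).differentiableAt (by simp)
  have hd' := (h.cs_cda hz).differentiableAt (by simp)
  rw [metric_dt hG h hz hd hd', metric_dt hG h hz hd hd, h.geod' hz, h.comm hz]
  have e1 : fderiv ℝ c z (0, 1) = ct c z := rfl
  have e2 : fderiv ℝ c z (1, 0) = cs c z := rfl
  rw [e1, e2, hG.symmΓ _ (h.mem z hz) (ct c z) (cs c z),
    hG.symmG _ (h.mem z hz) (fderiv ℝ (ct c) z (1, 0) + Γ (c z) (cs c z) (ct c z))]
  simp
  ring

lemma L3 (hz : z ∈ Q) : fderiv ℝ (fun z => G (c z) (cs c z) (cs c z)) z (0, 1) =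
    2 * G (c z) (cZ Γ c z) (cs c z) := by
  have hd' := (h.cs_cda hz).differentiableAt (by simp)
  rw [metric_dt hG h hz hd' hd']
  have e1 : fderiv ℝ c z (0, 1) = ct c z := rfl
  rw [e1, hG.symmG _ (h.mem z hz) (cs c z)]
  unfold cZ
  ring

/-- the Jacobi equation -/
lemma jacobi (hz : z ∈ Q) : fderiv ℝ (cZ Γ c) z (0, 1) + Γ (c z) (ct c z) (cZ Γ c z) =
    -Rm Γ (c z) (cs c z) (ct c z) (ct c z) := by
  have hc := (h.cda hz).differentiableAt (by simp)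
  have hd := (h.ct_cda hz).differentiableAt (by simp)
  have hd' := (h.cs_cda hz).differentiableAt (by simp)
  have e1 : fderiv ℝ c z (0, 1) = ct c z := rfl
  have e2 : fderiv ℝ c z (1, 0) = cs c z := rfl
  -- second time derivative of the variation field
  have h1 : fderiv ℝ (fun z => fderiv ℝ (cs c) z (0, 1)) z (0, 1) =
      -(fderiv ℝ Γ (c z) (cs c z) (ct c z) (ct c z) +
        Γ (c z) (fderiv ℝ (ct c) z (1, 0)) (ct c z) +
        Γ (c z) (ct c z) (fderiv ℝ (ct c) z (1, 0))) := by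
    have h2 : (fun z => fderiv ℝ (cs c) z (0, 1)) =ᶠ[𝓝 z] fun z => fderiv ℝ (ct c) z (1, 0) := by
      filter_upwards [h.isOpen.mem_nhds hz] with w hw using h.comm hw
    rw [h2.fderiv_eq, fderiv_comm ((h.ct_cda hz).of_le two_le_inf)]
    have h3 : (fun z => fderiv ℝ (ct c) z (0, 1)) =ᶠ[𝓝 z]
        fun z => -Γ (c z) (ct c z) (ct c z) := by
      filter_upwards [h.isOpen.mem_nhds hz] with w hw using h.geod' hw
    rw [h3.fderiv_eq, fderiv_fun_neg, neg_apply, leib (dΓ hG h hz) hc hd hd, e2]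
  have hA : DifferentiableAt ℝ (fun z => fderiv ℝ (cs c) z (0, 1)) z :=
    (((h.cs_cda hz).fderiv_right (m := ∞) (by simp)).clm_apply
      (contDiffAt_const (c := ((0 : ℝ), (1 : ℝ))))).differentiableAt (by simp)
  have hB : DifferentiableAt ℝ (fun z => Γ (c z) (ct c z) (cs c z)) z := by
    have h2 : DifferentiableAt ℝ (fun z => Γ (c z)) z :=
      DifferentiableAt.comp z (dΓ hG h hz) hc
    exact (h2.clm_apply hd).clm_apply hd'
  have h4 : fderiv ℝ (cZ Γ c) z (0, 1) =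
      fderiv ℝ (fun z => fderiv ℝ (cs c) z (0, 1)) z (0, 1) +
      fderiv ℝ (fun z => Γ (c z) (ct c z) (cs c z)) z (0, 1) := by
    have : cZ Γ c = fun z => fderiv ℝ (cs c) z (0, 1) + Γ (c z) (ct c z) (cs c z) := rfl
    rw [this, fderiv_fun_add hA hB]
    rfl
  rw [h4, h1, leib (dΓ hG h hz) hc hd hd', h.geod' hz, e1]
  simp only [cZ, Rm, h.comm hz]
  have hs := hG.symmΓ _ (h.mem z hz)
  rw [hs (fderiv ℝ (ct c) z (1, 0)) (ct c z), hs (cs c z) (ct c z)]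
  have h5 : Γ (c z) (-Γ (c z) (ct c z) (ct c z)) (cs c z) =
      -Γ (c z) (cs c z) (Γ (c z) (ct c z) (ct c z)) := by
    rw [hs, map_neg]
  rw [h5, map_add, hG.dsymmΓ (h.mem z hz) (ct c z) (ct c z) (cs c z)]
  abel

lemma L4 (hz : z ∈ Q) : G (c z) (cZ Γ c z) (cZ Γ c z) ≤
    fderiv ℝ (fun z => G (c z) (cZ Γ c z) (cs c z)) z (0, 1) := by
  have hd := (cZ_cda hG h hz).differentiableAt (by simp)
  have hd' := (h.cs_cda hz).differentiableAt (by simp)
  rw [metric_dt hG h hz hd hd']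
  have e1 : fderiv ℝ c z (0, 1) = ct c z := rfl
  rw [e1, jacobi hG h hz]
  have e2 : fderiv ℝ (cs c) z (0, 1) + Γ (c z) (ct c z) (cs c z) = cZ Γ c z := rfl
  rw [e2, map_neg, neg_apply]
  have := hG.curv _ (h.mem z hz) (cs c z) (ct c z)
  linarith

end GVar

end Pool.Agent.V11198
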