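import Mathlib
import Pool.Agent.V11198.Defs
import Pool.Agent.V11198.Jac

/-! The Levi-Civita connection in a chart. -/

set_option maxSynthPendingDepth 3

open scoped ContDiff Topology Manifold
open Set Filter

noncomputable section

namespace Pool.Agent.V11198

variable {E : Type*} [NormedAddCommGroup E] [NormedSpace ℝ E] [FiniteDimensional ℝ E]

/-- the Koszul expression -/
def koszul (G : E → E →L[ℝ] E →L[ℝ] ℝ) (y : E) : E →L[ℝ] E →L[ℝ] (E →L[ℝ] ℝ) :=
  (1 / 2 : ℝ) • (fderiv ℝ G y + (fderiv ℝ G y).flip -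
    ((ContinuousLinearMap.flipₗᵢ ℝ E E ℝ).toContinuousLinearEquiv :
      (E →L[ℝ] E →L[ℝ] ℝ) →L[ℝ] (E →L[ℝ] E →L[ℝ] ℝ)).comp (fderiv ℝ G y).flip)

lemma koszul_apply (G : E → E →L[ℝ] E →L[ℝ] ℝ) (y u v w : E) :
    koszul G y u v w = 1 / 2 * (fderiv ℝ G y u v w + fderiv ℝ G y v u w - fderiv ℝ G y w u v) :=
  rfl

lemma koszul_apply₂ (G : E → E →L[ℝ] E →L[ℝ] ℝ) (y u v : E) :
    koszul G y u v = (1 / 2 : ℝ) • (fderiv ℝ G y u v + fderiv ℝ G y v u -
    ((fderiv ℝ G y).flip u).flip v) := by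
  ext w
  rfl

/-- the connection form -/
def conn (G : E → E →L[ℝ] E →L[ℝ] ℝ) (y : E) : E →L[ℝ] E →L[ℝ] E :=
  (ContinuousLinearMap.compL ℝ E (E →L[ℝ] ℝ) E (G y).inverse).comp (koszul G y)

lemma conn_apply (G : E → E →L[ℝ] E →L[ℝ] ℝ) (y u v : E) :
    conn G y u v = christoffel G y u v := by
  have : conn G y u v = (G y).inverse (koszul G y u v) := rfl
  rw [this, koszul_apply₂]
  rfl

section

variable {O : Set E} {G : E → E →L[ℝ] E →L[ℝ] ℝ}

/-- a positive definite form as an equivalence -/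
def posEquiv (g : E →L[ℝ] E →L[ℝ] ℝ) (hp : ∀ u, u ≠ 0 → 0 < g u u) : E ≃L[ℝ] (E →L[ℝ] ℝ) :=
  (LinearEquiv.ofInjectiveOfFinrankEq (g : E →ₗ[ℝ] (E →L[ℝ] ℝ)) (by
    rw [injective_iff_map_eq_zero]
    intro a ha
    by_contra hne
    have h1 := hp a hne
    have h2 : g a = 0 := ha
    rw [h2] at h1
    simp at h1) (by
    rw [← (LinearMap.toContinuousLinearMap (𝕜 := ℝ) (E := E) (F' := ℝ)).finrank_eq,
      Subspace.dual_finrank_eq])).toContinuousLinearEquiv

lemma posEquiv_coe (g : E →L[ℝ] E →L[ℝ] ℝ) (hp : ∀ u, u ≠ 0 → 0 < g u u) :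
    (posEquiv g hp : E →L[ℝ] (E →L[ℝ] ℝ)) = g := by
  ext v w
  rfl

lemma apply_inverse (g : E →L[ℝ] E →L[ℝ] ℝ) (hp : ∀ u, u ≠ 0 → 0 < g u u) (f : E →L[ℝ] ℝ) :
    g (g.inverse f) = f := by
  have h1 : g.inverse = ((posEquiv g hp).symm : (E →L[ℝ] ℝ) →L[ℝ] E) := by
    conv_lhs => rw [← posEquiv_coe g hp]
    rw [ContinuousLinearMap.inverse_equiv]
  rw [h1]
  exact (posEquiv g hp).apply_symm_apply f

lemma inverse_contDiffAt (g : E →L[ℝ] E →L[ℝ] ℝ) (hp : ∀ u, u ≠ 0 → 0 < g u u) :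
    ContDiffAt ℝ ∞ (ContinuousLinearMap.inverse : (E →L[ℝ] (E →L[ℝ] ℝ)) → _) g := by
  rw [← posEquiv_coe g hp]
  exact contDiffAt_map_inverse (posEquiv g hp)

/-- **Levi-Civita connection in a chart** -/
theorem locGeom_conn (hO : IsOpen O) (hG : ContDiffOn ℝ ∞ G O)
    (hs : ∀ y ∈ O, ∀ u v, G y u v = G y v u) (hp : ∀ y ∈ O, ∀ u, u ≠ 0 → 0 < G y u u)
    (hc : ∀ y ∈ O, ∀ u v, G y (riemannCurv (christoffel G) y u v v) u ≤ 0) :
    LocGeom O G (conn G) := by
  have hat : ∀ y ∈ O, ContDiffAt ℝ ∞ G y := fun y hy => hG.contDiffAt (hO.mem_nhds hy)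
  have hkey : ∀ y ∈ O, ∀ u v w, G y (conn G y u v) w =
      1 / 2 * (fderiv ℝ G y u v w + fderiv ℝ G y v u w - fderiv ℝ G y w u v) := by
    intro y hy u v w
    have : conn G y u v = (G y).inverse (koszul G y u v) := rfl
    rw [this, apply_inverse (G y) (hp y hy), koszul_apply]
  have hds : ∀ y ∈ O, ∀ a u v, fderiv ℝ G y a u v = fderiv ℝ G y a v u := by
    intro y hy a u v
    have hd : DifferentiableAt ℝ G y := (hat y hy).differentiableAt (by simp)
    have e : ∀ u v : E, fderiv ℝ (fun y => G y u v) y a = fderiv ℝ G y a u v := by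
      intro u v
      have h1 := (hd.hasFDerivAt.clm_apply (hasFDerivAt_const u y)).clm_apply
        (hasFDerivAt_const v y)
      rw [h1.fderiv]
      simp
    rw [← e u v, ← e v u]
    have h2 : (fun y => G y u v) =ᶠ[𝓝 y] fun y => G y v u := by
      filter_upwards [hO.mem_nhds hy] with w hw using hs w hw u v
    rw [h2.fderiv_eq]
  have hsm : ContDiffOn ℝ ∞ (conn G) O := by
    rw [contDiffOn_clm_apply]
    intro u
    rw [contDiffOn_clm_apply]
    intro v y hy
    have h1 : ContDiffAt ℝ ∞ (fun y => (G y).inverse) y :=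
      (inverse_contDiffAt (G y) (hp y hy)).comp y (hat y hy)
    have h2 : ContDiffAt ℝ ∞ (fderiv ℝ G) y := (hat y hy).fderiv_right (m := ∞) (by simp)
    have h3 : ContDiffAt ℝ ∞ (fun y => koszul G y u v) y := by
      have e : (fun y => koszul G y u v) = fun y => (1 / 2 : ℝ) • (fderiv ℝ G y u v +
          fderiv ℝ G y v u - ((ContinuousLinearMap.flipₗᵢ ℝ E E ℝ).toContinuousLinearEquiv :
          (E →L[ℝ] E →L[ℝ] ℝ) →L[ℝ] (E →L[ℝ] E →L[ℝ] ℝ)) ((fderiv ℝ G y).flip u) v) := by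
        funext y
        ext w
        rfl
      have h4 : ContDiffAt ℝ ∞ (fun y => (fderiv ℝ G y).flip) y := by
        have h5 := (ContinuousLinearMap.flipₗᵢ ℝ E E (E →L[ℝ] ℝ)).toContinuousLinearEquiv.contDiff
          (n := ∞)
        exact h5.contDiffAt.comp y h2
      have h6 : ContDiffAt ℝ ∞ (fun y => ((ContinuousLinearMap.flipₗᵢ ℝ E E ℝ).toContinuousLinearEquiv :
          (E →L[ℝ] E →L[ℝ] ℝ) →L[ℝ] (E →L[ℝ] E →L[ℝ] ℝ)) ((fderiv ℝ G y).flip u)) y := by
        have h7 := ((ContinuousLinearMap.flipₗᵢ ℝ E E ℝ).toContinuousLinearEquiv :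
          (E →L[ℝ] E →L[ℝ] ℝ) →L[ℝ] (E →L[ℝ] E →L[ℝ] ℝ)).contDiff (n := ∞)
        exact h7.contDiffAt.comp y (h4.clm_apply contDiffAt_const)
      rw [e]
      exact (((((h2.clm_apply contDiffAt_const).clm_apply contDiffAt_const).add
        ((h2.clm_apply contDiffAt_const).clm_apply contDiffAt_const)).sub
        (h6.clm_apply contDiffAt_const))).const_smul (1 / 2 : ℝ)
    exact (h1.clm_apply h3).contDiffWithinAt
  refine ⟨hO, hG, hsm, hs, ?_, ?_, ?_, ?_⟩
  · -- symmetry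
    intro y hy u v
    have h1 : koszul G y u v = koszul G y v u := by
      ext w
      rw [koszul_apply, koszul_apply, hds y hy w u v]
      ring
    have e1 : conn G y u v = (G y).inverse (koszul G y u v) := rfl
    have e2 : conn G y v u = (G y).inverse (koszul G y v u) := rfl
    rw [e1, e2, h1]
  · -- compatibility
    intro y hy a u v
    rw [hs y hy u (conn G y a v), hkey y hy, hkey y hy, hds y hy a v u]
    ring
  · intro y hy u
    rcases eq_or_ne u 0 with rfl | hu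
    · simp
    · exact (hp y hy u hu).le
  · intro y hy u v
    have hd : DifferentiableAt ℝ (conn G) y :=
      (hsm.contDiffAt (hO.mem_nhds hy)).differentiableAt (by simp)
    have e : ∀ a u v : E, fderiv ℝ (fun y => christoffel G y u v) y a =
        fderiv ℝ (conn G) y a u v := by
      intro a u v
      have h0 : (fun y => christoffel G y u v) = fun y => conn G y u v :=
        funext fun y => (conn_apply G y u v).symm
      have h1 := (hd.hasFDerivAt.clm_apply (hasFDerivAt_const u y)).clm_apply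
        (hasFDerivAt_const v y)
      rw [h0, h1.fderiv]
      simp
    have h1 : Rm (conn G) y u v v = riemannCurv (christoffel G) y u v v := by
      simp only [Rm, riemannCurv, e, conn_apply]
    rw [h1]
    exact hc y hy u v

end

end Pool.Agent.V11198
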