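import Mathlib

/-! One variable convexity. -/

open scoped Topology
open Set Filter

namespace Pool.Agent.V11198

/-- if `2 ψ ψ'' ≥ ψ' ^ 2` then `√ψ` is convex -/
theorem sq_homog {ψ ψ' ψ'' : ℝ → ℝ} (h1 : ∀ t, HasDerivAt ψ (ψ' t) t)
    (h2 : ∀ t, HasDerivAt ψ' (ψ'' t) t) (h0 : ∀ t, 0 ≤ ψ t) (hn : ∀ t, 0 ≤ ψ'' t)
    (h3 : ∀ t, ψ' t ^ 2 ≤ 2 * ψ t * ψ'' t) (hz : ψ 0 = 0) {r : ℝ} (hr0 : 0 ≤ r) (hr1 : r ≤ 1)
    (t : ℝ) : ψ (r * t) ≤ r ^ 2 * ψ t := by
  have key : ∀ ε > 0, ψ (r * t) + ε ≤ ((1 - r) * √ε + r * √(ψ t + ε)) ^ 2 := by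
    intro ε hε
    have hpos : ∀ t, 0 < ψ t + ε := fun t => by linarith [h0 t]
    set f : ℝ → ℝ := fun t => √(ψ t + ε) with hf
    have hf0 : ∀ t, 0 < f t := fun t => Real.sqrt_pos.2 (hpos t)
    have hf2 : ∀ t, f t ^ 2 = ψ t + ε := fun t => Real.sq_sqrt (hpos t).le
    have hd : ∀ t, HasDerivAt f (ψ' t / (2 * f t)) t := fun t =>
      ((h1 t).add_const ε).sqrt (hpos t).ne'
    have hd' : deriv f = fun t => ψ' t / (2 * f t) := funext fun t => (hd t).deriv
    have hdd : ∀ t, HasDerivAt (deriv f)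
        ((ψ'' t * (2 * f t) - ψ' t * (2 * (ψ' t / (2 * f t)))) / (2 * f t) ^ 2) t := by
      intro t
      rw [hd']
      exact (h2 t).fun_div ((hd t).const_mul 2) (by have := hf0 t; positivity)
    have hconv : ConvexOn ℝ univ f := by
      refine convexOn_of_deriv2_nonneg convex_univ
        (fun t _ => (hd t).continuousAt.continuousWithinAt)
        (fun t _ => (hd t).differentiableAt.differentiableWithinAt)
        (fun t _ => (hdd t).differentiableAt.differentiableWithinAt) (fun t _ => ?_)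
      have e : deriv^[2] f t = deriv (deriv f) t := rfl
      rw [e, (hdd t).deriv]
      have hft := hf0 t
      have e2 : ψ'' t * (2 * f t) - ψ' t * (2 * (ψ' t / (2 * f t))) =
          (2 * f t ^ 2 * ψ'' t - ψ' t ^ 2) / f t := by
        field_simp
      rw [e2, hf2]
      have h4 : 0 ≤ 2 * (ψ t + ε) * ψ'' t - ψ' t ^ 2 := by
        have := h3 t
        have := mul_nonneg hε.le (hn t)
        linarith
      positivity
    have h5 := hconv.2 (mem_univ 0) (mem_univ t) (by linarith : 0 ≤ 1 - r) hr0 (by ring)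
    simp only [smul_eq_mul, mul_zero, zero_add] at h5
    have h6 : f 0 = √ε := by rw [hf]; simp [hz]
    rw [h6] at h5
    have h7 := pow_le_pow_left₀ (hf0 (r * t)).le h5 2
    rw [hf2] at h7
    exact h7
  have hlim : Tendsto (fun ε : ℝ => ((1 - r) * √ε + r * √(ψ t + ε)) ^ 2) (𝓝[>] 0)
      (𝓝 (((1 - r) * √0 + r * √(ψ t + 0)) ^ 2)) := by
    have hc : Continuous fun ε : ℝ => ((1 - r) * √ε + r * √(ψ t + ε)) ^ 2 := by fun_prop
    exact hc.continuousAt.tendsto.mono_left nhdsWithin_le_nhds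
  have hle : ψ (r * t) ≤ ((1 - r) * √0 + r * √(ψ t + 0)) ^ 2 := by
    refine ge_of_tendsto hlim ?_
    filter_upwards [self_mem_nhdsWithin] with ε hε
    have := key ε hε
    have : (0 : ℝ) < ε := hε
    linarith
  rw [Real.sqrt_zero, mul_zero, zero_add, add_zero, mul_pow, Real.sq_sqrt (h0 t)] at hle
  exact hle

end Pool.Agent.V11198
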