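import Mathlib
import Pool.Agent.Helper186.LocalFlow

/-! Second order equations on manifolds: uniqueness and smooth dependence. -/

set_option maxSynthPendingDepth 3

open scoped ContDiff Topology Manifold
open Set Filter

noncomputable section

namespace Pool.Agent.V11198

variable {E : Type*} [NormedAddCommGroup E] [NormedSpace ℝ E]
  {M : Type*} [TopologicalSpace M] [ChartedSpace E M]

/-- A second order equation on a manifold, in charts. -/
def SmoothSpray (a : M → E × E → E) : Prop :=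
  ∀ q : M, ContDiffOn ℝ ∞ (a q) ((extChartAt 𝓘(ℝ, E) q).target ×ˢ univ)

/-- Solutions of a second order equation. -/
structure ACurve (a : M → E × E → E) (γ : ℝ → M) : Prop where
  smooth : ContMDiff 𝓘(ℝ, ℝ) 𝓘(ℝ, E) ∞ γ
  eq : ∀ q t, γ t ∈ (chartAt E q).source → deriv (deriv (extChartAt 𝓘(ℝ, E) q ∘ γ)) t =
    a q (extChartAt 𝓘(ℝ, E) q (γ t), deriv (extChartAt 𝓘(ℝ, E) q ∘ γ) t)

variable {a : M → E × E → E} {γ : ℝ → M}

variable [IsManifold 𝓘(ℝ, E) ∞ M]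

lemma ACurve.contDiffAt (h : ACurve a γ) {q : M} {t : ℝ} (ht : γ t ∈ (chartAt E q).source) :
    ContDiffAt ℝ ∞ (extChartAt 𝓘(ℝ, E) q ∘ γ) t := by
  rw [← contMDiffAt_iff_contDiffAt]
  exact (contMDiffAt_extChartAt' ht).comp t (h.smooth t)

omit [IsManifold 𝓘(ℝ, E) ∞ M] in
lemma ACurve.ev_source (h : ACurve a γ) {q : M} {t : ℝ} (ht : γ t ∈ (chartAt E q).source) :
    ∀ᶠ s in 𝓝 t, γ s ∈ (chartAt E q).source :=
  h.smooth.continuous.continuousAt.eventually ((chartAt E q).open_source.mem_nhds ht)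

lemma ACurve.hasDerivAt (h : ACurve a γ) {q : M} {t : ℝ} (ht : γ t ∈ (chartAt E q).source) :
    HasDerivAt (extChartAt 𝓘(ℝ, E) q ∘ γ) (deriv (extChartAt 𝓘(ℝ, E) q ∘ γ) t) t :=
  ((h.contDiffAt ht).differentiableAt (by simp)).hasDerivAt

lemma ACurve.contDiffAt_deriv (h : ACurve a γ) {q : M} {t : ℝ}
    (ht : γ t ∈ (chartAt E q).source) :
    ContDiffAt ℝ ∞ (deriv (extChartAt 𝓘(ℝ, E) q ∘ γ)) t := by
  have h1 := ((h.contDiffAt ht).fderiv_right (m := ∞) (by simp)).clm_apply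
    (contDiffAt_const (c := (1 : ℝ)))
  have h2 : deriv (extChartAt 𝓘(ℝ, E) q ∘ γ) =
      fun t => fderiv ℝ (extChartAt 𝓘(ℝ, E) q ∘ γ) t 1 := funext fun t =>
        fderiv_apply_one_eq_deriv.symm
  rw [h2]
  exact h1

lemma ACurve.hasDerivAt_deriv (h : ACurve a γ) {q : M} {t : ℝ}
    (ht : γ t ∈ (chartAt E q).source) :
    HasDerivAt (deriv (extChartAt 𝓘(ℝ, E) q ∘ γ))
      (a q (extChartAt 𝓘(ℝ, E) q (γ t), deriv (extChartAt 𝓘(ℝ, E) q ∘ γ) t)) t := by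
  rw [← h.eq q t ht]
  exact ((h.contDiffAt_deriv ht).differentiableAt (by simp)).hasDerivAt

/-- the field of the first order system -/
def fstField (a : M → E × E → E) (q : M) (s : E × E) : E × E := (s.2, a q s)

omit [IsManifold 𝓘(ℝ, E) ∞ M] in
lemma SmoothSpray.contDiffAt (ha : SmoothSpray a) {q : M} {s : E × E}
    (hs : s.1 ∈ (extChartAt 𝓘(ℝ, E) q).target) : ContDiffAt ℝ ∞ (fstField a q) s := by
  have hopen : IsOpen ((extChartAt 𝓘(ℝ, E) q).target ×ˢ (univ : Set E)) :=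
    (isOpen_extChartAt_target q).prod isOpen_univ
  exact contDiff_snd.contDiffAt.prodMk ((ha q).contDiffAt (hopen.mem_nhds ⟨hs, mem_univ _⟩))

/-- uniqueness against a solution in a chart -/
theorem ACurve.unique_chart [T2Space M] (ha : SmoothSpray a) (h : ACurve a γ) {q : M} {s : Set ℝ}
    (hs : IsOpen s) (hs' : IsPreconnected s) {c : ℝ → E × E}
    (hc : ∀ t ∈ s, HasDerivAt c (fstField a q (c t)) t)
    (hct : ∀ t ∈ s, (c t).1 ∈ (extChartAt 𝓘(ℝ, E) q).target) {t₁ : ℝ} (ht₁ : t₁ ∈ s)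
    (h1 : γ t₁ ∈ (chartAt E q).source)
    (h2 : (extChartAt 𝓘(ℝ, E) q (γ t₁), deriv (extChartAt 𝓘(ℝ, E) q ∘ γ) t₁) = c t₁) :
    ∀ t ∈ s, γ t ∈ (chartAt E q).source ∧
      (extChartAt 𝓘(ℝ, E) q (γ t), deriv (extChartAt 𝓘(ℝ, E) q ∘ γ) t) = c t := by
  set P : ℝ → Prop := fun t => γ t ∈ (chartAt E q).source ∧
      (extChartAt 𝓘(ℝ, E) q (γ t), deriv (extChartAt 𝓘(ℝ, E) q ∘ γ) t) = c t with hP
  -- local uniqueness
  have hloc : ∀ t ∈ s, P t → ∀ᶠ r in 𝓝 t, P r := by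
    rintro t hts ⟨hp1, hp2⟩
    obtain ⟨K, U, hU, hL⟩ := (((ha.contDiffAt (hct t hts)).of_le
      (by simp) : ContDiffAt ℝ 1 (fstField a q) (c t))).exists_lipschitzOnWith
    have e1 : ∀ r, γ r ∈ (chartAt E q).source → HasDerivAt
        (fun r => (extChartAt 𝓘(ℝ, E) q (γ r), deriv (extChartAt 𝓘(ℝ, E) q ∘ γ) r))
        (fstField a q (extChartAt 𝓘(ℝ, E) q (γ r), deriv (extChartAt 𝓘(ℝ, E) q ∘ γ) r)) r :=
      fun r hr => (h.hasDerivAt hr).prodMk (h.hasDerivAt_deriv hr)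
    have e2 : (fun r => (extChartAt 𝓘(ℝ, E) q (γ r), deriv (extChartAt 𝓘(ℝ, E) q ∘ γ) r))
        =ᶠ[𝓝 t] c := by
      refine ODE_solution_unique_of_eventually (v := fun _ => fstField a q) (s := fun _ => U)
        (K := K) (Eventually.of_forall fun _ => hL) ?_ ?_ hp2
      · have hcont : ContinuousAt (fun r => (extChartAt 𝓘(ℝ, E) q (γ r),
            deriv (extChartAt 𝓘(ℝ, E) q ∘ γ) r)) t := (e1 t hp1).continuousAt
        have hU' : U ∈ 𝓝 (extChartAt 𝓘(ℝ, E) q (γ t), deriv (extChartAt 𝓘(ℝ, E) q ∘ γ) t) := by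
          rw [hp2]; exact hU
        filter_upwards [h.ev_source hp1, hcont.preimage_mem_nhds hU'] with r hr1 hr2
        exact ⟨e1 r hr1, hr2⟩
      · filter_upwards [hs.mem_nhds hts, (hc t hts).continuousAt.preimage_mem_nhds hU]
          with r hr1 hr2
        exact ⟨hc r hr1, hr2⟩
    filter_upwards [h.ev_source hp1, e2] with r hr1 hr2
    exact ⟨hr1, hr2⟩
  set u : Set ℝ := {t | ∀ᶠ r in 𝓝 t, P r} with hu
  have huo : IsOpen u := isOpen_setOfPred_eventually_nhds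
  have hsub : s ⊆ u := by
    refine hs'.subset_of_closure_inter_subset huo ⟨t₁, ht₁, hloc t₁ ht₁ ⟨h1, h2⟩⟩ ?_
    rintro t ⟨htc, hts⟩
    -- `P` holds frequently near `t`
    have hfreq : ∃ᶠ r in 𝓝 t, P r := by
      rw [mem_closure_iff_frequently] at htc
      exact htc.mono fun r hr => hr.self_of_nhds
    have hcc : ContinuousAt c t := (hc t hts).continuousAt
    have hsymm : ContinuousAt (fun r => (extChartAt 𝓘(ℝ, E) q).symm (c r).1) t :=
      ContinuousAt.comp (f := fun r => (c r).1) (continuousAt_extChartAt_symm'' (hct t hts)) hcc.fst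
    have hγt : γ t = (extChartAt 𝓘(ℝ, E) q).symm (c t).1 := by
      by_contra hne
      have h3 := (h.smooth.continuous.continuousAt (x := t)).prodMk hsymm
      have h4 : {p : M × M | p.1 ≠ p.2} ∈ 𝓝 (γ t, (extChartAt 𝓘(ℝ, E) q).symm (c t).1) :=
        (isOpen_ne_fun continuous_fst continuous_snd).mem_nhds hne
      have h5 := h3.eventually h4
      refine (hfreq.and_eventually h5).exists.elim ?_
      rintro r ⟨⟨hr1, hr2⟩, hr3⟩
      apply hr3
      simp only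
      rw [← hr2]
      simp only
      rw [(extChartAt 𝓘(ℝ, E) q).left_inv (by rwa [extChartAt_source])]
    have hsrc : γ t ∈ (chartAt E q).source := by
      rw [hγt, ← extChartAt_source 𝓘(ℝ, E)]
      exact (extChartAt 𝓘(ℝ, E) q).map_target (hct t hts)
    have hst : (extChartAt 𝓘(ℝ, E) q (γ t), deriv (extChartAt 𝓘(ℝ, E) q ∘ γ) t) = c t := by
      by_contra hne
      have h3 : ContinuousAt (fun r => ((extChartAt 𝓘(ℝ, E) q (γ r),
          deriv (extChartAt 𝓘(ℝ, E) q ∘ γ) r), c r)) t :=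
        ((h.hasDerivAt hsrc).continuousAt.prodMk (h.hasDerivAt_deriv hsrc).continuousAt).prodMk hcc
      have h4 : {p : (E × E) × (E × E) | p.1 ≠ p.2} ∈ 𝓝 ((extChartAt 𝓘(ℝ, E) q (γ t),
          deriv (extChartAt 𝓘(ℝ, E) q ∘ γ) t), c t) :=
        (isOpen_ne_fun continuous_fst continuous_snd).mem_nhds hne
      have h5 := h3.eventually h4
      refine (hfreq.and_eventually h5).exists.elim ?_
      rintro r ⟨⟨hr1, hr2⟩, hr3⟩
      exact hr3 hr2
    exact hloc t hts ⟨hsrc, hst⟩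
  intro t ht
  exact (hsub ht).self_of_nhds

/-! ### smooth dependence -/

section family

variable {P : Type*} [NormedAddCommGroup P] [NormedSpace ℝ P]

/-- the state in a chart -/
def st (γ : P → ℝ → M) (q : M) (z : P × ℝ) : E × E :=
  (extChartAt 𝓘(ℝ, E) q (γ z.1 z.2), deriv (extChartAt 𝓘(ℝ, E) q ∘ γ z.1) z.2)

/-- smooth dependence at a point -/
structure Good (E : Type*) [NormedAddCommGroup E] [NormedSpace ℝ E] {M : Type*}
    [TopologicalSpace M] [ChartedSpace E M] {P : Type*} [NormedAddCommGroup P] [NormedSpace ℝ P]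
    (γ : P → ℝ → M) (n : ℕ) (q : M) (z : P × ℝ) : Prop where
  src : γ z.1 z.2 ∈ (chartAt E q).source
  cont : ContinuousAt (fun z : P × ℝ => γ z.1 z.2) z
  smooth : ContDiffAt ℝ n (st (E := E) γ q) z

variable {γ : P → ℝ → M}

theorem prop_step [FiniteDimensional ℝ E] [T2Space M] (ha : SmoothSpray a)
    (hγ : ∀ v, ACurve a (γ v)) {n : ℕ} (hn : n ≠ 0) {q : M} {s₀ : E × E}
    (hs₀ : s₀.1 ∈ (extChartAt 𝓘(ℝ, E) q).target) :
    ∃ ε > 0, ∃ N : Set (E × E), IsOpen N ∧ s₀ ∈ N ∧ ∀ (v₀ : P) (t₁ : ℝ),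
      (∀ᶠ v in 𝓝 v₀, γ v t₁ ∈ (chartAt E q).source) →
      ContDiffAt ℝ n (fun v => st (E := E) γ q (v, t₁)) v₀ → st (E := E) γ q (v₀, t₁) ∈ N →
      ∀ τ, |τ - t₁| < ε → Good E γ n q (v₀, τ) := by
  obtain ⟨r, hr, ε₀, hε₀, α, hα0, hαd, hαc⟩ := Pool.Agent.Helper186.exists_local_flow hn
    ((ha.contDiffAt hs₀).of_le (by exact_mod_cast le_top) : ContDiffAt ℝ n (fstField a q) s₀)
  have hαs : α (s₀, 0) = s₀ := hα0 s₀ (Metric.mem_closedBall_self hr.le)
  have h1 : ∀ᶠ z in 𝓝 (s₀, (0 : ℝ)), ContDiffAt ℝ n α z ∧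
      (α z).1 ∈ (extChartAt 𝓘(ℝ, E) q).target := by
    refine (hαc.eventually (by simp)).and ?_
    have h2 : ContinuousAt (fun z => (α z).1) (s₀, (0 : ℝ)) := hαc.continuousAt.fst
    apply h2.eventually
    simp only [hαs]
    exact (isOpen_extChartAt_target q).mem_nhds hs₀
  obtain ⟨u, v, hu, hsu, hv, h0v, huv⟩ := mem_nhds_prod_iff'.1 h1
  obtain ⟨ε₁, hε₁, hεv⟩ := Metric.isOpen_iff.1 hv 0 h0v
  refine ⟨min ε₀ ε₁, lt_min hε₀ hε₁, u ∩ Metric.ball s₀ r, hu.inter Metric.isOpen_ball,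
    ⟨hsu, Metric.mem_ball_self hr⟩, ?_⟩
  intro v₀ t₁ hsrc hsm hmem τ hτ
  set ε := min ε₀ ε₁ with hε
  have hεpos : 0 < ε := lt_min hε₀ hε₁
  have hev : ∀ᶠ v in 𝓝 v₀, γ v t₁ ∈ (chartAt E q).source ∧
      st (E := E) γ q (v, t₁) ∈ u ∩ Metric.ball s₀ r :=
    hsrc.and (hsm.continuousAt.eventually ((hu.inter Metric.isOpen_ball).mem_nhds hmem))
  have key : ∀ v, γ v t₁ ∈ (chartAt E q).source → st γ q (v, t₁) ∈ u ∩ Metric.ball s₀ r →
      ∀ τ ∈ Ioo (t₁ - ε) (t₁ + ε), γ v τ ∈ (chartAt E q).source ∧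
        st γ q (v, τ) = α (st γ q (v, t₁), τ - t₁) := by
    intro v hv1 hv2 τ hτ
    have hv3 : st γ q (v, t₁) ∈ Metric.closedBall s₀ r := Metric.ball_subset_closedBall hv2.2
    refine (hγ v).unique_chart ha isOpen_Ioo isPreconnected_Ioo
      (c := fun τ => α (st γ q (v, t₁), τ - t₁)) ?_ ?_ (t₁ := t₁)
      ⟨by linarith, by linarith⟩ hv1 ?_ τ hτ
    · intro t ht
      have h3 : t - t₁ ∈ Ioo (-ε₀) ε₀ :=
        ⟨by linarith [ht.1, min_le_left ε₀ ε₁], by linarith [ht.2, min_le_left ε₀ ε₁]⟩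
      exact (hαd _ hv3 (t - t₁) h3).comp_sub_const t t₁
    · intro t ht
      have h3 : t - t₁ ∈ Metric.ball (0 : ℝ) ε₁ := by
        rw [Metric.mem_ball, dist_zero_right, Real.norm_eq_abs, abs_lt]
        exact ⟨by linarith [ht.1, min_le_right ε₀ ε₁], by linarith [ht.2, min_le_right ε₀ ε₁]⟩
      exact (huv ⟨hv2.1, hεv h3⟩ : (_, _) ∈ _).2
    · simp only [sub_self]
      rw [hα0 _ hv3]
      rfl
  have hτs : τ ∈ Ioo (t₁ - ε) (t₁ + ε) := by
    rw [abs_lt] at hτ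
    exact ⟨by linarith [hτ.1], by linarith [hτ.2]⟩
  have hball : (st γ q (v₀, t₁), τ - t₁) ∈ u ×ˢ v := by
    refine ⟨hmem.1, hεv ?_⟩
    rw [Metric.mem_ball, dist_zero_right, Real.norm_eq_abs]
    exact lt_of_lt_of_le hτ (min_le_right _ _)
  have hαat : ContDiffAt ℝ n α (st γ q (v₀, t₁), τ - t₁) := (huv hball).1
  have hevz : ∀ᶠ z : P × ℝ in 𝓝 (v₀, τ), γ z.1 z.2 ∈ (chartAt E q).source ∧
      st γ q z = α (st γ q (z.1, t₁), z.2 - t₁) := by
    have e1 : ∀ᶠ z : P × ℝ in 𝓝 (v₀, τ), γ z.1 t₁ ∈ (chartAt E q).source ∧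
        st (E := E) γ q (z.1, t₁) ∈ u ∩ Metric.ball s₀ r :=
      (continuous_fst.tendsto (v₀, τ)).eventually hev
    have e2 : ∀ᶠ z : P × ℝ in 𝓝 (v₀, τ), z.2 ∈ Ioo (t₁ - ε) (t₁ + ε) :=
      (continuous_snd.tendsto (v₀, τ)).eventually (isOpen_Ioo.mem_nhds hτs)
    filter_upwards [e1, e2] with z hz1 hz2
    exact key z.1 hz1.1 hz1.2 z.2 hz2
  have hst : ContDiffAt ℝ n (st (E := E) γ q) (v₀, τ) := by
    have h3 : ContDiffAt ℝ n (fun z : P × ℝ => (st γ q (z.1, t₁), z.2 - t₁)) (v₀, τ) :=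
      (hsm.comp (v₀, τ) contDiffAt_fst).prodMk (contDiffAt_snd.sub contDiffAt_const)
    have h4 : ContDiffAt ℝ n (fun z : P × ℝ => α (st γ q (z.1, t₁), z.2 - t₁)) (v₀, τ) :=
      ContDiffAt.comp (v₀, τ) (g := α) hαat h3
    exact h4.congr_of_eventuallyEq (hevz.mono fun z hz => hz.2)
  refine ⟨(key v₀ hsrc.self_of_nhds hmem τ hτs).1, ?_, hst⟩
  have h5 : ContinuousAt (fun z => (extChartAt 𝓘(ℝ, E) q).symm (st γ q z).1) (v₀, τ) := by
    refine ContinuousAt.comp (f := fun z => (st (E := E) γ q z).1) (continuousAt_extChartAt_symm'' ?_)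
      hst.continuousAt.fst
    refine (extChartAt 𝓘(ℝ, E) q).map_source ?_
    rw [extChartAt_source]
    exact (key v₀ hsrc.self_of_nhds hmem τ hτs).1
  refine h5.congr ?_
  filter_upwards [hevz] with z hz
  simp only [st]
  exact (extChartAt 𝓘(ℝ, E) q).left_inv (by rw [extChartAt_source]; exact hz.1)

/-- change of chart -/
lemma Good.change (hγ : ∀ v, ACurve a (γ v)) {n : ℕ} {q q' : M} {z : P × ℝ} (h : Good E γ n q z)
    (hq : γ z.1 z.2 ∈ (chartAt E q').source) : Good E γ n q' z := by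
  refine ⟨hq, h.cont, ?_⟩
  set ψ : E → E := extChartAt 𝓘(ℝ, E) q' ∘ (extChartAt 𝓘(ℝ, E) q).symm with hψ
  have hsrc : ∀ x : M, x ∈ (chartAt E q).source → x ∈ (chartAt E q').source →
      ContDiffAt ℝ ∞ ψ (extChartAt 𝓘(ℝ, E) q x) := by
    intro x hx hx'
    have h1 : extChartAt 𝓘(ℝ, E) q x ∈
        ((extChartAt 𝓘(ℝ, E) q).symm ≫ extChartAt 𝓘(ℝ, E) q').source := by
      rw [PartialEquiv.trans_source, PartialEquiv.symm_source]
      refine ⟨(extChartAt 𝓘(ℝ, E) q).map_source (by rwa [extChartAt_source]), ?_⟩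
      rw [mem_preimage, (extChartAt 𝓘(ℝ, E) q).left_inv (by rwa [extChartAt_source]),
        extChartAt_source]
      exact hx'
    have h2 : ContDiffWithinAt ℝ ∞ ψ (range 𝓘(ℝ, E)) (extChartAt 𝓘(ℝ, E) q x) :=
      contDiffWithinAt_ext_coord_change (I := 𝓘(ℝ, E)) q' q h1
    rwa [ModelWithCorners.range_eq_univ, contDiffWithinAt_univ] at h2
  have hev : ∀ᶠ w : P × ℝ in 𝓝 z, γ w.1 w.2 ∈ (chartAt E q).source ∧
      γ w.1 w.2 ∈ (chartAt E q').source :=
    (h.cont.eventually ((chartAt E q).open_source.mem_nhds h.src)).and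
      (h.cont.eventually ((chartAt E q').open_source.mem_nhds hq))
  have heq : ∀ᶠ w : P × ℝ in 𝓝 z, st γ q' w =
      (ψ (st γ q w).1, fderiv ℝ ψ (st γ q w).1 (st γ q w).2) := by
    filter_upwards [hev] with w hw
    have e1 : extChartAt 𝓘(ℝ, E) q' ∘ γ w.1 =ᶠ[𝓝 w.2] ψ ∘ (extChartAt 𝓘(ℝ, E) q ∘ γ w.1) := by
      filter_upwards [(hγ w.1).ev_source hw.1] with r hr
      simp only [hψ, Function.comp]
      rw [(extChartAt 𝓘(ℝ, E) q).left_inv (by rwa [extChartAt_source])]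
    have e2 : HasDerivAt (ψ ∘ (extChartAt 𝓘(ℝ, E) q ∘ γ w.1))
        (fderiv ℝ ψ (st γ q w).1 (st γ q w).2) w.2 :=
      (((hsrc _ hw.1 hw.2).differentiableAt (by simp)).hasFDerivAt).comp_hasDerivAt w.2
        ((hγ w.1).hasDerivAt hw.1)
    have e3 := (e2.congr_of_eventuallyEq e1).deriv
    have e4 : extChartAt 𝓘(ℝ, E) q' (γ w.1 w.2) = ψ (st γ q w).1 := e1.self_of_nhds
    simp only [st] at e3 e4 ⊢
    rw [e3, e4]
  have h1 : ContDiffAt ℝ ∞ ψ (st γ q z).1 := hsrc _ h.src hq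
  have h2 : ContDiffAt ℝ n (fun w => (ψ (st γ q w).1, fderiv ℝ ψ (st γ q w).1 (st γ q w).2)) z := by
    have h3 : ContDiffAt ℝ n (fun w => (st γ q w).1) z := h.smooth.fst
    have h4 : ContDiffAt ℝ n (fun w => (st γ q w).2) z := h.smooth.snd
    have h5 : ContDiffAt ℝ n ψ (st γ q z).1 := h1.of_le (by exact_mod_cast le_top)
    have h6 : ContDiffAt ℝ n (fderiv ℝ ψ) (st γ q z).1 :=
      (h1.fderiv_right (m := ∞) (by simp)).of_le (by exact_mod_cast le_top)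
    exact (ContDiffAt.comp z (g := ψ) h5 h3).prodMk
      ((ContDiffAt.comp z (g := fderiv ℝ ψ) h6 h3).clm_apply h4)
  exact h2.congr_of_eventuallyEq heq

/-- **Smooth dependence on initial conditions.** -/
theorem good_all [FiniteDimensional ℝ E] [T2Space M] (ha : SmoothSpray a)
    (hγ : ∀ v, ACurve a (γ v)) {p : M} (h0 : ∀ v, γ v 0 = p) {L : P → E} (hL : ContDiff ℝ ∞ L)
    (h1 : ∀ v, deriv (extChartAt 𝓘(ℝ, E) p ∘ γ v) 0 = L v) {n : ℕ} (hn : n ≠ 0) (v₀ : P) (t : ℝ)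
    (q : M) (hq : γ v₀ t ∈ (chartAt E q).source) : Good E γ n q (v₀, t) := by
  set T : Set ℝ := {t | ∀ q, γ v₀ t ∈ (chartAt E q).source → Good E γ n q (v₀, t)} with hT
  -- main step
  have main : ∀ t, ∃ δ > 0, ∀ t₁, |t₁ - t| < δ → t₁ ∈ T → ∀ τ, |τ - t| < δ → τ ∈ T := by
    intro t
    have hsrc : γ v₀ t ∈ (chartAt E (γ v₀ t)).source := mem_chart_source E _
    obtain ⟨ε, hε, N, hN, hsN, hstep⟩ := prop_step ha hγ hn (q := γ v₀ t)
      (s₀ := st γ (γ v₀ t) (v₀, t)) (by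
        refine (extChartAt 𝓘(ℝ, E) _).map_source ?_
        rw [extChartAt_source]
        exact hsrc)
    have hev : ∀ᶠ τ in 𝓝 t, γ v₀ τ ∈ (chartAt E (γ v₀ t)).source ∧
        st γ (γ v₀ t) (v₀, τ) ∈ N := by
      refine ((hγ v₀).ev_source hsrc).and ?_
      have hc : ContinuousAt (fun τ => st γ (γ v₀ t) (v₀, τ)) t :=
        ((hγ v₀).hasDerivAt hsrc).continuousAt.prodMk ((hγ v₀).hasDerivAt_deriv hsrc).continuousAt
      exact hc.eventually (hN.mem_nhds hsN)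
    obtain ⟨δ, hδ, hδ'⟩ := Metric.eventually_nhds_iff.1 hev
    refine ⟨min (ε / 2) δ, lt_min (by linarith) hδ, ?_⟩
    intro t₁ ht₁ htT τ hτ
    have h2 := hδ' (y := t₁) (by
      rw [Real.dist_eq]; exact lt_of_lt_of_le ht₁ (min_le_right _ _))
    have h3 := htT _ h2.1
    have h4 : ∀ᶠ v in 𝓝 v₀, γ v t₁ ∈ (chartAt E (γ v₀ t)).source := by
      have h5 : ContinuousAt (fun v : P => γ v t₁) v₀ :=
        ContinuousAt.comp (f := fun v : P => (v, t₁)) (g := fun z : P × ℝ => γ z.1 z.2)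
          h3.cont (by fun_prop)
      exact h5.eventually ((chartAt E _).open_source.mem_nhds h2.1)
    have h5 : ContDiffAt ℝ n (fun v => st γ (γ v₀ t) (v, t₁)) v₀ :=
      ContDiffAt.comp v₀ (g := st γ (γ v₀ t)) (f := fun v : P => (v, t₁)) h3.smooth (by fun_prop)
    have h6 := hstep v₀ t₁ h4 h5 h2.2 τ (by
      have e1 := lt_of_lt_of_le ht₁ (min_le_left _ _)
      have e2 := lt_of_lt_of_le hτ (min_le_left _ _)
      have e3 : τ - t₁ = (τ - t) - (t₁ - t) := by ring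
      rw [e3]
      refine (abs_sub _ _).trans_lt ?_
      linarith)
    intro q' hq'
    exact h6.change hγ hq'
  have h0T : (0 : ℝ) ∈ T := by
    intro q' hq'
    have hsrc : p ∈ (chartAt E p).source := mem_chart_source E _
    have hs : ∀ v, st γ p (v, 0) = (extChartAt 𝓘(ℝ, E) p p, L v) := by
      intro v
      simp only [st, h0, h1]
    obtain ⟨ε, hε, N, hN, hsN, hstep⟩ := prop_step ha hγ hn (q := p)
      (s₀ := st γ p (v₀, 0)) (by
        rw [hs]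
        refine (extChartAt 𝓘(ℝ, E) _).map_source ?_
        rw [extChartAt_source]
        exact hsrc)
    have h6 := hstep v₀ 0 (Eventually.of_forall fun v => by rw [h0]; exact hsrc) (by
      simp only [hs]
      exact contDiffAt_const.prodMk (hL.contDiffAt.of_le (by exact_mod_cast le_top))) hsN 0
      (by simpa using hε)
    exact h6.change hγ hq'
  have hopen : IsOpen T := by
    rw [Metric.isOpen_iff]
    intro t ht
    obtain ⟨δ, hδ, hδ'⟩ := main t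
    refine ⟨δ, hδ, fun τ hτ => hδ' t (by simpa using hδ) ht τ ?_⟩
    rwa [← Real.dist_eq]
  have hclosed : IsClosed T := by
    rw [← closure_subset_iff_isClosed]
    intro t ht
    obtain ⟨δ, hδ, hδ'⟩ := main t
    obtain ⟨t₁, ht₁, hd⟩ := Metric.mem_closure_iff.1 ht δ hδ
    refine hδ' t₁ ?_ ht₁ t (by simpa using hδ)
    rw [← Real.dist_eq, dist_comm]
    exact hd
  have huniv : T = univ := IsClopen.eq_univ ⟨hclosed, hopen⟩ ⟨0, h0T⟩
  have : t ∈ T := huniv ▸ mem_univ t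
  exact this q hq

theorem contMDiff_family [FiniteDimensional ℝ E] [T2Space M] (ha : SmoothSpray a)
    (hγ : ∀ v, ACurve a (γ v)) {p : M} (h0 : ∀ v, γ v 0 = p) {L : P → E} (hL : ContDiff ℝ ∞ L)
    (h1 : ∀ v, deriv (extChartAt 𝓘(ℝ, E) p ∘ γ v) 0 = L v) :
    ContMDiff 𝓘(ℝ, P × ℝ) 𝓘(ℝ, E) ∞ (fun z : P × ℝ => γ z.1 z.2) := by
  intro z
  rw [contMDiffAt_iff_target]
  have hsrc : γ z.1 z.2 ∈ (chartAt E (γ z.1 z.2)).source := mem_chart_source E _
  refine ⟨(good_all ha hγ h0 hL h1 one_ne_zero z.1 z.2 _ hsrc).cont, ?_⟩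
  rw [contMDiffAt_iff_contDiffAt, contDiffAt_infty]
  intro n
  have h2 := (good_all ha hγ h0 hL h1 (Nat.succ_ne_zero n) z.1 z.2 _ hsrc).smooth.fst
  exact h2.of_le (by exact_mod_cast Nat.le_succ n)

end family

end Pool.Agent.V11198
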