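import Mathlib
import Pool.Agent.V11198.Spray

/-! The exponential map of a complete homogeneous second order equation. -/

set_option maxSynthPendingDepth 3

open scoped ContDiff Topology Manifold
open Set Filter

noncomputable section

namespace Pool.Agent.V11198

variable {E : Type*} [NormedAddCommGroup E] [NormedSpace ℝ E]
  {M : Type*} [TopologicalSpace M] [ChartedSpace E M] [IsManifold 𝓘(ℝ, E) ∞ M]
  {a : M → E × E → E}

/-- global uniqueness -/
theorem ACurve.unique [T2Space M] (ha : SmoothSpray a) {γ₁ γ₂ : ℝ → M} (h₁ : ACurve a γ₁)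
    (h₂ : ACurve a γ₂) {p : M} (e1 : γ₁ 0 = p) (e2 : γ₂ 0 = p)
    (e3 : deriv (extChartAt 𝓘(ℝ, E) p ∘ γ₁) 0 = deriv (extChartAt 𝓘(ℝ, E) p ∘ γ₂) 0) :
    γ₁ = γ₂ := by
  -- local statement
  have hloc : ∀ (q : M) (t : ℝ), γ₂ t = q → γ₁ t = q →
      deriv (extChartAt 𝓘(ℝ, E) q ∘ γ₁) t = deriv (extChartAt 𝓘(ℝ, E) q ∘ γ₂) t →
      ∀ᶠ r in 𝓝 t, γ₁ r = γ₂ r := by
    intro q t hq hq1 hd
    have hsrc2 : γ₂ t ∈ (chartAt E q).source := by rw [hq]; exact mem_chart_source E q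
    have hsrc1 : γ₁ t ∈ (chartAt E q).source := by rw [hq1]; exact mem_chart_source E q
    obtain ⟨δ, hδ, hδ'⟩ := Metric.eventually_nhds_iff_ball.1 (h₂.ev_source hsrc2)
    have hball : Metric.ball t δ = Ioo (t - δ) (t + δ) := Real.ball_eq_Ioo t δ
    have key := h₁.unique_chart ha (q := q) (s := Ioo (t - δ) (t + δ)) isOpen_Ioo
      isPreconnected_Ioo
      (c := fun r => (extChartAt 𝓘(ℝ, E) q (γ₂ r), deriv (extChartAt 𝓘(ℝ, E) q ∘ γ₂) r))
      (fun r hr => by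
        have hr' := hδ' r (hball ▸ hr)
        exact (h₂.hasDerivAt hr').prodMk (h₂.hasDerivAt_deriv hr'))
      (fun r hr => (extChartAt 𝓘(ℝ, E) q).map_source (by
        rw [extChartAt_source]; exact hδ' r (hball ▸ hr)))
      (t₁ := t) ⟨by linarith, by linarith⟩ hsrc1 (by
        rw [hd, hq1, hq])
    filter_upwards [isOpen_Ioo.mem_nhds (show t ∈ Ioo (t - δ) (t + δ) from
      ⟨by linarith, by linarith⟩)] with r hr
    have h3 := key r hr
    have h4 : extChartAt 𝓘(ℝ, E) q (γ₁ r) = extChartAt 𝓘(ℝ, E) q (γ₂ r) := congrArg Prod.fst h3.2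
    exact (extChartAt 𝓘(ℝ, E) q).injOn (by rw [extChartAt_source]; exact h3.1)
      (by rw [extChartAt_source]; exact hδ' r (hball ▸ hr)) h4
  set u : Set ℝ := {t | ∀ᶠ r in 𝓝 t, γ₁ r = γ₂ r} with hu
  have huo : IsOpen u := isOpen_setOfPred_eventually_nhds
  have h0u : (0 : ℝ) ∈ u := hloc p 0 e2 e1 e3
  have hclosed : IsClosed u := by
    rw [← closure_subset_iff_isClosed]
    intro t ht
    rw [mem_closure_iff_frequently] at ht
    have hc1 := h₁.smooth.continuous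
    have hc2 := h₂.smooth.continuous
    have heq : γ₁ t = γ₂ t := by
      by_contra hne
      have h4 : ∀ᶠ r in 𝓝 t, γ₁ r ≠ γ₂ r :=
        (isOpen_ne_fun hc1 hc2).mem_nhds hne
      obtain ⟨r, hr1, hr2⟩ := (ht.and_eventually h4).exists
      exact hr2 (hr1.self_of_nhds)
    have hsrc2 : γ₂ t ∈ (chartAt E (γ₂ t)).source := mem_chart_source E _
    have hsrc1 : γ₁ t ∈ (chartAt E (γ₂ t)).source := by rw [heq]; exact mem_chart_source E _
    refine hloc (γ₂ t) t rfl heq ?_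
    by_contra hne
    have h3 : ContinuousAt (fun r => (deriv (extChartAt 𝓘(ℝ, E) (γ₂ t) ∘ γ₁) r,
        deriv (extChartAt 𝓘(ℝ, E) (γ₂ t) ∘ γ₂) r)) t :=
      (h₁.hasDerivAt_deriv hsrc1).continuousAt.prodMk (h₂.hasDerivAt_deriv hsrc2).continuousAt
    have h4 : {p : E × E | p.1 ≠ p.2} ∈ 𝓝 (deriv (extChartAt 𝓘(ℝ, E) (γ₂ t) ∘ γ₁) t,
        deriv (extChartAt 𝓘(ℝ, E) (γ₂ t) ∘ γ₂) t) :=
      (isOpen_ne_fun continuous_fst continuous_snd).mem_nhds hne
    obtain ⟨r, hr1, hr2⟩ := (ht.and_eventually (h3.eventually h4)).exists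
    refine hr2 ?_
    have h5 : extChartAt 𝓘(ℝ, E) (γ₂ t) ∘ γ₁ =ᶠ[𝓝 r] extChartAt 𝓘(ℝ, E) (γ₂ t) ∘ γ₂ := by
      filter_upwards [hr1] with x hx
      simp only [Function.comp, hx]
    exact h5.deriv_eq
  have huniv : u = univ := IsClopen.eq_univ ⟨hclosed, huo⟩ ⟨0, h0u⟩
  funext t
  have : t ∈ u := huniv ▸ mem_univ t
  exact this.self_of_nhds

/-- scaling of solutions -/
lemma ACurve.scale {γ : ℝ → M} (h : ACurve a γ)
    (hom : ∀ q y w (r : ℝ), a q (y, r • w) = r ^ 2 • a q (y, w)) (r : ℝ) :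
    ACurve a (fun t => γ (r * t)) := by
  have hsm : ContMDiff 𝓘(ℝ, ℝ) 𝓘(ℝ, E) ∞ (fun t : ℝ => γ (r * t)) := by
    refine h.smooth.comp ?_
    exact (contDiff_const.mul contDiff_id).contMDiff
  refine ⟨hsm, fun q t ht => ?_⟩
  have hsrc : ∀ᶠ s in 𝓝 t, γ (r * s) ∈ (chartAt E q).source :=
    hsm.continuous.continuousAt.eventually ((chartAt E q).open_source.mem_nhds ht)
  have h0 : ∀ s : ℝ, HasDerivAt (fun s : ℝ => r * s) r s := fun s => by
    simpa using (hasDerivAt_id s).const_mul r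
  have h1 : ∀ s, γ (r * s) ∈ (chartAt E q).source →
      HasDerivAt (extChartAt 𝓘(ℝ, E) q ∘ fun t => γ (r * t))
        (r • deriv (extChartAt 𝓘(ℝ, E) q ∘ γ) (r * s)) s := fun s hs =>
    HasDerivAt.scomp s (h.hasDerivAt hs) (h0 s)
  have h2 : deriv (extChartAt 𝓘(ℝ, E) q ∘ fun t => γ (r * t)) =ᶠ[𝓝 t]
      fun s => r • deriv (extChartAt 𝓘(ℝ, E) q ∘ γ) (r * s) := by
    filter_upwards [hsrc] with s hs using (h1 s hs).deriv
  have h3 : HasDerivAt (fun s => r • deriv (extChartAt 𝓘(ℝ, E) q ∘ γ) (r * s))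
      (r • r • a q (extChartAt 𝓘(ℝ, E) q (γ (r * t)),
        deriv (extChartAt 𝓘(ℝ, E) q ∘ γ) (r * t))) t :=
    (HasDerivAt.scomp t (h.hasDerivAt_deriv ht) (h0 t)).const_smul r
  rw [h2.deriv_eq, h3.deriv, (h1 t ht).deriv, hom, smul_smul, sq]

section expo

variable {V : Type*} [NormedAddCommGroup V] [NormedSpace ℝ V]

/-- **The exponential map.** -/
theorem exists_expo [FiniteDimensional ℝ E] [T2Space M] (ha : SmoothSpray a)
    (hom : ∀ q y w (r : ℝ), a q (y, r • w) = r ^ 2 • a q (y, w)) (p : M) (L : V →L[ℝ] E)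
    (hcomp : ∀ u : E, ∃ γ : ℝ → M, ACurve a γ ∧ γ 0 = p ∧
      deriv (extChartAt 𝓘(ℝ, E) p ∘ γ) 0 = u) :
    ∃ e : V → M, ContMDiff 𝓘(ℝ, V) 𝓘(ℝ, E) ∞ e ∧ e 0 = p ∧
      (∀ v, ACurve a (fun t : ℝ => e (t • v))) ∧
      (∀ v, deriv (extChartAt 𝓘(ℝ, E) p ∘ fun t : ℝ => e (t • v)) 0 = L v) := by
  choose γ hγ h0 h1 using hcomp
  have hray : ∀ (r : ℝ) (v : V), γ (L (r • v)) = fun t => γ (L v) (r * t) := by
    intro r v
    have hs := (hγ (L v)).scale hom r
    refine (hγ (L (r • v))).unique ha hs (h0 _) (by simp [h0]) ?_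
    rw [h1]
    have hsrc : γ (L v) (r * 0) ∈ (chartAt E p).source := by
      rw [mul_zero, h0]; exact mem_chart_source E p
    have e0 : HasDerivAt (fun s : ℝ => r * s) r 0 := by
      simpa using (hasDerivAt_id (0 : ℝ)).const_mul r
    have e1 : HasDerivAt (extChartAt 𝓘(ℝ, E) p ∘ fun t => γ (L v) (r * t))
        (r • deriv (extChartAt 𝓘(ℝ, E) p ∘ γ (L v)) (r * 0)) 0 :=
      HasDerivAt.scomp 0 ((hγ (L v)).hasDerivAt hsrc) e0
    rw [e1.deriv, mul_zero, h1, map_smul]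
  have hfam : ContMDiff 𝓘(ℝ, V × ℝ) 𝓘(ℝ, E) ∞ (fun z : V × ℝ => γ (L z.1) z.2) :=
    contMDiff_family (γ := fun v => γ (L v)) ha (fun v => hγ (L v)) (fun v => h0 _) L.contDiff
      (fun v => h1 _)
  have hray' : ∀ (v : V) (t : ℝ), γ (L (t • v)) 1 = γ (L v) t := by
    intro v t
    rw [hray t v]
    simp
  refine ⟨fun v => γ (L v) 1, ?_, ?_, ?_, ?_⟩
  · refine hfam.comp (f := fun v : V => (v, (1 : ℝ))) ?_
    exact (contDiff_id.prodMk contDiff_const).contMDiff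
  · have := hray' 0 0
    rw [smul_zero] at this
    simp only
    rw [this, h0]
  · intro v
    have : (fun t : ℝ => γ (L (t • v)) 1) = γ (L v) := funext fun t => hray' v t
    simp only [this]
    exact hγ _
  · intro v
    have : (fun t : ℝ => γ (L (t • v)) 1) = γ (L v) := funext fun t => hray' v t
    simp only [this]
    exact h1 _

end expo

end Pool.Agent.V11198
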