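import Mathlib
import Pool.Agent.V11198.Pull
import Pool.Agent.V11198.Conn
import Pool.Agent.V11198.Conv
import Pool.Agent.V11198.Ray

/-! Gauss lemma and monotonicity for the exponential map. -/

set_option maxSynthPendingDepth 3

open scoped ContDiff Topology Manifold InnerProductSpace
open Set Filter

noncomputable section

namespace Pool.Agent.V11198

lemma cs_form {E : Type*} [NormedAddCommGroup E] [NormedSpace ℝ E] (g : E →L[ℝ] E →L[ℝ] ℝ)
    (hs : ∀ u v, g u v = g v u)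
    (hp : ∀ v, 0 ≤ g v v) (u v : E) : (g u v) ^ 2 ≤ g u u * g v v := by
  have h : ∀ t : ℝ, 0 ≤ g v v * (t * t) + (-2 * g u v) * t + g u u := by
    intro t
    have := hp (u - t • v)
    simp only [map_sub, map_smul, sub_apply, smul_apply, smul_eq_mul] at this
    rw [hs v u] at this
    linarith
  have h1 := discrim_le_zero h
  rw [discrim] at h1
  linarith

lemma slice_hasDerivAt {F : Type*} [NormedAddCommGroup F] [NormedSpace ℝ F] {f : ℝ × ℝ → F}
    {s t : ℝ} (hf : DifferentiableAt ℝ f (s, t)) :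
    HasDerivAt (fun t => f (s, t)) (fderiv ℝ f (s, t) (0, 1)) t := by
  have h : HasDerivAt (fun t : ℝ => ((s, t) : ℝ × ℝ)) ((0, 1) : ℝ × ℝ) t :=
    (hasDerivAt_const t s).prodMk (hasDerivAt_id t)
  exact hf.hasFDerivAt.comp_hasDerivAt t h

variable {E : Type*} [NormedAddCommGroup E] [NormedSpace ℝ E] [FiniteDimensional ℝ E]
  {M : Type*} [TopologicalSpace M] [ChartedSpace E M] [IsManifold 𝓘(ℝ, E) ∞ M]
  {V : Type*} [NormedAddCommGroup V] [InnerProductSpace ℝ V] [FiniteDimensional ℝ V]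

/-- the variation of rays -/
def ry (x w : V) (z : ℝ × ℝ) : V := z.2 • (x + z.1 • w)

omit [FiniteDimensional ℝ V] in
lemma contDiff_ry (x w : V) : ContDiff ℝ ∞ (ry x w) := by
  unfold ry
  fun_prop

omit [FiniteDimensional ℝ V] in
lemma hasFDerivAt_ry (x w : V) (z : ℝ × ℝ) :
    HasFDerivAt (ry x w) (z.2 • ((ContinuousLinearMap.fst ℝ ℝ ℝ).smulRight w) +
      (ContinuousLinearMap.snd ℝ ℝ ℝ).smulRight (x + z.1 • w)) z := by
  have h1 : HasFDerivAt (fun z : ℝ × ℝ => x + z.1 • w)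
      ((ContinuousLinearMap.fst ℝ ℝ ℝ).smulRight w) z :=
    (hasFDerivAt_fst.smul_const w).const_add x
  exact HasFDerivAt.smul (c := fun z : ℝ × ℝ => z.2) hasFDerivAt_snd h1

omit [FiniteDimensional ℝ V] in
lemma fderiv_ry_t (x w : V) (z : ℝ × ℝ) : fderiv ℝ (ry x w) z (0, 1) = x + z.1 • w := by
  rw [(hasFDerivAt_ry x w z).fderiv]
  simp

omit [FiniteDimensional ℝ V] in
lemma fderiv_ry_s (x w : V) (z : ℝ × ℝ) : fderiv ℝ (ry x w) z (1, 0) = z.2 • w := by
  rw [(hasFDerivAt_ry x w z).fderiv]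
  simp

/-- the data: rays are geodesics of a metric with nonpositive curvature -/
structure RayGeo (g : BField E M) (Γ : M → E → E →L[ℝ] E →L[ℝ] E) (e : V → M) : Prop where
  geom : ∀ q : M, LocGeom (extChartAt 𝓘(ℝ, E) q).target (inChart g q) (Γ q)
  smooth : ContMDiff 𝓘(ℝ, V) 𝓘(ℝ, E) ∞ e
  ray : ∀ v : V, ACurve (fun q s => -Γ q s.1 s.2 s.2) (fun t : ℝ => e (t • v))
  zero : ∀ u v, pull e g 0 u v = ⟪u, v⟫_ℝ

namespace RayGeo

variable {g : BField E M} {Γ : M → E → E →L[ℝ] E →L[ℝ] E} {e : V → M} (h : RayGeo g Γ e)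
include h

omit [FiniteDimensional ℝ E] in
lemma gvar (q : M) (x w : V) : GVar (extChartAt 𝓘(ℝ, E) q).target (Γ q)
    {z | e (ry x w z) ∈ (chartAt E q).source} (fun z => (extChartAt 𝓘(ℝ, E) q ∘ e) (ry x w z)) := by
  have hcd : ∀ z, e (ry x w z) ∈ (chartAt E q).source →
      ContDiffAt ℝ ∞ (fun z => (extChartAt 𝓘(ℝ, E) q ∘ e) (ry x w z)) z := fun z hz =>
    ContDiffAt.comp z (g := extChartAt 𝓘(ℝ, E) q ∘ e) (contDiffAt_chart h.smooth hz)
      (contDiff_ry x w).contDiffAt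
  have hopen : IsOpen {z | e (ry x w z) ∈ (chartAt E q).source} :=
    (chartAt E q).open_source.preimage (h.smooth.continuous.comp (contDiff_ry x w).continuous)
  refine ⟨hopen, fun z hz => (hcd z hz).contDiffWithinAt, fun z hz => mem_target hz, ?_⟩
  rintro ⟨s, t⟩ hz
  set c : ℝ × ℝ → E := fun z => (extChartAt 𝓘(ℝ, E) q ∘ e) (ry x w z) with hc
  have hev : ∀ᶠ r in 𝓝 t, e (ry x w (s, r)) ∈ (chartAt E q).source := by
    have h1 : Continuous fun r : ℝ => ((s, r) : ℝ × ℝ) := by fun_prop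
    exact h1.continuousAt.eventually (hopen.mem_nhds hz)
  have h1 : ∀ r, e (ry x w (s, r)) ∈ (chartAt E q).source → HasDerivAt (fun r => c (s, r))
      (fderiv ℝ c (s, r) (0, 1)) r := fun r hr =>
    slice_hasDerivAt ((hcd _ hr).differentiableAt (by simp))
  have h2 : deriv (fun r => c (s, r)) =ᶠ[𝓝 t] fun r => fderiv ℝ c (s, r) (0, 1) := by
    filter_upwards [hev] with r hr using (h1 r hr).deriv
  have h3 : HasDerivAt (fun r => fderiv ℝ c (s, r) (0, 1))
      (fderiv ℝ (fun z => fderiv ℝ c z (0, 1)) (s, t) (0, 1)) t := by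
    apply slice_hasDerivAt (f := fun z => fderiv ℝ c z (0, 1))
    exact ((((hcd _ hz).fderiv_right (m := ∞) (by simp)).clm_apply
      contDiffAt_const)).differentiableAt (by simp)
  have h4 := (h.ray (x + s • w)).eq q t hz
  have e1 : extChartAt 𝓘(ℝ, E) q ∘ (fun t : ℝ => e (t • (x + s • w))) = fun r => c (s, r) := rfl
  rw [e1, h2.deriv_eq, h3.deriv, (h1 t hz).deriv] at h4
  exact h4

omit [FiniteDimensional ℝ E] in
lemma chain (q : M) (x w : V) {z : ℝ × ℝ} (hz : e (ry x w z) ∈ (chartAt E q).source) (ξ : ℝ × ℝ) :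
    fderiv ℝ (fun z => (extChartAt 𝓘(ℝ, E) q ∘ e) (ry x w z)) z ξ =
      fderiv ℝ (extChartAt 𝓘(ℝ, E) q ∘ e) (ry x w z) (fderiv ℝ (ry x w) z ξ) := by
  have h1 := ((contDiffAt_chart h.smooth hz).differentiableAt (by simp)).hasFDerivAt.comp z
    ((contDiff_ry x w).differentiable (by simp) z).hasFDerivAt
  have h2 : HasFDerivAt (fun z => (extChartAt 𝓘(ℝ, E) q ∘ e) (ry x w z)) _ z := h1
  rw [h2.fderiv]
  rfl

/-- the pull back metric is smooth -/
lemma smooth_pull : ContDiff ℝ ∞ (pull e g) :=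
  contDiff_pull h.smooth (fun q => (h.geom q).smoothG)

omit [FiniteDimensional ℝ E] in
lemma local_eq (q : M) (x w : V) {z : ℝ × ℝ} (hz : e (ry x w z) ∈ (chartAt E q).source)
    (ξ η : ℝ × ℝ) :
    pull e g (ry x w z) (fderiv ℝ (ry x w) z ξ) (fderiv ℝ (ry x w) z η) =
      inChart g q ((extChartAt 𝓘(ℝ, E) q ∘ e) (ry x w z))
        (fderiv ℝ (fun z => (extChartAt 𝓘(ℝ, E) q ∘ e) (ry x w z)) z ξ)
        (fderiv ℝ (fun z => (extChartAt 𝓘(ℝ, E) q ∘ e) (ry x w z)) z η) := by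
  rw [pull_eq h.smooth g hz, h.chain q x w hz, h.chain q x w hz]

/-- the function attached to two directions -/
lemma ev_eq (q : M) (x w : V) {z : ℝ × ℝ} (hz : e (ry x w z) ∈ (chartAt E q).source)
    (ξ η : ℝ × ℝ) :
    (fun z => pull e g (ry x w z) (fderiv ℝ (ry x w) z ξ) (fderiv ℝ (ry x w) z η)) =ᶠ[𝓝 z]
      fun z => inChart g q ((extChartAt 𝓘(ℝ, E) q ∘ e) (ry x w z))
        (fderiv ℝ (fun z => (extChartAt 𝓘(ℝ, E) q ∘ e) (ry x w z)) z ξ)
        (fderiv ℝ (fun z => (extChartAt 𝓘(ℝ, E) q ∘ e) (ry x w z)) z η) := by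
  filter_upwards [(h.gvar q x w).isOpen.mem_nhds hz] with z' hz'
  exact h.local_eq q x w hz' ξ η

/-- the functions are smooth -/
lemma smooth_fun (x w : V) (ξ η : ℝ × ℝ) : ContDiff ℝ ∞
    (fun z => pull e g (ry x w z) (fderiv ℝ (ry x w) z ξ) (fderiv ℝ (ry x w) z η)) := by
  have h1 : ContDiff ℝ ∞ (fun z => pull e g (ry x w z)) := h.smooth_pull.comp (contDiff_ry x w)
  have h2 : ∀ ξ : ℝ × ℝ, ContDiff ℝ ∞ (fun z => fderiv ℝ (ry x w) z ξ) := fun ξ =>
    ((contDiff_ry x w).fderiv_right (m := ∞) (by simp)).clm_apply contDiff_const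
  exact (h1.clm_apply (h2 ξ)).clm_apply (h2 η)

/-- energy of the rays -/
lemma energy (x w : V) (s t : ℝ) :
    pull e g (ry x w (s, t)) (x + s • w) (x + s • w) = ‖x + s • w‖ ^ 2 := by
  set N : ℝ × ℝ → ℝ := fun z => pull e g (ry x w z) (fderiv ℝ (ry x w) z (0, 1))
    (fderiv ℝ (ry x w) z (0, 1)) with hN
  have h1 : ∀ z, fderiv ℝ N z (0, 1) = 0 := by
    intro z
    have hz : e (ry x w z) ∈ (chartAt E (e (ry x w z))).source := mem_chart_source E _
    rw [(h.ev_eq _ x w hz (0, 1) (0, 1)).fderiv_eq]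
    exact GVar.L1 (h.geom _) (h.gvar _ x w) hz
  have h2 : ∀ t, HasDerivAt (fun t => N (s, t)) 0 t := by
    intro t
    rw [← h1 (s, t)]
    exact slice_hasDerivAt ((h.smooth_fun x w _ _).differentiable (by simp) _)
  have h3 : N (s, t) = N (s, 0) :=
    is_const_of_deriv_eq_zero (fun t => (h2 t).differentiableAt) (fun t => (h2 t).deriv) t 0
  simp only [hN, fderiv_ry_t] at h3
  rw [h3]
  have h4 : ry x w (s, 0) = 0 := by simp [ry]
  rw [h4, h.zero, real_inner_self_eq_norm_sq]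

/-- **Gauss lemma** -/
theorem gauss (x w : V) : pull e g x x w = ⟪x, w⟫_ℝ := by
  set N : ℝ × ℝ → ℝ := fun z => pull e g (ry x w z) (fderiv ℝ (ry x w) z (0, 1))
    (fderiv ℝ (ry x w) z (0, 1)) with hN
  set P : ℝ × ℝ → ℝ := fun z => pull e g (ry x w z) (fderiv ℝ (ry x w) z (0, 1))
    (fderiv ℝ (ry x w) z (1, 0)) with hP
  have hNe : N = fun z => ‖x + z.1 • w‖ ^ 2 := by
    funext z
    simp only [hN, fderiv_ry_t]
    exact h.energy x w z.1 z.2
  have h1 : ∀ z, fderiv ℝ P z (0, 1) = 1 / 2 * fderiv ℝ N z (1, 0) := by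
    intro z
    have hz : e (ry x w z) ∈ (chartAt E (e (ry x w z))).source := mem_chart_source E _
    rw [(h.ev_eq _ x w hz (0, 1) (1, 0)).fderiv_eq, (h.ev_eq _ x w hz (0, 1) (0, 1)).fderiv_eq]
    exact GVar.L2 (h.geom _) (h.gvar _ x w) hz
  have h2 : ∀ t : ℝ, fderiv ℝ N (0, t) (1, 0) = 2 * ⟪x, w⟫_ℝ := by
    intro t
    have e1 : HasFDerivAt (fun z : ℝ × ℝ => x + z.1 • w)
        ((ContinuousLinearMap.fst ℝ ℝ ℝ).smulRight w) (0, t) :=
      (hasFDerivAt_fst.smul_const w).const_add x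
    have e2 := e1.norm_sq
    rw [hNe, e2.fderiv]
    simp
  have h3 : ∀ t : ℝ, HasDerivAt (fun t => P (0, t) - t * ⟪x, w⟫_ℝ) 0 t := by
    intro t
    have e1 : HasDerivAt (fun t => P (0, t)) (fderiv ℝ P (0, t) (0, 1)) t :=
      slice_hasDerivAt ((h.smooth_fun x w _ _).differentiable (by simp) _)
    have e2 := e1.fun_sub ((hasDerivAt_id' t).mul_const ⟪x, w⟫_ℝ)
    refine e2.congr_deriv ?_
    rw [h1, h2]
    ring
  have h4 : P (0, 1) - 1 * ⟪x, w⟫_ℝ = P (0, 0) - 0 * ⟪x, w⟫_ℝ :=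
    is_const_of_deriv_eq_zero (fun t => (h3 t).differentiableAt) (fun t => (h3 t).deriv) 1 0
  simp only [hP, fderiv_ry_t, fderiv_ry_s] at h4
  simp [ry] at h4
  linarith

/-- **Monotonicity** -/
theorem mono (x w : V) (r : ℝ) (hr0 : 0 ≤ r) (hr1 : r ≤ 1) :
    pull e g (r • x) w w ≤ pull e g x w w := by
  set P : ℝ × ℝ → ℝ := fun z => pull e g (ry x w z) (fderiv ℝ (ry x w) z (1, 0))
    (fderiv ℝ (ry x w) z (1, 0)) with hP
  have hPs : ContDiff ℝ ∞ P := h.smooth_fun x w _ _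
  have hP0 : ∀ t : ℝ, P (0, t) = t ^ 2 * pull e g (t • x) w w := by
    intro t
    simp only [hP, fderiv_ry_s]
    simp [ry]
    ring
  have hP' : ContDiff ℝ ∞ (fun z => fderiv ℝ P z (0, 1)) :=
    (hPs.fderiv_right (m := ∞) (by simp)).clm_apply contDiff_const
  have h1 : ∀ t : ℝ, HasDerivAt (fun t => P (0, t)) (fderiv ℝ P (0, t) (0, 1)) t := fun t =>
    slice_hasDerivAt (hPs.differentiable (by simp) _)
  have h2 : ∀ t : ℝ, HasDerivAt (fun t => fderiv ℝ P (0, t) (0, 1))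
      (fderiv ℝ (fun z => fderiv ℝ P z (0, 1)) (0, t) (0, 1)) t := fun t =>
    slice_hasDerivAt (f := fun z => fderiv ℝ P z (0, 1)) (hP'.differentiable (by simp) _)
  -- the local information
  have key : ∀ z : ℝ × ℝ, 0 ≤ P z ∧ 0 ≤ fderiv ℝ (fun z => fderiv ℝ P z (0, 1)) z (0, 1) ∧
      (fderiv ℝ P z (0, 1)) ^ 2 ≤ 2 * P z * fderiv ℝ (fun z => fderiv ℝ P z (0, 1)) z (0, 1) := by
    intro z
    set q := e (ry x w z) with hq
    have hz : e (ry x w z) ∈ (chartAt E q).source := mem_chart_source E _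
    set c : ℝ × ℝ → E := fun z => (extChartAt 𝓘(ℝ, E) q ∘ e) (ry x w z) with hc
    have hG := h.geom q
    have hV : GVar (extChartAt 𝓘(ℝ, E) q).target (Γ q)
      {z | e (ry x w z) ∈ (chartAt E q).source} c := h.gvar q x w
    have e0 : P =ᶠ[𝓝 z] fun z => inChart g q (c z) (cs c z) (cs c z) :=
      h.ev_eq q x w hz (1, 0) (1, 0)
    have e1 : ∀ z', e (ry x w z') ∈ (chartAt E q).source → fderiv ℝ P z' (0, 1) =
        2 * inChart g q (c z') (cZ (Γ q) c z') (cs c z') := by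
      intro z' hz'
      have e2 : P =ᶠ[𝓝 z'] fun z => inChart g q (c z) (cs c z) (cs c z) :=
        h.ev_eq q x w hz' (1, 0) (1, 0)
      rw [e2.fderiv_eq]
      exact GVar.L3 hG hV hz'
    have e3 : (fun z => fderiv ℝ P z (0, 1)) =ᶠ[𝓝 z]
        fun z => 2 * inChart g q (c z) (cZ (Γ q) c z) (cs c z) := by
      filter_upwards [hV.isOpen.mem_nhds hz] with z' hz' using e1 z' hz'
    have hmem : c z ∈ (extChartAt 𝓘(ℝ, E) q).target := hV.mem z hz
    have hdiff : DifferentiableAt ℝ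
        (fun z => inChart g q (c z) (cZ (Γ q) c z) (cs c z)) z := by
      have d1 : ContDiffAt ℝ ∞ (fun z => inChart g q (c z)) z :=
        ContDiffAt.comp z (hG.smoothG.contDiffAt (hG.isOpen.mem_nhds hmem)) (hV.cda hz)
      exact ((d1.clm_apply (GVar.cZ_cda hG hV hz)).clm_apply (hV.cs_cda hz)).differentiableAt
        (by simp)
    have e4 : fderiv ℝ (fun z => fderiv ℝ P z (0, 1)) z (0, 1) =
        2 * fderiv ℝ (fun z => inChart g q (c z) (cZ (Γ q) c z) (cs c z)) z (0, 1) := by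
      rw [e3.fderiv_eq, fderiv_const_mul hdiff]
      simp
    have e5 := GVar.L4 hG hV hz
    have e6 := hG.nonneg _ hmem (cZ (Γ q) c z)
    have e7 := hG.nonneg _ hmem (cs c z)
    have e8 := cs_form (inChart g q (c z)) (hG.symmG _ hmem) (hG.nonneg _ hmem)
      (cZ (Γ q) c z) (cs c z)
    have e9 : P z = inChart g q (c z) (cs c z) (cs c z) := e0.self_of_nhds
    rw [e4, e1 z hz, e9]
    refine ⟨e7, by linarith, ?_⟩
    have e10 := mul_le_mul_of_nonneg_right e5 e7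
    nlinarith
  have h3 : ∀ r : ℝ, 0 ≤ r → r ≤ 1 → ∀ t, P (0, r * t) ≤ r ^ 2 * P (0, t) := fun r hr hr' t =>
    sq_homog h1 h2 (fun t => (key (0, t)).1) (fun t => (key (0, t)).2.1)
      (fun t => (key (0, t)).2.2) (by rw [hP0]; simp) hr hr' t
  have hpos : ∀ r : ℝ, 0 < r → r ≤ 1 → pull e g (r • x) w w ≤ pull e g x w w := by
    intro r hr hr1
    have h4 := h3 r hr.le hr1 1
    rw [hP0, hP0] at h4
    simp only [mul_one, one_pow, one_mul, one_smul] at h4
    exact le_of_mul_le_mul_left h4 (by positivity)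
  rcases hr0.eq_or_lt with h0 | h0
  · rw [← h0]
    have hcont : Continuous fun r : ℝ => pull e g (r • x) w w := by
      have c1 : Continuous fun r : ℝ => pull e g (r • x) :=
        h.smooth_pull.continuous.comp (by fun_prop)
      exact (c1.clm_apply continuous_const).clm_apply continuous_const
    have hlim : Tendsto (fun r : ℝ => pull e g (r • x) w w) (𝓝[>] 0)
        (𝓝 (pull e g ((0 : ℝ) • x) w w)) :=
      hcont.continuousAt.tendsto.mono_left nhdsWithin_le_nhds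
    refine le_of_tendsto hlim ?_
    have : Ioo (0 : ℝ) 1 ∈ 𝓝[>] (0 : ℝ) := Ioo_mem_nhdsGT (by norm_num)
    filter_upwards [this] with r hr using hpos r hr.1 hr.2.le
  · exact hpos r h0 hr1

theorem lower (x w : V) : ‖w‖ ^ 2 ≤ pull e g x w w := by
  have h1 := h.mono x w 0 le_rfl zero_le_one
  rw [zero_smul, h.zero, real_inner_self_eq_norm_sq] at h1
  exact h1

end RayGeo

end Pool.Agent.V11198
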