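import Mathlib
import Pool.Agent.V11198.Poinc

/-! Radially expanding compatible structures on a Euclidean space are standard. -/

set_option maxSynthPendingDepth 3

open scoped ContDiff Topology InnerProductSpace
open Set Filter MeasureTheory

noncomputable section

namespace Pool.Agent.V11198

variable {E : Type} [NormedAddCommGroup E] [InnerProductSpace ℝ E]

/-- A closed form `σ` and a compatible metric `G` on an inner product space for which rays are
geodesics (Gauss lemma), and the metric expands along rays. -/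
structure Rad (σ G : E → E →L[ℝ] E →L[ℝ] ℝ) (J : E → E → E) : Prop where
  form : CForm σ
  comp : ∀ x u v, σ x u (J x v) = G x u v
  JJ : ∀ x v, J x (J x v) = -v
  GJ : ∀ x v, G x (J x v) (J x v) = G x v v
  symm : ∀ x u v, G x u v = G x v u
  lower : ∀ x v, ‖v‖ ^ 2 ≤ G x v v
  gauss : ∀ x v, G x x v = ⟪x, v⟫_ℝ
  zero : ∀ u v, G 0 u v = ⟪u, v⟫_ℝ
  mono : ∀ x v, ∀ t : ℝ, 0 ≤ t → t ≤ 1 → G (t • x) v v ≤ G x v v

variable {σ G : E → E →L[ℝ] E →L[ℝ] ℝ} {J : E → E → E}

lemma cauchy_schwarz_form (g : E →L[ℝ] E →L[ℝ] ℝ) (hs : ∀ u v, g u v = g v u)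
    (hp : ∀ v, 0 ≤ g v v) (u v : E) : (g u v) ^ 2 ≤ g u u * g v v := by
  have h : ∀ t : ℝ, 0 ≤ g v v * (t * t) + (-2 * g u v) * t + g u u := by
    intro t
    have := hp (u - t • v)
    simp only [map_sub, map_smul, sub_apply, smul_apply, smul_eq_mul] at this
    rw [hs v u] at this
    linarith
  have h1 := discrim_le_zero h
  rw [discrim] at h1
  linarith

namespace Rad

variable (h : Rad σ G J)
include h

lemma nonneg (x v : E) : 0 ≤ G x v v := (sq_nonneg _).trans (h.lower x v)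

lemma csG (x u v : E) : (G x u v) ^ 2 ≤ G x u u * G x v v :=
  cauchy_schwarz_form (G x) (h.symm x) (h.nonneg x) u v

lemma cs (x u v : E) : (σ x u v) ^ 2 ≤ G x u u * G x v v := by
  have h1 : σ x u v = -G x u (J x v) := by
    rw [← h.comp, h.JJ, map_neg, neg_neg]
  rw [h1, neg_sq, ← h.GJ x v]
  exact h.csG x u (J x v)

lemma norm_le (x v : E) : ‖v‖ ≤ √(G x v v) := Real.le_sqrt_of_sq_le (h.lower x v)

lemma norm_J_le (x v : E) : ‖J x v‖ ≤ √(G x v v) := by
  rw [← h.GJ x v]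
  exact h.norm_le x (J x v)

lemma gauss' (s : ℝ) (x v : E) : G (s • x) x v = ⟪x, v⟫_ℝ := by
  rcases eq_or_ne s 0 with rfl | hs
  · rw [zero_smul, h.zero]
  · have h1 := h.gauss (s • x) v
    rw [map_smul, smul_apply, smul_eq_mul, real_inner_smul_left] at h1
    exact mul_left_cancel₀ hs h1

/-- the radial derivative is nonnegative on complex lines -/
lemma rad_nonneg (x v : E) : 0 ≤ fderiv ℝ σ x x v (J x v) := by
  set f : ℝ → ℝ := fun t => σ (t • x) v (J x v) with hf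
  have hd : HasDerivAt f (fderiv ℝ σ x x v (J x v)) 1 := by
    have := h.form.hasDerivAt_ray x v (J x v) 1
    rwa [one_smul] at this
  have h1 : f 1 = G x v v := by
    rw [hf]
    simp only [one_smul]
    exact h.comp x v v
  have hle : ∀ t : ℝ, 0 ≤ t → t ≤ 1 → f t ≤ f 1 := by
    intro t h0 ht
    rw [h1]
    have h2 := h.cs (t • x) v (J x v)
    have h3 := h.mono x v t h0 ht
    have h4 := h.mono x (J x v) t h0 ht
    rw [h.GJ x v] at h4
    have h5 := h.nonneg (t • x) v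
    have h6 := h.nonneg (t • x) (J x v)
    have h7 := h.nonneg x v
    have h8 : (f t) ^ 2 ≤ (G x v v) ^ 2 := by
      refine h2.trans ?_
      rw [sq]
      exact mul_le_mul h3 h4 h6 h7
    exact (le_abs_self _).trans (abs_le_of_sq_le_sq h8 h7)
  have hs := hasDerivAt_iff_tendsto_slope.1 hd
  have hs' : Tendsto (slope f 1) (𝓝[<] 1) (𝓝 (fderiv ℝ σ x x v (J x v))) :=
    hs.mono_left (nhdsWithin_mono _ (fun t ht => ne_of_lt ht))
  refine ge_of_tendsto hs' ?_
  have : Ioo (0 : ℝ) 1 ∈ 𝓝[<] (1 : ℝ) := Ioo_mem_nhdsLT (by norm_num)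
  filter_upwards [this] with t ht
  rw [slope_def_field]
  exact div_nonneg_of_nonpos (by linarith [hle t ht.1.le ht.2.le]) (by linarith [ht.2])

end Rad

/-- the contracted form `½ L_X σ` -/
def sig1 (σ : E → E →L[ℝ] E →L[ℝ] ℝ) (x : E) : E →L[ℝ] E →L[ℝ] ℝ :=
  σ x + (1 / 2 : ℝ) • fderiv ℝ σ x x

lemma sig1_apply (x u v : E) :
    sig1 σ x u v = σ x u v + 1 / 2 * fderiv ℝ σ x x u v := by
  simp [sig1]

lemma contDiff_sig1 (hs : ContDiff ℝ ∞ σ) : ContDiff ℝ ∞ (sig1 σ) :=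
  hs.add (((hs.fderiv_right (m := ∞) (by simp)).clm_apply contDiff_id).const_smul (1 / 2 : ℝ))

/-! ### Step A -/

section stepA

/-- the path of primitives -/
def pathA (a b : E → E →L[ℝ] ℝ) (θ : ℝ → ℝ) (p : ℝ × E) : E →L[ℝ] ℝ := a p.2 + θ p.1 • b p.2

lemma contDiff_pathA {a b : E → E →L[ℝ] ℝ} {θ : ℝ → ℝ} (ha : ContDiff ℝ ∞ a)
    (hb : ContDiff ℝ ∞ b) (hθ : ContDiff ℝ ∞ θ) : ContDiff ℝ ∞ (pathA a b θ) :=
  (ha.comp contDiff_snd).add ((hθ.comp contDiff_fst).smul (hb.comp contDiff_snd))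

lemma fderiv_pathA {a b : E → E →L[ℝ] ℝ} {θ : ℝ → ℝ} (ha : Differentiable ℝ a)
    (hb : Differentiable ℝ b) (hθ : Differentiable ℝ θ) (t : ℝ) (x : E) (τ : ℝ) (u v : E) :
    fderiv ℝ (pathA a b θ) (t, x) (τ, u) v =
      fderiv ℝ a x u v + θ t * fderiv ℝ b x u v + τ * deriv θ t * b x v := by
  have h1 : HasFDerivAt (fun p : ℝ × E => a p.2) ((fderiv ℝ a x).comp
      (ContinuousLinearMap.snd ℝ ℝ E)) (t, x) :=
    HasFDerivAt.comp (t, x) (g := a) (ha x).hasFDerivAt hasFDerivAt_snd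
  have h2 : HasFDerivAt (fun p : ℝ × E => b p.2) ((fderiv ℝ b x).comp
      (ContinuousLinearMap.snd ℝ ℝ E)) (t, x) :=
    HasFDerivAt.comp (t, x) (g := b) (hb x).hasFDerivAt hasFDerivAt_snd
  have h3 : HasFDerivAt (fun p : ℝ × E => θ p.1) (deriv θ t • (ContinuousLinearMap.fst ℝ ℝ E))
      (t, x) :=
    HasDerivAt.comp_hasFDerivAt (t, x) (hθ t).hasDerivAt hasFDerivAt_fst
  have h4 : HasFDerivAt (pathA a b θ) _ (t, x) := h1.add (h3.smul h2)
  rw [h4.fderiv]
  simp
  ring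

theorem Rad.stepA [FiniteDimensional ℝ E] (h : Rad σ G J) :
    ∃ Φ Ψ : E → E, ContDiff ℝ ∞ Φ ∧ ContDiff ℝ ∞ Ψ ∧ (∀ x, Ψ (Φ x) = x) ∧ (∀ x, Φ (Ψ x) = x) ∧
      ∀ x u v, sig1 σ (Φ x) (fderiv ℝ Φ x u) (fderiv ℝ Φ x v) = σ x u v := by
  obtain ⟨α, hα, hαw, hαd⟩ := h.form.poincare
  set θ : ℝ → ℝ := Real.smoothTransition with hθdef
  have hθ : ContDiff ℝ ∞ θ := Real.smoothTransition.contDiff
  have hθ0 : θ 0 = 0 := Real.smoothTransition.zero_of_nonpos le_rfl
  have hθ1 : θ 1 = 1 := Real.smoothTransition.one_of_one_le le_rfl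
  have hθn : ∀ t, 0 ≤ θ t := fun t => Real.smoothTransition.nonneg t
  set α₁ : E → E →L[ℝ] ℝ := fun x => (1 / 2 : ℝ) • σ x x with hα₁
  have hα₁c : ContDiff ℝ ∞ α₁ := (h.form.smooth.clm_apply contDiff_id).const_smul (1 / 2 : ℝ)
  have hα₁d : ∀ x u v, fderiv ℝ α₁ x u v - fderiv ℝ α₁ x v u =
      σ x u v + 1 / 2 * fderiv ℝ σ x x u v := by
    intro x u v
    have e : ∀ a b : E, fderiv ℝ α₁ x a b = 1 / 2 * (σ x a b + fderiv ℝ σ x a x b) := by
      intro a b
      have h1 := (h.form.hasFDerivAt_scaled 1 x).const_smul (1 / 2 : ℝ)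
      have h2 : ((1 / 2 : ℝ) • fun y : E => σ ((1 : ℝ) • y) y) = α₁ := by
        funext y
        simp [hα₁]
      rw [h2] at h1
      rw [h1.fderiv]
      simp
      ring
    rw [e, e, h.form.anti x v u]
    have := h.form.radial x x u v
    linarith
  set A : ℝ × E → E →L[ℝ] ℝ := pathA α (fun x => α₁ x - α x) θ with hA
  have hbc : ContDiff ℝ ∞ (fun x => α₁ x - α x) := hα₁c.sub hα
  have hAc : ContDiff ℝ ∞ A := contDiff_pathA hα hbc hθ
  have hdα : Differentiable ℝ α := hα.differentiable (by simp)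
  have hdα₁ : Differentiable ℝ α₁ := hα₁c.differentiable (by simp)
  have hfA : ∀ (t : ℝ) (x : E) (τ : ℝ) (u v : E), fderiv ℝ A (t, x) (τ, u) v =
      fderiv ℝ α x u v + θ t * (fderiv ℝ α₁ x u v - fderiv ℝ α x u v) +
        τ * deriv θ t * (α₁ x v - α x v) := by
    intro t x τ u v
    rw [hA, fderiv_pathA hdα (hbc.differentiable (by simp)) (hθ.differentiable (by simp))]
    rw [fderiv_fun_sub (hdα₁ x) (hdα x)]
    rfl
  have hdX : ∀ (t : ℝ) (x u v : E), dX A (t, x) u v =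
      σ x u v + θ t / 2 * fderiv ℝ σ x x u v := by
    intro t x u v
    rw [dX_apply, hfA, hfA]
    have h1 := hαd x u v
    have h2 := hα₁d x u v
    have h3 : fderiv ℝ α x u v = fderiv ℝ α x v u + σ x u v := by linarith
    have h4 : fderiv ℝ α₁ x u v = fderiv ℝ α₁ x v u + (σ x u v + 1 / 2 * fderiv ℝ σ x x u v) := by
      linarith
    rw [h3, h4]
    ring
  have hpos : ∀ (t : ℝ) (x v : E), G x v v ≤ dX A (t, x) v (J x v) := by
    intro t x v
    rw [hdX, h.comp]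
    have := mul_nonneg (div_nonneg (hθn t) zero_le_two) (h.rad_nonneg x v)
    linarith
  have hnd : ∀ (p : ℝ × E) (v : E), (∀ w, dX A p v w = 0) → v = 0 := by
    rintro ⟨t, x⟩ v hv
    have h1 := hpos t x v
    rw [hv] at h1
    have h2 := h.lower x v
    have h3 : ‖v‖ ^ 2 ≤ 0 := h2.trans h1
    exact norm_eq_zero.1 (pow_eq_zero_iff two_ne_zero |>.1 (le_antisymm h3 (sq_nonneg _)))
  have hβ : ContDiff ℝ ∞ (fun p => -fderiv ℝ A p (1, 0)) :=
    ((hAc.fderiv_right (m := ∞) (by simp)).clm_apply contDiff_const).neg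
  obtain ⟨W, hWc, hW⟩ := exists_sharp (contDiff_dX hAc) hnd hβ
  have hM := moser_identity hAc hWc (fun p v => by rw [hW]; rfl)
  -- the bound
  have hb1 : ∀ x w : E, |α₁ x w| ≤ 1 / 2 * (‖x‖ * √(G x w w)) := by
    intro x w
    have e : α₁ x w = 1 / 2 * σ x x w := by simp [hα₁]
    rw [e, abs_mul, abs_of_pos (by norm_num : (0 : ℝ) < 1 / 2)]
    refine mul_le_mul_of_nonneg_left ?_ (by norm_num)
    have h1 := h.cs x x w
    rw [h.gauss, real_inner_self_eq_norm_sq] at h1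
    refine abs_le_of_sq_le_sq ?_ (by positivity)
    rw [mul_pow, Real.sq_sqrt (h.nonneg x w)]
    exact h1
  have hb2 : ∀ x w : E, |α x w| ≤ 1 / 2 * (‖x‖ * √(G x w w)) := by
    intro x w
    rw [hαw, ← Real.norm_eq_abs]
    have h1 : ∀ s ∈ Ioc (0 : ℝ) 1, ‖s * σ (s • x) x w‖ ≤ s * (‖x‖ * √(G x w w)) := by
      intro s hs
      rw [norm_mul, Real.norm_eq_abs, abs_of_pos hs.1, Real.norm_eq_abs]
      refine mul_le_mul_of_nonneg_left ?_ hs.1.le
      have h1 := h.cs (s • x) x w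
      have h2 := h.mono x x s hs.1.le hs.2
      have h3 := h.mono x w s hs.1.le hs.2
      rw [h.gauss, real_inner_self_eq_norm_sq] at h2
      refine abs_le_of_sq_le_sq ?_ (by positivity)
      rw [mul_pow, Real.sq_sqrt (h.nonneg x w)]
      exact h1.trans (mul_le_mul h2 h3 (h.nonneg _ _) (by positivity))
    have h2 := intervalIntegral.norm_integral_le_of_norm_le (μ := volume) (zero_le_one' ℝ)
      (Eventually.of_forall h1)
      ((continuous_id.mul continuous_const).intervalIntegrable _ _)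
    refine h2.trans (le_of_eq ?_)
    rw [intervalIntegral.integral_mul_const, integral_id]
    norm_num
  have hbound : ∀ (t : ℝ) (x : E), ‖W (t, x)‖ ≤ |deriv θ t| * ‖x‖ := by
    intro t x
    set w := W (t, x) with hw
    have h1 := hpos t x w
    have h2 : dX A (t, x) w (J x w) = -(deriv θ t * (α₁ x (J x w) - α x (J x w))) := by
      rw [hw, hW]
      rw [neg_apply, hfA]
      simp
    rw [h2] at h1
    have h3 := hb1 x (J x w)
    have h4 := hb2 x (J x w)
    rw [h.GJ] at h3 h4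
    have h5 : -(deriv θ t * (α₁ x (J x w) - α x (J x w))) ≤
        |deriv θ t| * (‖x‖ * √(G x w w)) := by
      refine (neg_le_abs _).trans ?_
      rw [abs_mul]
      refine mul_le_mul_of_nonneg_left ?_ (abs_nonneg _)
      have := abs_sub (α₁ x (J x w)) (α x (J x w))
      linarith
    have h6 := h.nonneg x w
    have h7 : √(G x w w) ≤ |deriv θ t| * ‖x‖ := by
      rcases (Real.sqrt_nonneg (G x w w)).eq_or_lt with h0 | h0
      · rw [← h0]; positivity
      · refine le_of_mul_le_mul_right ?_ h0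
        rw [Real.mul_self_sqrt h6]
        refine (h1.trans h5).trans (le_of_eq (by ring))
    exact (h.norm_le x w).trans h7
  obtain ⟨Φ, Ψ, h1, h2, h3, h4, h5⟩ := moser (contDiff_dX hAc) hWc hM
    (bound_of_linear (k := fun t => |deriv θ t|)
      (continuous_abs.comp (hθ.continuous_deriv (by simp))) hbound)
  refine ⟨Φ, Ψ, h1, h2, h3, h4, fun x u v => ?_⟩
  have := h5 x u v
  rw [hdX, hdX, hθ0, hθ1] at this
  rw [sig1_apply, this]
  ring

end stepA

/-! ### Step B -/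

section stepB

/-- the path of primitives -/
def pathB (σ : E → E →L[ℝ] E →L[ℝ] ℝ) (p : ℝ × E) : E →L[ℝ] ℝ :=
  (1 / 2 : ℝ) • σ (p.1 • p.2) p.2

lemma contDiff_pathB (hs : ContDiff ℝ ∞ σ) : ContDiff ℝ ∞ (pathB σ) := by
  have hsm : ContDiff ℝ ∞ (fun q : ℝ × E => σ (q.1 • q.2)) := hs.comp (by fun_prop)
  exact (hsm.clm_apply contDiff_snd).const_smul (1 / 2 : ℝ)

lemma fderiv_pathB (hd : Differentiable ℝ σ) (s : ℝ) (x : E) (τ : ℝ) (u v : E) :
    fderiv ℝ (pathB σ) (s, x) (τ, u) v =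
      1 / 2 * (fderiv ℝ σ (s • x) (s • u + τ • x) x v + σ (s • x) u v) := by
  have h0 : HasFDerivAt (fun p : ℝ × E => p.1 • p.2)
      (s • (ContinuousLinearMap.snd ℝ ℝ E) + (ContinuousLinearMap.fst ℝ ℝ E).smulRight x) (s, x) :=
    HasFDerivAt.smul (c := fun p : ℝ × E => p.1) (f := fun p : ℝ × E => p.2) (x := (s, x))
      hasFDerivAt_fst hasFDerivAt_snd
  have h1 : HasFDerivAt (fun p : ℝ × E => σ (p.1 • p.2)) ((fderiv ℝ σ (s • x)).comp
      (s • (ContinuousLinearMap.snd ℝ ℝ E) + (ContinuousLinearMap.fst ℝ ℝ E).smulRight x)) (s, x) :=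
    HasFDerivAt.comp (s, x) (g := σ) (hd (s • x)).hasFDerivAt h0
  have h2 : HasFDerivAt (pathB σ) _ (s, x) :=
    (h1.clm_apply (hasFDerivAt_snd (𝕜 := ℝ) (E := ℝ) (F := E) (p := (s, x)))).const_smul (1 / 2 : ℝ)
  rw [h2.fderiv]
  simp
  ring

theorem Rad.stepB [FiniteDimensional ℝ E] (h : Rad σ G J) :
    ∃ Φ Ψ : E → E, ContDiff ℝ ∞ Φ ∧ ContDiff ℝ ∞ Ψ ∧ (∀ x, Ψ (Φ x) = x) ∧ (∀ x, Φ (Ψ x) = x) ∧
      ∀ x u v, sig1 σ (Φ x) (fderiv ℝ Φ x u) (fderiv ℝ Φ x v) = σ 0 u v := by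
  set A : ℝ × E → E →L[ℝ] ℝ := pathB σ with hA
  have hAc : ContDiff ℝ ∞ A := contDiff_pathB h.form.smooth
  have hdX : ∀ (s : ℝ) (x u v : E), dX A (s, x) u v = sig1 σ (s • x) u v := by
    intro s x u v
    rw [dX_apply, hA, fderiv_pathB h.form.diff, fderiv_pathB h.form.diff, sig1_apply,
      h.form.anti (s • x) v u]
    have := h.form.radial (s • x) x u v
    simp only [zero_smul, add_zero, map_smul, smul_apply, smul_eq_mul]
    rw [← this]
    ring
  have hpos : ∀ (s : ℝ) (x v : E), G (s • x) v v ≤ dX A (s, x) v (J (s • x) v) := by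
    intro s x v
    rw [hdX, sig1_apply, h.comp]
    have := h.rad_nonneg (s • x) v
    linarith
  have hnd : ∀ (p : ℝ × E) (v : E), (∀ w, dX A p v w = 0) → v = 0 := by
    rintro ⟨s, x⟩ v hv
    have h1 := hpos s x v
    rw [hv] at h1
    have h2 := h.lower (s • x) v
    have h3 : ‖v‖ ^ 2 ≤ 0 := h2.trans h1
    exact norm_eq_zero.1 (pow_eq_zero_iff two_ne_zero |>.1 (le_antisymm h3 (sq_nonneg _)))
  have hβ : ContDiff ℝ ∞ (fun p => -fderiv ℝ A p (1, 0)) :=
    ((hAc.fderiv_right (m := ∞) (by simp)).clm_apply contDiff_const).neg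
  obtain ⟨W, hWc, hW⟩ := exists_sharp (contDiff_dX hAc) hnd hβ
  have hM := moser_identity hAc hWc (fun p v => by rw [hW]; rfl)
  have hW' : ∀ (s : ℝ) (x v : E), dX A (s, x) (W (s, x)) v =
      -(1 / 2 * fderiv ℝ σ (s • x) x x v) := by
    intro s x v
    rw [hW, neg_apply, hA, fderiv_pathB h.form.diff]
    simp
  -- the vector `U`
  have hU : ∀ (s : ℝ) (x v : E), dX A (s, x) (x + s • W (s, x)) v = σ (s • x) x v := by
    intro s x v
    rw [map_add, map_smul, add_apply, smul_apply, hW', hdX, sig1_apply]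
    simp only [map_smul, smul_apply, smul_eq_mul]
    ring
  have hin : ∀ (s : ℝ) (x : E), ⟪x, x + s • W (s, x)⟫_ℝ = ‖x‖ ^ 2 + s * ⟪x, W (s, x)⟫_ℝ := by
    intro s x
    rw [inner_add_right, real_inner_smul_right, real_inner_self_eq_norm_sq]
  have hUU : ∀ (s : ℝ) (x : E), ‖x + s • W (s, x)‖ ^ 2 ≤ ‖x‖ ^ 2 + s * ⟪x, W (s, x)⟫_ℝ := by
    intro s x
    have h1 := hpos s x (x + s • W (s, x))
    rw [hU, h.comp, h.gauss', hin] at h1
    exact (h.lower _ _).trans h1
  have hUx : ∀ (s : ℝ) (x : E), ‖x + s • W (s, x)‖ ≤ ‖x‖ := by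
    intro s x
    have h1 := hUU s x
    rw [← hin] at h1
    have h2 := real_inner_le_norm x (x + s • W (s, x))
    rcases (norm_nonneg (x + s • W (s, x))).eq_or_lt with h0 | h0
    · rw [← h0]; exact norm_nonneg _
    · refine le_of_mul_le_mul_right ?_ h0
      rw [← sq]
      exact h1.trans h2
  have hsgn : ∀ (s : ℝ) (x : E), s * ⟪x, W (s, x)⟫_ℝ ≤ 0 := by
    intro s x
    have h1 := real_inner_le_norm x (x + s • W (s, x))
    rw [hin] at h1
    have h2 := mul_le_mul_of_nonneg_left (hUx s x) (norm_nonneg x)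
    rw [← sq] at h2
    linarith
  have hrad : Radial W := by
    refine ⟨hsgn, fun x => zero_of_sgn hWc.continuous hsgn x, fun s x => (sq_nonneg _).trans
      (hUU s x), fun ρ => ?_⟩
    obtain ⟨N, hN⟩ := (isCompact_closedBall (0 : E) ρ).exists_bound_of_continuousOn
      (contDiff_sig1 h.form.smooth).continuous.continuousOn
    obtain ⟨D, hD⟩ := (isCompact_closedBall (0 : E) ρ).exists_bound_of_continuousOn
      (h.form.smooth.continuous_fderiv (by simp)).continuousOn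
    set N' : ℝ := max 1 N with hN'
    have hN'1 : 1 ≤ N' := le_max_left _ _
    have hN'0 : 0 < N' := by linarith
    refine ⟨|D|, 1 / N' ^ 2, abs_nonneg _, by positivity, ?_, ?_⟩
    · rw [div_le_one (by positivity)]
      exact one_le_pow₀ hN'1
    intro s x hsx
    have hmem : s • x ∈ Metric.closedBall (0 : E) ρ := by
      rw [mem_closedBall_zero_iff, norm_smul, Real.norm_eq_abs]
      exact hsx
    have hN2 : ‖sig1 σ (s • x)‖ ≤ N' := (hN _ hmem).trans (le_max_right _ _)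
    have hD2 : ‖fderiv ℝ σ (s • x)‖ ≤ |D| := (hD _ hmem).trans (le_abs_self _)
    constructor
    · -- `‖W‖ ≤ |D| ‖x‖²`
      have hWb : ‖W (s, x)‖ ≤ |D| * ‖x‖ ^ 2 := by
        set w := W (s, x) with hw
        have h1 := hpos s x w
        rw [hw, hW', ← hw] at h1
        have h2 : ‖fderiv ℝ σ (s • x) x x (J (s • x) w)‖ ≤
            |D| * ‖x‖ * ‖x‖ * √(G (s • x) w w) := by
          refine (ContinuousLinearMap.le_opNorm _ _).trans ?_
          refine mul_le_mul ?_ (h.norm_J_le _ _) (norm_nonneg _) (by positivity)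
          refine (ContinuousLinearMap.le_opNorm _ _).trans ?_
          refine mul_le_mul_of_nonneg_right ?_ (norm_nonneg _)
          refine (ContinuousLinearMap.le_opNorm _ _).trans ?_
          exact mul_le_mul_of_nonneg_right hD2 (norm_nonneg _)
        have h3 : -(1 / 2 * fderiv ℝ σ (s • x) x x (J (s • x) w)) ≤
            |D| * ‖x‖ * ‖x‖ * √(G (s • x) w w) := by
          have h4 := neg_le_abs (fderiv ℝ σ (s • x) x x (J (s • x) w))
          rw [← Real.norm_eq_abs] at h4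
          have h5 : 0 ≤ |D| * ‖x‖ * ‖x‖ * √(G (s • x) w w) := by positivity
          linarith
        have h7 : √(G (s • x) w w) ≤ |D| * ‖x‖ ^ 2 := by
          rcases (Real.sqrt_nonneg (G (s • x) w w)).eq_or_lt with h0 | h0
          · rw [← h0]; positivity
          · refine le_of_mul_le_mul_right ?_ h0
            rw [Real.mul_self_sqrt (h.nonneg _ _)]
            refine (h1.trans h3).trans (le_of_eq (by ring))
        exact (h.norm_le _ w).trans h7
      refine (abs_real_inner_le_norm x (W (s, x))).trans ?_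
      refine (mul_le_mul_of_nonneg_left hWb (norm_nonneg x)).trans (le_of_eq (by ring))
    · -- lower bound
      have h1 : ‖x‖ ≤ N' * ‖x + s • W (s, x)‖ := by
        have e1 := hU s x (J (s • x) x)
        rw [h.comp, h.gauss', real_inner_self_eq_norm_sq] at e1
        have e2 : ‖J (s • x) x‖ ≤ ‖x‖ := by
          have := h.norm_J_le (s • x) x
          rw [h.gauss', real_inner_self_eq_norm_sq, Real.sqrt_sq (norm_nonneg _)] at this
          exact this
        have e3 : ‖dX A (s, x) (x + s • W (s, x)) (J (s • x) x)‖ ≤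
            N' * ‖x + s • W (s, x)‖ * ‖x‖ := by
          refine (ContinuousLinearMap.le_opNorm _ _).trans ?_
          refine mul_le_mul ?_ e2 (norm_nonneg _) (by positivity)
          refine (ContinuousLinearMap.le_opNorm _ _).trans ?_
          refine mul_le_mul_of_nonneg_right ?_ (norm_nonneg _)
          have : dX A (s, x) = sig1 σ (s • x) := by
            ext u v
            exact hdX s x u v
          rw [this]
          exact hN2
        rw [e1, Real.norm_eq_abs, abs_of_nonneg (sq_nonneg _)] at e3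
        rcases (norm_nonneg x).eq_or_lt with h0 | h0
        · rw [← h0]; positivity
        · refine le_of_mul_le_mul_right ?_ h0
          rw [← sq]
          exact e3
      have h2 : ‖x‖ ^ 2 ≤ N' ^ 2 * ‖x + s • W (s, x)‖ ^ 2 := by
        rw [← mul_pow]
        exact pow_le_pow_left₀ (norm_nonneg _) h1 2
      refine le_trans ?_ (hUU s x)
      rw [div_mul_eq_mul_div, one_mul, div_le_iff₀ (by positivity)]
      linarith
  obtain ⟨Φ, Ψ, h1, h2, h3, h4, h5⟩ := moser (contDiff_dX hAc) hWc hM (bound_of_radial hrad)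
  refine ⟨Φ, Ψ, h1, h2, h3, h4, fun x u v => ?_⟩
  have := h5 x u v
  rw [hdX, hdX, zero_smul, one_smul] at this
  rw [this, sig1_apply, map_zero]
  simp

end stepB

/-- **Theorem.** A radially expanding compatible structure is standard. -/
theorem Rad.standard [FiniteDimensional ℝ E] (h : Rad σ G J) :
    ∃ Φ Ψ : E → E, ContDiff ℝ ∞ Φ ∧ ContDiff ℝ ∞ Ψ ∧ (∀ x, Ψ (Φ x) = x) ∧ (∀ x, Φ (Ψ x) = x) ∧
      ∀ x u v, σ 0 (fderiv ℝ Φ x u) (fderiv ℝ Φ x v) = σ x u v := by
  obtain ⟨Φ₁, Ψ₁, a1, a2, a3, a4, a5⟩ := h.stepA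
  obtain ⟨Φ₂, Ψ₂, b1, b2, b3, b4, b5⟩ := h.stepB
  have hc : ContDiff ℝ ∞ (Ψ₂ ∘ Φ₁) := b2.comp a1
  refine ⟨Ψ₂ ∘ Φ₁, Ψ₁ ∘ Φ₂, hc, a2.comp b1, fun x => by simp [b4, a3], fun x => by simp [a4, b3],
    fun x u v => ?_⟩
  rw [← a5 x u v, ← b5]
  have h1 : Φ₂ ∘ (Ψ₂ ∘ Φ₁) = Φ₁ := by
    funext y
    simp [b4]
  have h2 : ∀ w, fderiv ℝ Φ₂ ((Ψ₂ ∘ Φ₁) x) (fderiv ℝ (Ψ₂ ∘ Φ₁) x w) = fderiv ℝ Φ₁ x w := by
    intro w
    have h3 := (b1.differentiable (by simp) ((Ψ₂ ∘ Φ₁) x)).hasFDerivAt.comp x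
      (hc.differentiable (by simp) x).hasFDerivAt
    rw [h1] at h3
    rw [h3.fderiv]
    rfl
  rw [h2, h2]
  have h3 : Φ₂ ((Ψ₂ ∘ Φ₁) x) = Φ₁ x := congrFun h1 x
  rw [h3]

end Pool.Agent.V11198
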