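import Mathlib

/-! Unitary bases of compatible linear structures. -/

open Module

namespace Pool.Agent.V11198

/-- the standard symplectic matrix -/
def Jst {k : ℕ} (x y : Fin k × Fin 2) : ℝ :=
  if x.1 = y.1 then (if x.2 = 0 ∧ y.2 = 1 then 1 else if x.2 = 1 ∧ y.2 = 0 then -1 else 0) else 0

theorem anti_of_alt {V : Type*} [AddCommGroup V] [Module ℝ V]
    {ω : V →ₗ[ℝ] V →ₗ[ℝ] ℝ} (halt : ∀ v, ω v v = 0) (u v : V) : ω u v = -ω v u := by
  have h1 := halt (u + v)
  simp only [map_add, LinearMap.add_apply, halt, zero_add, add_zero] at h1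
  linarith

theorem exists_unitary (k : ℕ) : ∀ (V : Type) [AddCommGroup V] [Module ℝ V]
    [FiniteDimensional ℝ V] (ω : V →ₗ[ℝ] V →ₗ[ℝ] ℝ) (J : V →ₗ[ℝ] V) (_ : ∀ v, ω v v = 0)
    (_ : ∀ v, J (J v) = -v) (_ : ∀ u v, ω (J u) (J v) = ω u v) (_ : ∀ v, v ≠ 0 → 0 < ω v (J v))
    (_ : finrank ℝ V = 2 * k),
    ∃ c : Fin k × Fin 2 → V, (∀ x y, ω (c x) (c y) = Jst x y) ∧ ∀ m, J (c (m, 0)) = c (m, 1) := by
  induction k with
  | zero =>
    intro V _ _ _ ω J _ _ _ _ _
    exact ⟨fun x => x.1.elim0, fun x => x.1.elim0, fun m => m.elim0⟩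
  | succ k ih =>
    intro V _ _ _ ω J halt hJJ hJ hp hdim
    have hanti := anti_of_alt halt
    have hpos : 0 < finrank ℝ V := by omega
    obtain ⟨a', ha'⟩ : ∃ a : V, a ≠ 0 := by
      have : Nontrivial V := Module.finrank_pos_iff.1 hpos
      exact exists_ne 0
    obtain ⟨a, hab⟩ : ∃ a, ω a (J a) = 1 := by
      have h1 := hp a' ha'
      refine ⟨(√(ω a' (J a')))⁻¹ • a', ?_⟩
      rw [map_smul, map_smul, LinearMap.smul_apply, map_smul, smul_eq_mul, smul_eq_mul, ← mul_assoc,
        ← mul_inv, Real.mul_self_sqrt h1.le]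
      exact inv_mul_cancel₀ h1.ne'
    set b := J a with hb
    have hba : ω b a = -1 := by rw [hanti, hab]
    have hJb : J b = -a := hJJ a
    let F : V →ₗ[ℝ] ℝ × ℝ := (ω a).prod (ω b)
    have hF : ∀ v, F v = (ω a v, ω b v) := fun v => rfl
    have hsurj : Function.Surjective F := by
      rintro ⟨s, t⟩
      refine ⟨s • b - t • a, ?_⟩
      rw [hF]
      simp [hab, hba, halt]
    let W : Submodule ℝ V := LinearMap.ker F
    have hW : ∀ v : V, v ∈ W ↔ ω a v = 0 ∧ ω b v = 0 := by
      intro v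
      rw [LinearMap.mem_ker, hF]
      exact Prod.mk_eq_zero
    have hdimW : finrank ℝ W = 2 * k := by
      have h1 := LinearMap.finrank_range_add_finrank_ker F
      rw [LinearMap.range_eq_top.2 hsurj, finrank_top, Module.finrank_prod, finrank_self] at h1
      change 1 + 1 + finrank ℝ W = _ at h1
      omega
    have hJW : ∀ v ∈ W, J v ∈ W := by
      intro v hv
      rw [hW] at hv ⊢
      constructor
      · have h1 := hJ a (J v)
        rw [hJJ, map_neg] at h1
        rw [← h1, ← hb, hv.2, neg_zero]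
      · rw [hb, hJ]
        exact hv.1
    let ω' : W →ₗ[ℝ] W →ₗ[ℝ] ℝ := ω.domRestrict₁₂ W W
    have hω' : ∀ u v : W, ω' u v = ω u v := fun u v => rfl
    let J' : W →ₗ[ℝ] W := J.restrict hJW
    have hJ' : ∀ u : W, (J' u : V) = J u := fun u => rfl
    obtain ⟨c, hc, hcJ⟩ := ih W ω' J' (fun w => halt w)
      (fun v => Subtype.ext (by rw [hJ', hJ', hJJ]; rfl))
      (fun u v => by rw [hω', hJ', hJ', hJ, hω'])
      (fun v hv => by
        rw [hω', hJ']
        exact hp _ (fun h => hv (Subtype.ext h))) hdimW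
    refine ⟨fun x => Fin.cases (motive := fun _ => V) (if x.2 = 0 then a else b)
      (fun m => (c (m, x.2) : V)) x.1, ?_, ?_⟩
    · have hca : ∀ z, ω a (c z : V) = 0 := fun z => ((hW _).1 (c z).2).1
      have hcb : ∀ z, ω b (c z : V) = 0 := fun z => ((hW _).1 (c z).2).2
      have hca' : ∀ z, ω (c z : V) a = 0 := fun z => by rw [hanti, hca, neg_zero]
      have hcb' : ∀ z, ω (c z : V) b = 0 := fun z => by rw [hanti, hcb, neg_zero]
      rintro ⟨x, i⟩ ⟨y, j⟩
      refine Fin.cases ?_ (fun x => ?_) x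
      · refine Fin.cases ?_ (fun y => ?_) y
        · fin_cases i <;> fin_cases j <;> simp [Jst, halt, hab, hba]
        · fin_cases i <;> simp [Jst, hca, hcb, (Fin.succ_ne_zero y).symm]
      · refine Fin.cases ?_ (fun y => ?_) y
        · fin_cases j <;> simp [Jst, hca', hcb', Fin.succ_ne_zero x]
        · have h3 := hc (x, i) (y, j)
          rw [hω'] at h3
          simp only [Fin.cases_succ]
          rw [h3]
          simp [Jst]
    · intro m
      refine Fin.cases ?_ (fun m => ?_) m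
      · simp [hb]
      · simp only [Fin.cases_succ]
        rw [← hcJ m]
        rfl

/-- the standard symplectic form -/
noncomputable def omega0 (n : ℕ) (a b : EuclideanSpace ℝ (Fin n ⊕ Fin n)) : ℝ :=
  ∑ i : Fin n, (a (Sum.inl i) * b (Sum.inr i) - a (Sum.inr i) * b (Sum.inl i))

open scoped InnerProductSpace

/-- unitary coordinates -/
theorem exists_unitary_coord (n : ℕ) (V : Type) [AddCommGroup V] [Module ℝ V]
    [FiniteDimensional ℝ V] (ω : V →ₗ[ℝ] V →ₗ[ℝ] ℝ) (J : V →ₗ[ℝ] V) (halt : ∀ v, ω v v = 0)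
    (hJJ : ∀ v, J (J v) = -v) (hJ : ∀ u v, ω (J u) (J v) = ω u v)
    (hp : ∀ v, v ≠ 0 → 0 < ω v (J v)) (hdim : finrank ℝ V = 2 * n) :
    ∃ L : EuclideanSpace ℝ (Fin n ⊕ Fin n) ≃ₗ[ℝ] V,
      (∀ a b, ω (L a) (L b) = omega0 n a b) ∧ ∀ a b, ω (L a) (J (L b)) = ⟪a, b⟫_ℝ := by
  obtain ⟨c, hc, hcJ⟩ := exists_unitary n V ω J halt hJJ hJ hp hdim
  have hcJ' : ∀ m, J (c (m, 1)) = -c (m, 0) := fun m => by rw [← hcJ, hJJ]
  let L : EuclideanSpace ℝ (Fin n ⊕ Fin n) →ₗ[ℝ] V :=
    { toFun := fun a => ∑ i : Fin n, (a (Sum.inl i) • c (i, 0) + a (Sum.inr i) • c (i, 1))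
      map_add' := fun a b => by
        rw [← Finset.sum_add_distrib]
        refine Finset.sum_congr rfl fun i _ => ?_
        simp only [PiLp.add_apply, add_smul]
        abel
      map_smul' := fun r a => by
        rw [Finset.smul_sum]
        refine Finset.sum_congr rfl fun i _ => ?_
        simp only [PiLp.smul_apply, smul_eq_mul, RingHom.id_apply, smul_add, mul_smul] }
  have hL : ∀ a, L a = ∑ i : Fin n, (a (Sum.inl i) • c (i, 0) + a (Sum.inr i) • c (i, 1)) :=
    fun a => rfl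
  have hωL : ∀ a b, ω (L a) (L b) = omega0 n a b := by
    intro a b
    rw [hL, hL, omega0]
    simp only [map_sum, map_add, map_smul, LinearMap.sum_apply, LinearMap.add_apply,
      LinearMap.smul_apply, smul_eq_mul, hc]
    refine Finset.sum_congr rfl fun i _ => ?_
    rw [Finset.sum_eq_single i]
    · simp [Jst]
      ring
    · intro j _ hj
      simp [Jst, hj]
    · intro h
      exact absurd (Finset.mem_univ _) h
  have hJL : ∀ b, J (L b) = ∑ i : Fin n, (b (Sum.inl i) • c (i, 1) - b (Sum.inr i) • c (i, 0)) := by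
    intro b
    rw [hL, map_sum]
    refine Finset.sum_congr rfl fun i _ => ?_
    rw [map_add, map_smul, map_smul, hcJ, hcJ', smul_neg, sub_eq_add_neg]
  have hGL : ∀ a b, ω (L a) (J (L b)) = ⟪a, b⟫_ℝ := by
    intro a b
    rw [hJL, hL, PiLp.inner_apply, Fintype.sum_sum_type, ← Finset.sum_add_distrib]
    simp only [map_sum, map_add, map_sub, map_smul, LinearMap.sum_apply, LinearMap.add_apply,
      LinearMap.smul_apply, smul_eq_mul, hc]
    refine Finset.sum_congr rfl fun i _ => ?_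
    rw [Finset.sum_eq_single i]
    · simp [Jst]
    · intro j _ hj
      simp [Jst, hj]
    · intro h
      exact absurd (Finset.mem_univ _) h
  have hinj : Function.Injective L := by
    rw [injective_iff_map_eq_zero]
    intro a ha
    have h1 := hGL a a
    rw [ha, map_zero, LinearMap.zero_apply, real_inner_self_eq_norm_sq] at h1
    exact norm_eq_zero.1 (pow_eq_zero_iff two_ne_zero |>.1 h1.symm)
  have hfr : finrank ℝ (EuclideanSpace ℝ (Fin n ⊕ Fin n)) = finrank ℝ V := by
    rw [hdim, finrank_euclideanSpace]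
    simp
    ring
  exact ⟨LinearEquiv.ofInjectiveOfFinrankEq L hinj hfr, hωL, hGL⟩

end Pool.Agent.V11198
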