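import Mathlib
import Pool.Agent.V11198.Gauss
import Pool.Agent.V11198.Rad
import Pool.Agent.V11198.CovOde
import Pool.Agent.V11198.Unit

/-! Almost Kähler Hadamard manifolds are standard. -/

set_option maxSynthPendingDepth 3

open scoped ContDiff Topology Manifold InnerProductSpace
open Set Filter

noncomputable section

namespace Pool.Agent.V11198

/-! ### closedness of the pull back -/

section closed

variable {E : Type*} [NormedAddCommGroup E] [NormedSpace ℝ E]
  {M : Type*} [TopologicalSpace M] [ChartedSpace E M] [IsManifold 𝓘(ℝ, E) ∞ M]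
  {V : Type} [NormedAddCommGroup V] [NormedSpace ℝ V] [FiniteDimensional ℝ V]
  {e : V → M} {ω₂ : BField E M}

omit [IsManifold 𝓘(ℝ, E) ∞ M] in
lemma IsSymplecticForm.anti (hω : IsSymplecticForm ω₂) (x : M) (u v : TangentSpace 𝓘(ℝ, E) x) :
    ω₂ x u v = -ω₂ x v u := by
  have h1 := hω.alt x (u + v)
  simp only [map_add, add_apply, hω.alt, zero_add, add_zero] at h1
  linarith

theorem cform_pull (he : ContMDiff 𝓘(ℝ, V) 𝓘(ℝ, E) ∞ e) (hω : IsSymplecticForm ω₂) :
    CForm (pull e ω₂) := by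
  have hsm : ContDiff ℝ ∞ (pull e ω₂) := contDiff_pull he hω.smooth
  refine ⟨hsm, fun x u v => hω.anti _ _ _, ?_⟩
  intro x
  have hx : e x ∈ (chartAt E (e x)).source := mem_chart_source E _
  set q := e x with hq
  set h := extChartAt 𝓘(ℝ, E) q ∘ e with hh
  set Ω := inChart ω₂ q with hΩ
  have hmem : h x ∈ (extChartAt 𝓘(ℝ, E) q).target := mem_target hx
  have h1 : ContDiffAt ℝ ∞ h x := contDiffAt_chart he hx
  have hdΩ : DifferentiableAt ℝ Ω (h x) :=
    ((hω.smooth q).contDiffAt ((isOpen_extChartAt_target q).mem_nhds hmem)).differentiableAt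
      (by simp)
  have hdh : DifferentiableAt ℝ h x := h1.differentiableAt (by simp)
  have h2 : ∀ u : V, DifferentiableAt ℝ (fun w => fderiv ℝ h w u) x := fun u =>
    (((h1.fderiv_right (m := ∞) (by simp)).clm_apply contDiffAt_const)).differentiableAt (by simp)
  set S : V → V → E := fun a b => fderiv ℝ (fderiv ℝ h) x a b with hS
  have hSs : ∀ a b, S a b = S b a := fun a b =>
    ((h1.of_le two_le_inf).isSymmSndFDerivAt (by simp)).eq _ _
  have key : ∀ a u v : V, fderiv ℝ (pull e ω₂) x a u v =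
      fderiv ℝ Ω (h x) (fderiv ℝ h x a) (fderiv ℝ h x u) (fderiv ℝ h x v) +
        Ω (h x) (S a u) (fderiv ℝ h x v) + Ω (h x) (fderiv ℝ h x u) (S a v) := by
    intro a u v
    rw [← fderiv_form_apply ((hsm.differentiable (by simp)) x)]
    have e1 : (fun w => pull e ω₂ w u v) =ᶠ[𝓝 x]
        fun w => Ω (h w) (fderiv ℝ h w u) (fderiv ℝ h w v) := by
      filter_upwards [ev_source he hx] with w hw
      exact pull_eq he ω₂ hw u v
    rw [e1.fderiv_eq, leib hdΩ hdh (h2 u) (h2 v),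
      fderiv_fderiv_apply (h1.of_le two_le_inf), fderiv_fderiv_apply (h1.of_le two_le_inf)]
  have hanti : ∀ a b, Ω (h x) a b = -Ω (h x) b a := fun a b => by
    rw [hΩ, inChart_apply, inChart_apply]
    exact hω.anti _ _ _
  intro u v w
  rw [key, key, key]
  have h3 := hω.closed q (h x) hmem (fderiv ℝ h x u) (fderiv ℝ h x v) (fderiv ℝ h x w)
  rw [← hΩ] at h3
  rw [hSs v u, hSs w u, hSs w v, hanti (S u v), hanti (S v w) (fderiv ℝ h x u),
    hanti (S u w) (fderiv ℝ h x v)]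
  linarith

end closed

section main

variable {E : Type} [NormedAddCommGroup E] [NormedSpace ℝ E] [FiniteDimensional ℝ E]
  {M : Type*} [TopologicalSpace M] [ChartedSpace E M] [IsManifold 𝓘(ℝ, E) ∞ M]
  {ω₂ : BField E M} {J : EndField E M}

/-! ### algebra in charts -/

section chart

variable (hω : IsSymplecticForm ω₂) (hJ : IsCompatibleJ ω₂ J)
include hω hJ

omit [FiniteDimensional ℝ E] [IsManifold 𝓘(ℝ, E) ∞ M] in
lemma gMetric_symm (x : M) (u v : TangentSpace 𝓘(ℝ, E) x) :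
    gMetric ω₂ J x u v = gMetric ω₂ J x v u := by
  rw [gMetric_apply, gMetric_apply, ← hJ.inv x u (J x v), hJ.sq, map_neg, hω.anti x v (J x u)]

omit [FiniteDimensional ℝ E] [IsManifold 𝓘(ℝ, E) ∞ M] hω in
lemma gMetric_J (x : M) (v : TangentSpace 𝓘(ℝ, E) x) :
    gMetric ω₂ J x (J x v) (J x v) = gMetric ω₂ J x v v := by
  rw [gMetric_apply, gMetric_apply, hJ.inv]

omit [FiniteDimensional ℝ E] hω hJ in
lemma dInv_end {q : M} {y : E} (hy : y ∈ (extChartAt 𝓘(ℝ, E) q).target) (v : E) :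
    dInv q y (endInChart J q y v) = J ((extChartAt 𝓘(ℝ, E) q).symm y) (dInv q y v) :=
  dInv_left hy _

omit [FiniteDimensional ℝ E] hω hJ in
lemma dInv_ne {q : M} {y : E} (hy : y ∈ (extChartAt 𝓘(ℝ, E) q).target) {v : E} (hv : v ≠ 0) :
    dInv q y v ≠ 0 := by
  intro h
  apply hv
  rw [← dInv_right hy v, h, map_zero]
  rfl

omit [FiniteDimensional ℝ E] hω in
lemma end_sq {q : M} {y : E} (hy : y ∈ (extChartAt 𝓘(ℝ, E) q).target) (v : E) :
    endInChart J q y (endInChart J q y v) = -v := by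
  have h1 : dInv q y (endInChart J q y (endInChart J q y v)) = dInv q y (-v) := by
    rw [dInv_end hy, dInv_end hy, hJ.sq, map_neg]
  have h2 := congrArg (mfderiv 𝓘(ℝ, E) 𝓘(ℝ, E) (extChartAt 𝓘(ℝ, E) q)
      ((extChartAt 𝓘(ℝ, E) q).symm y)) h1
  rw [dInv_right hy, dInv_right hy] at h2
  exact h2

omit [FiniteDimensional ℝ E] hω in
lemma end_inv {q : M} {y : E} (hy : y ∈ (extChartAt 𝓘(ℝ, E) q).target) (u v : E) :
    inChart ω₂ q y (endInChart J q y u) (endInChart J q y v) = inChart ω₂ q y u v := by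
  rw [inChart_apply, inChart_apply, dInv_end hy, dInv_end hy, hJ.inv]

omit [FiniteDimensional ℝ E] hω in
lemma end_pos {q : M} {y : E} (hy : y ∈ (extChartAt 𝓘(ℝ, E) q).target) (v : E) (hv : v ≠ 0) :
    0 < inChart ω₂ q y v (endInChart J q y v) := by
  rw [inChart_apply, dInv_end hy]
  exact hJ.pos _ _ (dInv_ne hy hv)

theorem locGeom_gMetric (hK : NonposCurved (gMetric ω₂ J)) (q : M) :
    LocGeom (extChartAt 𝓘(ℝ, E) q).target (inChart (gMetric ω₂ J) q)
      (conn (inChart (gMetric ω₂ J) q)) := by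
  refine locGeom_conn (isOpen_extChartAt_target q) ?_ ?_ ?_ (hK q)
  · rw [contDiffOn_clm_apply]
    intro u
    rw [contDiffOn_clm_apply]
    intro v
    have h1 : ContDiffOn ℝ ∞ (fun y => inChart ω₂ q y u (endInChart J q y v))
        (extChartAt 𝓘(ℝ, E) q).target :=
      ((hω.smooth q).clm_apply contDiffOn_const).clm_apply ((hJ.smooth q).clm_apply
        contDiffOn_const)
    exact h1.congr fun y hy => inChart_gMetric ω₂ J hy u v
  · intro y _ u v
    rw [inChart_apply, inChart_apply]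
    exact gMetric_symm hω hJ _ _ _
  · intro y hy u hu
    rw [inChart_gMetric ω₂ J hy]
    exact end_pos hJ hy u hu

end chart

/-- the spray of the metric -/
def sprayOf (g : BField E M) (q : M) (s : E × E) : E := -conn (inChart g q) s.1 s.2 s.2

omit [IsManifold 𝓘(ℝ, E) ∞ M] in
lemma smoothSpray_of {g : BField E M}
    (hg : ∀ q : M, LocGeom (extChartAt 𝓘(ℝ, E) q).target (inChart g q) (conn (inChart g q))) :
    SmoothSpray (sprayOf g) := by
  intro q
  have h1 : ContDiffOn ℝ ∞ (fun s : E × E => conn (inChart g q) s.1)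
      ((extChartAt 𝓘(ℝ, E) q).target ×ˢ univ) :=
    (hg q).smoothΓ.comp contDiffOn_fst (fun s hs => hs.1)
  exact ((h1.clm_apply contDiffOn_snd).clm_apply contDiffOn_snd).neg

omit [FiniteDimensional ℝ E] [IsManifold 𝓘(ℝ, E) ∞ M] in
lemma sprayOf_hom (g : BField E M) (q : M) (y w : E) (r : ℝ) :
    sprayOf g q (y, r • w) = r ^ 2 • sprayOf g q (y, w) := by
  simp only [sprayOf, map_smul, smul_apply, smul_neg, smul_smul, sq]

omit [IsManifold 𝓘(ℝ, E) ∞ M] in
lemma acurve_of_geodesic {g : BField E M} {γ : ℝ → M} (h : IsGeodesic g γ) :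
    ACurve (sprayOf g) γ := by
  refine ⟨h.1, fun q t ht => ?_⟩
  rw [h.2 q t ht, sprayOf, conn_apply]

omit [FiniteDimensional ℝ E] in
/-- the velocity of a curve in the preferred chart -/
lemma velocity {γ : ℝ → M} (hγ : ContMDiff 𝓘(ℝ, ℝ) 𝓘(ℝ, E) ∞ γ) (t : ℝ) :
    (mfderiv 𝓘(ℝ, ℝ) 𝓘(ℝ, E) γ t (1 : ℝ) : E) = deriv (extChartAt 𝓘(ℝ, E) (γ t) ∘ γ) t := by
  have h1 : (mfderiv 𝓘(ℝ, ℝ) 𝓘(ℝ, E) γ t : ℝ →L[ℝ] E) =
      fderiv ℝ (extChartAt 𝓘(ℝ, E) (γ t) ∘ γ) t := by
    rw [mfderiv, if_pos ((hγ t).mdifferentiableAt (by simp))]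
    simp only [writtenInExtChartAt, extChartAt_model_space_eq_id, PartialEquiv.refl_symm,
      PartialEquiv.refl_coe, ModelWithCorners.range_eq_univ, fderivWithin_univ,
      Function.comp_id, id]
  have h2 : ∀ A B : ℝ →L[ℝ] E, A = B → A 1 = B 1 := fun A B h => by rw [h]
  have h3 : fderiv ℝ (extChartAt 𝓘(ℝ, E) (γ t) ∘ γ) t (1 : ℝ) =
      deriv (extChartAt 𝓘(ℝ, E) (γ t) ∘ γ) t := fderiv_apply_one_eq_deriv (F := E)
  rw [← h3]
  exact h2 _ _ h1

lemma complete_chart {g : BField E M} (hc : GeodesicallyComplete g) (p : M) (u : E) :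
    ∃ γ : ℝ → M, ACurve (sprayOf g) γ ∧ γ 0 = p ∧
      deriv (extChartAt 𝓘(ℝ, E) p ∘ γ) 0 = u := by
  obtain ⟨γ, h1, h2⟩ := hc p (u : TangentSpace 𝓘(ℝ, E) p)
  have h3 : γ 0 = p := congrArg Bundle.TotalSpace.proj h2
  refine ⟨γ, acurve_of_geodesic h1, h3, ?_⟩
  have h4 : (mfderiv 𝓘(ℝ, ℝ) 𝓘(ℝ, E) γ 0 (1 : ℝ) : E) = u := by
    have h5 : ∀ a b : TangentBundle 𝓘(ℝ, E) M, a = b → (a.2 : E) = b.2 := by
      rintro a _ rfl
      rfl
    exact h5 _ _ h2
  rw [velocity h1.1, h3] at h4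
  exact h4

end main

end Pool.Agent.V11198
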