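import Mathlib
import Pool.Agent.V11198.Hadamard

/-! Almost Kähler Hadamard manifolds are standard: the main theorem. -/

set_option maxSynthPendingDepth 3

open scoped ContDiff Topology Manifold InnerProductSpace
open Set Filter

noncomputable section

namespace Pool.Agent.V11198

variable {E : Type} [NormedAddCommGroup E] [NormedSpace ℝ E] [FiniteDimensional ℝ E]
  {M : Type*} [TopologicalSpace M] [ChartedSpace E M] [IsManifold 𝓘(ℝ, E) ∞ M]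
  {V : Type} [NormedAddCommGroup V] [InnerProductSpace ℝ V] [FiniteDimensional ℝ V]

/-- The differential at the origin. -/
lemma fderiv_zero_of_ray {e : V → M} (he : ContMDiff 𝓘(ℝ, V) 𝓘(ℝ, E) ∞ e) {p : M}
    (h0 : e 0 = p) (v : V) :
    deriv (extChartAt 𝓘(ℝ, E) p ∘ fun t : ℝ => e (t • v)) 0 =
      fderiv ℝ (extChartAt 𝓘(ℝ, E) p ∘ e) 0 v := by
  have hsrc : e ((0 : ℝ) • v) ∈ (chartAt E p).source := by
    rw [zero_smul, h0]
    exact mem_chart_source E p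
  have h1 : HasDerivAt (fun t : ℝ => t • v) v 0 := by
    simpa using (hasDerivAt_id (0 : ℝ)).smul_const v
  have h2 := ((contDiffAt_chart he hsrc).differentiableAt (by simp)).hasFDerivAt.comp_hasDerivAt
    (0 : ℝ) h1
  have h3 : HasDerivAt (extChartAt 𝓘(ℝ, E) p ∘ fun t : ℝ => e (t • v))
    (fderiv ℝ (extChartAt 𝓘(ℝ, E) p ∘ e) ((0 : ℝ) • v) v) 0 := h2
  rw [h3.deriv, zero_smul]

/-- rays expand -/
lemma expanding_of_rayGeo {g : BField E M} {Γ : M → E → E →L[ℝ] E →L[ℝ] E} {e : V → M}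
    (h : RayGeo g Γ e) : Expanding E e := by
  intro q
  set φ := extChartAt 𝓘(ℝ, E) q with hφ
  have hG := h.geom q
  have hmem : φ q ∈ φ.target := mem_target (mem_chart_source E q)
  have hc : ContinuousAt (inChart g q) (φ q) :=
    (hG.smoothG.contDiffAt (hG.isOpen.mem_nhds hmem)).continuousAt
  have hev : ∀ᶠ y in 𝓝 (φ q), y ∈ φ.target ∧ ‖inChart g q y‖ < ‖inChart g q (φ q)‖ + 1 :=
    (Filter.eventually_of_mem (hG.isOpen.mem_nhds hmem) fun y hy => hy).and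
      (hc.norm.eventually (gt_mem_nhds (by linarith)))
  obtain ⟨r, hr, hr'⟩ := Metric.nhds_basis_closedBall.eventually_iff.1 hev
  set K : ℝ := ‖inChart g q (φ q)‖ + 1 with hK
  have hK0 : 0 ≤ K := by positivity
  refine ⟨r, hr, fun y hy => (hr' hy).1, √K, Real.sqrt_nonneg _, ?_⟩
  intro x hx hx' w
  have h1 := h.lower x w
  rw [pull_eq h.smooth g hx] at h1
  set a := fderiv ℝ (φ ∘ e) x w with ha
  have h2 : inChart g q ((φ ∘ e) x) a a ≤ K * ‖a‖ ^ 2 := by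
    have h3 : ‖inChart g q ((φ ∘ e) x) a a‖ ≤ ‖inChart g q ((φ ∘ e) x)‖ * ‖a‖ * ‖a‖ :=
      ContinuousLinearMap.le_opNorm₂ _ _ _
    have h4 : ‖inChart g q ((φ ∘ e) x)‖ ≤ K := (hr' hx').2.le
    have h5 : ‖inChart g q ((φ ∘ e) x)‖ * ‖a‖ * ‖a‖ ≤ K * ‖a‖ * ‖a‖ := by gcongr
    have h6 := le_abs_self (inChart g q ((φ ∘ e) x) a a)
    rw [Real.norm_eq_abs] at h3
    nlinarith
  have h3 : ‖w‖ ^ 2 ≤ (√K * ‖a‖) ^ 2 := by
    rw [mul_pow, Real.sq_sqrt hK0]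
    exact h1.trans h2
  exact (pow_le_pow_iff_left₀ (norm_nonneg _) (by positivity) two_ne_zero).1 h3

/-- **The symplectic Hadamard theorem.** -/
theorem symplectic_hadamard {n : ℕ} (hn : Module.finrank ℝ E = 2 * n) [T2Space M]
    [SimplyConnectedSpace M] {ω₂ : BField E M} (hω : IsSymplecticForm ω₂) {J : EndField E M}
    (hJ : IsCompatibleJ ω₂ J) (hc : GeodesicallyComplete (gMetric ω₂ J))
    (hK : NonposCurved (gMetric ω₂ J)) :
    ∃ F : M ≃ₘ^∞⟮𝓘(ℝ, E), 𝓘(ℝ, EuclideanSpace ℝ (Fin n ⊕ Fin n))⟯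
        EuclideanSpace ℝ (Fin n ⊕ Fin n),
      ∀ (x : M) (u v : TangentSpace 𝓘(ℝ, E) x), ω₂ x u v =
        omega0 n (mfderiv 𝓘(ℝ, E) 𝓘(ℝ, EuclideanSpace ℝ (Fin n ⊕ Fin n)) F x u)
          (mfderiv 𝓘(ℝ, E) 𝓘(ℝ, EuclideanSpace ℝ (Fin n ⊕ Fin n)) F x v) := by
  classical
  obtain ⟨p⟩ : Nonempty M := inferInstance
  set g := gMetric ω₂ J with hg
  set y₀ := extChartAt 𝓘(ℝ, E) p p with hy₀
  have hy : y₀ ∈ (extChartAt 𝓘(ℝ, E) p).target := mem_target (mem_chart_source E p)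
  -- unitary coordinates at `p`
  let ωl : E →ₗ[ℝ] E →ₗ[ℝ] ℝ := LinearMap.mk₂ ℝ (fun u v => inChart ω₂ p y₀ u v)
    (fun a b c => by simp) (fun r a b => by simp) (fun a b c => by simp) (fun r a b => by simp)
  have hωl : ∀ u v, ωl u v = inChart ω₂ p y₀ u v := fun u v => rfl
  obtain ⟨L, hL1, hL2⟩ := exists_unitary_coord n E ωl
    (endInChart J p y₀ : E →ₗ[ℝ] E) (fun v => hω.alt _ _) (fun v => end_sq hJ hy v)
    (fun u v => end_inv hJ hy u v) (fun v hv => end_pos hJ hy v hv) hn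
  set V := EuclideanSpace ℝ (Fin n ⊕ Fin n) with hV
  let Lc : V →L[ℝ] E := LinearMap.toContinuousLinearMap (L : V →ₗ[ℝ] E)
  have hLc : ∀ v, Lc v = L v := fun v => rfl
  -- the exponential map
  have hgeom : ∀ q : M, LocGeom (extChartAt 𝓘(ℝ, E) q).target (inChart g q)
      (conn (inChart g q)) := locGeom_gMetric hω hJ hK
  obtain ⟨e, he, he0, hray, hdray⟩ := exists_expo (V := V) (smoothSpray_of hgeom)
    (sprayOf_hom g) p Lc (complete_chart hc p)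
  have hd0 : ∀ v, fderiv ℝ (extChartAt 𝓘(ℝ, E) p ∘ e) 0 v = L v := fun v => by
    rw [← fderiv_zero_of_ray he he0, hdray, hLc]
  have h0src : e 0 ∈ (chartAt E p).source := by rw [he0]; exact mem_chart_source E p
  have h0c : (extChartAt 𝓘(ℝ, E) p ∘ e) 0 = y₀ := by simp only [Function.comp, he0, hy₀]
  have hω0 : ∀ u v : V, pull e ω₂ 0 u v = omega0 n u v := by
    intro u v
    rw [pull_eq he ω₂ h0src, hd0, hd0, h0c]
    exact hL1 u v
  have hray' : RayGeo g (fun q => conn (inChart g q)) e := by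
    refine ⟨hgeom, he, hray, fun u v => ?_⟩
    rw [pull_eq he g h0src, hd0, hd0, h0c, hg, inChart_gMetric ω₂ J hy]
    exact hL2 u v
  -- the diffeomorphism
  have hfr : Module.finrank ℝ V = Module.finrank ℝ E := by
    rw [hn]
    show Module.finrank ℝ (EuclideanSpace ℝ (Fin n ⊕ Fin n)) = 2 * n
    rw [finrank_euclideanSpace]
    simp
    ring
  obtain ⟨f, hf, hf1, hf2⟩ := diffeo_of_expanding he hfr (expanding_of_rayGeo hray')
  -- derivatives of the inverse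
  have hef : ∀ (x : V) (a : E), (mfderiv 𝓘(ℝ, V) 𝓘(ℝ, E) e x
      (mfderiv 𝓘(ℝ, E) 𝓘(ℝ, V) f (e x) a : V) : E) = a := by
    intro x a
    have h1 := mfderiv_comp (I := 𝓘(ℝ, E)) (I' := 𝓘(ℝ, V)) (I'' := 𝓘(ℝ, E)) (g := e) (f := f)
      (e x) ((he _).mdifferentiableAt (by simp)) ((hf _).mdifferentiableAt (by simp))
    have h2 : e ∘ f = id := funext hf1
    rw [h2, mfderiv_id] at h1
    have h3 : ∀ A B : E →L[ℝ] E, A = B → A a = B a := fun A B h => by rw [h]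
    have h4 := h3 _ _ h1
    have h5 : ∀ x' : V, x' = x → ∀ b : V, (mfderiv 𝓘(ℝ, V) 𝓘(ℝ, E) e x' b : E) =
        mfderiv 𝓘(ℝ, V) 𝓘(ℝ, E) e x b := by
      rintro _ rfl b
      rfl
    rw [← h5 (f (e x)) (hf2 x)]
    exact h4.symm
  have hfe : ∀ (x : V) (a : V), (mfderiv 𝓘(ℝ, E) 𝓘(ℝ, V) f (e x)
      (mfderiv 𝓘(ℝ, V) 𝓘(ℝ, E) e x a) : V) = a := by
    intro x a
    have h1 := mfderiv_comp (I := 𝓘(ℝ, V)) (I' := 𝓘(ℝ, E)) (I'' := 𝓘(ℝ, V)) (g := f) (f := e)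
      x ((hf _).mdifferentiableAt (by simp)) ((he _).mdifferentiableAt (by simp))
    have h2 : f ∘ e = id := funext hf2
    rw [h2, mfderiv_id] at h1
    have h3 : ∀ A B : V →L[ℝ] V, A = B → A a = B a := fun A B h => by rw [h]
    exact (h3 _ _ h1).symm
  -- the structure on `V`
  set Jp : V → V → V := fun x v => (mfderiv 𝓘(ℝ, E) 𝓘(ℝ, V) f (e x)
    (J (e x) (mfderiv 𝓘(ℝ, V) 𝓘(ℝ, E) e x v)) : V) with hJp
  have hdJ : ∀ x v, (mfderiv 𝓘(ℝ, V) 𝓘(ℝ, E) e x (Jp x v)) =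
      J (e x) (mfderiv 𝓘(ℝ, V) 𝓘(ℝ, E) e x v) := fun x v => hef x _
  have hRad : Rad (pull e ω₂) (pull e g) Jp := by
    refine ⟨cform_pull he hω, ?_, ?_, ?_, ?_, hray'.lower, hray'.gauss, hray'.zero, ?_⟩
    · intro x u v
      rw [pull_apply, pull_apply, hdJ, hg, gMetric_apply]
    · intro x v
      have h1 : Jp x (Jp x v) = (mfderiv 𝓘(ℝ, E) 𝓘(ℝ, V) f (e x)
        (J (e x) (mfderiv 𝓘(ℝ, V) 𝓘(ℝ, E) e x (Jp x v))) : V) := rfl
      rw [h1, hdJ, hJ.sq, map_neg]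
      exact congrArg Neg.neg (hfe x v)
    · intro x v
      rw [pull_apply, pull_apply, hdJ]
      exact gMetric_J hJ _ _
    · intro x u v
      rw [pull_apply, pull_apply]
      exact gMetric_symm hω hJ _ _ _
    · intro x v t ht0 ht1
      exact hray'.mono x v t ht0 ht1
  obtain ⟨Θ, Θ', hΘ, hΘ', hΘ1, hΘ2, hΘ3⟩ := hRad.standard
  -- the symplectomorphism
  refine ⟨{ toFun := Θ ∘ f, invFun := e ∘ Θ', left_inv := fun x => ?_, right_inv := fun x => ?_,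
            contMDiff_toFun := ?_, contMDiff_invFun := ?_ }, ?_⟩
  · simp only [Function.comp]
    rw [hΘ1, hf1]
  · simp only [Function.comp]
    rw [hf2, hΘ2]
  · exact hΘ.contMDiff.comp hf
  · exact he.comp hΘ'.contMDiff
  intro x u v
  have hF : ∀ w : TangentSpace 𝓘(ℝ, E) x, (mfderiv 𝓘(ℝ, E) 𝓘(ℝ, V) (Θ ∘ f) x w : V) =
      fderiv ℝ Θ (f x) (mfderiv 𝓘(ℝ, E) 𝓘(ℝ, V) f x w) := by
    intro w
    have h1 := mfderiv_comp (I := 𝓘(ℝ, E)) (I' := 𝓘(ℝ, V)) (I'' := 𝓘(ℝ, V)) (g := Θ) (f := f)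
      x (hΘ.contMDiff.mdifferentiable (by simp) _) ((hf _).mdifferentiableAt (by simp))
    rw [h1, mfderiv_eq_fderiv]
    rfl
  show ω₂ x u v = omega0 n (mfderiv 𝓘(ℝ, E) 𝓘(ℝ, V) (Θ ∘ f) x u)
    (mfderiv 𝓘(ℝ, E) 𝓘(ℝ, V) (Θ ∘ f) x v)
  rw [hF, hF, ← hω0, hΘ3, pull_apply]
  have h2 : ∀ x' : M, e (f x) = x' → ∀ a b : E, (ω₂ x' : E →L[ℝ] E →L[ℝ] ℝ) a b =
      (ω₂ (e (f x)) : E →L[ℝ] E →L[ℝ] ℝ)
        (mfderiv 𝓘(ℝ, V) 𝓘(ℝ, E) e (f x) (mfderiv 𝓘(ℝ, E) 𝓘(ℝ, V) f x' a : V))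
        (mfderiv 𝓘(ℝ, V) 𝓘(ℝ, E) e (f x) (mfderiv 𝓘(ℝ, E) 𝓘(ℝ, V) f x' b : V)) := by
    rintro _ rfl a b
    have h3 := hef (f x) a
    have h4 := hef (f x) b
    have h5 : ∀ a' b' : E, a' = a → b' = b → (ω₂ (e (f x)) : E →L[ℝ] E →L[ℝ] ℝ) a b =
        (ω₂ (e (f x)) : E →L[ℝ] E →L[ℝ] ℝ) a' b' := by
      rintro _ _ rfl rfl
      rfl
    exact h5 _ _ h3 h4
  exact h2 x (hf1 x) u v

end Pool.Agent.V11198
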