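import Pool.Agent.V11198.SepX

namespace V11198.Sep

open Monoid

/-! Vertex transitivity. -/

/-- endomorphisms commuting with the involution -/
structure EndIG (A : IG) where
  /-- the map -/
  e : A.F →* A.F
  h : ∀ x, e (A.τ x) = A.τ (e x)

theorem EndIG.tw {A : IG} (E : EndIG A) (d : Bool) (x : A.F) :
    E.e (A.tw d x) = A.tw d (E.e x) := by
  cases d
  · rfl
  · exact E.h x

/-- induced map on the semidirect product -/
def ccMap {A : IG} (E : EndIG A) : CC A →* CC A where
  toFun x := ⟨x.d, E.e x.f⟩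
  map_one' := by
    apply CC.ext
    · rfl
    · exact map_one _
  map_mul' x y := by
    apply CC.ext
    · rfl
    · change E.e (A.tw y.d x.f * y.f) = A.tw y.d (E.e x.f) * E.e y.f
      rw [map_mul, E.tw]

/-- action on factors -/
def famMap (m : ℕ) {A : IG} (c : Bool) (E : EndIG A) : ∀ i : Option Bool, Fam m A i →*
    CoprodI (Fam m A)
  | none => (CoprodI.of (M := Fam m A) (i := none)).comp
      (if c then (invMonoidHom : Multiplicative (ZMod m) →* Multiplicative (ZMod m)) else
        MonoidHom.id (Multiplicative (ZMod m)))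
  | some b => (CoprodI.of (M := Fam m A) (i := some (xor b c))).comp E.e

/-- the induced map one stage up -/
def stepE (m : ℕ) {A : IG} (c : Bool) (E : EndIG A) : EndIG (stepIG m A) where
  e := CoprodI.lift (famMap m c E)
  h := by
    intro x
    have : (CoprodI.lift (famMap m c E)).comp (stepτ m A) =
        (stepτ m A).comp (CoprodI.lift (famMap m c E)) := by
      apply CoprodI.ext_hom
      intro i
      ext x
      simp only [MonoidHom.comp_apply, stepτ_of, CoprodI.lift_of]
      cases i with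
      | none =>
        cases c
        · exact (stepτ_of m A none _).symm
        · exact (stepτ_of m A none _).symm
      | some b =>
        change CoprodI.of (M := Fam m A) (i := some (xor b c)) (E.e (A.τ x)) =
          stepτ m A (CoprodI.of (M := Fam m A) (i := some (xor b c)) (E.e x))
        rw [E.h, stepτ_of]
        rfl
    exact DFunLike.congr_fun this x

theorem stepE_rr (m : ℕ) {A : IG} (c : Bool) (E : EndIG A) (k : ℤ) :
    (stepE m c E).e (rr m A k) = rr m A (sg c * k) := by
  unfold rr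
  change CoprodI.lift (famMap m c E) (CoprodI.of _) = _
  rw [CoprodI.lift_of]
  cases c
  · change CoprodI.of (M := Fam m A) (i := none) _ = _
    congr 2
    simp only [sg, one_mul]
  · change CoprodI.of (M := Fam m A) (i := none) _ = _
    congr 1
    simp only [sg]
    rw [neg_one_mul, Int.cast_neg, ofAdd_neg]
    rfl

theorem stepE_eF (m : ℕ) {A : IG} (c : Bool) (E : EndIG A) (b : Bool) (x : A.F) :
    (stepE m c E).e (eF m A b x) = eF m A (xor b c) (E.e x) := by
  unfold eF
  change CoprodI.lift (famMap m c E) (CoprodI.of _) = _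
  rw [CoprodI.lift_of]
  rfl

theorem ccMap_io (m : ℕ) {A : IG} (c : Bool) (E : EndIG A) (b : Bool) (x : CC A) :
    ccMap (stepE m c E) (io m A b x) = io m A (xor b c) (ccMap E x) := by
  apply CC.ext
  · rw [io_d]
    change (io m A b x).d = x.d
    rw [io_d]
  · rw [io_f]
    change (stepE m c E).e (io m A b x).f = rr m A (sg x.d * sg (xor b c)) *
      eF m A (xor b c) (E.e x.f) * rr m A (-sg (xor b c))
    rw [io_f, map_mul, map_mul, stepE_rr, stepE_rr, stepE_eF, sg_xor]
    congr 3 <;> ring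

/-- identity -/
def idE (A : IG) : EndIG A := ⟨MonoidHom.id _, fun _ => rfl⟩

/-- iterated maps -/
def endJ (M : ℕ → ℕ) : (j : ℕ) → (ℕ → Bool) → EndIG (IGs M j)
  | 0, _ => idE _
  | j + 1, φ => stepE (M j) (φ 0) (endJ M j (fun i => φ (i + 1)))

/-- tree maps which flip labels level by level -/
structure TA where
  /-- the map -/
  s : TT → TT
  /-- flips -/
  fl : ℤ → Bool
  hp : ∀ v, par (s v) = s (par v)
  hb : ∀ v, bt (s v) = xor (bt v) (fl (v.1 + 1))

variable (M : ℕ → ℕ)

/-- induced endomorphisms -/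
def SK (T : TA) (K : ℕ) : CT (IGs M K) →* CT (IGs M K) :=
  CoprodI.lift (fun r => (CoprodI.of (M := fun _ : TT => CC (IGs M K)) (i := T.s r)).comp
    (ccMap (endJ M K (fun i => T.fl (r.1 - i)))))

theorem SK_of (T : TA) (K : ℕ) (r : TT) (x : CC (IGs M K)) :
    SK M T K (CoprodI.of (M := fun _ : TT => CC (IGs M K)) (i := r) x) =
      CoprodI.of (M := fun _ : TT => CC (IGs M K)) (i := T.s r)
        (ccMap (endJ M K (fun i => T.fl (r.1 - i))) x) := by
  unfold SK
  rw [CoprodI.lift_of]
  rfl

/-- the connecting maps -/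
def thS (K : ℕ) : CT (IGs M K) →* CT (IGs M (K + 1)) := stepT (M K) (IGs M K)

/-- the lamp maps -/
def ioS (K : ℕ) (b : Bool) : CC (IGs M K) →* CC (IGs M (K + 1)) := io (M K) (IGs M K) b

theorem thS_of (K : ℕ) (r : TT) (x : CC (IGs M K)) :
    thS M K (CoprodI.of (M := fun _ : TT => CC (IGs M K)) (i := r) x) =
      CoprodI.of (M := fun _ : TT => CC (IGs M (K + 1))) (i := par r) (ioS M K (bt r) x) :=
  stepT_of (M K) (IGs M K) r x

theorem SK_step (T : TA) (K : ℕ) (x : CT (IGs M K)) :
    SK M T (K + 1) (thS M K x) = thS M K (SK M T K x) := by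
  have : (SK M T (K + 1)).comp (thS M K) = (thS M K).comp (SK M T K) := by
    apply CoprodI.ext_hom
    intro r
    ext x
    simp only [MonoidHom.comp_apply]
    rw [thS_of, SK_of, SK_of, thS_of, T.hp, T.hb]
    congr 1
    have h2 : (fun i : ℕ => T.fl ((par r).1 - ((i + 1 : ℕ) : ℤ))) =
        fun i : ℕ => T.fl (r.1 - i) := by
      funext i
      congr 1
      simp only [par]; push_cast; ring
    have h3 : endJ M (K + 1) (fun i => T.fl ((par r).1 - i)) =
        stepE (M K) (T.fl (r.1 + 1)) (endJ M K (fun i => T.fl (r.1 - i))) := by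
      rw [← h2]
      change stepE (M K) (T.fl ((par r).1 - ((0 : ℕ) : ℤ))) _ = _
      congr 2
      simp only [par]; push_cast; ring
    rw [h3]
    exact ccMap_io _ _ _ _ _
  exact DFunLike.congr_fun this x

theorem SK_th (T : TA) (K : ℕ) (x : CT IG0) : SK M T K (th M K x) = th M K (SK M T 0 x) := by
  induction K with
  | zero => rfl
  | succ K ih =>
    have h := SK_step M T K (th M K x)
    rw [ih] at h
    exact h

/-- the base endomorphism -/
def S0 (T : TA) : CT IG0 →* CT IG0 := SK M T 0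

theorem SK_lmp (T : TA) (v : TT) : S0 M T (lmp v) = lmp (T.s v) := by
  unfold lmp
  exact SK_of M T 0 v _

theorem S0_th (T : TA) (K : ℕ) (x : CT IG0) : SK M T K (th M K x) = th M K (S0 M T x) :=
  SK_th M T K x

theorem SK_NN (T : TA) : NN M ≤ (NN M).comap (S0 M T) := by
  rintro x ⟨K, hK⟩
  exact ⟨K, by rw [← S0_th, hK, map_one]⟩

/-- the induced map on the lamp group -/
def SQ (T : TA) : CQ M →* CQ M := QuotientGroup.map (NN M) (NN M) (S0 M T) (SK_NN M T)

theorem SQ_mk (T : TA) (x : CT IG0) : SQ M T (x : CQ M) = (S0 M T x : CQ M) := rfl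

theorem SK_inv (T T' : TA) (h : ∀ v, T'.s (T.s v) = v) (x : CT IG0) :
    S0 M T' (S0 M T x) = x := by
  have : (S0 M T').comp (S0 M T) = MonoidHom.id _ := by
    apply CoprodI.ext_hom
    intro r
    ext x
    simp only [MonoidHom.comp_apply, MonoidHom.id_apply]
    have h1 := SK_of M T 0 r x
    have h2 := SK_of M T' 0 (T.s r) (ccMap (endJ M 0 (fun i => T.fl (r.1 - i))) x)
    rw [h] at h2
    exact (congrArg (S0 M T') h1).trans h2
  exact DFunLike.congr_fun this x

theorem SQ_inv (T T' : TA) (h : ∀ v, T'.s (T.s v) = v) (x : CQ M) :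
    SQ M T' (SQ M T x) = x := by
  obtain ⟨x, rfl⟩ := QuotientGroup.mk_surjective x
  rw [SQ_mk, SQ_mk, SK_inv M T T' h]

/-- building graph automorphisms -/
def mkIso (e : VX M ≃ VX M) (h1 : ∀ x y, EX M x y → EX M (e x) (e y))
    (h2 : ∀ x y, EX M x y → EX M (e.symm x) (e.symm y)) : GX M ≃g GX M where
  toEquiv := e
  map_rel_iff' := by
    intro x y
    rw [GX_adj, GX_adj]
    have key : ∀ x y, EX M (e x) (e y) ↔ EX M x y := by
      intro x y
      constructor
      · intro h
        have := h2 _ _ h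
        simpa using this
      · exact h1 x y
    rw [key, key, e.injective.ne_iff]

/-- right multiplication -/
def isoR (h : CQ M) : GX M ≃g GX M := mkIso M
  { toFun := fun x => (x.1 * h, x.2)
    invFun := fun x => (x.1 * h⁻¹, x.2)
    left_inv := by intro x; simp
    right_inv := by intro x; simp }
  (by
    rintro x y (⟨h1, h2⟩ | ⟨h1, h2⟩)
    · exact Or.inl ⟨by simp [h1], h2⟩
    · exact Or.inr ⟨h1, by simp [h2, mul_assoc]⟩)
  (by
    rintro x y (⟨h1, h2⟩ | ⟨h1, h2⟩)
    · exact Or.inl ⟨by simp [h1], h2⟩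
    · exact Or.inr ⟨h1, by simp [h2, mul_assoc]⟩)

theorem EX_TA (T : TA) {x y : VX M} (h : EX M x y) :
    EX M (SQ M T x.1, T.s x.2) (SQ M T y.1, T.s y.2) := by
  rcases h with ⟨h1, h2⟩ | ⟨h1, h2⟩
  · exact Or.inl ⟨by simp [h1], by simp only; rw [h2, T.hp]⟩
  · refine Or.inr ⟨by simp [h1], ?_⟩
    simp only
    rw [h2, map_mul, SQ_mk, SK_lmp]

/-- automorphism from a tree automorphism -/
def isoT (T T' : TA) (h : ∀ v, T'.s (T.s v) = v) (h' : ∀ v, T.s (T'.s v) = v) : GX M ≃g GX M :=
  mkIso M
  { toFun := fun x => (SQ M T x.1, T.s x.2)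
    invFun := fun x => (SQ M T' x.1, T'.s x.2)
    left_inv := by intro x; simp only [SQ_inv M T T' h, h]
    right_inv := by intro x; simp only [SQ_inv M T' T h', h'] }
  (fun _ _ h => EX_TA M T h) (fun _ _ h => EX_TA M T' h)

/-- shifts -/
def shT (k : ℤ) : TA where
  s v := (v.1 + k, v.2)
  fl _ := false
  hp v := by simp only [par]; ext <;> simp only; ring
  hb v := by simp [bt]

/-- masks -/
def msk (a : ℕ) (n : ℤ) : ℕ := if 0 ≤ n then a / 2 ^ n.toNat else a * 2 ^ (-n).toNat

theorem msk_zero (a : ℕ) : msk a 0 = a := by simp [msk]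

theorem msk_succ (a : ℕ) (n : ℤ) : msk a (n + 1) = msk a n / 2 := by
  unfold msk
  by_cases h : 0 ≤ n
  · rw [if_pos h, if_pos (by omega)]
    have : (n + 1).toNat = n.toNat + 1 := by omega
    rw [this, pow_succ, Nat.div_div_eq_div_mul]
  · rw [if_neg h]
    by_cases h2 : 0 ≤ n + 1
    · have : n = -1 := by omega
      subst this
      simp
    · rw [if_neg h2]
      have : (-n).toNat = (-(n + 1)).toNat + 1 := by omega
      rw [this, pow_succ, ← mul_assoc, Nat.mul_div_cancel _ (by norm_num)]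

/-- masks as tree automorphisms -/
def mkT (a : ℕ) : TA where
  s v := (v.1, v.2 ^^^ msk a v.1)
  fl n := decide (msk a (n - 1) % 2 = 1)
  hp v := by
    simp only [par]
    rw [msk_succ, Nat.xor_div_two]
  hb v := by
    simp only [bt]
    rw [add_sub_cancel_right, Nat.xor_mod_two_eq]
    have h1 := Nat.mod_two_eq_zero_or_one v.2
    have h2 := Nat.mod_two_eq_zero_or_one (msk a v.1)
    rw [Nat.add_mod]
    rcases h1 with h1 | h1 <;> rcases h2 with h2 | h2 <;> simp [h1, h2]

theorem GX_trans (x y : VX M) : ∃ φ : GX M ≃g GX M, φ x = y := by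
  have key : ∀ x : VX M, ∃ φ : GX M ≃g GX M, φ x = (1, (0, 0)) := by
    rintro ⟨g, v⟩
    let φ1 := isoR M g⁻¹
    let φ2 := isoT M (shT (-v.1)) (shT v.1) (by intro u; simp [shT]) (by intro u; simp [shT])
    let φ3 := isoT M (mkT v.2) (mkT v.2) (by intro u; simp [mkT])
      (by intro u; simp [mkT])
    refine ⟨(φ1.trans φ2).trans φ3, ?_⟩
    change (SQ M (mkT v.2) (SQ M (shT (-v.1)) (g * g⁻¹)),
      (mkT v.2).s ((shT (-v.1)).s v)) = (1, (0, 0))
    rw [mul_inv_cancel, map_one, map_one]
    simp [mkT, shT, msk_zero]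
  obtain ⟨φ, hφ⟩ := key x
  obtain ⟨ψ, hψ⟩ := key y
  refine ⟨φ.trans ψ.symm, ?_⟩
  change ψ.symm (φ x) = y
  rw [hφ, ← hψ]
  simp

end V11198.Sep
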