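import Mathlib

/-! Definitions used in the statement about separation profiles. -/

namespace V11198.Sep

/-- `cut Λ`: the least size of a set `S` of vertices of `Λ` such that every connected component
of `Λ - S` has at most half of the vertices of `Λ`. -/
noncomputable def cut {V : Type} {Γ : SimpleGraph V} (Λ : Γ.Subgraph) : ℕ :=
  sInf {k | ∃ S : Set V, S ⊆ Λ.verts ∧ S.ncard = k ∧
    ∀ c : (Λ.deleteVerts S).coe.ConnectedComponent, 2 * c.supp.ncard ≤ Λ.verts.ncard}

/-- The separation profile: `sep Γ n` is the maximum of `cut Λ` over the finite subgraphs `Λ` of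
`Γ` with at most `n` vertices (see `sep_isGreatest` below). -/
noncomputable def sep {V : Type} (Γ : SimpleGraph V) (n : ℕ) : ℕ :=
  sSup {k | ∃ Λ : Γ.Subgraph, Λ.verts.Finite ∧ Λ.verts.ncard ≤ n ∧ cut Λ = k}

/-- Logarithmic separation profile. -/
def LogSeparation {V : Type} (Γ : SimpleGraph V) : Prop :=
  ∃ C : ℝ, ∀ n : ℕ, 2 ≤ n → (sep Γ n : ℝ) ≤ C * Real.log n

/-- Every geodesic triangle is `δ`-slim: for all vertices `x y z` and all geodesics `p`, `q`, `r`
from `x` to `y`, `y` to `z`, `x` to `z`, every vertex of `p` is at distance at most `δ` from a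
vertex of `q` or `r` (the other sides being covered by permuting `x y z`). -/
def SlimTriangles {V : Type} (Γ : SimpleGraph V) (δ : ℕ) : Prop :=
  ∀ (x y z : V) (p : Γ.Walk x y) (q : Γ.Walk y z) (r : Γ.Walk x z),
    p.length = Γ.dist x y → q.length = Γ.dist y z → r.length = Γ.dist x z →
    ∀ m ∈ p.support, ∃ n, (n ∈ q.support ∨ n ∈ r.support) ∧ Γ.dist m n ≤ δ

/-- Gromov hyperbolicity (of a connected graph). -/
def Hyperbolic {V : Type} (Γ : SimpleGraph V) : Prop := ∃ δ, SlimTriangles Γ δ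

theorem cut_le_of_col {V : Type} {Γ : SimpleGraph V} (Λ : Γ.Subgraph) (hfin : Λ.verts.Finite)
    {ι : Type} (S : Set V) (κ : V → ι) (hS : S ⊆ Λ.verts)
    (h1 : ∀ x y, Λ.Adj x y → x ∉ S → y ∉ S → κ x = κ y)
    (h2 : ∀ c, 2 * {x | x ∈ Λ.verts ∧ x ∉ S ∧ κ x = c}.ncard ≤ Λ.verts.ncard) :
    cut Λ ≤ S.ncard := by
  apply Nat.sInf_le
  refine ⟨S, hS, rfl, ?_⟩
  intro c
  induction c using SimpleGraph.ConnectedComponent.ind with
  | h v0 =>
    have hreach : ∀ (w w' : (Λ.deleteVerts S).verts) (p : (Λ.deleteVerts S).coe.Walk w w'),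
        κ w.1 = κ w'.1 := by
      intro w w' p
      induction p with
      | nil => rfl
      | @cons u v w h p ih =>
        rw [← ih]
        rw [SimpleGraph.Subgraph.coe_adj, SimpleGraph.Subgraph.deleteVerts_adj] at h
        exact h1 _ _ h.2.2.2.2 h.2.1 h.2.2.2.1
    refine le_trans (Nat.mul_le_mul_left 2 ?_) (h2 (κ v0.1))
    rw [← Set.ncard_image_of_injective _ Subtype.val_injective]
    apply Set.ncard_le_ncard
    · rintro x ⟨w, hw, rfl⟩
      rw [SimpleGraph.ConnectedComponent.mem_supp_iff, SimpleGraph.ConnectedComponent.eq] at hw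
      obtain ⟨p⟩ := hw
      have hwv : (w : V) ∈ Λ.verts \ S := w.2
      exact ⟨hwv.1, hwv.2, hreach _ _ p⟩
    · exact hfin.subset (fun x hx => hx.1)

theorem cut_le_card {V : Type} {Γ : SimpleGraph V} (Λ : Γ.Subgraph) (hfin : Λ.verts.Finite) :
    cut Λ ≤ Λ.verts.ncard := by
  apply cut_le_of_col Λ hfin (ι := Unit) Λ.verts (fun _ => ()) (le_refl _) (fun _ _ _ _ _ => rfl)
  intro c
  have : {x | x ∈ Λ.verts ∧ x ∉ Λ.verts ∧ () = c} = ∅ := by
    ext x
    simp only [Set.mem_ofPred_eq, Set.mem_empty_iff_false, iff_false]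
    rintro ⟨h1, h2, _⟩
    exact h2 h1
  rw [this]
  simp

/-- The supremum defining `sep` is a maximum. -/
theorem sep_isGreatest {V : Type} (Γ : SimpleGraph V) (n : ℕ) :
    IsGreatest {k | ∃ Λ : Γ.Subgraph, Λ.verts.Finite ∧ Λ.verts.ncard ≤ n ∧ cut Λ = k}
      (sep Γ n) := by
  have hb : BddAbove {k | ∃ Λ : Γ.Subgraph, Λ.verts.Finite ∧ Λ.verts.ncard ≤ n ∧ cut Λ = k} := by
    refine ⟨n, ?_⟩
    rintro k ⟨Λ, h1, h2, rfl⟩
    exact (cut_le_card Λ h1).trans h2
  constructor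
  · exact Nat.sSup_mem ⟨_, (⊥ : Γ.Subgraph), by simp, by simp, rfl⟩ hb
  · intro k hk
    exact le_csSup hb hk

theorem sep_le {V : Type} (Γ : SimpleGraph V) (n k : ℕ)
    (h : ∀ Λ : Γ.Subgraph, Λ.verts.Finite → Λ.verts.ncard ≤ n → cut Λ ≤ k) : sep Γ n ≤ k := by
  obtain ⟨Λ, h1, h2, h3⟩ := (sep_isGreatest Γ n).1
  rw [← h3]
  exact h Λ h1 h2

end V11198.Sep
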