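import Pool.Agent.V11198.SepX
import Pool.Agent.V11198.SepDefs

namespace V11198.Sep

open Monoid

/-! Non-hyperbolicity. -/

theorem walk_split {V : Type} {G : SimpleGraph V} {x y : V} (p : G.Walk x y) :
    ∀ n, n ≤ p.length → ∃ (z : V) (p1 : G.Walk x z) (p2 : G.Walk z y),
      p = p1.append p2 ∧ p1.length = n := by
  induction p with
  | nil =>
    intro n hn
    rw [SimpleGraph.Walk.length_nil] at hn
    exact ⟨_, .nil, .nil, rfl, by simp; omega⟩
  | cons h p ih =>
    intro n hn
    cases n with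
    | zero => exact ⟨_, .nil, .cons h p, rfl, rfl⟩
    | succ n =>
      obtain ⟨z, p1, p2, h1, h2⟩ := ih n (by simpa using hn)
      exact ⟨z, .cons h p1, p2, by rw [SimpleGraph.Walk.cons_append, h1], by simp [h2]⟩

/-- A graph with long isometric cycles is not hyperbolic. -/
theorem not_hyp_of_cycle {V : Type} {G : SimpleGraph V}
    (h : ∀ N : ℕ, ∃ (x : V) (p : G.Walk x x), N ≤ p.length ∧
      ∀ (y z : V) (p1 : G.Walk x y) (p2 : G.Walk y z) (p3 : G.Walk z x),
        p = p1.append (p2.append p3) → min p2.length (p1.length + p3.length) ≤ G.dist y z) :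
    ¬ Hyperbolic G := by
  rintro ⟨δ, hδ⟩
  obtain ⟨x, p, hN, hiso⟩ := h (6 * δ + 30)
  set L := p.length with hL
  obtain ⟨x1, A, D, hp, hA⟩ := walk_split p (L / 3) (by omega)
  have hD : A.length + D.length = L := by rw [hL, hp, SimpleGraph.Walk.length_append]
  obtain ⟨x2, B, C, hp2, hB⟩ := walk_split D (L / 3) (by omega)
  have hC : B.length + C.length = D.length := by rw [hp2, SimpleGraph.Walk.length_append]
  obtain ⟨m, A1, A2, hp3, hA1⟩ := walk_split A (L / 6) (by omega)
  have hA2 : A1.length + A2.length = A.length := by rw [hp3, SimpleGraph.Walk.length_append]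
  have gA : A.length = G.dist x x1 := by
    apply le_antisymm _ (SimpleGraph.dist_le A)
    have := hiso x x1 .nil A D (by rw [hp]; rfl)
    rw [SimpleGraph.Walk.length_nil] at this
    omega
  have gB : B.length = G.dist x1 x2 := by
    apply le_antisymm _ (SimpleGraph.dist_le B)
    have := hiso x1 x2 A B C (by rw [hp, hp2])
    omega
  have gC : C.reverse.length = G.dist x x2 := by
    rw [SimpleGraph.dist_comm]
    apply le_antisymm _ (SimpleGraph.dist_le C |>.trans (by simp))
    have := hiso x2 x (A.append B) C .nil (by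
      rw [hp, hp2, SimpleGraph.Walk.append_nil, SimpleGraph.Walk.append_assoc])
    rw [SimpleGraph.Walk.length_append, SimpleGraph.Walk.length_nil] at this
    rw [SimpleGraph.Walk.length_reverse]
    omega
  obtain ⟨n, hn, hd⟩ := hδ x x1 x2 A B C.reverse gA gB gC m (by
    rw [SimpleGraph.Walk.mem_support_iff_exists_append]; exact ⟨A1, A2, hp3⟩)
  rcases hn with hn | hn
  · rw [SimpleGraph.Walk.mem_support_iff_exists_append] at hn
    obtain ⟨B1, B2, hB12⟩ := hn
    have hl : B1.length + B2.length = B.length := by rw [hB12, SimpleGraph.Walk.length_append]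
    have := hiso m n A1 (A2.append B1) (B2.append C) (by
      rw [hp, hp2, hp3, hB12]
      simp only [SimpleGraph.Walk.append_assoc])
    simp only [SimpleGraph.Walk.length_append] at this
    omega
  · rw [SimpleGraph.Walk.support_reverse, List.mem_reverse,
      SimpleGraph.Walk.mem_support_iff_exists_append] at hn
    obtain ⟨C1, C2, hC12⟩ := hn
    have hl : C1.length + C2.length = C.length := by rw [hC12, SimpleGraph.Walk.length_append]
    have := hiso m n A1 (A2.append (B.append C1)) C2 (by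
      rw [hp, hp2, hp3, hC12]
      simp only [SimpleGraph.Walk.append_assoc])
    simp only [SimpleGraph.Walk.length_append] at this
    omega

variable (M : ℕ → ℕ)

/-- left child -/
def ch0 (r : TT) : TT := (r.1 - 1, 2 * r.2)
/-- right child -/
def ch1 (r : TT) : TT := (r.1 - 1, 2 * r.2 + 1)

theorem par_ch0 (r : TT) : par (ch0 r) = r := by
  unfold par ch0; ext <;> simp only <;> omega
theorem par_ch1 (r : TT) : par (ch1 r) = r := by
  unfold par ch1; ext <;> simp only <;> omega
theorem bt_ch0 (r : TT) : bt (ch0 r) = false := by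
  unfold bt ch0; simp
theorem bt_ch1 (r : TT) : bt (ch1 r) = true := by
  unfold bt ch1; simp only [decide_eq_true_eq]; omega

theorem ch_ne (r : TT) : ch0 r ≠ ch1 r := by
  intro h
  have := congrArg Prod.snd h
  simp only [ch0, ch1] at this
  omega

/-- nested words -/
def zz : ℕ → TT → CT IG0
  | 0, v => lmp v
  | j + 1, r => (zz j (ch0 r) * zz j (ch1 r)) ^ (M j / 2) * zz j (ch0 r)

theorem em_zt (m : ℕ) (A : IG) (b : Bool) : em m A b (zt A) = zt _ := by
  apply CC.ext
  · rfl
  · exact map_one _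

theorem io_zt (m : ℕ) (A : IG) (b : Bool) : io m A b (zt A) = ⟨true, rr m A (-2 * sg b)⟩ := by
  apply CC.ext
  · rw [io_d]; rfl
  · rw [io_f]
    change rr m A (sg true * sg b) * eF m A b 1 * rr m A (-sg b) = rr m A (-2 * sg b)
    rw [map_one, mul_one, rr_add]
    congr 1
    simp only [sg]; ring

theorem io_zt_mul (m : ℕ) (A : IG) :
    io m A false (zt A) * io m A true (zt A) = emF _ (rr m A 4) := by
  rw [io_zt, io_zt]
  apply CC.ext
  · rfl
  · change (stepIG m A).tw true (rr m A (-2 * sg false)) * rr m A (-2 * sg true) = rr m A 4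
    rw [tw_rr, rr_add]
    congr 1

theorem rr_pow (m : ℕ) (A : IG) (e : ℤ) (k : ℕ) : rr m A e ^ k = rr m A (k * e) := by
  induction k with
  | zero => rw [pow_zero]; simp [rr_zero]
  | succ k ih => rw [pow_succ, ih, rr_add]; congr 1; push_cast; ring

theorem rr_mul_m (m : ℕ) (A : IG) (e : ℤ) : rr m A (e * m) = 1 := by
  unfold rr
  have : ((e * m : ℤ) : ZMod m) = 0 := by push_cast; simp
  rw [this, ofAdd_zero]
  exact map_one (CoprodI.of (M := Fam m A) (i := none))

theorem io_zt_full (m : ℕ) (hm : Odd m) (A : IG) :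
    (io m A false (zt A) * io m A true (zt A)) ^ (m / 2) * io m A false (zt A) = zt _ := by
  rw [io_zt_mul, ← map_pow, rr_pow, io_zt]
  apply CC.ext
  · rfl
  · change (stepIG m A).tw true (rr m A ((m / 2 : ℕ) * 4)) * rr m A (-2 * sg false) = 1
    rw [tw_rr, rr_add]
    have : sg true * (((m / 2 : ℕ) : ℤ) * 4) + -2 * sg false = (-2 : ℤ) * m := by
      obtain ⟨k, hk⟩ := hm
      have : m / 2 = k := by omega
      rw [this, hk]; simp only [sg]; push_cast; ring
    rw [this, rr_mul_m]

theorem th_zz (hodd : ∀ j, Odd (M j)) (j : ℕ) : ∀ r : TT, th M j (zz M j r) =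
    CoprodI.of (M := fun _ : TT => CC (IGs M j)) (i := r) (zt (IGs M j)) := by
  induction j with
  | zero => intro r; rfl
  | succ j ih =>
    intro r
    have h1 : th M (j + 1) (zz M (j + 1) r) =
        stepT (M j) (IGs M j) (th M j ((zz M j (ch0 r) * zz M j (ch1 r)) ^ (M j / 2) *
          zz M j (ch0 r))) := rfl
    rw [h1]
    simp only [map_mul, map_pow]
    rw [ih, ih, stepT_of, stepT_of, par_ch0, par_ch1, bt_ch0, bt_ch1, ← map_mul, ← map_pow,
      ← map_mul, io_zt_full _ (hodd j)]
    rfl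

theorem alt_pow {I : Type} {G : I → Type} [∀ i, Group (G i)] {i j : I} (hij : i ≠ j) (a : G i)
    (b : G j) (ha : a ≠ 1) (hb : b ≠ 1) (k : ℕ) : ∃ w : CoprodI.Word G,
      w.prod = (CoprodI.of a * CoprodI.of b) ^ k ∧ w.fstIdx ≠ some j ∧
      (0 < k → w.toList ≠ []) := by
  induction k with
  | zero =>
    exact ⟨CoprodI.Word.empty, by simp, by simp [CoprodI.Word.fstIdx, CoprodI.Word.empty],
      fun h => absurd h (lt_irrefl 0)⟩
  | succ k ih =>
    obtain ⟨w, h1, h2, _⟩ := ih
    refine ⟨CoprodI.Word.cons a (CoprodI.Word.cons b w h2 hb) (by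
      rw [CoprodI.Word.fstIdx_cons]; intro h; exact hij (Option.some.inj h).symm) ha, ?_, ?_, ?_⟩
    · rw [CoprodI.Word.prod_cons, CoprodI.Word.prod_cons, h1, pow_succ', mul_assoc]
    · rw [CoprodI.Word.fstIdx_cons]; intro h; exact hij (Option.some.inj h)
    · intro _; simp [CoprodI.Word.cons]

theorem alt_pow_ne_one {I : Type} {G : I → Type} [∀ i, Group (G i)] {i j : I} (hij : i ≠ j)
    (a : G i) (b : G j) (ha : a ≠ 1) (hb : b ≠ 1) (k : ℕ) (hk : 0 < k) :
    (CoprodI.of a * CoprodI.of b : CoprodI G) ^ k ≠ 1 := by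
  intro h
  obtain ⟨w, h1, _, h3⟩ := alt_pow hij a b ha hb k
  apply h3 hk
  have : w = CoprodI.Word.empty := prod_injective (by rw [h1, h]; simp)
  rw [this]; rfl

/-- the long relator -/
def ww (J : ℕ) (r : TT) : CT IG0 := (zz M J (ch0 r) * zz M J (ch1 r)) ^ (M J)

theorem ww_mem (hodd : ∀ j, Odd (M j)) (J : ℕ) (r : TT) : ww M J r ∈ NN M := by
  refine ⟨J + 1, ?_⟩
  have h1 : th M (J + 1) (ww M J r) =
      stepT (M J) (IGs M J) (th M J ((zz M J (ch0 r) * zz M J (ch1 r)) ^ (M J))) := rfl
  rw [h1]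
  simp only [map_mul, map_pow]
  rw [th_zz M hodd, th_zz M hodd, stepT_of, stepT_of, par_ch0, par_ch1, bt_ch0, bt_ch1,
    ← map_mul, ← map_pow, io_zt_mul, ← map_pow, rr_pow]
  rw [mul_comm ((M J : ℕ) : ℤ) 4, rr_mul_m, map_one]
  exact map_one _

theorem ww_ne (hodd : ∀ j, Odd (M j)) (h1 : ∀ j, 1 < M j) (J : ℕ) (r : TT) :
    th M J (ww M J r) ≠ 1 := by
  unfold ww
  rw [map_pow, map_mul, th_zz M hodd, th_zz M hodd]
  have := h1 J
  exact alt_pow_ne_one (ch_ne r) _ _ zt_ne_one zt_ne_one _ (by omega)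

theorem GX_not_hyp (hodd : ∀ j, Odd (M j)) (h1 : ∀ j, 1 < M j) (hmono : Monotone M)
    (hunb : ∀ N, ∃ J, N ≤ M J) : ¬ Hyperbolic (GX M) := by
  apply not_hyp_of_cycle
  intro N
  obtain ⟨J, hJ⟩ := hunb N
  -- minimal closed walk with nontrivial lift
  let P : ℕ → Prop := fun L => ∃ (x : VX M) (p : (GX M).Walk x x), p.length = L ∧
    th M J (wt M p) ≠ 1
  have hex : ∃ L, P L := by
    have hw := walk_el M hodd h1 (ww M J (0, 0)) 1 (0, 0)
    have e : ((ww M J (0, 0) : CT IG0) : CQ M) * 1 = 1 := by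
      rw [mul_one]
      exact (QuotientGroup.eq_one_iff _).mpr (ww_mem M hodd J (0, 0))
    rw [e] at hw
    obtain ⟨p, hp⟩ := hw
    exact ⟨p.length, _, p, rfl, by rw [hp]; exact ww_ne M hodd h1 J (0, 0)⟩
  classical
  obtain ⟨x, p, hpl, hpn⟩ := Nat.find_spec hex
  have hmin : ∀ (y : VX M) (q : (GX M).Walk y y), q.length < p.length → th M J (wt M q) = 1 := by
    intro y q hq
    by_contra hne
    rw [hpl] at hq
    exact Nat.find_min hex hq ⟨y, q, rfl, hne⟩
  refine ⟨x, p, ?_, ?_⟩
  · by_contra hlt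
    push Not at hlt
    exact hpn (wt_short M hodd hmono p (lt_of_lt_of_le hlt hJ))
  · intro y z p1 p2 p3 hp
    obtain ⟨q, hq⟩ := (GX_connected M hodd h1).exists_walk_length_eq_dist y z
    rw [← hq]
    by_contra hlt
    push Not at hlt
    have hl : p.length = p1.length + (p2.length + p3.length) := by
      rw [hp]; simp only [SimpleGraph.Walk.length_append]
    have hlt1 : q.length < p2.length := lt_of_lt_of_le hlt (min_le_left _ _)
    have hlt2 : q.length < p1.length + p3.length := lt_of_lt_of_le hlt (min_le_right _ _)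
    have e1 := hmin x (p1.append (q.append p3)) (by
      simp only [SimpleGraph.Walk.length_append]; omega)
    have e2 := hmin y (q.append p2.reverse) (by
      simp only [SimpleGraph.Walk.length_append, SimpleGraph.Walk.length_reverse]; omega)
    apply hpn
    rw [hp]
    simp only [wt_append, wt_reverse, map_mul, map_inv] at e1 e2 ⊢
    have e3 : th M J (wt M p2) = th M J (wt M q) := by
      rw [inv_mul_eq_one] at e2; exact e2
    rw [e3]
    exact e1

end V11198.Sep
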