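import Mathlib

/-!
# Colourings of sets with an action of a free group whose stabilisers are abelian
-/

namespace Pool.Agent.V11198.Cong

open FreeGroup Set

universe u

/-- The inverse letter. -/
def linv {T : Type*} (a : T × Bool) : T × Bool := (a.1, !a.2)

@[simp] lemma linv_linv {T : Type*} (a : T × Bool) : linv (linv a) = a := by
  simp [linv]

lemma ne_linv_iff {T : Type*} {a b : T × Bool} : a ≠ linv b ↔ (a.1 = b.1 → a.2 = b.2) := by
  obtain ⟨x, p⟩ := a
  obtain ⟨y, q⟩ := b
  cases p <;> cases q <;> simp [linv]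

lemma ne_linv_comm {T : Type*} {a b : T × Bool} (h : a ≠ linv b) : b ≠ linv a := by
  intro h'
  apply h
  rw [h', linv_linv]

section rel

variable {T I : Type*} (E0 : Set I) (R : T → Set I)

/-- source set of a letter -/
def src (a : T × Bool) : Set I := if a.2 then E0 else R a.1

/-- target set of a letter -/
def tgt (a : T × Bool) : Set I := if a.2 then R a.1 else E0

/-- the relation attached to a letter -/
def Rel (a : T × Bool) (x y : I) : Prop := x ∈ src E0 R a ↔ y ∈ tgt E0 R a

lemma src_linv (a : T × Bool) : src E0 R (linv a) = tgt E0 R a := by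
  obtain ⟨x, p⟩ := a
  cases p <;> simp [linv, src, tgt]

lemma tgt_linv (a : T × Bool) : tgt E0 R (linv a) = src E0 R a := by
  obtain ⟨x, p⟩ := a
  cases p <;> simp [linv, src, tgt]

variable {E0 R}

lemma Rel.symm {a : T × Bool} {x y : I} (h : Rel E0 R a x y) : Rel E0 R (linv a) y x := by
  unfold Rel at *
  rw [src_linv, tgt_linv]
  exact h.symm

/-- a set which is nonempty and not everything -/
def Proper (E : Set I) : Prop := E.Nonempty ∧ Eᶜ.Nonempty

lemma proper_tgt (hE : Proper E0) (hR : ∀ t, Proper (R t)) (a : T × Bool) :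
    Proper (tgt E0 R a) := by
  unfold tgt
  split_ifs
  · exact hR _
  · exact hE

lemma proper_src (hE : Proper E0) (hR : ∀ t, Proper (R t)) (a : T × Bool) :
    Proper (src E0 R a) := by
  unfold src
  split_ifs
  · exact hE
  · exact hR _

lemma exists_rel (hE : Proper E0) (hR : ∀ t, Proper (R t)) (a : T × Bool) (x : I) :
    ∃ y, Rel E0 R a x y := by
  obtain ⟨⟨y, hy⟩, ⟨z, hz⟩⟩ := proper_tgt hE hR a
  by_cases h : x ∈ src E0 R a
  · exact ⟨y, ⟨fun _ => hy, fun _ => h⟩⟩
  · exact ⟨z, ⟨fun h' => absurd h' h, fun h' => absurd h' hz⟩⟩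

/-- the choice of a next colour -/
noncomputable def nxt (E0 : Set I) (R : T → Set I) [Nonempty I] (a : T × Bool) (x : I) : I :=
  Classical.epsilon fun y => Rel E0 R a x y

lemma nxt_rel [Nonempty I] (hE : Proper E0) (hR : ∀ t, Proper (R t)) (a : T × Bool) (x : I) :
    Rel E0 R a x (nxt E0 R a x) := Classical.epsilon_spec (exists_rel hE hR a x)

/-- if `E` is neither `F` nor its complement, some membership of `E` is compatible with both
memberships of `F` -/
lemma exists_bit {E F : Set I} (hE : Proper E) (hF : Proper F) (h1 : E ≠ F) (h2 : E ≠ Fᶜ) :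
    ∃ β : Prop, ∀ γ : Prop, ∃ a, (a ∈ F ↔ γ) ∧ (a ∈ E ↔ β) := by
  by_cases hA : (F ∩ E).Nonempty ∧ (Fᶜ ∩ E).Nonempty
  · obtain ⟨⟨a, ha⟩, ⟨b, hb⟩⟩ := hA
    refine ⟨True, fun γ => ?_⟩
    by_cases hγ : γ
    · exact ⟨a, by simp [ha.1, hγ], by simp [ha.2]⟩
    · exact ⟨b, by simpa [hγ] using hb.1, by simp [hb.2]⟩
  · refine ⟨False, fun γ => ?_⟩
    have key : (F ∩ Eᶜ).Nonempty ∧ (Fᶜ ∩ Eᶜ).Nonempty := by
      rw [not_and_or, not_nonempty_iff_eq_empty, not_nonempty_iff_eq_empty] at hA
      rcases hA with hA | hA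
      · constructor
        · obtain ⟨x, hx⟩ := hF.1
          exact ⟨x, hx, fun hxE => by
            have : x ∈ F ∩ E := ⟨hx, hxE⟩
            rw [hA] at this
            exact this⟩
        · by_contra hne
          rw [not_nonempty_iff_eq_empty] at hne
          apply h2
          ext x
          constructor
          · intro hxE hxF
            have : x ∈ F ∩ E := ⟨hxF, hxE⟩
            rw [hA] at this
            exact this
          · intro hxF
            by_contra hxE
            have : x ∈ Fᶜ ∩ Eᶜ := ⟨hxF, hxE⟩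
            rw [hne] at this
            exact this
      · constructor
        · by_contra hne
          rw [not_nonempty_iff_eq_empty] at hne
          apply h1
          ext x
          constructor
          · intro hxE
            by_contra hxF
            have : x ∈ Fᶜ ∩ E := ⟨hxF, hxE⟩
            rw [hA] at this
            exact this
          · intro hxF
            by_contra hxE
            have : x ∈ F ∩ Eᶜ := ⟨hxF, hxE⟩
            rw [hne] at this
            exact this
        · obtain ⟨x, hx⟩ := hF.2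
          exact ⟨x, hx, fun hxE => by
            have : x ∈ Fᶜ ∩ E := ⟨hx, hxE⟩
            rw [hA] at this
            exact this⟩
    obtain ⟨⟨a, ha⟩, ⟨b, hb⟩⟩ := key
    by_cases hγ : γ
    · exact ⟨a, by simp [ha.1, hγ], by simpa using ha.2⟩
    · exact ⟨b, by simpa [hγ] using hb.1, by simpa using hb.2⟩

/-- colouring of a cycle, when the junction at the base vertex is not tight -/
lemma cyc_color_base [Nonempty I] (hE : Proper E0) (hR : ∀ t, Proper (R t)) {n : ℕ} (hn : 1 ≤ n)
    (τ : ℕ → T × Bool) (hper : ∀ i, τ (i + n) = τ i)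
    (h1 : src E0 R (τ 0) ≠ tgt E0 R (τ (n - 1)))
    (h2 : src E0 R (τ 0) ≠ (tgt E0 R (τ (n - 1)))ᶜ) :
    ∃ c : ℕ → I, (∀ i, c (i + n) = c i) ∧ ∀ i, Rel E0 R (τ i) (c i) (c (i + 1)) := by
  obtain ⟨β, hβ⟩ := exists_bit (proper_src hE hR (τ 0)) (proper_tgt hE hR (τ (n - 1))) h1 h2
  obtain ⟨b, -, hb⟩ := hβ True
  let d : ℕ → I := fun k => Nat.rec b (fun i x => nxt E0 R (τ i) x) k
  have hd : ∀ i, Rel E0 R (τ i) (d i) (d (i + 1)) := fun i => nxt_rel hE hR (τ i) (d i)
  obtain ⟨a, ha1, ha2⟩ := hβ (d (n - 1) ∈ src E0 R (τ (n - 1)))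
  have hmod : ∀ i, τ i = τ (i % n) := by
    intro i
    have hper' : ∀ k j, τ (j + n * k) = τ j := by
      intro k
      induction k with
      | zero => intro j; simp
      | succ k ih =>
        intro j
        rw [Nat.mul_succ, ← add_assoc, hper, ih]
    conv_lhs => rw [← Nat.mod_add_div i n]
    exact hper' _ _
  refine ⟨fun i => if i % n = 0 then a else d (i % n), fun i => by simp, fun i => ?_⟩
  rw [hmod i]
  have hr : i % n < n := Nat.mod_lt _ (by omega)
  set r := i % n with hrdef
  have hx : (if r = 0 then a else d r) ∈ src E0 R (τ r) ↔ d r ∈ src E0 R (τ r) := by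
    split_ifs with h
    · rw [h]
      exact ha2.trans hb.symm
    · exact Iff.rfl
  have hy : (if (i + 1) % n = 0 then a else d ((i + 1) % n)) ∈ tgt E0 R (τ r) ↔
      d r ∈ src E0 R (τ r) := by
    by_cases h : r + 1 = n
    · have h3 : (i + 1) % n = 0 := by
        have : (i + 1) % n = (r + 1) % n := by rw [hrdef]; simp [Nat.add_mod]
        rw [this, h]
        simp
      rw [if_pos h3]
      have h4 : r = n - 1 := by omega
      rw [h4]
      exact ha1
    · have h3 : (i + 1) % n = r + 1 := by
        have : (i + 1) % n = (r + 1) % n := by rw [hrdef]; simp [Nat.add_mod]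
        rw [this]
        exact Nat.mod_eq_of_lt (by omega)
      rw [h3, if_neg (by omega)]
      exact Iff.symm (hd r)
  exact hx.trans hy.symm

lemma periodic_mul {α : Type*} {n : ℕ} {τ : ℕ → α} (hper : ∀ i, τ (i + n) = τ i) (k j : ℕ) :
    τ (j + k * n) = τ j := by
  induction k with
  | zero => simp
  | succ k ih => rw [Nat.succ_mul, ← add_assoc, hper, ih]

/-- colouring of a cycle with a junction which is not tight -/
lemma cyc_color [Nonempty I] (hE : Proper E0) (hR : ∀ t, Proper (R t)) {n : ℕ} (hn : 1 ≤ n)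
    (τ : ℕ → T × Bool) (hper : ∀ i, τ (i + n) = τ i) (m : ℕ)
    (h1 : src E0 R (τ (m + 1)) ≠ tgt E0 R (τ m))
    (h2 : src E0 R (τ (m + 1)) ≠ (tgt E0 R (τ m))ᶜ) :
    ∃ c : ℕ → I, (∀ i, c (i + n) = c i) ∧ ∀ i, Rel E0 R (τ i) (c i) (c (i + 1)) := by
  have e1 : (fun i => τ (i + (m + 1))) 0 = τ (m + 1) := by simp
  have e2 : (fun i => τ (i + (m + 1))) (n - 1) = τ m := by
    simp only
    rw [show n - 1 + (m + 1) = m + n by omega]
    exact hper m
  obtain ⟨c, hc1, hc2⟩ := cyc_color_base hE hR hn (fun i => τ (i + (m + 1)))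
    (fun i => by
      rw [show i + n + (m + 1) = i + (m + 1) + n by omega]
      exact hper _) (by simp only at e1 e2; rw [e1, e2]; exact h1)
      (by simp only at e1 e2; rw [e1, e2]; exact h2)
  refine ⟨fun i => c (i + (m + 1) * (n - 1)), fun i => ?_, fun i => ?_⟩
  · beta_reduce
    rw [show i + n + (m + 1) * (n - 1) = i + (m + 1) * (n - 1) + n by omega]
    exact hc1 _
  · beta_reduce
    have := hc2 (i + (m + 1) * (n - 1))
    have e3 : i + (m + 1) * (n - 1) + (m + 1) = i + (m + 1) * n := by
      obtain ⟨k, rfl⟩ : ∃ k, n = k + 1 := ⟨n - 1, by omega⟩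
      simp only [Nat.add_sub_cancel]
      ring
    rw [e3, periodic_mul hper] at this
    rw [show i + 1 + (m + 1) * (n - 1) = i + (m + 1) * (n - 1) + 1 by omega]
    exact this

/-- a cyclically reduced word with a letter different from the special one has a junction which is
not tight -/
lemma exists_nontight {t0 : T} (hk : ∀ k, k ≠ t0 → R k ≠ E0 ∧ R k ≠ E0ᶜ)
    (hkk : ∀ k k', k ≠ k' → k ≠ t0 → R k ≠ R k' ∧ R k ≠ (R k')ᶜ) {n : ℕ} (hn : 1 ≤ n)
    (τ : ℕ → T × Bool) (hper : ∀ i, τ (i + n) = τ i) (hred : ∀ i, τ (i + 1) ≠ linv (τ i))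
    (hi : ∃ i, (τ i).1 ≠ t0) :
    ∃ m, src E0 R (τ (m + 1)) ≠ tgt E0 R (τ m) ∧ src E0 R (τ (m + 1)) ≠ (tgt E0 R (τ m))ᶜ := by
  obtain ⟨i, hi⟩ := hi
  obtain ⟨k, b, hkb⟩ : ∃ k b, τ i = (k, b) := ⟨_, _, rfl⟩
  have hkt : k ≠ t0 := by
    intro h
    apply hi
    rw [hkb, h]
  obtain ⟨hE1, hE2⟩ := hk k hkt
  cases b with
  | true =>
    refine ⟨i, ?_⟩
    obtain ⟨k', b', hkb'⟩ : ∃ k' b', τ (i + 1) = (k', b') := ⟨_, _, rfl⟩
    have hr := hred i
    rw [hkb, hkb'] at hr
    rw [hkb, hkb']
    cases b' with
    | true =>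
      simp only [src, tgt, if_true]
      exact ⟨fun h => hE1 h.symm, fun h => hE2 (by rw [h, compl_compl])⟩
    | false =>
      have hne : k ≠ k' := by
        rintro rfl
        exact hr rfl
      simp only [src, tgt, if_true, Bool.false_eq_true, if_false]
      obtain ⟨h3, h4⟩ := hkk k k' hne hkt
      exact ⟨fun h => h3 h.symm, fun h => h4 (by rw [h, compl_compl])⟩
  | false =>
    refine ⟨i + n - 1, ?_⟩
    rw [show i + n - 1 + 1 = i + n by omega, hper, hkb]
    obtain ⟨k', b', hkb'⟩ : ∃ k' b', τ (i + n - 1) = (k', b') := ⟨_, _, rfl⟩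
    have hr := hred (i + n - 1)
    rw [show i + n - 1 + 1 = i + n by omega, hper, hkb, hkb'] at hr
    rw [hkb']
    cases b' with
    | true =>
      have hne : k ≠ k' := by
        rintro rfl
        exact hr rfl
      simp only [src, tgt, if_true, Bool.false_eq_true, if_false]
      exact hkk k k' hne hkt
    | false =>
      simp only [src, tgt, Bool.false_eq_true, if_false]
      exact ⟨hE1, hE2⟩

end rel

/-! ### Words along a periodic sequence of letters -/

section path

variable {T : Type*}

/-- the word `τ (i + m - 1), …, τ i` -/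
def path (τ : ℕ → T × Bool) (i : ℕ) : ℕ → List (T × Bool)
  | 0 => []
  | m + 1 => τ (i + m) :: path τ i m

lemma path_append (τ : ℕ → T × Bool) (i m l : ℕ) :
    path τ (i + l) m ++ path τ i l = path τ i (l + m) := by
  induction m with
  | zero => simp [path]
  | succ m ih =>
    have h1 : path τ i (l + (m + 1)) = τ (i + (l + m)) :: path τ i (l + m) := rfl
    have h2 : path τ (i + l) (m + 1) = τ (i + l + m) :: path τ (i + l) m := rfl
    rw [h1, h2, List.cons_append, ih, add_assoc]

lemma path_shift {τ : ℕ → T × Bool} {n : ℕ} (hper : ∀ i, τ (i + n) = τ i) (i k m : ℕ) :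
    path τ (i + k * n) m = path τ i m := by
  induction m with
  | zero => simp [path]
  | succ m ih =>
    simp only [path]
    rw [ih, show i + k * n + m = i + m + k * n by ring, periodic_mul hper]

lemma path_reduced {τ : ℕ → T × Bool} (hred : ∀ i, τ (i + 1) ≠ linv (τ i)) (i m : ℕ) :
    IsReduced (path τ i m) := by
  induction m with
  | zero => exact IsReduced.nil
  | succ m ih =>
    cases m with
    | zero => exact IsReduced.singleton
    | succ m =>
      simp only [path]
      rw [isReduced_cons_cons]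
      exact ⟨ne_linv_iff.1 (hred (i + m)), ih⟩

lemma path_getLast? {τ : ℕ → T × Bool} (i m : ℕ) : (path τ i (m + 1)).getLast? = some (τ i) := by
  induction m with
  | zero => simp [path]
  | succ m ih =>
    have : path τ i (m + 1 + 1) = τ (i + (m + 1)) :: path τ i (m + 1) := rfl
    rw [this, List.getLast?_cons, ih]
    simp

lemma mk_eq_of_reduced {L L' : List (T × Bool)} (h : IsReduced L) (h' : IsReduced L')
    (he : mk L = mk L') : L = L' := by
  classical
  have := congrArg toWord he
  rw [toWord_mk, toWord_mk, h.reduce_eq, h'.reduce_eq] at this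
  exact this

lemma mk_path_pow {τ : ℕ → T × Bool} {n : ℕ} (hper : ∀ i, τ (i + n) = τ i) (j q : ℕ) :
    mk (path τ 0 j) * mk (path τ 0 n) ^ q = mk (path τ 0 (j + q * n)) := by
  induction q with
  | zero => simp
  | succ q ih =>
    rw [pow_succ, ← mul_assoc, ih, mul_mk]
    have h1 : path τ 0 (j + q * n) = path τ (0 + n) (j + q * n) := by
      have := path_shift hper 0 1 (j + q * n)
      rw [one_mul] at this
      exact this.symm
    rw [h1, path_append]
    congr 2
    ring

/-- `u` leaves the periodic path at the vertex `i` -/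
def Leaves (τ : ℕ → T × Bool) (n i : ℕ) (u : List (T × Bool)) : Prop :=
  IsReduced u ∧ ∀ a ∈ u.getLast?, a ≠ τ i ∧ a ≠ linv (τ (i + n - 1))

lemma unique_aux {τ : ℕ → T × Bool} {n : ℕ} (hn : 1 ≤ n) (hper : ∀ i, τ (i + n) = τ i)
    (hred : ∀ i, τ (i + 1) ≠ linv (τ i)) {i j : ℕ} {u u' : List (T × Bool)}
    (hu : Leaves τ n i u) (hu' : Leaves τ n j u') (hij : i ≤ j)
    (h : mk u * mk (path τ 0 i) = mk u' * mk (path τ 0 j)) : i = j ∧ u = u' := by
  obtain ⟨m, rfl⟩ : ∃ m, j = i + m := ⟨j - i, by omega⟩
  have h1 : path τ 0 (i + m) = path τ i m ++ path τ 0 i := by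
    have := path_append τ 0 m i
    rw [zero_add] at this
    exact this.symm
  rw [h1, ← mul_mk, ← mul_assoc] at h
  have h2 := mul_right_cancel h
  rw [mul_mk] at h2
  cases m with
  | zero =>
    simp only [path, List.append_nil] at h2
    exact ⟨rfl, mk_eq_of_reduced hu.1 hu'.1 h2⟩
  | succ m =>
    exfalso
    have h3 : IsReduced (u' ++ path τ i (m + 1)) := by
      unfold FreeGroup.IsReduced
      rw [List.isChain_append]
      refine ⟨hu'.1, path_reduced hred _ _, ?_⟩
      intro a ha b hb
      have hb' : b = τ (i + m) := by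
        simp only [path, List.head?_cons, Option.mem_def, Option.some.injEq] at hb
        exact hb.symm
      rw [hb']
      apply ne_linv_iff.1
      have h4 := (hu'.2 a ha).2
      rwa [show i + (m + 1) + n - 1 = i + m + n by omega, hper] at h4
    have h5 := mk_eq_of_reduced hu.1 h3 h2
    have h6 := hu.2 (τ i) (by
      rw [h5, List.getLast?_append, path_getLast?]
      simp)
    exact h6.1 rfl

end path

/-! ### Colouring of one orbit -/

section orbit

variable {T I Ω : Type*} [MulAction (FreeGroup T) Ω] {E0 : Set I} {R : T → Set I}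

/-- `c` is a good colouring on the orbit of `y` -/
def GoodOn (E0 : Set I) (R : T → Set I) (y : Ω) (c : Ω → I) : Prop :=
  ∀ x ∈ MulAction.orbit (FreeGroup T) y, ∀ k : T, (c x ∈ E0 ↔ c (FreeGroup.of k • x) ∈ R k)

lemma reduced_tail {b : T × Bool} {v : List (T × Bool)} (h : IsReduced (b :: v)) :
    IsReduced v := by
  unfold FreeGroup.IsReduced at *
  exact List.IsChain.tail h

/-- the colour at the end of the word `u` -/
noncomputable def colW (E0 : Set I) (R : T → Set I) [Nonempty I] : List (T × Bool) → I → I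
  | [], x => x
  | a :: u, x => nxt E0 R a (colW E0 R u x)

lemma mk_cons_linv (a : T × Bool) (v : List (T × Bool)) : mk (linv a :: a :: v) = mk v := by
  obtain ⟨x, b⟩ := a
  apply Quot.sound
  simpa [linv] using (Red.Step.cons_not_rev (L := v) (x := x) (b := b))

lemma mk_cons_smul (a : T × Bool) (v : List (T × Bool)) (y : Ω) :
    mk (a :: v) • y = mk [a] • (mk v • y) := by
  rw [← mul_smul, mul_mk]
  rfl

/-- The orbit of a point with cyclic stabiliser, generated by a word along a colourable cycle. -/
lemma good_of_cycle [Nonempty I] (hE : Proper E0) (hR : ∀ t, Proper (R t)) (y : Ω)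
    {n : ℕ} (hn : 1 ≤ n) (τ : ℕ → T × Bool) (hper : ∀ i, τ (i + n) = τ i)
    (hred : ∀ i, τ (i + 1) ≠ linv (τ i))
    (hstab : MulAction.stabilizer (FreeGroup T) y = Subgroup.zpowers (mk (path τ 0 n)))
    (col : ℕ → I) (hcol : ∀ i, col (i + n) = col i)
    (hrel : ∀ i, Rel E0 R (τ i) (col i) (col (i + 1))) :
    ∃ c : Ω → I, GoodOn E0 R y c := by
  classical
  -- representations
  let Rep : Ω → ℕ → List (T × Bool) → Prop := fun x i u =>
    Leaves τ n i u ∧ x = (mk u * mk (path τ 0 i)) • y
  have hs : mk (path τ 0 n) • y = y := by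
    have : mk (path τ 0 n) ∈ MulAction.stabilizer (FreeGroup T) y := by
      rw [hstab]
      exact Subgroup.mem_zpowers _
    exact this
  -- uniqueness of the colour
  have huniq1 : ∀ i j u u' (q : ℕ), Leaves τ n i u → Leaves τ n j u' →
      mk u * mk (path τ 0 i) = mk u' * mk (path τ 0 j) * mk (path τ 0 n) ^ q →
      colW E0 R u (col i) = colW E0 R u' (col j) := by
    intro i j u u' q hu hu' h
    rw [mul_assoc, mk_path_pow hper] at h
    have hu'' : Leaves τ n (j + q * n) u' := by
      refine ⟨hu'.1, fun a ha => ?_⟩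
      obtain ⟨h1, h2⟩ := hu'.2 a ha
      refine ⟨by rwa [periodic_mul hper], ?_⟩
      rwa [show j + q * n + n - 1 = j + n - 1 + q * n by omega, periodic_mul hper]
    have h3 : i = j + q * n ∧ u = u' := by
      rcases le_total i (j + q * n) with hle | hle
      · exact unique_aux hn hper hred hu hu'' hle h
      · obtain ⟨h4, h5⟩ := unique_aux hn hper hred hu'' hu hle h.symm
        exact ⟨h4.symm, h5.symm⟩
    rw [h3.1, h3.2, periodic_mul hcol]
  have huniq : ∀ x i j u u', Rep x i u → Rep x j u' →
      colW E0 R u (col i) = colW E0 R u' (col j) := by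
    rintro x i j u u' ⟨hu, hx⟩ ⟨hu', hx'⟩
    have h1 : (mk u' * mk (path τ 0 j))⁻¹ * (mk u * mk (path τ 0 i)) ∈
        MulAction.stabilizer (FreeGroup T) y := by
      rw [MulAction.mem_stabilizer_iff, mul_smul, ← hx, hx', inv_smul_smul]
    rw [hstab, Subgroup.mem_zpowers_iff] at h1
    obtain ⟨q, hq⟩ := h1
    rcases Int.le_total 0 q with h0 | h0
    · obtain ⟨m, rfl⟩ := Int.eq_ofNat_of_zero_le h0
      apply huniq1 i j u u' m hu hu'
      simp only [zpow_natCast] at hq
      rw [hq]
      group
    · obtain ⟨m, hm⟩ := Int.eq_ofNat_of_zero_le (neg_nonneg.2 h0)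
      have hq' : q = -(m : ℤ) := by
        have : (Int.ofNat m) = (m : ℤ) := rfl
        omega
      symm
      apply huniq1 j i u' u m hu' hu
      rw [hq', zpow_neg, zpow_natCast] at hq
      have h2 : mk (path τ 0 n) ^ m = ((mk u' * mk (path τ 0 j))⁻¹ *
          (mk u * mk (path τ 0 i)))⁻¹ := by
        rw [← hq, inv_inv]
      rw [h2]
      group
  -- one step
  have hstep : ∀ x i u, Rep x i u → ∀ a : T × Bool, ∃ i' u', Rep (mk [a] • x) i' u' ∧
      Rel E0 R a (colW E0 R u (col i)) (colW E0 R u' (col i')) := by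
    rintro x i u ⟨hu, hx⟩ a
    cases u with
    | nil =>
      by_cases h1 : a = τ i
      · refine ⟨i + 1, [], ⟨⟨IsReduced.nil, by simp⟩, ?_⟩, ?_⟩
        · rw [hx, ← mul_smul, h1]
          simp only [mul_mk, List.nil_append, path, zero_add, List.singleton_append]
        · rw [h1]
          exact hrel i
      · by_cases h2 : a = linv (τ (i + n - 1))
        · refine ⟨i + n - 1, [], ⟨⟨IsReduced.nil, by simp⟩, ?_⟩, ?_⟩
          · have h3 : mk (path τ 0 i) • y = mk (path τ 0 (i + n)) • y := by
              have h4 := mk_path_pow hper i 1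
              rw [one_mul, pow_one] at h4
              rw [← h4, mul_smul, hs]
            have h5 : path τ 0 (i + n) = τ (i + n - 1) :: path τ 0 (i + n - 1) := by
              have : i + n = (i + n - 1) + 1 := by omega
              rw [this]
              simp [path]
            rw [hx, mul_smul, h3, h5, h2]
            simp only [← mul_smul, mul_mk, List.nil_append, List.singleton_append]
            rw [mk_cons_linv]
          · rw [h2]
            have h6 := (hrel (i + n - 1)).symm
            rw [show i + n - 1 + 1 = i + n by omega, hcol] at h6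
            exact h6
        · refine ⟨i, [a], ⟨⟨IsReduced.singleton, ?_⟩, ?_⟩, ?_⟩
          · intro b hb
            simp only [List.getLast?_singleton, Option.mem_def, Option.some.injEq] at hb
            rw [← hb]
            exact ⟨h1, h2⟩
          · rw [hx, ← mul_smul]
            simp only [mul_mk, List.nil_append, List.singleton_append]
          · exact nxt_rel hE hR a (col i)
    | cons b v =>
      by_cases h1 : a = linv b
      · refine ⟨i, v, ⟨⟨?_, ?_⟩, ?_⟩, ?_⟩
        · exact reduced_tail hu.1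
        · intro c hc
          apply hu.2 c
          rw [List.getLast?_cons, Option.mem_def.1 hc]
          simp
        · rw [hx, ← mul_smul, ← mul_assoc, mul_mk, h1, List.singleton_append, mk_cons_linv]
        · rw [h1]
          exact (nxt_rel hE hR b _).symm
      · refine ⟨i, a :: b :: v, ⟨⟨?_, ?_⟩, ?_⟩, ?_⟩
        · rw [isReduced_cons_cons]
          exact ⟨ne_linv_iff.1 h1, hu.1⟩
        · intro c hc
          apply hu.2 c
          rw [List.getLast?_cons_cons] at hc
          exact hc
        · rw [hx, ← mul_smul, ← mul_assoc, mul_mk, List.singleton_append]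
        · exact nxt_rel hE hR a _
  -- every point of the orbit has a representation
  have hrep0 : Rep y 0 [] := ⟨⟨IsReduced.nil, by simp⟩, by simp [path, ← one_eq_mk]⟩
  have hex : ∀ L : List (T × Bool), ∃ i u, Rep (mk L • y) i u := by
    intro L
    induction L with
    | nil => exact ⟨0, [], by simpa [← one_eq_mk] using hrep0⟩
    | cons a L ih =>
      obtain ⟨i, u, h⟩ := ih
      obtain ⟨i', u', h', -⟩ := hstep _ i u h a
      rw [mk_cons_smul]
      exact ⟨i', u', h'⟩
  have hex' : ∀ x ∈ MulAction.orbit (FreeGroup T) y, ∃ p : ℕ × List (T × Bool), Rep x p.1 p.2 := by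
    rintro x ⟨g, rfl⟩
    obtain ⟨i, u, h⟩ := hex g.toWord
    rw [mk_toWord] at h
    exact ⟨(i, u), h⟩
  let c : Ω → I := fun x => if h : ∃ p : ℕ × List (T × Bool), Rep x p.1 p.2 then
    colW E0 R h.choose.2 (col h.choose.1) else Classical.arbitrary I
  have hc : ∀ x i u, Rep x i u → c x = colW E0 R u (col i) := by
    intro x i u h
    have hx : ∃ p : ℕ × List (T × Bool), Rep x p.1 p.2 := ⟨(i, u), h⟩
    have : c x = colW E0 R hx.choose.2 (col hx.choose.1) := dif_pos hx
    rw [this]
    exact huniq x _ _ _ _ hx.choose_spec h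
  refine ⟨c, fun x hx k => ?_⟩
  obtain ⟨p, hp⟩ := hex' x hx
  obtain ⟨i', u', h', hr⟩ := hstep x p.1 p.2 hp (k, true)
  rw [hc x _ _ hp]
  have h2 : c (FreeGroup.of k • x) = colW E0 R u' (col i') := hc _ _ _ h'
  rw [h2]
  simpa [Rel, src, tgt] using hr

/-- The orbit of a point with trivial stabiliser. -/
lemma good_of_free [Nonempty I] (hE : Proper E0) (hR : ∀ t, Proper (R t)) (y : Ω)
    (hstab : ∀ g : FreeGroup T, g • y = y → g = 1) : ∃ c : Ω → I, GoodOn E0 R y c := by
  classical
  let x0 : I := Classical.arbitrary I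
  have huniq : ∀ L L' : List (T × Bool), IsReduced L → IsReduced L' →
      mk L • y = mk L' • y → L = L' := by
    intro L L' hL hL' h
    apply mk_eq_of_reduced hL hL'
    have h1 : ((mk L')⁻¹ * mk L) • y = y := by rw [mul_smul, h, inv_smul_smul]
    have h2 := hstab _ h1
    rw [inv_mul_eq_one] at h2
    exact h2.symm
  let c : Ω → I := fun x => if h : ∃ L : List (T × Bool), IsReduced L ∧ x = mk L • y then
    colW E0 R h.choose x0 else x0
  have hc : ∀ L, IsReduced L → c (mk L • y) = colW E0 R L x0 := by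
    intro L hL
    have hx : ∃ L' : List (T × Bool), IsReduced L' ∧ mk L • y = mk L' • y := ⟨L, hL, rfl⟩
    have : c (mk L • y) = colW E0 R hx.choose x0 := dif_pos hx
    rw [this]
    rw [huniq _ _ hx.choose_spec.1 hL hx.choose_spec.2.symm]
  refine ⟨c, fun x hx k => ?_⟩
  obtain ⟨g, rfl⟩ := hx
  simp only
  obtain ⟨u, hu, rfl⟩ : ∃ u, IsReduced u ∧ g = mk u :=
    ⟨g.toWord, isReduced_toWord, mk_toWord.symm⟩
  have key : ∃ u', IsReduced u' ∧ mk [(k, true)] • (mk u • y) = mk u' • y ∧
      Rel E0 R (k, true) (colW E0 R u x0) (colW E0 R u' x0) := by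
    cases u with
    | nil =>
      refine ⟨[(k, true)], IsReduced.singleton, ?_, nxt_rel hE hR _ _⟩
      rw [← mul_smul, mul_mk]
      rfl
    | cons b v =>
      by_cases h1 : (k, true) = linv b
      · refine ⟨v, reduced_tail hu, ?_, ?_⟩
        · rw [← mul_smul, mul_mk, h1, List.singleton_append, mk_cons_linv]
        · rw [h1]
          exact (nxt_rel hE hR b _).symm
      · refine ⟨(k, true) :: b :: v, ?_, ?_, nxt_rel hE hR _ _⟩
        · rw [isReduced_cons_cons]
          exact ⟨ne_linv_iff.1 h1, hu⟩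
        · rw [← mul_smul, mul_mk]
          rfl
  obtain ⟨u', hu', he, hr⟩ := key
  have h2 : c (FreeGroup.of k • mk u • y) = colW E0 R u' x0 := by
    have : FreeGroup.of k • mk u • y = mk u' • y := he
    rw [this, hc u' hu']
  rw [hc u hu, h2]
  simpa [Rel, src, tgt] using hr

lemma goodOn_of_smul {y : Ω} (g : FreeGroup T) {c : Ω → I} (h : GoodOn E0 R (g • y) c) :
    GoodOn E0 R y c := by
  intro x hx k
  apply h
  rwa [MulAction.orbit_smul]

end orbit

section main

variable {T : Type u} {I Ω : Type*}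

/-- a commutative subgroup of a free group is cyclic -/
lemma exists_zpowers (S : Subgroup (FreeGroup T)) (hcomm : ∀ g ∈ S, ∀ h ∈ S, g * h = h * g) :
    ∃ s, S = Subgroup.zpowers s := by
  have : IsFreeGroup S := subgroupIsFreeOfIsFree S
  let e := IsFreeGroup.toFreeGroup S
  have hsub : Subsingleton (IsFreeGroup.Generators S) := by
    constructor
    intro a b
    have h1 : FreeGroup.of a * FreeGroup.of b = FreeGroup.of b * FreeGroup.of a := by
      obtain ⟨g, hg⟩ := e.surjective (FreeGroup.of a)
      obtain ⟨h, hh⟩ := e.surjective (FreeGroup.of b)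
      have h0 : g * h = h * g := Subtype.ext (hcomm g g.2 h h.2)
      rw [← hg, ← hh, ← MulEquiv.map_mul, ← MulEquiv.map_mul, h0]
    have h2 : mk [(a, true), (b, true)] = mk [(b, true), (a, true)] := h1
    have h3 := mk_eq_of_reduced (by simp [FreeGroup.IsReduced]) (by simp [FreeGroup.IsReduced]) h2
    simp only [List.cons.injEq, Prod.mk.injEq, and_true] at h3
    exact h3.1
  have hcyc : ∃ z : FreeGroup (IsFreeGroup.Generators S), ∀ x, x ∈ Subgroup.zpowers z := by
    rcases isEmpty_or_nonempty (IsFreeGroup.Generators S) with hem | ⟨⟨a⟩⟩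
    · refine ⟨1, fun x => ?_⟩
      rw [Subsingleton.elim x 1]
      exact Subgroup.one_mem _
    · have : Unique (IsFreeGroup.Generators S) := { default := a, uniq := fun _ => Subsingleton.elim _ _ }
      exact IsCyclic.exists_generator
  obtain ⟨z, hz⟩ := hcyc
  obtain ⟨s, hs⟩ := e.surjective z
  refine ⟨s, ?_⟩
  ext x
  constructor
  · intro hx
    obtain ⟨q, hq⟩ := Subgroup.mem_zpowers_iff.1 (hz (e ⟨x, hx⟩))
    rw [← hs, ← map_zpow] at hq
    have := e.injective hq
    rw [Subgroup.mem_zpowers_iff]
    exact ⟨q, by rw [← Subgroup.coe_zpow, this]⟩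
  · intro hx
    obtain ⟨q, rfl⟩ := Subgroup.mem_zpowers_iff.1 hx
    exact S.zpow_mem s.2 q

lemma path_eq {L : List (T × Bool)} {τ : ℕ → T × Bool}
    (hτ : ∀ i (h : i < L.length), τ i = L.reverse[i]'(by simpa using h)) (m : ℕ)
    (hm : m ≤ L.length) : path τ 0 m = (L.reverse.take m).reverse := by
  induction m with
  | zero => simp [path]
  | succ m ih =>
    rw [List.take_succ_eq_append_getElem (by simpa using hm), List.reverse_append]
    simp only [List.reverse_cons, List.reverse_nil, List.nil_append, List.singleton_append]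
    rw [← ih (by omega)]
    simp only [path, zero_add]
    rw [hτ m (by omega)]

lemma mk_mem_zpowers {t0 : T} (L : List (T × Bool)) (h : ∀ a ∈ L, a.1 = t0) :
    mk L ∈ Subgroup.zpowers (FreeGroup.of t0) := by
  induction L with
  | nil => exact Subgroup.one_mem _
  | cons a L ih =>
    have h1 : mk (a :: L) = mk [a] * mk L := by rw [mul_mk]; rfl
    rw [h1]
    refine Subgroup.mul_mem _ ?_ (ih fun b hb => h b (List.mem_cons_of_mem _ hb))
    obtain ⟨x, b⟩ := a
    have hx : x = t0 := h (x, b) (List.mem_cons_self)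
    subst hx
    cases b with
    | true => exact Subgroup.mem_zpowers _
    | false =>
      have : mk [(x, false)] = (FreeGroup.of x)⁻¹ := rfl
      rw [this]
      exact Subgroup.inv_mem _ (Subgroup.mem_zpowers _)

variable [MulAction (FreeGroup T) Ω] {E0 : Set I} {R : T → Set I}

theorem exists_goodOn [Nonempty I] (hE : Proper E0) (hR : ∀ t, Proper (R t)) {t0 : T}
    (hk : ∀ k, k ≠ t0 → R k ≠ E0 ∧ R k ≠ E0ᶜ)
    (hkk : ∀ k k', k ≠ k' → k ≠ t0 → R k ≠ R k' ∧ R k ≠ (R k')ᶜ)
    (hcomm : ∀ (x : Ω) (g h : FreeGroup T), g • x = x → h • x = x → g * h = h * g)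
    (ht0 : ∀ x : Ω, ∀ g ∈ Subgroup.zpowers (FreeGroup.of t0), g • x = x → g = 1) (y : Ω) :
    ∃ c : Ω → I, GoodOn E0 R y c := by
  classical
  by_cases htriv : ∀ g : FreeGroup T, g • y = y → g = 1
  · exact good_of_free hE hR y htriv
  obtain ⟨s, hs⟩ := exists_zpowers (MulAction.stabilizer (FreeGroup T) y)
    (fun g hg h hh => hcomm y g h hg hh)
  have hs1 : s ≠ 1 := by
    rintro rfl
    apply htriv
    intro g hg
    have : g ∈ MulAction.stabilizer (FreeGroup T) y := hg
    rw [hs, Subgroup.zpowers_one_eq_bot, Subgroup.mem_bot] at this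
    exact this
  set L := reduceCyclically s.toWord with hL
  set g := mk (reduceCyclically.conjugator s.toWord) with hg
  have hconj : s = g * mk L * g⁻¹ := by
    rw [hg, hL, inv_mk, mul_mk, mul_mk, reduceCyclically.conj_conjugator_reduceCyclically, mk_toWord]
  have hLred : IsCyclicallyReduced L := reduceCyclically.isCyclicallyReduced isReduced_toWord
  have hLne : L ≠ [] := by
    intro h
    apply hs1
    rw [hconj, h, ← one_eq_mk]
    group
  have hstab : MulAction.stabilizer (FreeGroup T) (g⁻¹ • y) = Subgroup.zpowers (mk L) := by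
    rw [MulAction.stabilizer_smul_eq_stabilizer_map_conj, hs, MonoidHom.map_zpowers]
    congr 1
    rw [hconj]
    simp only [MulEquiv.coe_toMonoidHom, MulAut.conj_apply, inv_inv]
    group
  have hn : 0 < L.length := List.length_pos_of_ne_nil hLne
  set n := L.length with hndef
  let τ : ℕ → T × Bool := fun i => L.reverse[i % n]'(by
    rw [List.length_reverse]
    exact Nat.mod_lt _ hn)
  have hτ : ∀ i (h : i < L.length), τ i = L.reverse[i]'(by simpa using h) := by
    intro i h
    have : i % n = i := Nat.mod_eq_of_lt h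
    simp only [τ, this]
  have hper : ∀ i, τ (i + n) = τ i := by
    intro i
    simp only [τ, Nat.add_mod_right]
  have hpath : path τ 0 n = L := by
    rw [path_eq hτ n le_rfl, List.take_of_length_le (by simp [hndef]), List.reverse_reverse]
  have hmod : ∀ i, τ i = τ (i % n) := by
    intro i
    simp only [τ, Nat.mod_mod]
  have hred : ∀ i, τ (i + 1) ≠ linv (τ i) := by
    intro i
    rw [ne_linv_iff]
    rw [hmod i, hmod (i + 1)]
    have hr : i % n < n := Nat.mod_lt _ hn
    set r := i % n with hrdef
    by_cases h : r + 1 = n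
    · have h3 : (i + 1) % n = 0 := by
        have : (i + 1) % n = (r + 1) % n := by rw [hrdef]; simp [Nat.add_mod]
        rw [this, h]
        simp
      rw [h3]
      apply hLred.2
      · rw [hτ 0 hn, List.getElem_reverse, List.getLast?_eq_getElem?]
        simp [hndef, List.getElem?_eq_getElem hn]
      · rw [hτ r hr, List.getElem_reverse, List.head?_eq_getElem?]
        have : L.length - 1 - r = 0 := by omega
        simp only [this]
        rw [List.getElem?_eq_getElem (by omega)]
        simp
    · have h3 : (i + 1) % n = r + 1 := by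
        have : (i + 1) % n = (r + 1) % n := by rw [hrdef]; simp [Nat.add_mod]
        rw [this]
        exact Nat.mod_eq_of_lt (by omega)
      rw [h3, hτ r hr, hτ (r + 1) (by omega), List.getElem_reverse, List.getElem_reverse]
      have h4 := hLred.1
      unfold FreeGroup.IsReduced at h4
      rw [List.isChain_iff_getElem] at h4
      have h5 := h4 (L.length - 1 - (r + 1)) (by omega)
      have h6 : L.length - 1 - (r + 1) + 1 = L.length - 1 - r := by omega
      simp only [h6] at h5
      exact h5
  have hletter : ∃ i, (τ i).1 ≠ t0 := by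
    by_contra hno
    push Not at hno
    have h1 : ∀ a ∈ L, a.1 = t0 := by
      intro a ha
      have ha' : a ∈ L.reverse := List.mem_reverse.2 ha
      obtain ⟨i, hi, rfl⟩ := List.getElem_of_mem ha'
      rw [← hτ i (by simpa using hi)]
      exact hno i
    have h2 := mk_mem_zpowers L h1
    have h3 : mk L • (g⁻¹ • y) = g⁻¹ • y := by
      have : mk L ∈ MulAction.stabilizer (FreeGroup T) (g⁻¹ • y) := by
        rw [hstab]
        exact Subgroup.mem_zpowers _
      exact this
    have h4 := ht0 _ _ h2 h3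
    rw [one_eq_mk] at h4
    exact hLne (mk_eq_of_reduced hLred.1 IsReduced.nil h4)
  obtain ⟨m, hm1, hm2⟩ := exists_nontight hk hkk hn τ hper hred hletter
  obtain ⟨col, hcol, hrel⟩ := cyc_color hE hR hn τ hper m hm1 hm2
  obtain ⟨c, hc⟩ := good_of_cycle hE hR (g⁻¹ • y) hn τ hper hred (by rw [hpath]; exact hstab)
    col hcol hrel
  exact ⟨c, goodOn_of_smul g⁻¹ hc⟩

/-- **The colouring theorem.** -/
theorem exists_colouring [Nonempty I] (hE : Proper E0) (hR : ∀ t, Proper (R t)) {t0 : T}
    (hk : ∀ k, k ≠ t0 → R k ≠ E0 ∧ R k ≠ E0ᶜ)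
    (hkk : ∀ k k', k ≠ k' → k ≠ t0 → R k ≠ R k' ∧ R k ≠ (R k')ᶜ)
    (hcomm : ∀ (x : Ω) (g h : FreeGroup T), g • x = x → h • x = x → g * h = h * g)
    (ht0 : ∀ x : Ω, ∀ g ∈ Subgroup.zpowers (FreeGroup.of t0), g • x = x → g = 1) :
    ∃ c : Ω → I, ∀ x (k : T), (c x ∈ E0 ↔ c (FreeGroup.of k • x) ∈ R k) := by
  classical
  choose C hC using fun y : Ω => exists_goodOn hE hR hk hkk hcomm ht0 y
  let q : Ω → Ω := fun x => (Quotient.out (s := MulAction.orbitRel (FreeGroup T) Ω)
    (Quotient.mk _ x))
  have hq : ∀ x, x ∈ MulAction.orbit (FreeGroup T) (q x) := by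
    intro x
    have h1 : (MulAction.orbitRel (FreeGroup T) Ω).r (q x) x :=
      Quotient.exact (Quotient.out_eq (s := MulAction.orbitRel (FreeGroup T) Ω) (Quotient.mk _ x))
    exact MulAction.orbitRel_apply.1 ((MulAction.orbitRel (FreeGroup T) Ω).symm h1)
  have hq2 : ∀ x (g : FreeGroup T), q (g • x) = q x := by
    intro x g
    have : (Quotient.mk (MulAction.orbitRel (FreeGroup T) Ω) (g • x)) = Quotient.mk _ x :=
      Quotient.sound (MulAction.orbitRel_apply.2 (MulAction.mem_orbit x g))
    simp only [q, this]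
  refine ⟨fun x => C (q x) x, fun x k => ?_⟩
  simp only [hq2]
  exact hC (q x) x (hq x) k

end main

end Pool.Agent.V11198.Cong
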