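import Mathlib

/-!
# Generic families of `2 × 2` matrices are free
-/

namespace Pool.Agent.V11198.Cong

open FreeGroup Matrix Polynomial

section general

variable {k R T : Type*} [Field k] [Field R] [Algebra k R] (v w : T × Bool → Fin 2 → k)

/-- The inverse letter. -/
def linv' {T : Type*} (a : T × Bool) : T × Bool := (a.1, !a.2)

/-- the rank one matrix attached to a letter -/
def rk (a : T × Bool) : Matrix (Fin 2) (Fin 2) k := vecMulVec (v a) (w a)

/-- the matrix of a letter -/
noncomputable def lm (c : R) (a : T × Bool) : Matrix (Fin 2) (Fin 2) R :=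
  c • (rk v w a).map (algebraMap k R) + c⁻¹ • (rk v w (linv' a)).map (algebraMap k R)

/-- the polynomial matrix of a letter -/
noncomputable def pm (a : T × Bool) : Matrix (Fin 2) (Fin 2) k[X] :=
  Matrix.of fun i j => C (rk v w a i j) * X ^ 2 + C (rk v w (linv' a) i j)

variable {v w}

lemma rk_prod_ne (hvw : ∀ a b : T × Bool, (a.1 = b.1 → a.2 = b.2) → w a ⬝ᵥ v b ≠ 0)
    (L : List (T × Bool)) : ∀ a, IsReduced (a :: L) →
    ∃ x : Fin 2 → k, x ≠ 0 ∧ ((a :: L).map (rk v w)).prod = vecMulVec (v a) x := by
  induction L with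
  | nil =>
    intro a _
    refine ⟨w a, ?_, by simp [rk]⟩
    intro h
    apply hvw a a (fun _ => rfl)
    rw [h, zero_dotProduct]
  | cons b L ih =>
    intro a hL
    rw [isReduced_cons_cons] at hL
    obtain ⟨x, hx, he⟩ := ih b hL.2
    refine ⟨(w a ⬝ᵥ v b) • x, smul_ne_zero (hvw a b hL.1) hx, ?_⟩
    rw [List.map_cons, List.prod_cons, he, rk, vecMulVec_mul_vecMulVec]

lemma pm_prod (L : List (T × Bool)) (i j : Fin 2) :
    (((L.map (pm v w)).prod i j).natDegree ≤ 2 * L.length) ∧
      ((L.map (pm v w)).prod i j).coeff (2 * L.length) = (L.map (rk v w)).prod i j := by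
  induction L generalizing i j with
  | nil =>
    simp only [List.map_nil, List.prod_nil, List.length_nil, mul_zero, nonpos_iff_eq_zero]
    by_cases h : i = j
    · subst h
      simp
    · simp [Matrix.one_apply_ne h]
  | cons a L ih =>
    have hdeg : ∀ i j, (pm v w a i j).natDegree ≤ 2 := by
      intro i j
      simp only [pm, Matrix.of_apply]
      compute_degree
    have hcoef : ∀ i j, (pm v w a i j).coeff 2 = rk v w a i j := by
      intro i j
      simp only [pm, Matrix.of_apply]
      simp
    have hlen : 2 * (a :: L).length = 2 + 2 * L.length := by simp [mul_add, add_comm]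
    rw [List.map_cons, List.prod_cons, List.map_cons, List.prod_cons, hlen]
    constructor
    · rw [Matrix.mul_apply]
      apply natDegree_sum_le_of_forall_le
      intro l _
      exact natDegree_mul_le_of_le (hdeg i l) (ih l j).1
    · rw [Matrix.mul_apply, Matrix.mul_apply, finsetSum_coeff]
      apply Finset.sum_congr rfl
      intro l _
      rw [coeff_mul_add_eq_of_natDegree_le (hdeg i l) (ih l j).1, hcoef, (ih l j).2]

lemma pm_eval (c : R) (hc : c ≠ 0) (a : T × Bool) :
    (pm v w a).map (aeval c) = c • lm v w c a := by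
  ext i j
  simp only [pm, lm, Matrix.map_apply, Matrix.of_apply, map_add, _root_.map_mul, aeval_C, map_pow, aeval_X,
    Matrix.smul_apply, Matrix.add_apply, smul_eq_mul]
  field_simp

lemma prod_smul_list (c : R) (L : List (Matrix (Fin 2) (Fin 2) R)) :
    (L.map fun m => c • m).prod = c ^ L.length • L.prod := by
  induction L with
  | nil => simp
  | cons m L ih =>
    rw [List.map_cons, List.prod_cons, ih, List.prod_cons, List.length_cons, smul_mul_smul_comm,
      pow_succ, mul_comm]

lemma prod_eval (c : R) (hc : c ≠ 0) (L : List (T × Bool)) :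
    (L.map (pm v w)).prod.map (aeval c) = c ^ L.length • (L.map (lm v w c)).prod := by
  have h1 : (L.map (pm v w)).prod.map (aeval c) =
      (L.map fun a => (pm v w a).map (aeval c)).prod := by
    have := map_list_prod ((aeval (R := k) c).mapMatrix (m := Fin 2)) (L.map (pm v w))
    rw [List.map_map] at this
    exact this
  rw [h1]
  have h2 : (L.map fun a => (pm v w a).map (aeval c)) = (L.map (lm v w c)).map fun m => c • m := by
    rw [List.map_map]
    apply List.map_congr_left
    intro a _
    exact pm_eval c hc a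
  rw [h2, prod_smul_list, List.length_map]

/-- The relation attached to a word is a nontrivial polynomial condition on the parameter. -/
theorem exists_poly (hvw : ∀ a b : T × Bool, (a.1 = b.1 → a.2 = b.2) → w a ⬝ᵥ v b ≠ 0)
    {L : List (T × Bool)} (hL : IsReduced L) (hne : L ≠ []) (ε : k) :
    ∃ p : k[X], p ≠ 0 ∧ ∀ c : R, c ≠ 0 →
      (L.map (lm v w c)).prod = (algebraMap k R ε) • (1 : Matrix (Fin 2) (Fin 2) R) →
      aeval c p = 0 := by
  obtain ⟨a, L, rfl⟩ : ∃ a L', L = a :: L' := List.exists_cons_of_ne_nil hne
  obtain ⟨x, hx, he⟩ := rk_prod_ne hvw L a hL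
  have hva : v a ≠ 0 := by
    intro h
    apply hvw a a (fun _ => rfl)
    rw [h, dotProduct_zero]
  obtain ⟨i, hi⟩ := Function.ne_iff.1 hva
  obtain ⟨j, hj⟩ := Function.ne_iff.1 hx
  refine ⟨((a :: L).map (pm v w)).prod i j -
    C (ε * (1 : Matrix (Fin 2) (Fin 2) k) i j) * X ^ (a :: L).length, ?_, ?_⟩
  · intro h
    have h1 := congrArg (fun p => p.coeff (2 * (a :: L).length)) h
    simp only [coeff_sub, coeff_zero, coeff_C_mul, coeff_X_pow] at h1
    rw [if_neg (by simp), mul_zero, sub_zero, (pm_prod (a :: L) i j).2, he,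
      vecMulVec_apply] at h1
    exact mul_ne_zero hi hj h1
  · intro c hc h
    have h1 := congrFun (congrFun (prod_eval (v := v) (w := w) c hc (a :: L)) i) j
    rw [h] at h1
    simp only [Matrix.map_apply, Matrix.smul_apply, smul_eq_mul] at h1
    rw [map_sub, h1]
    simp only [_root_.map_mul, aeval_C, map_pow, aeval_X]
    by_cases hij : i = j
    · subst hij
      simp
      ring
    · simp [Matrix.one_apply_ne hij]

end general

end Pool.Agent.V11198.Cong
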