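import Mathlib
import Pool.Agent.V11198.CongColor
import Pool.Agent.V11198.CongFree

/-!
# A free group of rank continuum acting on the hyperbolic plane
-/

namespace Pool.Agent.V11198.Cong

open Matrix Cardinal
open scoped MatrixGroups

/-! ### A large field over which some real number is transcendental -/

theorem exists_transc : ∃ (K : IntermediateField ℚ ℝ) (c : ℝ), continuum ≤ #K ∧
    Transcendental K c := by
  obtain ⟨s, hs⟩ := exists_isTranscendenceBasis ℚ ℝ
  have hne : Nonempty s := by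
    by_contra hem
    rw [not_nonempty_iff] at hem
    have h1 : Algebra.IsAlgebraic ℚ ℝ := by
      have := hs.isAlgebraic
      exact (hs.isEmpty_iff_isAlgebraic).1 hem
    have h2 := Algebra.IsAlgebraic.cardinalMk_le_max ℚ ℝ
    rw [mk_real] at h2
    have h3 : #ℚ = ℵ₀ := by simp
    rw [h3, max_self] at h2
    exact absurd h2 (not_le.2 aleph0_lt_continuum)
  have hcard : #s = continuum := by
    have h1 := hs.lift_cardinalMk_eq_max_lift
    simp only [Cardinal.lift_id] at h1
    have h3 : #ℚ = ℵ₀ := by simp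
    rw [mk_real, h3] at h1
    apply le_antisymm
    · rw [h1]
      exact le_sup_of_le_left le_sup_right
    · by_contra hlt
      rw [not_le] at hlt
      have h4 : ℵ₀ ⊔ #s ⊔ ℵ₀ < continuum :=
        max_lt (max_lt aleph0_lt_continuum hlt) aleph0_lt_continuum
      rw [← h1] at h4
      exact lt_irrefl _ h4
  obtain ⟨i0⟩ := hne
  refine ⟨IntermediateField.adjoin ℚ (((↑) : s → ℝ) '' {i0}ᶜ), (i0 : ℝ), ?_, ?_⟩
  · have h1 : #(({i0}ᶜ : Set s)) = continuum := by
      have h2 : #(({i0} : Set s)) < #s := by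
        rw [hcard, mk_singleton]
        exact one_lt_aleph0.trans aleph0_lt_continuum
      have : Infinite s := by
        rw [Cardinal.infinite_iff, hcard]
        exact aleph0_le_continuum
      rw [Cardinal.mk_compl_of_infinite _ h2, hcard]
    rw [← h1]
    refine Cardinal.mk_le_of_injective (f := fun x => (⟨(x : s), IntermediateField.subset_adjoin _ _
      ⟨(x : s), x.2, rfl⟩⟩ : IntermediateField.adjoin ℚ (((↑) : s → ℝ) '' {i0}ᶜ))) ?_
    intro x y hxy
    have := congrArg Subtype.val hxy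
    exact Subtype.ext (Subtype.ext this)
  · rw [IntermediateField.transcendental_adjoin_iff]
    exact hs.1.transcendental_adjoin (by simp)

/-- an injection of an ordered field into its positive part -/
noncomputable def posMap (K : IntermediateField ℚ ℝ) (x : K) : K :=
  open Classical in if 0 ≤ (x : ℝ) then x + 1 else (1 - x)⁻¹

lemma posMap_coe (K : IntermediateField ℚ ℝ) (x : K) :
    (posMap K x : ℝ) = open Classical in if 0 ≤ (x : ℝ) then (x : ℝ) + 1 else (1 - (x : ℝ))⁻¹ := by
  unfold posMap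
  split_ifs <;> simp

lemma posMap_pos (K : IntermediateField ℚ ℝ) (x : K) : 0 < (posMap K x : ℝ) := by
  rw [posMap_coe]
  split_ifs with h
  · linarith
  · have : 0 < 1 - (x : ℝ) := by linarith
    positivity

lemma posMap_inj (K : IntermediateField ℚ ℝ) : Function.Injective (posMap K) := by
  intro x y h
  have h1 := congrArg (fun z : K => (z : ℝ)) h
  simp only [posMap_coe] at h1
  apply Subtype.ext
  split_ifs at h1 with hx hy hy
  · linarith
  · exfalso
    have h2 : (1 : ℝ) < 1 - (y : ℝ) := by linarith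
    have h3 := inv_lt_one_of_one_lt₀ h2
    linarith
  · exfalso
    have h2 : (1 : ℝ) < 1 - (x : ℝ) := by linarith
    have h3 := inv_lt_one_of_one_lt₀ h2
    linarith
  · have h2 := inv_injective h1
    linarith

/-! ### The matrices -/

section mats

variable {T : Type} {K : IntermediateField ℚ ℝ} (s : T → K) (c : ℝ)

/-- first vector of a letter -/
noncomputable def vv (a : T × Bool) : Fin 2 → K := ![if a.2 then s a.1 else - s a.1, 1]

/-- second vector of a letter -/
noncomputable def ww (a : T × Bool) : Fin 2 → K :=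
  ![if a.2 then (2 * s a.1)⁻¹ else - (2 * s a.1)⁻¹, 2⁻¹]

variable {s c}

lemma ww_vv (hpos : ∀ t, 0 < (s t : ℝ)) (hinj : Function.Injective s) (a b : T × Bool)
    (h : a.1 = b.1 → a.2 = b.2) : ww s a ⬝ᵥ vv s b ≠ 0 := by
  obtain ⟨t, p⟩ := a
  obtain ⟨t', p'⟩ := b
  have ht := hpos t
  have ht' := hpos t'
  simp only at h
  intro h0
  have h1 := congrArg (fun z : K => (z : ℝ)) h0
  simp only [vv, ww, dotProduct, Fin.sum_univ_two, Matrix.cons_val_zero, Matrix.cons_val_one] at h1
  by_cases htt : t = t'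
  · have hp := h htt
    subst htt
    subst hp
    cases p
    · simp only [Bool.false_eq_true, if_false] at h1
      push_cast at h1
      field_simp at h1
      norm_num at h1
    · simp only [if_true] at h1
      push_cast at h1
      field_simp at h1
      norm_num at h1
  · have hss : (s t : ℝ) ≠ s t' := by
      intro he
      exact htt (hinj (Subtype.ext he))
    cases p <;> cases p' <;> simp only [Bool.false_eq_true, if_false, if_true] at h1 <;>
      push_cast at h1 <;> field_simp at h1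
    · linarith
    · apply hss
      linarith
    · apply hss
      linarith
    · linarith

variable (s c)

/-- the matrix with parameters `σ` and `d` -/
noncomputable def gm (σ d : ℝ) : Matrix (Fin 2) (Fin 2) ℝ :=
  !![(d + d⁻¹) / 2, σ * ((d - d⁻¹) / 2); (d - d⁻¹) / 2 / σ, (d + d⁻¹) / 2]

lemma gm_det {σ d : ℝ} (hσ : σ ≠ 0) (hd : d ≠ 0) : (gm σ d).det = 1 := by
  rw [gm, Matrix.det_fin_two_of]
  field_simp
  ring

lemma gm_mul {σ d e : ℝ} (hσ : σ ≠ 0) (hd : d ≠ 0) (he : e ≠ 0) :
    gm σ d * gm σ e = gm σ (d * e) := by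
  rw [gm, gm, gm, Matrix.mul_fin_two]
  ext i j
  fin_cases i <;> fin_cases j <;> simp <;> field_simp <;> ring

lemma gm_one {σ : ℝ} : gm σ 1 = 1 := by
  ext i j
  fin_cases i <;> fin_cases j <;> simp [gm]

/-- the elements of `SL(2, ℝ)` -/
noncomputable def gS {σ d : ℝ} (hσ : σ ≠ 0) (hd : d ≠ 0) : SL(2, ℝ) := ⟨gm σ d, gm_det hσ hd⟩

lemma gS_inv {σ d : ℝ} (hσ : σ ≠ 0) (hd : d ≠ 0) : (gS hσ hd)⁻¹ = gS hσ (inv_ne_zero hd) := by
  rw [inv_eq_iff_mul_eq_one]
  apply Subtype.ext
  change gm σ d * gm σ d⁻¹ = 1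
  rw [gm_mul hσ hd (inv_ne_zero hd), mul_inv_cancel₀ hd, gm_one]

lemma gS_pow {σ d : ℝ} (hσ : σ ≠ 0) (hd : d ≠ 0) (n : ℕ) :
    (gS hσ hd) ^ n = gS hσ (pow_ne_zero n hd) := by
  induction n with
  | zero =>
    apply Subtype.ext
    change (1 : Matrix (Fin 2) (Fin 2) ℝ) = gm σ (d ^ 0)
    rw [pow_zero, gm_one]
  | succ n ih =>
    rw [pow_succ, ih]
    apply Subtype.ext
    change gm σ (d ^ n) * gm σ d = gm σ (d ^ (n + 1))
    rw [gm_mul hσ (pow_ne_zero n hd) hd, pow_succ]

variable {s c}

lemma lm_eq (hpos : ∀ t, 0 < (s t : ℝ)) (t : T) (b : Bool) :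
    lm (vv s) (ww s) c (t, b) = gm (s t) (if b then c else c⁻¹) := by
  have ht := (hpos t).ne'
  have h2 : ((2 : K) : ℝ) = 2 := rfl
  ext i j
  simp only [lm, rk, linv', vecMulVec, vv, ww, gm]
  cases b <;> fin_cases i <;> fin_cases j <;>
    simp [h2] <;> field_simp <;> ring

end mats

/-! ### Fixed points -/

lemma fixed_eqs {g : SL(2, ℝ)} {z : UpperHalfPlane} (h : g • z = z) :
    g 0 0 = 2 * g 1 0 * z.re + g 1 1 ∧ g 0 1 = - g 1 0 * (z.re ^ 2 + z.im ^ 2) := by
  have h1 := UpperHalfPlane.coe_specialLinearGroup_apply g z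
  rw [h] at h1
  have hden : ((algebraMap ℝ ℝ (g 1 0) : ℂ) * z + (algebraMap ℝ ℝ (g 1 1) : ℂ)) ≠ 0 := by
    intro h0
    rw [h0, div_zero] at h1
    have := congrArg Complex.im h1
    simp only [Complex.zero_im] at this
    exact z.im_pos.ne' this
  rw [eq_div_iff hden] at h1
  simp only [Algebra.algebraMap_self, RingHom.id_apply] at h1
  have hre := congrArg Complex.re h1
  have him := congrArg Complex.im h1
  simp only [Complex.mul_re, Complex.mul_im, Complex.add_re, Complex.add_im, Complex.ofReal_re,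
    Complex.ofReal_im, zero_mul, sub_zero, add_zero, UpperHalfPlane.coe_re,
    UpperHalfPlane.coe_im] at hre him
  have hy := z.im_pos
  have h2 : g 0 0 = 2 * g 1 0 * z.re + g 1 1 := by
    have : z.im * (g 0 0 - (2 * g 1 0 * z.re + g 1 1)) = 0 := by linear_combination -him
    rcases mul_eq_zero.1 this with h3 | h3
    · exact absurd h3 hy.ne'
    · linarith
  refine ⟨h2, ?_⟩
  rw [h2] at hre
  linear_combination -hre

lemma comm_of_fixed {g h : SL(2, ℝ)} {z : UpperHalfPlane} (hg : g • z = z) (hh : h • z = z) :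
    g * h = h * g := by
  obtain ⟨a1, a2⟩ := fixed_eqs hg
  obtain ⟨b1, b2⟩ := fixed_eqs hh
  ext i j
  rw [Matrix.SpecialLinearGroup.coe_mul, Matrix.SpecialLinearGroup.coe_mul, Matrix.mul_apply,
    Matrix.mul_apply, Fin.sum_univ_two, Fin.sum_univ_two]
  fin_cases i <;> fin_cases j <;> simp only [Fin.zero_eta, Fin.mk_one] <;>
    simp only [a1, a2, b1, b2] <;> ring

lemma no_fixed {σ d : ℝ} (hσ : σ ≠ 0) (hd : d ≠ 0) (hd2 : d ^ 2 ≠ 1) (z : UpperHalfPlane) :
    gS hσ hd • z ≠ z := by
  intro h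
  obtain ⟨-, h2⟩ := fixed_eqs h
  have e1 : (gS hσ hd) 0 1 = σ * ((d - d⁻¹) / 2) := rfl
  have e2 : (gS hσ hd) 1 0 = (d - d⁻¹) / 2 / σ := rfl
  rw [e1, e2] at h2
  have h3 : (d - d⁻¹) ≠ 0 := by
    intro h0
    apply hd2
    field_simp at h0
    linarith
  have hy := z.im_pos
  have h4 : (d - d⁻¹) * (σ ^ 2 + (z.re ^ 2 + z.im ^ 2)) = 0 := by
    have h5 : (σ * ((d - d⁻¹) / 2)) * (2 * σ) =
        (-((d - d⁻¹) / 2 / σ) * (z.re ^ 2 + z.im ^ 2)) * (2 * σ) := by rw [h2]
    have h6 : (-((d - d⁻¹) / 2 / σ) * (z.re ^ 2 + z.im ^ 2)) * (2 * σ) =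
        -(d - d⁻¹) * (z.re ^ 2 + z.im ^ 2) := by
      clear h2 h5
      clear h3
      field_simp
    rw [h6] at h5
    linear_combination h5
  rcases mul_eq_zero.1 h4 with h5 | h5
  · exact h3 h5
  · nlinarith [sq_nonneg σ, sq_nonneg z.re, pow_pos hy 2]

lemma coe_mul' (x y : SL(2, ℝ)) : (x * y).1 = x.1 * y.1 := rfl

/-! ### The free group -/

/-- A free group of rank at most continuum, acting on the hyperbolic plane by isometries with
commutative stabilisers, whose given generator has no fixed points. -/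
theorem exists_action (T : Type) (hT : #T ≤ continuum) :
    ∃ φ : FreeGroup T →* SL(2, ℝ),
      (∀ (z : UpperHalfPlane) (g h : FreeGroup T), φ g • z = z → φ h • z = z → g * h = h * g) ∧
      ∀ (t : T) (z : UpperHalfPlane), ∀ g ∈ Subgroup.zpowers (FreeGroup.of t),
        φ g • z = z → g = 1 := by
  classical
  obtain ⟨K, c, hK, hc⟩ := exists_transc
  obtain ⟨⟨ι, hι⟩⟩ := Cardinal.le_def T K |>.1 (hT.trans hK)
  let s : T → K := fun t => posMap K (ι t)
  have hpos : ∀ t, 0 < (s t : ℝ) := fun t => posMap_pos K _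
  have hinj : Function.Injective s := (posMap_inj K).comp hι
  have hc0 : c ≠ 0 := by
    rintro rfl
    exact hc (isAlgebraic_zero)
  have hcn : ∀ n : ℕ, n ≠ 0 → c ^ n ≠ 1 := by
    intro n hn h1
    apply hc
    refine ⟨Polynomial.X ^ n - 1, ?_, by simp [h1]⟩
    exact Polynomial.X_pow_sub_C_ne_zero (Nat.pos_of_ne_zero hn) (1 : K)
  let φ : FreeGroup T →* SL(2, ℝ) := FreeGroup.lift fun t => gS (hpos t).ne' hc0
  have hφ : ∀ L : List (T × Bool), (φ (FreeGroup.mk L)).1 =
      (L.map (lm (vv s) (ww s) c)).prod := by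
    intro L
    induction L with
    | nil =>
      rw [← FreeGroup.one_eq_mk, map_one]
      rfl
    | cons a L ih =>
      have h1 : FreeGroup.mk (a :: L) = FreeGroup.mk [a] * FreeGroup.mk L := by
        rw [FreeGroup.mul_mk]
        rfl
      rw [h1, _root_.map_mul, coe_mul', ih, List.map_cons, List.prod_cons]
      congr 1
      obtain ⟨t, b⟩ := a
      rw [lm_eq hpos]
      cases b with
      | true =>
        have h2 : φ (FreeGroup.mk [(t, true)]) = gS (hpos t).ne' hc0 :=
          FreeGroup.lift_apply_of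
        rw [h2]
        rfl
      | false =>
        have h2 : φ (FreeGroup.mk [(t, false)]) = (gS (hpos t).ne' hc0)⁻¹ := by
          have h3 : FreeGroup.mk [(t, false)] = (FreeGroup.of t)⁻¹ := rfl
          rw [h3, map_inv]
          congr 1
          exact FreeGroup.lift_apply_of
        rw [h2, gS_inv]
        rfl
  have hinjφ : ∀ g : FreeGroup T, φ g = 1 → g = 1 := by
    intro g hg
    by_contra hne
    have hw : g.toWord ≠ [] := by
      intro h
      exact hne (FreeGroup.toWord_eq_nil_iff.1 h)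
    obtain ⟨p, hp, hroot⟩ := exists_poly (k := K) (R := ℝ) (v := vv s) (w := ww s)
      (fun a b h => ww_vv hpos hinj a b h) (FreeGroup.isReduced_toWord (x := g)) hw 1
    apply hc
    refine ⟨p, hp, hroot c hc0 ?_⟩
    rw [← hφ, FreeGroup.mk_toWord, hg, map_one, one_smul]
    rfl
  refine ⟨φ, ?_, ?_⟩
  · intro z g h hg hh
    have h1 := comm_of_fixed hg hh
    have h2 : φ (g * h * (h * g)⁻¹) = 1 := by
      rw [_root_.map_mul, map_inv, _root_.map_mul, _root_.map_mul, h1, mul_inv_cancel]
    have h3 := hinjφ _ h2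
    rwa [mul_inv_eq_one] at h3
  · intro t z g hg hfix
    obtain ⟨q, rfl⟩ := Subgroup.mem_zpowers_iff.1 hg
    have hpow : ∀ n : ℕ, φ (FreeGroup.of t ^ n) • z = z → n = 0 := by
      intro n hn
      by_contra hn0
      have h2 : φ (FreeGroup.of t ^ n) = gS (hpos t).ne' (pow_ne_zero n hc0) := by
        rw [map_pow, ← gS_pow]
        congr 1
        exact FreeGroup.lift_apply_of
      rw [h2] at hn
      refine no_fixed _ _ ?_ z hn
      rw [← pow_mul]
      exact hcn _ (by omega)
    rcases Int.le_total 0 q with h0 | h0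
    · obtain ⟨m, rfl⟩ := Int.eq_ofNat_of_zero_le h0
      simp only [zpow_natCast] at hfix ⊢
      rw [hpow m hfix, pow_zero]
    · obtain ⟨m, hm⟩ := Int.eq_ofNat_of_zero_le (neg_nonneg.2 h0)
      have hq' : q = -(m : ℤ) := by omega
      rw [hq', _root_.zpow_neg, zpow_natCast] at hfix ⊢
      rw [map_inv, inv_smul_eq_iff] at hfix
      rw [hpow m hfix.symm]
      simp

end Pool.Agent.V11198.Cong
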