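import Pool.Agent.W614.SC.Main

/-!
# Double covers through a circuit which covers the graph together with two even subgraphs

If a graph is the union of a circuit `C` and of two even subgraphs, then `C` and four more even
subgraphs cover every edge exactly twice.  This is the theorem `four_of_flows` of the starting
library (`Pool.Agent.W614.SC.Four`) applied to the flow which the two even subgraphs induce on every
Tutte bridge of `C`.
-/

set_option autoImplicit false
set_option linter.unusedSectionVars false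

open Finset

namespace Pool.Agent.V11198.Cdc

open Pool.Agent.Helper347.Sab
open Pool.Agent.Helper998.Near (Rch)
open Pool.Agent.W831.HI (circ_complete)
open Pool.Agent.W614.SC (four_of_flows)

variable {V E : Type} [Fintype V] [DecidableEq V] [Fintype E] [DecidableEq E]

theorem four_of_union (G : MGraph V E) (C A B : Finset E) (hC : IsCircuit G C) (hA : Ev G A)
    (hB : Ev G B) (hcov : ∀ e, e ∉ C → e ∈ A ∨ e ∈ B) :
    ∃ X : Fin 4 → Finset E, (∀ i, Ev G (X i)) ∧
      (∀ e ∈ C, (univ.filter fun i => e ∈ X i).card = 1) ∧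
      (∀ e, e ∉ C → (univ.filter fun i => e ∈ X i).card = 2) := by
  classical
  have hone : ∀ f, f ∉ C → ∀ u ∈ G.ends f, ∀ v ∈ G.ends f, Rch G (univ \ C) u v := by
    intro f hfS u hu v hv
    by_cases huv : u = v
    · rw [huv]
    · refine Relation.ReflTransGen.single ⟨f, mem_sdiff.2 ⟨mem_univ _, hfS⟩, ?_⟩
      exact (Sym2.mem_and_mem_iff huv).1 ⟨hu, hv⟩
  have hnotC : ∀ v, dg G C v = 0 → ∀ e, v ∈ G.ends e → e ∉ C := by
    intro v hv e he h
    have := dg_pos_of_mem (G := G) h he
    omega
  have key : ∀ (D : Finset E), Ev G D → ∀ v0, ∃ A' : Finset E, Ev G A' ∧ ∀ f, f ∉ C →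
      (f ∈ A' ↔ f ∈ D ∧ ∀ u ∈ G.ends f, Rch G (univ \ C) v0 u) := by
    intro D hD v0
    obtain ⟨M, hM⟩ : ∃ M : Finset E, ∀ f, f ∈ M ↔ f ∉ C ∧ f ∈ D ∧
        ∀ u ∈ G.ends f, Rch G (univ \ C) v0 u :=
      ⟨univ.filter (fun f => f ∉ C ∧ f ∈ D ∧ ∀ u ∈ G.ends f, Rch G (univ \ C) v0 u), by
        intro e; simp⟩
    obtain ⟨J, hJC, hJ⟩ := circ_complete G C M hC (by
      rw [disjoint_left]
      intro e he h
      exact ((hM e).1 h).1 he) (by
      intro v hv
      by_cases hr : Rch G (univ \ C) v0 v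
      · have h1 : dg G M v = dg G D v := by
          unfold dg
          congr 1
          ext e
          rw [mem_filter, mem_filter, hM]
          constructor
          · rintro ⟨⟨_, h2, _⟩, h3⟩
            exact ⟨h2, h3⟩
          · rintro ⟨h2, h3⟩
            have heC := hnotC v hv e h3
            exact ⟨⟨heC, h2, fun u hu => hr.trans (hone e heC v h3 u hu)⟩, h3⟩
        rw [h1]
        exact hD v
      · have h1 : dg G M v = 0 := by
          unfold dg
          rw [card_eq_zero, filter_eq_empty_iff]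
          intro e he hv'
          exact hr (((hM e).1 he).2.2 v hv')
        rw [h1]
        exact ⟨0, rfl⟩)
    refine ⟨M ∪ J, hJ, fun f hf => ?_⟩
    rw [mem_union, hM]
    constructor
    · rintro (h | h)
      · exact h.2
      · exact absurd (hJC h) hf
    · intro h
      exact Or.inl ⟨hf, h⟩
  obtain ⟨X, h1, h2, h3, _⟩ := four_of_flows G C ∅ hC.2.1 (fun v0 => by
    obtain ⟨A', hA1, hA2⟩ := key A hA v0
    obtain ⟨B', hB1, hB2⟩ := key B hB v0
    refine ⟨A', B', hA1, hB1, ?_, ?_⟩
    · intro f hf h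
      rcases h with h | h
      · exact ((hA2 f hf).1 h).2
      · exact ((hB2 f hf).1 h).2
    · intro f hf _ hr
      rcases hcov f hf with h | h
      · exact Or.inl ((hA2 f hf).2 ⟨h, hr⟩)
      · exact Or.inr ((hB2 f hf).2 ⟨h, hr⟩))
  exact ⟨X, h1, h2, fun e he => h3 e he (notMem_empty e)⟩

/-- the five even subgraphs -/
theorem five_of_union (G : MGraph V E) (C A B : Finset E) (hC : IsCircuit G C) (hA : Ev G A)
    (hB : Ev G B) (hcov : ∀ e, e ∉ C → e ∈ A ∨ e ∈ B) :
    ∃ D : Fin 5 → Finset E, (∀ i, Ev G (D i)) ∧ D 0 = C ∧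
      ∀ e, (univ.filter fun i => e ∈ D i).card = 2 := by
  classical
  obtain ⟨X, h1, h2, h3⟩ := four_of_union G C A B hC hA hB hcov
  have hCe : Ev G C := by
    intro v; rcases hC.2.1 v with h | h <;> rw [h] <;> decide
  refine ⟨Fin.cons C X, ?_, rfl, ?_⟩
  · intro i
    refine Fin.cases ?_ (fun j => ?_) i
    · exact hCe
    · exact h1 j
  · intro e
    have h4 : (univ.filter fun i : Fin 5 => e ∈ (Fin.cons C X : Fin 5 → Finset E) i).card =
        (if e ∈ C then 1 else 0) + (univ.filter fun i => e ∈ X i).card := by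
      rw [card_filter, Fin.sum_univ_succ, card_filter]
      rfl
    rw [h4]
    by_cases h5 : e ∈ C
    · rw [if_pos h5, h2 e h5]
    · rw [if_neg h5, h3 e h5]

/-- the double cover by circuits -/
theorem cdc_of_union (G : MGraph V E) (C A B : Finset E) (hC : IsCircuit G C) (hA : Ev G A)
    (hB : Ev G B) (hcov : ∀ e, e ∉ C → e ∈ A ∨ e ∈ B) :
    ∃ F : Multiset (Finset E), IsCDC G F ∧ C ∈ F := by
  classical
  obtain ⟨X, h1, h2, h3⟩ := four_of_union G C A B hC hA hB hcov
  choose T hT1 hT2 using fun i => Pool.Agent.W831.HI.decompose_ev G (X i) (h1 i)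
  refine ⟨C ::ₘ ∑ i, T i, ⟨?_, ?_⟩, Multiset.mem_cons_self _ _⟩
  · intro Y hY
    rw [Multiset.mem_cons] at hY
    rcases hY with h | h
    · rw [h]; exact hC
    · rw [Multiset.mem_sum] at h
      obtain ⟨i, _, hi⟩ := h
      exact hT1 i Y hi
  · intro e
    rw [Multiset.countP_cons, Pool.Agent.W831.HI.countP_sum, sum_congr rfl fun i _ => hT2 i e,
      ← card_filter]
    by_cases h5 : e ∈ C
    · rw [if_pos h5, h2 e h5]
    · rw [if_neg h5, h3 e h5]

end Pool.Agent.V11198.Cdc
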