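import Mathlib

/-!
# Curves of bounded curvature: analytic lemmas
-/

namespace Pool.Agent.V11198.Dub

open Set Filter Topology

noncomputable section

/-- unit vectors -/
abbrev E (x : ℝ) : ℂ := Complex.exp (x * Complex.I)

lemma norm_E_sub (x y : ℝ) : ‖E x - E y‖ = 2 * |Real.sin ((x - y) / 2)| := by
  have h1 : E x - E y = E y * (Complex.exp (Complex.I * ((x - y : ℝ) : ℂ)) - 1) := by
    rw [mul_sub, mul_one, E, E, ← Complex.exp_add]
    congr 2
    push_cast
    ring
  rw [h1, norm_mul, Complex.norm_exp_ofReal_mul_I, one_mul, Complex.norm_exp_I_mul_ofReal_sub_one,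
    norm_mul, Real.norm_eq_abs, Real.norm_eq_abs]
  norm_num

lemma norm_E_sub_le (x y : ℝ) : ‖E x - E y‖ ≤ |x - y| := by
  rw [norm_E_sub]
  have := Real.abs_sin_le_abs (x := (x - y) / 2)
  rw [abs_div, abs_two] at this
  linarith

/-- a continuous lift of a chord-Lipschitz unit vector field is Lipschitz -/
lemma lip_of_chord {θ : ℝ → ℝ} {a b : ℝ} (hc : ContinuousOn θ (Icc a b))
    (hl : ∀ s ∈ Icc a b, ∀ t ∈ Icc a b, ‖E (θ s) - E (θ t)‖ ≤ |s - t|) :
    ∀ s ∈ Icc a b, ∀ t ∈ Icc a b, s ≤ t → |θ t - θ s| ≤ t - s := by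
  have key : ∀ (ε : ℝ), |ε| = 1 → ∀ s ∈ Icc a b, ∀ t ∈ Icc a b, s ≤ t →
      ε * θ t - ε * θ s ≤ t - s := by
    intro ε hε s hs t ht hst
    have hsub : Icc s t ⊆ Icc a b := Icc_subset_Icc hs.1 ht.2
    have h := image_le_of_liminf_slope_right_le_deriv_boundary (f := fun x => ε * θ x - ε * θ s)
      (a := s) (b := t) (B := fun x => x - s) (B' := fun _ => 1)
      (((hc.mono hsub).const_smul ε).sub continuousOn_const) (by simp)
      (by fun_prop) (fun x _ => ((hasDerivAt_id x).sub_const s).hasDerivWithinAt) ?_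
      (right_mem_Icc.2 hst)
    · exact h
    · intro x hx r hr
      apply Eventually.frequently
      have hxI : x ∈ Icc a b := hsub ⟨hx.1, hx.2.le⟩
      have hcx : Tendsto θ (𝓝[>] x) (𝓝 (θ x)) := by
        have h1 : ContinuousWithinAt θ (Icc a b) x := hc x hxI
        have h2 : Icc a b ∈ 𝓝[>] x := by
          have : Ioc x t ∈ 𝓝[>] x := Ioc_mem_nhdsGT hx.2
          exact mem_of_superset this fun y hy => ⟨hxI.1.trans hy.1.le, hy.2.trans ht.2⟩
        exact h1.mono_left (nhdsWithin_le_of_mem h2)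
      -- a bound for the difference quotient
      have h3 : Tendsto (fun z => 1 / (1 - (θ z - θ x) ^ 2 / 16)) (𝓝[>] x) (𝓝 1) := by
        have : ContinuousAt (fun y : ℝ => 1 / (1 - (y - θ x) ^ 2 / 16)) (θ x) := by
          apply ContinuousAt.div continuousAt_const
          · fun_prop
          · simp
        have h4 := this.tendsto.comp hcx
        simpa [Function.comp_def] using h4
      have h5 : ∀ᶠ z in 𝓝[>] x, 1 / (1 - (θ z - θ x) ^ 2 / 16) < r := h3 (Iio_mem_nhds hr)
      have h6 : ∀ᶠ z in 𝓝[>] x, |θ z - θ x| < 1 := by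
        have : Tendsto (fun z => |θ z - θ x|) (𝓝[>] x) (𝓝 0) := by
          have h7 : ContinuousAt (fun y : ℝ => |y - θ x|) (θ x) := by fun_prop
          have := h7.tendsto.comp hcx
          simpa [Function.comp_def] using this
        exact this (Iio_mem_nhds one_pos)
      have h8 : ∀ᶠ z in 𝓝[>] x, z ∈ Ioc x t := Ioc_mem_nhdsGT hx.2
      filter_upwards [h5, h6, h8] with z hz5 hz6 hz8
      have hzI : z ∈ Icc a b := ⟨hxI.1.trans hz8.1.le, hz8.2.trans ht.2⟩
      have hzx : 0 < z - x := by linarith [hz8.1]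
      rw [slope_def_field]
      refine lt_of_le_of_lt ?_ hz5
      rw [div_le_iff₀ hzx]
      have h9 := hl z hzI x hxI
      rw [norm_E_sub, abs_of_pos hzx] at h9
      have h10 : |θ z - θ x| * (1 - (θ z - θ x) ^ 2 / 16) ≤ 2 * |Real.sin ((θ z - θ x) / 2)| := by
        by_cases h0 : θ z - θ x = 0
        · rw [h0]
          simp
        · have h11 : 0 < |θ z - θ x| := abs_pos.2 h0
          have h12 := Real.sin_gt_sub_cube (x := |θ z - θ x| / 2) (by positivity)
          have h13 : |Real.sin ((θ z - θ x) / 2)| = |Real.sin (|θ z - θ x| / 2)| := by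
            rcases abs_cases (θ z - θ x) with ⟨e, -⟩ | ⟨e, -⟩
            · rw [e]
            · rw [e, neg_div, Real.sin_neg, abs_neg]
          rw [h13]
          have h14 := le_abs_self (Real.sin (|θ z - θ x| / 2))
          rw [← sq_abs (θ z - θ x)]
          nlinarith
      have h15 : (θ z - θ x) ^ 2 < 1 := by
        rw [← sq_abs]
        nlinarith [abs_nonneg (θ z - θ x)]
      have h16 : 0 < 1 - (θ z - θ x) ^ 2 / 16 := by linarith
      have h17 : ε * θ z - ε * θ s - (ε * θ x - ε * θ s) ≤ |θ z - θ x| := by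
        have : ε * θ z - ε * θ s - (ε * θ x - ε * θ s) = ε * (θ z - θ x) := by ring
        rw [this]
        refine (le_abs_self _).trans ?_
        rw [abs_mul, hε, one_mul]
      rw [div_mul_eq_mul_div, one_mul, le_div_iff₀ h16]
      nlinarith
  intro s hs t ht hst
  rw [abs_le]
  constructor
  · have := key (-1) (by simp) s hs t ht hst
    linarith
  · have := key 1 (by simp) s hs t ht hst
    linarith

/-- comparison of `H ∘ θ` with a primitive of `h ∘ θ` -/
lemma variation {θ B H h : ℝ → ℝ} {a b ε : ℝ} (hε : |ε| = 1)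
    (hlip : ∀ s ∈ Icc a b, ∀ t ∈ Icc a b, s ≤ t → |θ t - θ s| ≤ t - s)
    (hH : ∀ y, HasDerivAt H (h y) y)
    (hpos : ∀ t ∈ Icc a b, 0 ≤ h (θ t))
    (hB : ∀ t ∈ Icc a b, HasDerivWithinAt B (h (θ t)) (Icc a b) t)
    {s t : ℝ} (hs : s ∈ Icc a b) (ht : t ∈ Icc a b) (hst : s ≤ t) :
    ε * (H (θ t) - H (θ s)) ≤ B t - B s := by
  have hc : ContinuousOn θ (Icc a b) := by
    have : LipschitzOnWith 1 θ (Icc a b) := by
      rw [lipschitzOnWith_iff_dist_le_mul]
      intro x hx y hy
      rw [NNReal.coe_one, one_mul, Real.dist_eq, Real.dist_eq]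
      rcases le_total x y with hxy | hxy
      · rw [abs_sub_comm, abs_sub_comm x y, abs_of_nonneg (sub_nonneg.2 hxy)]
        exact hlip x hx y hy hxy
      · rw [abs_of_nonneg (sub_nonneg.2 hxy)]
        exact hlip y hy x hx hxy
    exact this.continuousOn
  have hsub : Icc s t ⊆ Icc a b := Icc_subset_Icc hs.1 ht.2
  have hHc : Continuous H := continuous_iff_continuousAt.2 fun y => (hH y).continuousAt
  have hBc : ContinuousOn B (Icc a b) := fun x hx => (hB x hx).continuousWithinAt
  have hf : ContinuousOn (fun x => ε * (H (θ x) - H (θ s))) (Icc s t) := by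
    apply ContinuousOn.mul continuousOn_const
    apply ContinuousOn.sub _ continuousOn_const
    exact hHc.comp_continuousOn (hc.mono hsub)
  refine image_le_of_liminf_slope_right_le_deriv_boundary
    (f := fun x => ε * (H (θ x) - H (θ s)))
    (a := s) (b := t) (B := fun x => B x - B s) (B' := fun x => h (θ x))
    hf (by simp) ((hBc.mono hsub).sub continuousOn_const) ?_ ?_ (right_mem_Icc.2 hst)
  · intro x hx
    have hxI : x ∈ Icc a b := hsub ⟨hx.1, hx.2.le⟩
    have h1 := (hB x hxI).sub_const (B s)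
    refine h1.mono_of_mem_nhdsWithin ?_
    have : Ico x t ∈ 𝓝[≥] x := Ico_mem_nhdsGE hx.2
    exact mem_of_superset this fun y hy => ⟨hxI.1.trans hy.1, hy.2.le.trans ht.2⟩
  · intro x hx r hr
    apply Eventually.frequently
    have hxI : x ∈ Icc a b := hsub ⟨hx.1, hx.2.le⟩
    have hcx : Tendsto θ (𝓝[>] x) (𝓝 (θ x)) := by
      have h1 : ContinuousWithinAt θ (Icc a b) x := hc x hxI
      have h2 : Icc a b ∈ 𝓝[>] x := by
        have : Ioc x t ∈ 𝓝[>] x := Ioc_mem_nhdsGT hx.2
        exact mem_of_superset this fun y hy => ⟨hxI.1.trans hy.1.le, hy.2.trans ht.2⟩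
      exact h1.mono_left (nhdsWithin_le_of_mem h2)
    obtain ⟨η, hη⟩ : ∃ η, η = (r - h (θ x)) / 2 := ⟨_, rfl⟩
    have hη0 : 0 < η := by
      rw [hη]
      linarith
    have h1 : ∀ᶠ y in 𝓝 (θ x), ‖H y - H (θ x) - (y - θ x) • h (θ x)‖ ≤ η * ‖y - θ x‖ :=
      (hasDerivAt_iff_isLittleO.1 (hH (θ x))).bound hη0
    have h2 := hcx.eventually h1
    have h8 : ∀ᶠ z in 𝓝[>] x, z ∈ Ioc x t := Ioc_mem_nhdsGT hx.2
    filter_upwards [h2, h8] with z hz2 hz8
    have hzI : z ∈ Icc a b := ⟨hxI.1.trans hz8.1.le, hz8.2.trans ht.2⟩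
    have hzx : 0 < z - x := by linarith [hz8.1]
    rw [slope_def_field, div_lt_iff₀ hzx]
    have h9 : |θ z - θ x| ≤ z - x := hlip x hxI z hzI hz8.1.le
    rw [Real.norm_eq_abs, Real.norm_eq_abs, smul_eq_mul] at hz2
    have h10 := hpos x hxI
    have h11 : ε * (H (θ z) - H (θ s)) - ε * (H (θ x) - H (θ s)) ≤ |H (θ z) - H (θ x)| := by
      have : ε * (H (θ z) - H (θ s)) - ε * (H (θ x) - H (θ s)) = ε * (H (θ z) - H (θ x)) := by
        ring
      rw [this]
      refine (le_abs_self _).trans ?_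
      rw [abs_mul, hε, one_mul]
    have h12 : |H (θ z) - H (θ x)| ≤ |θ z - θ x| * h (θ x) + η * |θ z - θ x| := by
      have : H (θ z) - H (θ x) = (θ z - θ x) * h (θ x) +
          (H (θ z) - H (θ x) - (θ z - θ x) * h (θ x)) := by ring
      rw [this]
      refine (abs_add_le _ _).trans ?_
      rw [abs_mul, abs_of_nonneg h10]
      linarith
    have h13 : |θ z - θ x| * h (θ x) ≤ (z - x) * h (θ x) := mul_le_mul_of_nonneg_right h9 h10
    have h14 : η * |θ z - θ x| ≤ η * (z - x) := mul_le_mul_of_nonneg_left h9 hη0.le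
    have h15 : (h (θ x) + η) * (z - x) < r * (z - x) := by
      apply mul_lt_mul_of_pos_right _ hzx
      rw [hη]
      linarith
    nlinarith

end

end Pool.Agent.V11198.Dub
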