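import Mathlib
import Pool.Agent.V11198.Dub1

/-!
# Curves of bounded curvature: lengths of condensed and diffuse curves
-/

namespace Pool.Agent.V11198.Dub

open Set Filter Topology

noncomputable section

/-- Dubins curves -/
structure Cur (q : ℂ) (θ₁ L : ℝ) (γ : ℝ → ℂ) (θ : ℝ → ℝ) : Prop where
  pos : 0 < L
  deriv : ∀ t ∈ Icc 0 L, HasDerivWithinAt γ (E (θ t)) (Icc 0 L) t
  chord : ∀ s ∈ Icc 0 L, ∀ t ∈ Icc 0 L, ‖E (θ s) - E (θ t)‖ ≤ |s - t|
  cont : ContinuousOn θ (Icc 0 L)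
  γ0 : γ 0 = 0
  θ0 : θ 0 = 0
  γL : γ L = q
  θL : θ L = θ₁

/-- amplitude -/
def amp (L : ℝ) (θ : ℝ → ℝ) : ℝ := sSup (θ '' Icc 0 L) - sInf (θ '' Icc 0 L)

lemma Cur.lip {q : ℂ} {θ₁ L : ℝ} {γ : ℝ → ℂ} {θ : ℝ → ℝ} (h : Cur q θ₁ L γ θ) :
    ∀ s ∈ Icc 0 L, ∀ t ∈ Icc 0 L, s ≤ t → |θ t - θ s| ≤ t - s :=
  lip_of_chord h.cont h.chord

lemma Cur.extremes {q : ℂ} {θ₁ L : ℝ} {γ : ℝ → ℂ} {θ : ℝ → ℝ} (h : Cur q θ₁ L γ θ) :
    ∃ s ∈ Icc 0 L, ∃ t ∈ Icc 0 L, (∀ r ∈ Icc 0 L, θ s ≤ θ r ∧ θ r ≤ θ t) ∧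
      amp L θ = θ t - θ s := by
  have hne : (Icc 0 L).Nonempty := nonempty_Icc.2 h.pos.le
  obtain ⟨s, hs, hmin⟩ := isCompact_Icc.exists_isMinOn hne h.cont
  obtain ⟨t, ht, hmax⟩ := isCompact_Icc.exists_isMaxOn hne h.cont
  refine ⟨s, hs, t, ht, fun r hr => ⟨hmin hr, hmax hr⟩, ?_⟩
  have h1 : IsLeast (θ '' Icc 0 L) (θ s) := ⟨mem_image_of_mem _ hs, by
    rintro _ ⟨r, hr, rfl⟩
    exact hmin hr⟩
  have h2 : IsGreatest (θ '' Icc 0 L) (θ t) := ⟨mem_image_of_mem _ ht, by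
    rintro _ ⟨r, hr, rfl⟩
    exact hmax hr⟩
  rw [amp, h1.csInf_eq, h2.csSup_eq]

/-- the length of a curve of given amplitude -/
lemma Cur.length_ge {q : ℂ} {θ₁ L : ℝ} {γ : ℝ → ℂ} {θ : ℝ → ℝ} (h : Cur q θ₁ L γ θ) :
    2 * amp L θ - |θ₁| ≤ L := by
  obtain ⟨s, hs, t, ht, hst, hamp⟩ := h.extremes
  have h0 : (0 : ℝ) ∈ Icc 0 L := left_mem_Icc.2 h.pos.le
  have hL : L ∈ Icc 0 L := right_mem_Icc.2 h.pos.le
  rw [hamp]
  have h1 := neg_abs_le θ₁
  have h2 := le_abs_self θ₁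
  rcases le_total s t with hle | hle
  · have e1 := abs_le.1 (h.lip 0 h0 s hs hs.1)
    have e2 := abs_le.1 (h.lip s hs t ht hle)
    have e3 := abs_le.1 (h.lip t ht L hL ht.2)
    rw [h.θ0] at e1
    rw [h.θL] at e3
    linarith [e1.1, e1.2, e2.1, e2.2, e3.1, e3.2]
  · have e1 := abs_le.1 (h.lip 0 h0 t ht ht.1)
    have e2 := abs_le.1 (h.lip t ht s hs hle)
    have e3 := abs_le.1 (h.lip s hs L hL hs.2)
    rw [h.θ0] at e1
    rw [h.θL] at e3
    linarith [e1.1, e1.2, e2.1, e2.2, e3.1, e3.2]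

/-- the support function -/
def F (q : ℂ) (θ₁ ψ : ℝ) : ℝ :=
  (q.re + Real.sin θ₁) * Real.cos ψ + (q.im + (1 - Real.cos θ₁)) * Real.sin ψ

lemma Cur.condensed {q : ℂ} {θ₁ L : ℝ} {γ : ℝ → ℂ} {θ : ℝ → ℝ} (h : Cur q θ₁ L γ θ)
    (h1 : 0 ≤ θ₁) (hA : amp L θ < Real.pi) :
    ∃ c ∈ Icc (θ₁ - Real.pi / 2) (Real.pi / 2),
      4 * Real.sin (amp L θ / 2) + Real.cos (amp L θ / 2) * (L + θ₁ - 2 * amp L θ) ≤ F q θ₁ c := by
  obtain ⟨s, hs, t, ht, hst, hamp⟩ := h.extremes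
  have h0m : (0 : ℝ) ∈ Icc 0 L := left_mem_Icc.2 h.pos.le
  have hLm : L ∈ Icc 0 L := right_mem_Icc.2 h.pos.le
  obtain ⟨A, hAdef⟩ : ∃ A, A = amp L θ := ⟨_, rfl⟩
  obtain ⟨c, hc⟩ : ∃ c, c = (θ s + θ t) / 2 := ⟨_, rfl⟩
  rw [← hAdef] at hA hamp ⊢
  have hpi := Real.pi_pos
  have hA0 : 0 ≤ A := by
    rw [hamp]
    linarith [(hst s hs).2]
  have hz := hst 0 h0m
  have hl := hst L hLm
  rw [h.θ0] at hz
  rw [h.θL] at hl
  refine ⟨c, ⟨?_, ?_⟩, ?_⟩
  · rw [hc]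
    linarith [hl.2]
  · rw [hc]
    linarith [hz.1]
  obtain ⟨k, hk⟩ : ∃ k, k = Real.cos (A / 2) := ⟨_, rfl⟩
  rw [← hk]
  let H : ℝ → ℝ := fun y => Real.sin (y - c) - k * y
  let hh : ℝ → ℝ := fun y => Real.cos (y - c) - k
  let B : ℝ → ℝ := fun r => (γ r).re * Real.cos c + (γ r).im * Real.sin c - k * r
  have hH : ∀ y, HasDerivAt H (hh y) y := by
    intro y
    have e1 := (Real.hasDerivAt_sin (y - c)).comp y ((hasDerivAt_id y).sub_const c)
    have e2 := (hasDerivAt_id y).const_mul k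
    have e3 := e1.sub e2
    have e4 : hh y = Real.cos (y - c) * 1 - k * 1 := by
      simp only [hh]
      ring
    rw [e4]
    exact e3
  have hwin : ∀ y, θ s ≤ y → y ≤ θ t → 0 ≤ hh y := by
    intro y hy1 hy2
    simp only [hh]
    rw [sub_nonneg, hk, ← Real.cos_abs (y - c)]
    apply Real.cos_le_cos_of_nonneg_of_le_pi (abs_nonneg _) (by linarith)
    rw [abs_le]
    constructor <;> rw [hc] <;> linarith
  have hpos : ∀ r ∈ Icc 0 L, 0 ≤ hh (θ r) := fun r hr => hwin _ (hst r hr).1 (hst r hr).2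
  have hB : ∀ r ∈ Icc 0 L, HasDerivWithinAt B (hh (θ r)) (Icc 0 L) r := by
    intro r hr
    have d := h.deriv r hr
    have dre : HasDerivWithinAt (fun r => (γ r).re) (Real.cos (θ r)) (Icc 0 L) r := by
      have := Complex.reCLM.hasFDerivAt.comp_hasDerivWithinAt r d
      simpa [Function.comp_def, E, Complex.exp_ofReal_mul_I_re] using this
    have dim : HasDerivWithinAt (fun r => (γ r).im) (Real.sin (θ r)) (Icc 0 L) r := by
      have := Complex.imCLM.hasFDerivAt.comp_hasDerivWithinAt r d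
      simpa [Function.comp_def, E, Complex.exp_ofReal_mul_I_im] using this
    have e1 := ((dre.mul_const (Real.cos c)).add (dim.mul_const (Real.sin c))).sub
      ((hasDerivWithinAt_id r (Icc 0 L)).const_mul k)
    have e2 : hh (θ r) = Real.cos (θ r) * Real.cos c + Real.sin (θ r) * Real.sin c - k * 1 := by
      simp only [hh, Real.cos_sub]
      ring
    rw [e2]
    exact e1
  have V1 : ∀ {a b : ℝ}, a ∈ Icc 0 L → b ∈ Icc 0 L → a ≤ b → H (θ b) - H (θ a) ≤ B b - B a := by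
    intro a b ha hb hab
    have := variation (ε := 1) (by simp) h.lip hH hpos hB ha hb hab
    linarith
  have V2 : ∀ {a b : ℝ}, a ∈ Icc 0 L → b ∈ Icc 0 L → a ≤ b → H (θ a) - H (θ b) ≤ B b - B a := by
    intro a b ha hb hab
    have := variation (ε := -1) (by simp) h.lip hH hpos hB ha hb hab
    linarith
  have hmono : H 0 ≤ H θ₁ := by
    have hm : MonotoneOn H (Icc (θ s) (θ t)) := by
      apply monotoneOn_of_deriv_nonneg (convex_Icc _ _)
      · exact (continuous_iff_continuousAt.2 fun y => (hH y).continuousAt).continuousOn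
      · exact fun y _ => (hH y).differentiableAt.differentiableWithinAt
      · intro y hy
        rw [interior_Icc] at hy
        rw [(hH y).deriv]
        exact hwin y hy.1.le hy.2.le
    exact hm ⟨hz.1, hz.2⟩ ⟨hl.1, hl.2⟩ h1
  have e1 : H (θ t) - H (θ s) = 2 * Real.sin (A / 2) - k * A := by
    simp only [H]
    have a1 : θ t - c = A / 2 := by rw [hc, hamp]; ring
    have a2 : θ s - c = -(A / 2) := by rw [hc, hamp]; ring
    rw [a1, a2, Real.sin_neg, hamp]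
    ring
  have e2 : H θ₁ - H 0 = Real.sin θ₁ * Real.cos c + (1 - Real.cos θ₁) * Real.sin c - k * θ₁ := by
    simp only [H, Real.sin_sub, Real.sin_zero, Real.cos_zero]
    ring
  have e3 : B L - B 0 = q.re * Real.cos c + q.im * Real.sin c - k * L := by
    simp only [B, h.γ0, h.γL]
    simp
  have e4 : F q θ₁ c = (q.re * Real.cos c + q.im * Real.sin c) +
      (Real.sin θ₁ * Real.cos c + (1 - Real.cos θ₁) * Real.sin c) := by
    rw [F]
    ring
  rw [e4]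
  rcases le_total s t with hle | hle
  · have f1 := V2 h0m hs hs.1
    have f2 := V1 hs ht hle
    have f3 := V2 ht hLm ht.2
    rw [h.θ0] at f1
    rw [h.θL] at f3
    nlinarith
  · have f1 := V1 h0m ht ht.1
    have f2 := V2 ht hs hle
    have f3 := V1 hs hLm hs.2
    rw [h.θ0] at f1
    rw [h.θL] at f3
    nlinarith

lemma trig_bound {A : ℝ} (h0 : 0 ≤ A) (h1 : A < Real.pi) :
    4 - 4 * Real.sin (A / 2) ≤ 2 * Real.cos (A / 2) * (Real.pi - A) := by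
  obtain ⟨x, hx⟩ : ∃ x, x = (Real.pi - A) / 2 := ⟨_, rfl⟩
  have hpi := Real.pi_pos
  have hx0 : 0 < x := by rw [hx]; linarith
  have hx1 : x ≤ Real.pi / 2 := by rw [hx]; linarith
  have e1 : Real.sin (A / 2) = Real.cos x := by
    rw [show A / 2 = Real.pi / 2 - x by rw [hx]; ring, Real.sin_pi_div_two_sub]
  have e2 : Real.cos (A / 2) = Real.sin x := by
    rw [show A / 2 = Real.pi / 2 - x by rw [hx]; ring, Real.cos_pi_div_two_sub]
  have e3 : Real.pi - A = 2 * x := by rw [hx]; ring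
  rw [e1, e2, e3]
  have c1 : Real.cos x = 1 - 2 * Real.sin (x / 2) ^ 2 := by
    have := Real.cos_two_mul (x / 2)
    rw [show 2 * (x / 2) = x by ring] at this
    have := Real.sin_sq_add_cos_sq (x / 2)
    linarith
  have c2 : Real.sin x = 2 * Real.sin (x / 2) * Real.cos (x / 2) := by
    have := Real.sin_two_mul (x / 2)
    rw [show 2 * (x / 2) = x by ring] at this
    exact this
  have c3 : 1 / 2 ≤ Real.cos (x / 2) := by
    rw [← Real.cos_pi_div_three]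
    apply Real.cos_le_cos_of_nonneg_of_le_pi (by positivity) (by linarith) (by linarith)
  have c4 : Real.sin (x / 2) ≤ x / 2 := Real.sin_le (by positivity)
  have c5 : 0 < Real.sin (x / 2) := Real.sin_pos_of_pos_of_lt_pi (by positivity) (by linarith)
  rw [c1, c2]
  nlinarith [mul_le_mul_of_nonneg_left c3 hx0.le, mul_nonneg c5.le (sub_nonneg.2 c4)]

/-- the upper bound for the length of condensed curves -/
lemma Cur.length_le {q : ℂ} {θ₁ L : ℝ} {γ : ℝ → ℂ} {θ : ℝ → ℝ} (h : Cur q θ₁ L γ θ)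
    (h1 : 0 ≤ θ₁) (hA : amp L θ < Real.pi) {δ : ℝ} (hδ : 0 ≤ δ)
    (hF : ∀ c ∈ Icc (θ₁ - Real.pi / 2) (Real.pi / 2), F q θ₁ c ≤ 4 - δ) :
    L ≤ 2 * Real.pi - θ₁ - δ := by
  obtain ⟨c, hc, hle⟩ := h.condensed h1 hA
  have h2 := hF c hc
  obtain ⟨s, hs, t, ht, hst, hamp⟩ := h.extremes
  have hA0 : 0 ≤ amp L θ := by
    rw [hamp]
    linarith [(hst s hs).2]
  have h3 := trig_bound hA0 hA
  obtain ⟨A, hAdef⟩ : ∃ A, A = amp L θ := ⟨_, rfl⟩
  rw [← hAdef] at hA hle h3 hamp hA0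
  have hk : 0 < Real.cos (A / 2) := Real.cos_pos_of_mem_Ioo ⟨by linarith [Real.pi_pos], by linarith⟩
  have hk1 : Real.cos (A / 2) ≤ 1 := Real.cos_le_one _
  by_contra hcon
  rw [not_le] at hcon
  have h4 : Real.cos (A / 2) * (L + θ₁ - 2 * Real.pi) ≤ -δ := by nlinarith
  have h5 : Real.cos (A / 2) * (-δ) < Real.cos (A / 2) * (L + θ₁ - 2 * Real.pi) :=
    mul_lt_mul_of_pos_left (by linarith) hk
  nlinarith

end

end Pool.Agent.V11198.Dub
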