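import Mathlib
import Pool.Agent.V11198.Dub2

/-!
# Curves of bounded curvature: existence of critical curves, and the main theorem
-/

namespace Pool.Agent.V11198.Dub

open Set Filter Topology MeasureTheory

noncomputable section

/-- paths of angles -/
def Pth (x y L : ℝ) (w : ℂ) (lo hi : ℝ) (V : Set ℝ) : Prop :=
  0 ≤ L ∧ ∃ θ : ℝ → ℝ, LipschitzWith 1 θ ∧ θ 0 = x ∧ θ L = y ∧ (∫ t in (0 : ℝ)..L, E (θ t)) = w ∧
    (∀ t ∈ Icc 0 L, θ t ∈ Icc lo hi) ∧ ∀ v ∈ V, ∃ t ∈ Icc 0 L, θ t = v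

lemma continuous_E : Continuous E := by
  unfold E
  fun_prop

lemma Pth.trans {x y z L L' : ℝ} {w w' : ℂ} {lo hi : ℝ} {V V' : Set ℝ}
    (h : Pth x y L w lo hi V) (h' : Pth y z L' w' lo hi V') :
    Pth x z (L + L') (w + w') lo hi (V ∪ V') := by
  obtain ⟨hL, θ, hlip, h0, h1, hw, hI, hV⟩ := h
  obtain ⟨hL', θ', hlip', h0', h1', hw', hI', hV'⟩ := h'
  refine ⟨add_nonneg hL hL', fun t => θ (min t L) + θ' (max (t - L) 0) - y, ?_, ?_, ?_, ?_, ?_, ?_⟩
  · apply LipschitzWith.of_dist_le_mul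
    intro s t
    rw [NNReal.coe_one, one_mul, Real.dist_eq, Real.dist_eq]
    have a1 := hlip.dist_le_mul (min s L) (min t L)
    have a2 := hlip'.dist_le_mul (max (s - L) 0) (max (t - L) 0)
    rw [NNReal.coe_one, one_mul, Real.dist_eq, Real.dist_eq] at a1 a2
    have a3 : |min s L - min t L| + |max (s - L) 0 - max (t - L) 0| ≤ |s - t| := by
      rcases le_total s L with hs | hs <;> rcases le_total t L with ht | ht
      · rw [min_eq_left hs, min_eq_left ht, max_eq_right (by linarith), max_eq_right (by linarith)]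
        simp
      · rw [min_eq_left hs, min_eq_right ht, max_eq_right (by linarith), max_eq_left (by linarith),
          abs_of_nonpos (by linarith), abs_of_nonpos (by linarith), abs_of_nonpos (by linarith)]
        linarith
      · rw [min_eq_right hs, min_eq_left ht, max_eq_left (by linarith), max_eq_right (by linarith),
          abs_of_nonneg (by linarith), abs_of_nonneg (by linarith), abs_of_nonneg (by linarith)]
        linarith
      · rw [min_eq_right hs, min_eq_right ht, max_eq_left (by linarith), max_eq_left (by linarith)]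
        simp
    have a4 : θ (min s L) + θ' (max (s - L) 0) - y - (θ (min t L) + θ' (max (t - L) 0) - y) =
        (θ (min s L) - θ (min t L)) + (θ' (max (s - L) 0) - θ' (max (t - L) 0)) := by ring
    rw [a4]
    exact (abs_add_le _ _).trans ((add_le_add a1 a2).trans a3)
  · simp only
    rw [min_eq_left hL, max_eq_right (by linarith), h0, h0']
    ring
  · simp only
    rw [min_eq_right (by linarith), max_eq_left (by linarith), add_sub_cancel_left, h1, h1']
    ring
  · have c1 : Continuous fun t => E (θ (min t L) + θ' (max (t - L) 0) - y) := by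
      have := hlip.continuous
      have := hlip'.continuous
      have := continuous_E
      fun_prop
    rw [← intervalIntegral.integral_add_adjacent_intervals (c1.intervalIntegrable 0 L)
      (c1.intervalIntegrable L (L + L'))]
    congr 1
    · rw [← hw]
      apply intervalIntegral.integral_congr
      intro t ht
      rw [uIcc_of_le hL] at ht
      simp only
      rw [min_eq_left ht.2, max_eq_right (by linarith [ht.2]), h0', add_sub_cancel_right]
    · have e1 : (∫ t in L..(L + L'), E (θ (min t L) + θ' (max (t - L) 0) - y)) =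
          ∫ t in L..(L + L'), E (θ' (t - L)) := by
        apply intervalIntegral.integral_congr
        intro t ht
        rw [uIcc_of_le (by linarith)] at ht
        simp only
        rw [min_eq_right ht.1, max_eq_left (by linarith [ht.1]), h1, add_sub_cancel_left]
      rw [e1, intervalIntegral.integral_comp_sub_right (fun t => E (θ' t)) L, sub_self,
        add_sub_cancel_left, hw']
  · intro t ht
    simp only
    rcases le_total t L with hle | hle
    · rw [min_eq_left hle, max_eq_right (by linarith), h0', add_sub_cancel_right]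
      exact hI t ⟨ht.1, hle⟩
    · rw [min_eq_right hle, max_eq_left (by linarith), h1, add_sub_cancel_left]
      exact hI' (t - L) ⟨by linarith, by linarith [ht.2]⟩
  · rintro v (hv | hv)
    · obtain ⟨t, ht, e⟩ := hV v hv
      refine ⟨t, ⟨ht.1, by linarith [ht.2]⟩, ?_⟩
      simp only
      rw [min_eq_left ht.2, max_eq_right (by linarith [ht.2]), h0', add_sub_cancel_right, e]
    · obtain ⟨t, ht, e⟩ := hV' v hv
      refine ⟨t + L, ⟨by linarith [ht.1], by linarith [ht.2]⟩, ?_⟩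
      simp only
      rw [min_eq_right (by linarith [ht.1]), max_eq_left (by linarith [ht.1]), h1,
        add_sub_cancel_right, add_sub_cancel_left, e]

lemma Pth.dwell (x : ℝ) {α : ℝ} (hα : 0 ≤ α) {lo hi : ℝ} (h1 : lo ≤ x) (h2 : x ≤ hi) :
    Pth x x α (α * E x) lo hi {x} := by
  refine ⟨hα, fun _ => x, (LipschitzWith.const x).weaken zero_le_one, rfl, rfl, ?_, fun _ _ =>
    ⟨h1, h2⟩, ?_⟩
  · rw [intervalIntegral.integral_const, sub_zero, Complex.real_smul]
  · rintro v rfl
    exact ⟨0, left_mem_Icc.2 hα, rfl⟩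

lemma Pth.up {x y : ℝ} (hxy : x ≤ y) {lo hi : ℝ} (h1 : lo ≤ x) (h2 : y ≤ hi) :
    Pth x y (y - x) (-Complex.I * (E y - E x)) lo hi {x, y} := by
  refine ⟨sub_nonneg.2 hxy, fun t => x + t, ?_, by simp, by simp, ?_, ?_, ?_⟩
  · apply LipschitzWith.of_dist_le_mul
    intro s t
    rw [NNReal.coe_one, one_mul, dist_add_left]
  · have hd : ∀ t ∈ uIcc 0 (y - x), HasDerivAt (fun t : ℝ => -Complex.I * E (x + t)) (E (x + t)) t := by
      intro t _
      have e1 : HasDerivAt (fun t : ℝ => (((x + t : ℝ) : ℂ) * Complex.I)) (1 * Complex.I) t := by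
        apply HasDerivAt.mul_const
        have := ((hasDerivAt_id t).const_add x).ofReal_comp
        simpa using this
      have e2 := e1.cexp.const_mul (-Complex.I)
      have e3 : -Complex.I * (Complex.exp (((x + t : ℝ) : ℂ) * Complex.I) * (1 * Complex.I)) =
          E (x + t) := by
        rw [E]
        linear_combination (-Complex.exp (((x + t : ℝ) : ℂ) * Complex.I)) * Complex.I_sq
      rw [e3] at e2
      exact e2
    rw [intervalIntegral.integral_eq_sub_of_hasDerivAt hd]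
    · simp only [add_zero]
      rw [add_sub_cancel]
      ring
    · apply Continuous.intervalIntegrable
      exact continuous_E.comp (by fun_prop)
  · intro t ht
    exact ⟨by linarith [ht.1], by linarith [ht.2]⟩
  · rintro v (rfl | rfl)
    · exact ⟨0, left_mem_Icc.2 (sub_nonneg.2 hxy), by simp⟩
    · exact ⟨_, right_mem_Icc.2 (sub_nonneg.2 hxy), by simp⟩

lemma Pth.down {x y : ℝ} (hxy : y ≤ x) {lo hi : ℝ} (h1 : lo ≤ y) (h2 : x ≤ hi) :
    Pth x y (x - y) (Complex.I * (E y - E x)) lo hi {x, y} := by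
  refine ⟨sub_nonneg.2 hxy, fun t => x - t, ?_, by simp, by simp, ?_, ?_, ?_⟩
  · apply LipschitzWith.of_dist_le_mul
    intro s t
    rw [NNReal.coe_one, one_mul, dist_sub_left]
  · have hd : ∀ t ∈ uIcc 0 (x - y), HasDerivAt (fun t : ℝ => Complex.I * E (x - t)) (E (x - t)) t := by
      intro t _
      have e1 : HasDerivAt (fun t : ℝ => (((x - t : ℝ) : ℂ) * Complex.I)) (-1 * Complex.I) t := by
        apply HasDerivAt.mul_const
        have := ((hasDerivAt_id t).const_sub x).ofReal_comp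
        simpa using this
      have e2 := e1.cexp.const_mul Complex.I
      have e3 : Complex.I * (Complex.exp (((x - t : ℝ) : ℂ) * Complex.I) * (-1 * Complex.I)) =
          E (x - t) := by
        rw [E]
        linear_combination (-Complex.exp (((x - t : ℝ) : ℂ) * Complex.I)) * Complex.I_sq
      rw [e3] at e2
      exact e2
    rw [intervalIntegral.integral_eq_sub_of_hasDerivAt hd]
    · simp only [sub_zero]
      rw [sub_sub_cancel]
      ring
    · apply Continuous.intervalIntegrable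
      exact continuous_E.comp (by fun_prop)
  · intro t ht
    exact ⟨by linarith [ht.2], by linarith [ht.1]⟩
  · rintro v (rfl | rfl)
    · exact ⟨0, left_mem_Icc.2 (sub_nonneg.2 hxy), by simp⟩
    · exact ⟨_, right_mem_Icc.2 (sub_nonneg.2 hxy), by simp⟩

lemma E_add_pi_div_two (ψ : ℝ) : E (ψ + Real.pi / 2) = Complex.I * E ψ := by
  rw [E, E]
  push_cast
  rw [add_mul, Complex.exp_add, Complex.exp_pi_div_two_mul_I]
  ring

lemma E_sub_pi_div_two (ψ : ℝ) : E (ψ - Real.pi / 2) = -Complex.I * E ψ := by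
  have h := E_add_pi_div_two (ψ - Real.pi / 2)
  rw [sub_add_cancel] at h
  rw [h]
  linear_combination (E (ψ - Real.pi / 2)) * Complex.I_sq

/-- existence of critical curves -/
lemma exists_critical {q : ℂ} {θ₁ ψ : ℝ} (h0 : 0 ≤ θ₁)
    (hψ : ψ ∈ Icc (θ₁ - Real.pi / 2) (Real.pi / 2)) (hF : 4 ≤ F q θ₁ ψ) :
    ∃ L γ θ, Cur q θ₁ L γ θ ∧ amp L θ = Real.pi := by
  have hpi := Real.pi_pos
  obtain ⟨hψ1, hψ2⟩ := hψ
  obtain ⟨z, hz⟩ : ∃ z : ℂ, z = (q + Complex.I * (1 - E θ₁)) * E (-ψ) - 4 := ⟨_, rfl⟩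
  have hEθ : E θ₁ = Real.cos θ₁ + Real.sin θ₁ * Complex.I := by
    rw [E, Complex.exp_mul_I]
    push_cast
    rfl
  have hEψ : E (-ψ) = Real.cos ψ - Real.sin ψ * Complex.I := by
    rw [E, Complex.exp_mul_I]
    push_cast
    rw [Complex.cos_neg, Complex.sin_neg]
    ring
  have hre : z.re = F q θ₁ ψ - 4 := by
    rw [hz, hEθ, hEψ, F]
    generalize Real.cos θ₁ = x
    generalize Real.sin θ₁ = y
    generalize Real.cos ψ = u
    generalize Real.sin ψ = v
    simp
  have hα : 0 ≤ z.re := by rw [hre]; linarith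
  have hcancel : E (-ψ) * E ψ = 1 := by
    rw [E, E, ← Complex.exp_add]
    push_cast
    rw [show -(ψ : ℂ) * Complex.I + ψ * Complex.I = 0 by ring, Complex.exp_zero]
  have hq : q = 4 * E ψ - Complex.I * (1 - E θ₁) + z * E ψ := by
    rw [hz]
    linear_combination (-(q + Complex.I * (1 - E θ₁))) * hcancel
  obtain ⟨a, ha⟩ : ∃ a, a = ψ + Real.pi / 2 := ⟨_, rfl⟩
  obtain ⟨b, hb⟩ : ∃ b, b = ψ - Real.pi / 2 := ⟨_, rfl⟩
  have P1 : Pth 0 b (0 - b) (Complex.I * (E b - E 0)) b a {0, b} :=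
    Pth.down (by linarith) le_rfl (by linarith)
  have P2 : Pth b b (max (-z.im) 0) (((max (-z.im) 0 : ℝ) : ℂ) * E b) b a {b} :=
    Pth.dwell b (le_max_right _ _) le_rfl (by linarith)
  have P3 : Pth b ψ (ψ - b) (-Complex.I * (E ψ - E b)) b a {b, ψ} :=
    Pth.up (by linarith) le_rfl (by linarith)
  have P4 : Pth ψ ψ z.re ((z.re : ℂ) * E ψ) b a {ψ} :=
    Pth.dwell ψ hα (by linarith) (by linarith)
  have P5 : Pth ψ a (a - ψ) (-Complex.I * (E a - E ψ)) b a {ψ, a} :=
    Pth.up (by linarith) (by linarith) le_rfl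
  have P6 : Pth a a (max z.im 0) (((max z.im 0 : ℝ) : ℂ) * E a) b a {a} :=
    Pth.dwell a (le_max_right _ _) (by linarith) le_rfl
  have P7 : Pth a θ₁ (a - θ₁) (Complex.I * (E θ₁ - E a)) b a {a, θ₁} :=
    Pth.down (by linarith) (by linarith) le_rfl
  have P := P1.trans (P2.trans (P3.trans (P4.trans (P5.trans (P6.trans P7)))))
  obtain ⟨hL, θ, hlip, e0, e1, hw, hI, hV⟩ := P
  obtain ⟨L, hLdef⟩ : ∃ L, L = 0 - b + (max (-z.im) 0 + (ψ - b + (z.re + (a - ψ +
    (max z.im 0 + (a - θ₁)))))) := ⟨_, rfl⟩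
  rw [← hLdef] at hL e1 hw hI hV
  have hLpos : 0 < L := by
    rw [hLdef]
    have := le_max_right (-z.im) 0
    have := le_max_right z.im 0
    linarith
  have hEc : Continuous fun t => E (θ t) := continuous_E.comp hlip.continuous
  refine ⟨L, fun t => ∫ r in (0 : ℝ)..t, E (θ r), θ, ⟨hLpos, ?_, ?_, hlip.continuous.continuousOn,
    by simp, e0, ?_, e1⟩, ?_⟩
  · intro t _
    exact (intervalIntegral.integral_hasDerivAt_right (hEc.intervalIntegrable _ _)
      (hEc.stronglyMeasurableAtFilter _ _) hEc.continuousAt).hasDerivWithinAt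
  · intro s _ t _
    refine (norm_E_sub_le _ _).trans ?_
    have := hlip.dist_le_mul s t
    rwa [NNReal.coe_one, one_mul, Real.dist_eq, Real.dist_eq] at this
  · rw [hw]
    have m1 : ((max z.im 0 : ℝ) : ℂ) - ((max (-z.im) 0 : ℝ) : ℂ) = (z.im : ℂ) := by
      rw [← Complex.ofReal_sub]
      congr 1
      rcases le_total z.im 0 with h | h
      · rw [max_eq_right h, max_eq_left (by linarith)]
        ring
      · rw [max_eq_left h, max_eq_right (by linarith)]
        ring
    have m2 : z = (z.re : ℂ) + (z.im : ℂ) * Complex.I := (Complex.re_add_im z).symm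
    have m3 : E 0 = 1 := by simp [E]
    rw [hq, m3, hb, ha, E_add_pi_div_two, E_sub_pi_div_two]
    linear_combination (-4 * E ψ) * Complex.I_sq + (Complex.I * E ψ) * m1 - (E ψ) * m2
  · have g1 : IsLeast (θ '' Icc 0 L) b := by
      refine ⟨?_, ?_⟩
      · obtain ⟨t, ht, e⟩ := hV b (by simp)
        exact ⟨t, ht, e⟩
      · rintro _ ⟨r, hr, rfl⟩
        exact (hI r hr).1
    have g2 : IsGreatest (θ '' Icc 0 L) a := by
      refine ⟨?_, ?_⟩
      · obtain ⟨t, ht, e⟩ := hV a (by simp)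
        exact ⟨t, ht, e⟩
      · rintro _ ⟨r, hr, rfl⟩
        exact (hI r hr).2
    rw [amp, g1.csInf_eq, g2.csSup_eq, ha, hb]
    ring

/-- the theorem for nonnegative total turning -/
theorem core {q : ℂ} {θ₁ : ℝ} (h0 : 0 ≤ θ₁)
    (hno : ¬ ∃ L γ θ, Cur q θ₁ L γ θ ∧ amp L θ = Real.pi) :
    ∃ a : ℝ, a < 2 * Real.pi - |θ₁| ∧
      (∀ L γ θ, Cur q θ₁ L γ θ → amp L θ < Real.pi → L ≤ a) ∧
      (∀ L γ θ, Cur q θ₁ L γ θ → Real.pi < amp L θ → 2 * Real.pi - |θ₁| ≤ L) := by
  have hpi := Real.pi_pos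
  have hdiff : ∀ L γ θ, Cur q θ₁ L γ θ → Real.pi < amp L θ → 2 * Real.pi - |θ₁| ≤ L := by
    intro L γ θ h hA
    have := h.length_ge
    linarith
  by_cases hle : Real.pi < θ₁
  · refine ⟨2 * Real.pi - |θ₁| - 1, by linarith, ?_, hdiff⟩
    intro L γ θ h hA
    exfalso
    obtain ⟨s, hs, t, ht, hst, hamp⟩ := h.extremes
    have a1 := (hst 0 (left_mem_Icc.2 h.pos.le)).1
    have a2 := (hst L (right_mem_Icc.2 h.pos.le)).2
    rw [h.θ0] at a1
    rw [h.θL] at a2
    linarith
  · rw [not_lt] at hle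
    have hne : (Icc (θ₁ - Real.pi / 2) (Real.pi / 2)).Nonempty := nonempty_Icc.2 (by linarith)
    have hFc : Continuous (F q θ₁) := by
      unfold F
      fun_prop
    obtain ⟨ψ, hψ, hmax⟩ := isCompact_Icc.exists_isMaxOn hne hFc.continuousOn
    have hlt : F q θ₁ ψ < 4 := by
      by_contra hcon
      exact hno (exists_critical h0 hψ (not_lt.1 hcon))
    refine ⟨2 * Real.pi - θ₁ - (4 - F q θ₁ ψ), ?_, ?_, hdiff⟩
    · rw [abs_of_nonneg h0]
      linarith
    · intro L γ θ h hA
      apply h.length_le h0 hA (by linarith)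
      intro c hc
      have : F q θ₁ c ≤ F q θ₁ ψ := hmax hc
      linarith

/-- reflection -/
lemma Cur.conj {q : ℂ} {θ₁ L : ℝ} {γ : ℝ → ℂ} {θ : ℝ → ℝ} (h : Cur q θ₁ L γ θ) :
    Cur (starRingEnd ℂ q) (-θ₁) L (fun t => starRingEnd ℂ (γ t)) (fun t => -θ t) := by
  have hE : ∀ x : ℝ, E (-x) = starRingEnd ℂ (E x) := by
    intro x
    rw [E, E, ← Complex.exp_conj, map_mul, Complex.conj_I, Complex.conj_ofReal]
    congr 1
    push_cast
    ring
  refine ⟨h.pos, ?_, ?_, h.cont.neg, ?_, ?_, ?_, ?_⟩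
  · intro t ht
    rw [hE]
    exact (h.deriv t ht).star
  · intro s hs t ht
    rw [hE, hE, ← map_sub, Complex.norm_conj]
    exact h.chord s hs t ht
  · simp only [h.γ0, map_zero]
  · simp only [h.θ0, neg_zero]
  · simp only [h.γL]
  · simp only [h.θL]

lemma Cur.amp_neg {q : ℂ} {θ₁ L : ℝ} {γ : ℝ → ℂ} {θ : ℝ → ℝ} (h : Cur q θ₁ L γ θ) :
    amp L (fun t => -θ t) = amp L θ := by
  obtain ⟨s, hs, t, ht, hst, hamp⟩ := h.extremes
  have g1 : IsLeast ((fun t => -θ t) '' Icc 0 L) (-θ t) := by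
    refine ⟨⟨t, ht, rfl⟩, ?_⟩
    rintro _ ⟨r, hr, rfl⟩
    exact neg_le_neg (hst r hr).2
  have g2 : IsGreatest ((fun t => -θ t) '' Icc 0 L) (-θ s) := by
    refine ⟨⟨s, hs, rfl⟩, ?_⟩
    rintro _ ⟨r, hr, rfl⟩
    exact neg_le_neg (hst r hr).1
  rw [hamp, amp, g1.csInf_eq, g2.csSup_eq]
  ring

theorem main {q : ℂ} {θ₁ : ℝ}
    (hno : ¬ ∃ L γ θ, Cur q θ₁ L γ θ ∧ amp L θ = Real.pi) :
    ∃ a : ℝ, a < 2 * Real.pi - |θ₁| ∧
      (∀ L γ θ, Cur q θ₁ L γ θ → amp L θ < Real.pi → L ≤ a) ∧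
      (∀ L γ θ, Cur q θ₁ L γ θ → Real.pi < amp L θ → 2 * Real.pi - |θ₁| ≤ L) := by
  rcases le_total 0 θ₁ with h0 | h0
  · exact core h0 hno
  · have hno' : ¬ ∃ L γ θ, Cur (starRingEnd ℂ q) (-θ₁) L γ θ ∧ amp L θ = Real.pi := by
      rintro ⟨L, γ, θ, h, hA⟩
      apply hno
      have h' := h.conj
      rw [Complex.conj_conj, neg_neg] at h'
      exact ⟨L, _, _, h', by rw [h.amp_neg, hA]⟩
    obtain ⟨a, hab, h1, h2⟩ := core (neg_nonneg.2 h0) hno'
    rw [abs_neg] at hab h2
    refine ⟨a, hab, ?_, ?_⟩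
    · intro L γ θ h hA
      exact h1 L _ _ h.conj (by rw [h.amp_neg]; exact hA)
    · intro L γ θ h hA
      exact h2 L _ _ h.conj (by rw [h.amp_neg]; exact hA)

end

end Pool.Agent.V11198.Dub
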