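import Mathlib

/-!
# Planar coordinates adapted to the hexagonal lattice, and some measure lemmas
-/

namespace Pool.Agent.V11198.Hex

open MeasureTheory Set Metric
open scoped ENNReal NNReal

noncomputable section

abbrev Plane : Type := EuclideanSpace ℝ (Fin 2)

/-- the three coordinates, whose sum is zero -/
def co (i : Fin 3) (p : Plane) : ℝ :=
  match i with
  | 0 => 2 * p 0
  | 1 => √3 * p 1 - p 0
  | 2 => - p 0 - √3 * p 1

/-- the point with the first two coordinates given -/
def pt (x y : ℝ) : Plane := !₂[x / 2, (y + x / 2) / √3]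

lemma sqrt3_pos : (0 : ℝ) < √3 := Real.sqrt_pos.2 (by norm_num)
lemma sqrt3_sq : (√3 : ℝ) ^ 2 = 3 := Real.sq_sqrt (by norm_num)
lemma sqrt3_mul : (√3 : ℝ) * √3 = 3 := Real.mul_self_sqrt (by norm_num)

@[simp] lemma co_pt_zero (x y : ℝ) : co 0 (pt x y) = x := by
  simp [co, pt]
  ring

@[simp] lemma co_pt_one (x y : ℝ) : co 1 (pt x y) = y := by
  have := sqrt3_pos.ne'
  simp [co, pt]
  field_simp
  ring

@[simp] lemma co_pt_two (x y : ℝ) : co 2 (pt x y) = - x - y := by
  have := sqrt3_pos.ne'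
  simp [co, pt]
  field_simp
  ring

lemma co_sum (p : Plane) : co 0 p + co 1 p + co 2 p = 0 := by
  simp only [co]
  ring

lemma co_add (i : Fin 3) (p q : Plane) : co i (p + q) = co i p + co i q := by
  fin_cases i <;> simp [co] <;> ring

lemma co_sub (i : Fin 3) (p q : Plane) : co i (p - q) = co i p - co i q := by
  fin_cases i <;> simp [co] <;> ring

lemma co_neg (i : Fin 3) (p : Plane) : co i (-p) = - co i p := by
  fin_cases i <;> simp [co] <;> ring

lemma co_smul (i : Fin 3) (r : ℝ) (p : Plane) : co i (r • p) = r * co i p := by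
  fin_cases i <;> simp [co] <;> ring

lemma continuous_co (i : Fin 3) : Continuous (co i) := by
  have h0 : Continuous fun p : Plane => p 0 := by fun_prop
  have h1 : Continuous fun p : Plane => p 1 := by fun_prop
  fin_cases i
  · exact continuous_const.mul h0
  · exact (continuous_const.mul h1).sub h0
  · exact h0.neg.sub (continuous_const.mul h1)

lemma norm_sq (p : Plane) : ‖p‖ ^ 2 = (co 0 p ^ 2 + co 1 p ^ 2 + co 2 p ^ 2) / 6 := by
  rw [EuclideanSpace.norm_sq_eq, Fin.sum_univ_two]
  simp only [co, Real.norm_eq_abs, sq_abs]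
  linear_combination (-(p 1) ^ 2 / 3) * sqrt3_sq

lemma eq_zero_of_co {p : Plane} (h0 : co 0 p = 0) (h1 : co 1 p = 0) : p = 0 := by
  have h2 : co 2 p = 0 := by linarith [co_sum p]
  have := norm_sq p
  rw [h0, h1, h2] at this
  norm_num at this
  exact this

lemma dist_le_of {p q : Plane} {K : ℝ} (hK : 0 ≤ K)
    (h : (co 0 p - co 0 q) ^ 2 + (co 1 p - co 1 q) ^ 2 + (co 2 p - co 2 q) ^ 2 ≤ 6 * K ^ 2) :
    dist p q ≤ K := by
  rw [dist_eq_norm]
  apply le_of_sq_le_sq _ hK
  rw [norm_sq, co_sub, co_sub, co_sub]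
  linarith

lemma le_dist_of {p q : Plane} {K : ℝ}
    (h : 6 * K ^ 2 ≤ (co 0 p - co 0 q) ^ 2 + (co 1 p - co 1 q) ^ 2 + (co 2 p - co 2 q) ^ 2) :
    K ≤ dist p q := by
  rw [dist_eq_norm]
  apply le_of_sq_le_sq _ (norm_nonneg _)
  rw [norm_sq, co_sub, co_sub, co_sub]
  linarith

/-- bound for the length of a set parametrised by a function -/
lemma length_le {S : Set Plane} {g : Plane → ℝ} {K : ℝ≥0} {β γ : ℝ}
    (h : ∀ p ∈ S, ∀ q ∈ S, dist p q ≤ K * dist (g p) (g q)) (hS : ∀ p ∈ S, g p ∈ Icc β γ) :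
    μH[1] S ≤ ENNReal.ofReal (K * (γ - β)) := by
  have hinj : InjOn g S := by
    intro p hp q hq hpq
    have := h p hp q hq
    rw [hpq, dist_self, mul_zero] at this
    exact dist_le_zero.1 this
  have hS' : S = Function.invFunOn g S '' (g '' S) := by
    ext p
    constructor
    · intro hp
      exact ⟨g p, mem_image_of_mem g hp, hinj.leftInvOn_invFunOn hp⟩
    · rintro ⟨_, ⟨q, hq, rfl⟩, rfl⟩
      exact Function.invFunOn_mem ⟨q, hq, rfl⟩
  have hl : LipschitzOnWith K (Function.invFunOn g S) (g '' S) := by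
    rw [lipschitzOnWith_iff_dist_le_mul]
    rintro _ ⟨p, hp, rfl⟩ _ ⟨q, hq, rfl⟩
    rw [hinj.leftInvOn_invFunOn hp, hinj.leftInvOn_invFunOn hq]
    exact h p hp q hq
  have h1 := hl.hausdorffMeasure_image_le (zero_le_one' ℝ)
  rw [← hS', ENNReal.rpow_one] at h1
  refine h1.trans ?_
  rw [hausdorffMeasure_real]
  have h2 : volume (g '' S) ≤ volume (Icc β γ) := measure_mono (by
    rintro _ ⟨p, hp, rfl⟩
    exact hS p hp)
  rw [Real.volume_Icc] at h2
  rw [ENNReal.ofReal_mul K.coe_nonneg]
  refine mul_le_mul' ?_ h2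
  rw [ENNReal.ofReal_coe_nnreal]

/-- segments on which a coordinate is constant -/
lemma length_const {S : Set Plane} {i j k : Fin 3} (hs : ∀ p, co i p + co j p + co k p = 0)
    (hn : ∀ p : Plane, ‖p‖ ^ 2 = (co i p ^ 2 + co j p ^ 2 + co k p ^ 2) / 6) {α β γ : ℝ}
    (h : ∀ p ∈ S, co i p = α ∧ co j p ∈ Icc β γ) :
    μH[1] S ≤ ENNReal.ofReal ((γ - β) / √3) := by
  have h3 := sqrt3_pos
  have h1 := length_le (S := S) (g := co j) (K := (1 / √3).toNNReal) (β := β) (γ := γ) ?_
    (fun p hp => (h p hp).2)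
  · convert h1 using 2
    rw [Real.coe_toNNReal _ (by positivity)]
    ring
  · intro p hp q hq
    rw [dist_eq_norm, Real.dist_eq, Real.coe_toNNReal _ (by positivity)]
    apply le_of_sq_le_sq _ (by positivity)
    have e1 : co i (p - q) = 0 := by rw [co_sub, (h p hp).1, (h q hq).1, sub_self]
    have e2 : co k (p - q) = - co j (p - q) := by
      have := hs (p - q)
      rw [e1] at this
      linarith
    rw [hn, e1, e2, mul_pow, sq_abs, div_pow, one_pow, sqrt3_sq, ← co_sub]
    apply le_of_eq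
    ring

/-- segments on which a difference of coordinates is constant -/
lemma length_cut {S : Set Plane} {i j k : Fin 3} (hs : ∀ p, co i p + co j p + co k p = 0)
    (hn : ∀ p : Plane, ‖p‖ ^ 2 = (co i p ^ 2 + co j p ^ 2 + co k p ^ 2) / 6) {α β γ : ℝ}
    (h : ∀ p ∈ S, co i p - co j p = α ∧ co i p ∈ Icc β γ) :
    μH[1] S ≤ ENNReal.ofReal (γ - β) := by
  have h1 := length_le (S := S) (g := co i) (K := 1) (β := β) (γ := γ) ?_
    (fun p hp => (h p hp).2)
  · simpa using h1
  · intro p hp q hq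
    rw [dist_eq_norm, Real.dist_eq]
    simp only [NNReal.coe_one, one_mul]
    apply le_of_sq_le_sq _ (by positivity)
    have e1 : co j (p - q) = co i (p - q) := by
      rw [co_sub, co_sub]
      linarith [(h p hp).1, (h q hq).1]
    have e2 : co k (p - q) = - 2 * co i (p - q) := by
      have := hs (p - q)
      rw [e1] at this
      linarith
    rw [hn, e1, e2, sq_abs, ← co_sub]
    apply le_of_eq
    ring

/-! ### Areas -/

/-- rectangles in the plane -/
lemma volume_rect (I J : Set ℝ) (hI : MeasurableSet I) (hJ : MeasurableSet J) :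
    volume {q : Plane | q 0 ∈ I ∧ q 1 ∈ J} = volume I * volume J := by
  have h1 : {q : Plane | q 0 ∈ I ∧ q 1 ∈ J} =
      (@WithLp.ofLp 2 (Fin 2 → ℝ)) ⁻¹' (Set.pi univ ![I, J]) := by
    ext q
    simp [Fin.forall_fin_two]
  have hm : MeasurableSet (Set.pi univ ![I, J]) := by
    apply MeasurableSet.univ_pi
    intro i
    fin_cases i
    · exact hI
    · exact hJ
  rw [h1, (PiLp.volume_preserving_ofLp (Fin 2)).measure_preimage hm.nullMeasurableSet, volume_pi,
    Measure.pi_pi, Fin.prod_univ_two]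
  rfl

/-- the coefficients of the coordinates -/
def row (i : Fin 3) : Fin 2 → ℝ :=
  match i with
  | 0 => ![2, 0]
  | 1 => ![-1, √3]
  | 2 => ![-1, -√3]

lemma co_eq_row (i : Fin 3) (p : Plane) : co i p = row i 0 * p 0 + row i 1 * p 1 := by
  fin_cases i <;> simp [co, row] <;> ring

lemma area_co {i j : Fin 3} (hij : i ≠ j) {I J : Set ℝ} (hI : MeasurableSet I)
    (hJ : MeasurableSet J) :
    volume {p : Plane | co i p ∈ I ∧ co j p ∈ J} =
      ENNReal.ofReal (2 * √3)⁻¹ * (volume I * volume J) := by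
  let M : Matrix (Fin 2) (Fin 2) ℝ := Matrix.of ![row i, row j]
  have hdet : |M.det| = 2 * √3 := by
    have h3 := sqrt3_pos
    rw [Matrix.det_fin_two]
    have e1 : √3 + √3 = 2 * √3 := by ring
    have e2 : |√3 + √3| = 2 * √3 := by rw [e1]; exact abs_of_pos (by positivity)
    have e3 : |√3| * 2 = 2 * √3 := by rw [abs_of_pos h3]; ring
    have e4 : |-√3 - √3| = 2 * √3 := by
      rw [show -√3 - √3 = -(√3 + √3) by ring, abs_neg, e2]
    fin_cases i <;> fin_cases j <;> simp [M, row] at hij ⊢ <;>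
      first | exact e2 | exact e3 | exact e4
  have hne : LinearMap.det (M.toLpLin 2 2) ≠ 0 := by
    rw [LinearMap.det_toLpLin]
    intro h
    rw [h, abs_zero] at hdet
    have := sqrt3_pos
    linarith
  have hset : {p : Plane | co i p ∈ I ∧ co j p ∈ J} =
      (M.toLpLin 2 2) ⁻¹' {q : Plane | q 0 ∈ I ∧ q 1 ∈ J} := by
    ext p
    have e0 : (M.toLpLin 2 2 p) 0 = co i p := by
      rw [co_eq_row]
      simp [M, Matrix.toLpLin_apply, Matrix.mulVec, dotProduct, Fin.sum_univ_two]
    have e1 : (M.toLpLin 2 2 p) 1 = co j p := by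
      rw [co_eq_row]
      simp [M, Matrix.toLpLin_apply, Matrix.mulVec, dotProduct, Fin.sum_univ_two]
    simp only [mem_ofPred_eq, mem_preimage, e0, e1]
  rw [hset, Measure.addHaar_preimage_linearMap _ hne, LinearMap.det_toLpLin, abs_inv, hdet,
    volume_rect I J hI hJ]

/-! ### Discs -/

/-- A set given by a positive, homogeneous, continuous function is a topological disc. -/
lemma disc_of_homogeneous (N : Plane → ℝ) (hc : Continuous N)
    (hh : ∀ (r : ℝ) (p : Plane), 0 ≤ r → N (r • p) = r * N p) (hp : ∀ p, p ≠ 0 → 0 < N p) :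
    Nonempty ({p : Plane | N p ≤ 1} ≃ₜ closedBall (0 : Plane) 1) := by
  have h0 : N 0 = 0 := by
    have := hh 0 0 le_rfl
    simpa using this
  -- a lower bound
  obtain ⟨m, hm, hmN⟩ : ∃ m : ℝ, 0 < m ∧ ∀ p, m * ‖p‖ ≤ N p := by
    have hK : IsCompact (sphere (0 : Plane) 1) := isCompact_sphere _ _
    have hne : (sphere (0 : Plane) 1).Nonempty := NormedSpace.sphere_nonempty.2 zero_le_one
    obtain ⟨q, hq, hmin⟩ := hK.exists_isMinOn hne hc.continuousOn
    have hq0 : q ≠ 0 := by
      rintro rfl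
      simp at hq
    refine ⟨N q, hp q hq0, fun p => ?_⟩
    by_cases hp0 : p = 0
    · rw [hp0, norm_zero, mul_zero, h0]
    · have hn : 0 < ‖p‖ := norm_pos_iff.2 hp0
      have h1 : N q ≤ N (‖p‖⁻¹ • p) := hmin (by
        rw [mem_sphere_zero_iff_norm, norm_smul, norm_inv, norm_norm, inv_mul_cancel₀ hn.ne'])
      rw [hh _ _ (by positivity)] at h1
      rw [inv_mul_eq_div, le_div_iff₀ hn] at h1
      exact h1
  have hnn : ∀ p, 0 ≤ N p := fun p => (by positivity : (0 : ℝ) ≤ m * ‖p‖).trans (hmN p)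
  let f : Plane → Plane := fun p => (N p / ‖p‖) • p
  let g : Plane → Plane := fun q => (‖q‖ / N q) • q
  have hnf : ∀ p, ‖f p‖ = N p := by
    intro p
    simp only [f]
    rw [norm_smul, Real.norm_eq_abs, abs_of_nonneg (div_nonneg (hnn p) (norm_nonneg p))]
    by_cases hp0 : p = 0
    · rw [hp0, norm_zero, mul_zero, h0]
    · have hn : 0 < ‖p‖ := norm_pos_iff.2 hp0
      field_simp
  have hng : ∀ q, ‖g q‖ ≤ m⁻¹ * ‖q‖ := by
    intro q
    simp only [g]
    rw [norm_smul, Real.norm_eq_abs, abs_of_nonneg (div_nonneg (norm_nonneg q) (hnn q))]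
    by_cases hq0 : q = 0
    · rw [hq0]
      simp
    · have hn : 0 < ‖q‖ := norm_pos_iff.2 hq0
      have hN : 0 < N q := hp q hq0
      rw [inv_mul_eq_div, le_div_iff₀ hm, div_mul_eq_mul_div, div_mul_eq_mul_div, div_le_iff₀ hN]
      nlinarith [hmN q]
  have hfc : Continuous f := by
    rw [continuous_iff_continuousAt]
    intro p
    by_cases hp0 : p = 0
    · rw [hp0]
      have hf0 : f 0 = 0 := by simp [f]
      rw [ContinuousAt, hf0, tendsto_zero_iff_norm_tendsto_zero]
      simp only [hnf]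
      rw [← h0]
      exact hc.continuousAt
    · have hn : ‖p‖ ≠ 0 := norm_ne_zero_iff.2 hp0
      exact (hc.continuousAt.div continuous_norm.continuousAt hn).smul continuousAt_id
  have hgc : Continuous g := by
    rw [continuous_iff_continuousAt]
    intro q
    by_cases hq0 : q = 0
    · rw [hq0]
      have hg0 : g 0 = 0 := by simp [g]
      rw [ContinuousAt, hg0, tendsto_zero_iff_norm_tendsto_zero]
      have h1 : Filter.Tendsto (fun q : Plane => m⁻¹ * ‖q‖) (nhds 0) (nhds 0) := by
        have : Continuous fun q : Plane => m⁻¹ * ‖q‖ := continuous_const.mul continuous_norm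
        have := this.tendsto 0
        simpa using this
      exact squeeze_zero (fun q => norm_nonneg _) hng h1
    · have hN : N q ≠ 0 := (hp q hq0).ne'
      exact (continuous_norm.continuousAt.div hc.continuousAt hN).smul continuousAt_id
  have hfg : ∀ q, f (g q) = q := by
    intro q
    by_cases hq0 : q = 0
    · rw [hq0]
      simp [f, g]
    · have hn : 0 < ‖q‖ := norm_pos_iff.2 hq0
      have hN : 0 < N q := hp q hq0
      simp only [f, g]
      rw [hh _ _ (by positivity), norm_smul, Real.norm_eq_abs, abs_of_pos (by positivity),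
        smul_smul]
      have : ‖q‖ / N q * N q / (‖q‖ / N q * ‖q‖) * (‖q‖ / N q) = 1 := by field_simp
      rw [this, one_smul]
  have hgf : ∀ p, g (f p) = p := by
    intro p
    by_cases hp0 : p = 0
    · rw [hp0]
      simp [f, g]
    · have hn : 0 < ‖p‖ := norm_pos_iff.2 hp0
      have hN : 0 < N p := hp p hp0
      simp only [g, hnf]
      simp only [f]
      rw [hh _ _ (by positivity), smul_smul]
      have : N p / (N p / ‖p‖ * N p) * (N p / ‖p‖) = 1 := by field_simp
      rw [this, one_smul]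
  let e : Plane ≃ₜ Plane :=
    { toFun := f
      invFun := g
      left_inv := hgf
      right_inv := hfg
      continuous_toFun := hfc
      continuous_invFun := hgc }
  refine ⟨e.subtype fun p => ?_⟩
  rw [mem_closedBall_zero_iff]
  change N p ≤ 1 ↔ ‖f p‖ ≤ 1
  rw [hnf]

end

end Pool.Agent.V11198.Hex
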