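import Mathlib
import Pool.Agent.V11198.Hex1

/-!
# The two tiles
-/

namespace Pool.Agent.V11198.Hex

open MeasureTheory Set Metric
open scoped ENNReal NNReal

noncomputable section

/-- the big tile -/
def big : Set Plane := {p | (∀ i, |co i p| ≤ 200) ∧
  ∀ i j, i ≠ j → co i p ≤ 195 ∨ co i p - co j p ≤ 391 ∨ -195 ≤ co j p}

/-- the small tile -/
def small : Set Plane := {p | ∀ i, |co i p| ≤ 5 ∧ co i p - co (i + 1) p ≤ 9}

/-- dents -/
def dd (i j : Fin 3) (p : Plane) : ℝ :=
  min (co i p / 195) (min ((co i p - co j p) / 391) (-co j p / 195))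

lemma dd_smul (i j : Fin 3) {r : ℝ} (hr : 0 ≤ r) (p : Plane) : dd i j (r • p) = r * dd i j p := by
  simp only [dd, co_smul]
  rw [mul_min_of_nonneg _ _ hr, mul_min_of_nonneg _ _ hr]
  congr 1
  · ring
  · congr 1 <;> ring

lemma continuous_dd (i j : Fin 3) : Continuous (dd i j) := by
  have := continuous_co i
  have := continuous_co j
  unfold dd
  fun_prop

lemma dd_le_one {i j : Fin 3} {p : Plane} : dd i j p ≤ 1 ↔
    (co i p ≤ 195 ∨ co i p - co j p ≤ 391 ∨ -195 ≤ co j p) := by
  simp only [dd, min_le_iff]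
  rw [div_le_one (by norm_num), div_le_one (by norm_num), div_le_one (by norm_num)]
  constructor
  · rintro (h | h | h)
    · exact Or.inl h
    · exact Or.inr (Or.inl h)
    · exact Or.inr (Or.inr (by linarith))
  · rintro (h | h | h)
    · exact Or.inl h
    · exact Or.inr (Or.inl h)
    · exact Or.inr (Or.inr (by linarith))

lemma one_le_dd {i j : Fin 3} {p : Plane} : 1 ≤ dd i j p ↔
    (195 ≤ co i p ∧ 391 ≤ co i p - co j p ∧ co j p ≤ -195) := by
  simp only [dd, le_min_iff]
  rw [le_div_iff₀ (by norm_num), le_div_iff₀ (by norm_num), le_div_iff₀ (by norm_num)]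
  constructor
  · rintro ⟨h1, h2, h3⟩
    exact ⟨by linarith, by linarith, by linarith⟩
  · rintro ⟨h1, h2, h3⟩
    exact ⟨by linarith, by linarith, by linarith⟩

/-- the function defining the big tile -/
def NB (p : Plane) : ℝ :=
  max (max (|co 0 p| / 200) (max (|co 1 p| / 200) (|co 2 p| / 200)))
    (max (max (dd 0 1 p) (max (dd 0 2 p) (dd 1 0 p)))
      (max (dd 1 2 p) (max (dd 2 0 p) (dd 2 1 p))))

lemma continuous_NB : Continuous NB := by
  have := continuous_co 0
  have := continuous_co 1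
  have := continuous_co 2
  have := continuous_dd 0 1
  have := continuous_dd 0 2
  have := continuous_dd 1 0
  have := continuous_dd 1 2
  have := continuous_dd 2 0
  have := continuous_dd 2 1
  unfold NB
  fun_prop

lemma NB_smul (r : ℝ) (p : Plane) (hr : 0 ≤ r) : NB (r • p) = r * NB p := by
  simp only [NB, dd_smul _ _ hr, co_smul, abs_mul, abs_of_nonneg hr, mul_div_assoc,
    ← mul_max_of_nonneg _ _ hr]

lemma NB_pos (p : Plane) (hp : p ≠ 0) : 0 < NB p := by
  have : ¬ (|co 0 p| / 200 ≤ 0 ∧ |co 1 p| / 200 ≤ 0) := by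
    rintro ⟨h0, h1⟩
    apply hp
    have e0 : |co 0 p| ≤ 0 := by linarith
    have e1 : |co 1 p| ≤ 0 := by linarith
    exact eq_zero_of_co (abs_nonpos_iff.1 e0) (abs_nonpos_iff.1 e1)
  by_contra hle
  rw [not_lt] at hle
  simp only [NB, max_le_iff] at hle
  exact this ⟨hle.1.1, hle.1.2.1⟩

lemma big_eq : big = {p | NB p ≤ 1} := by
  have h200 : (0 : ℝ) < 200 := by norm_num
  ext p
  simp only [big, NB, mem_ofPred_eq, max_le_iff, dd_le_one, div_le_one h200]
  constructor
  · rintro ⟨h, h'⟩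
    exact ⟨⟨h 0, h 1, h 2⟩, ⟨h' 0 1 (by decide), h' 0 2 (by decide), h' 1 0 (by decide)⟩,
      h' 1 2 (by decide), h' 2 0 (by decide), h' 2 1 (by decide)⟩
  · rintro ⟨⟨a, b, c⟩, ⟨d1, d2, d3⟩, d4, d5, d6⟩
    refine ⟨?_, ?_⟩
    · intro i
      fin_cases i
      · exact a
      · exact b
      · exact c
    · intro i j hij
      fin_cases i <;> fin_cases j <;> first | exact absurd rfl hij | assumption

/-- the coordinates in any order -/
lemma co_sum' (i : Fin 3) (p : Plane) : co i p + co (i + 1) p + co (i + 2) p = 0 := by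
  have h := co_sum p
  fin_cases i
  · exact h
  · change co 1 p + co 2 p + co 0 p = 0
    linarith
  · change co 2 p + co 0 p + co 1 p = 0
    linarith

lemma co_sum'' (i : Fin 3) (p : Plane) : co i p + co (i + 2) p + co (i + 1) p = 0 := by
  linarith [co_sum' i p]

lemma norm_sq' (i : Fin 3) (p : Plane) :
    ‖p‖ ^ 2 = (co i p ^ 2 + co (i + 1) p ^ 2 + co (i + 2) p ^ 2) / 6 := by
  have h := norm_sq p
  fin_cases i
  · exact h
  · change _ = (co 1 p ^ 2 + co 2 p ^ 2 + co 0 p ^ 2) / 6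
    linarith
  · change _ = (co 2 p ^ 2 + co 0 p ^ 2 + co 1 p ^ 2) / 6
    linarith

lemma norm_sq'' (i : Fin 3) (p : Plane) :
    ‖p‖ ^ 2 = (co i p ^ 2 + co (i + 2) p ^ 2 + co (i + 1) p ^ 2) / 6 := by
  linarith [norm_sq' i p]

lemma ne_iff (i : Fin 3) (j : Fin 3) : i ≠ j ↔ j = i + 1 ∨ j = i + 2 := by
  fin_cases i <;> fin_cases j <;> decide

lemma i_ne1 (i : Fin 3) : i ≠ i + 1 := by fin_cases i <;> decide
lemma i_ne2 (i : Fin 3) : i ≠ i + 2 := by fin_cases i <;> decide

/-! ### Boundary of the big tile -/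

lemma frontier_big : frontier big ⊆ ⋃ i : Fin 3,
    (({p | co i p = 200 ∧ co (i + 1) p ∈ Icc (-195) (-5)} ∪
      {p | co i p = -200 ∧ co (i + 1) p ∈ Icc 5 195}) ∪
    (({p | co i p = 195 ∧ co (i + 1) p ∈ Icc (-200) (-196)} ∪
      {p | co (i + 1) p = -195 ∧ co i p ∈ Icc 196 200}) ∪
      {p | co i p - co (i + 1) p = 391 ∧ co i p ∈ Icc 195 196})) ∪
    (({p | co i p = 195 ∧ co (i + 2) p ∈ Icc (-200) (-196)} ∪
      {p | co (i + 2) p = -195 ∧ co i p ∈ Icc 196 200}) ∪
      {p | co i p - co (i + 2) p = 391 ∧ co i p ∈ Icc 195 196}) := by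
  intro p hp
  have h1 : NB p = 1 := by
    rw [big_eq] at hp
    exact frontier_le_subset_eq continuous_NB continuous_const hp
  have hb : p ∈ big := by
    rw [big_eq]
    exact h1.le
  obtain ⟨hb1, hb2⟩ := hb
  have key : (∃ i, |co i p| = 200) ∨ ∃ i j, i ≠ j ∧ 1 ≤ dd i j p := by
    by_contra hno
    rw [not_or] at hno
    obtain ⟨hn1, hn2⟩ := hno
    push Not at hn1 hn2
    have hlt : ∀ i, |co i p| / 200 < 1 := by
      intro i
      rw [div_lt_one (by norm_num)]
      exact lt_of_le_of_ne (hb1 i) (hn1 i)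
    have : NB p < 1 := by
      simp only [NB, max_lt_iff]
      exact ⟨⟨hlt 0, hlt 1, hlt 2⟩, ⟨hn2 0 1 (by decide), hn2 0 2 (by decide), hn2 1 0 (by decide)⟩,
        hn2 1 2 (by decide), hn2 2 0 (by decide), hn2 2 1 (by decide)⟩
    exact this.ne h1
  have habs : ∀ i, -200 ≤ co i p ∧ co i p ≤ 200 := fun i => abs_le.1 (hb1 i)
  rcases key with ⟨i, hi⟩ | ⟨i, j, hij, hd⟩
  · rw [mem_iUnion]
    refine ⟨i, Or.inl (Or.inl ?_)⟩
    have hs := co_sum' i p
    rcases eq_or_eq_neg_of_abs_eq hi with h | h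
    · left
      have b1 := hb2 i (i + 1) (i_ne1 i)
      have b2 := hb2 i (i + 2) (i_ne2 i)
      rw [h] at b1 b2 hs
      refine ⟨h, ?_, ?_⟩
      · rcases b1 with b | b | b <;> linarith
      · rcases b2 with b | b | b <;> linarith
    · right
      have b1 := hb2 (i + 1) i (i_ne1 i).symm
      have b2 := hb2 (i + 2) i (i_ne2 i).symm
      rw [h] at b1 b2 hs
      refine ⟨h, ?_, ?_⟩
      · rcases b2 with b | b | b <;> linarith
      · rcases b1 with b | b | b <;> linarith
  · rw [mem_iUnion]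
    refine ⟨i, ?_⟩
    have hd' := one_le_dd.1 hd
    have hb' := hb2 i j hij
    have h1 := habs i
    have h2 := habs j
    have key2 : (co i p = 195 ∧ co j p ∈ Icc (-200) (-196)) ∨
        (co j p = -195 ∧ co i p ∈ Icc 196 200) ∨
        (co i p - co j p = 391 ∧ co i p ∈ Icc 195 196) := by
      obtain ⟨d1, d2, d3⟩ := hd'
      rcases hb' with b | b | b
      · left
        have : co i p = 195 := le_antisymm b d1
        exact ⟨this, h2.1, by linarith⟩
      · right; right
        exact ⟨le_antisymm b d2, d1, by linarith⟩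
      · right; left
        have : co j p = -195 := le_antisymm d3 b
        exact ⟨this, by linarith, h1.2⟩
    rcases (ne_iff i j).1 hij with rfl | rfl
    · left; right
      rcases key2 with k | k | k
      · left; left; exact k
      · left; right; exact k
      · right; exact k
    · right
      rcases key2 with k | k | k
      · left; left; exact k
      · left; right; exact k
      · right; exact k

lemma co_sum''' (i : Fin 3) (p : Plane) : co (i + 1) p + co i p + co (i + 2) p = 0 := by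
  linarith [co_sum' i p]
lemma co_sum'''' (i : Fin 3) (p : Plane) : co (i + 2) p + co i p + co (i + 1) p = 0 := by
  linarith [co_sum' i p]
lemma norm_sq''' (i : Fin 3) (p : Plane) :
    ‖p‖ ^ 2 = (co (i + 1) p ^ 2 + co i p ^ 2 + co (i + 2) p ^ 2) / 6 := by
  linarith [norm_sq' i p]
lemma norm_sq'''' (i : Fin 3) (p : Plane) :
    ‖p‖ ^ 2 = (co (i + 2) p ^ 2 + co i p ^ 2 + co (i + 1) p ^ 2) / 6 := by
  linarith [norm_sq' i p]

lemma length_big : μH[1] (frontier big) ≤ ENNReal.ofReal (396 * √3 + 6) := by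
  have h3 := sqrt3_pos
  refine (measure_mono frontier_big).trans ((measure_iUnion_fintype_le _ _).trans ?_)
  have hi : ∀ i : Fin 3, μH[1] ((({p | co i p = 200 ∧ co (i + 1) p ∈ Icc (-195) (-5)} ∪
      {p | co i p = -200 ∧ co (i + 1) p ∈ Icc 5 195}) ∪
    (({p | co i p = 195 ∧ co (i + 1) p ∈ Icc (-200) (-196)} ∪
      {p | co (i + 1) p = -195 ∧ co i p ∈ Icc 196 200}) ∪
      {p | co i p - co (i + 1) p = 391 ∧ co i p ∈ Icc 195 196})) ∪
    (({p | co i p = 195 ∧ co (i + 2) p ∈ Icc (-200) (-196)} ∪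
      {p | co (i + 2) p = -195 ∧ co i p ∈ Icc 196 200}) ∪
      {p | co i p - co (i + 2) p = 391 ∧ co i p ∈ Icc 195 196}) : Set Plane) ≤
      ENNReal.ofReal (132 * √3 + 2) := by
    intro i
    have a1 := length_const (S := {p : Plane | co i p = 200 ∧ co (i + 1) p ∈ Icc (-195) (-5)})
      (co_sum' i) (norm_sq' i) (fun p hp => hp)
    have a2 := length_const (S := {p : Plane | co i p = -200 ∧ co (i + 1) p ∈ Icc 5 195})
      (co_sum' i) (norm_sq' i) (fun p hp => hp)
    have a3 := length_const (S := {p : Plane | co i p = 195 ∧ co (i + 1) p ∈ Icc (-200) (-196)})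
      (co_sum' i) (norm_sq' i) (fun p hp => hp)
    have a4 := length_const (S := {p : Plane | co (i + 1) p = -195 ∧ co i p ∈ Icc 196 200})
      (co_sum''' i) (norm_sq''' i) (fun p hp => hp)
    have a5 := length_cut (S := {p : Plane | co i p - co (i + 1) p = 391 ∧ co i p ∈ Icc 195 196})
      (co_sum' i) (norm_sq' i) (fun p hp => hp)
    have a6 := length_const (S := {p : Plane | co i p = 195 ∧ co (i + 2) p ∈ Icc (-200) (-196)})
      (co_sum'' i) (norm_sq'' i) (fun p hp => hp)
    have a7 := length_const (S := {p : Plane | co (i + 2) p = -195 ∧ co i p ∈ Icc 196 200})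
      (co_sum'''' i) (norm_sq'''' i) (fun p hp => hp)
    have a8 := length_cut (S := {p : Plane | co i p - co (i + 2) p = 391 ∧ co i p ∈ Icc 195 196})
      (co_sum'' i) (norm_sq'' i) (fun p hp => hp)
    have hsum : ENNReal.ofReal (132 * √3 + 2) =
        ((ENNReal.ofReal ((-5 - -195) / √3) + ENNReal.ofReal ((195 - 5) / √3)) +
        ((ENNReal.ofReal ((-196 - -200) / √3) + ENNReal.ofReal ((200 - 196) / √3)) +
          ENNReal.ofReal (196 - 195))) +
        ((ENNReal.ofReal ((-196 - -200) / √3) + ENNReal.ofReal ((200 - 196) / √3)) +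
          ENNReal.ofReal (196 - 195)) := by
      have p1 : (0 : ℝ) ≤ (-5 - -195) / √3 := div_nonneg (by norm_num) h3.le
      have p2 : (0 : ℝ) ≤ (195 - 5) / √3 := div_nonneg (by norm_num) h3.le
      have p3 : (0 : ℝ) ≤ (-196 - -200) / √3 := div_nonneg (by norm_num) h3.le
      have p4 : (0 : ℝ) ≤ (200 - 196) / √3 := div_nonneg (by norm_num) h3.le
      have p5 : (0 : ℝ) ≤ 196 - 195 := by norm_num
      rw [← ENNReal.ofReal_add p1 p2, ← ENNReal.ofReal_add p3 p4,
        ← ENNReal.ofReal_add (add_nonneg p3 p4) p5,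
        ← ENNReal.ofReal_add (add_nonneg p1 p2) (add_nonneg (add_nonneg p3 p4) p5),
        ← ENNReal.ofReal_add (add_nonneg (add_nonneg p1 p2) (add_nonneg (add_nonneg p3 p4) p5))
          (add_nonneg (add_nonneg p3 p4) p5)]
      congr 1
      field_simp
      linear_combination 132 * sqrt3_sq
    rw [hsum]
    refine (measure_union_le _ _).trans (add_le_add ?_ ?_)
    · refine (measure_union_le _ _).trans (add_le_add ?_ ?_)
      · exact (measure_union_le _ _).trans (add_le_add a1 a2)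
      · refine (measure_union_le _ _).trans (add_le_add ?_ a5)
        exact (measure_union_le _ _).trans (add_le_add a3 a4)
    · refine (measure_union_le _ _).trans (add_le_add ?_ a8)
      exact (measure_union_le _ _).trans (add_le_add a6 a7)
  refine (Finset.sum_le_sum fun i _ => hi i).trans ?_
  rw [Finset.sum_const, Finset.card_univ, Fintype.card_fin, nsmul_eq_mul]
  have : ((3 : ℕ) : ℝ≥0∞) = ENNReal.ofReal 3 := by norm_num
  rw [this, ← ENNReal.ofReal_mul (by norm_num)]
  apply ENNReal.ofReal_le_ofReal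
  linarith

/-! ### Area of the big tile -/

lemma meas_co (i : Fin 3) {I : Set ℝ} (hI : MeasurableSet I) : MeasurableSet {p | co i p ∈ I} :=
  (continuous_co i).measurable hI

/-- the lower bound for the area, general form -/
lemma area_lower {S : Set Plane} {A e : ℝ} (hA : 0 ≤ A) (he : 0 ≤ e) {n : ℕ}
    (R : Fin 3 → Set Plane) (hR : R = fun i => {p | co i p ∈ Ioo 0 A ∧ co (i + 1) p ∈ Ioo (-A) 0})
    {ι : Type} [Fintype ι] (hn : Fintype.card ι = n) (Cc : ι → Set Plane)
    (hC : ∀ i, volume (Cc i) ≤ ENNReal.ofReal (2 * √3)⁻¹ * ENNReal.ofReal e)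
    (hS : (⋃ i, R i) \ (⋃ i, Cc i) ⊆ S) :
    ENNReal.ofReal ((2 * √3)⁻¹ * (3 * A ^ 2 - n * e)) ≤ volume S := by
  have h3 := sqrt3_pos
  have hRm : ∀ i, MeasurableSet (R i) := by
    intro i
    rw [hR]
    exact (meas_co i measurableSet_Ioo).inter (meas_co (i + 1) measurableSet_Ioo)
  have hRv : ∀ i, volume (R i) = ENNReal.ofReal (2 * √3)⁻¹ * ENNReal.ofReal (A ^ 2) := by
    intro i
    rw [hR]
    simp only
    rw [area_co (i_ne1 i) measurableSet_Ioo measurableSet_Ioo, Real.volume_Ioo, Real.volume_Ioo,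
      ← ENNReal.ofReal_mul (by linarith)]
    congr 2
    ring
  have hdisj : Pairwise (Function.onFun Disjoint R) := by
    intro i j hij
    rw [Function.onFun, hR, Set.disjoint_left]
    rintro p ⟨hi1, hi2⟩ ⟨hj1, hj2⟩
    rcases (ne_iff i j).1 hij with rfl | rfl
    · exact absurd hj1.1 (not_lt.2 hi2.2.le)
    · have e1 : i + 2 + 1 = i := by fin_cases i <;> decide
      rw [e1] at hj2
      exact absurd hi1.1 (not_lt.2 hj2.2.le)
  have hU : volume (⋃ i, R i) = ENNReal.ofReal ((2 * √3)⁻¹ * (3 * A ^ 2)) := by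
    rw [measure_iUnion hdisj hRm, tsum_fintype, Fin.sum_univ_three, hRv, hRv, hRv,
      ← ENNReal.ofReal_mul (by positivity), ← ENNReal.ofReal_add (by positivity) (by positivity),
      ← ENNReal.ofReal_add (by positivity) (by positivity)]
    congr 1
    ring
  have hV : volume (⋃ i, Cc i) ≤ ENNReal.ofReal ((2 * √3)⁻¹ * (n * e)) := by
    refine (measure_iUnion_fintype_le _ _).trans ((Finset.sum_le_sum fun i _ => hC i).trans ?_)
    rw [Finset.sum_const, Finset.card_univ, hn, nsmul_eq_mul,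
      ← ENNReal.ofReal_mul (by positivity)]
    have : ((n : ℕ) : ℝ≥0∞) = ENNReal.ofReal n := (ENNReal.ofReal_natCast n).symm
    rw [this, ← ENNReal.ofReal_mul (by positivity)]
    apply ENNReal.ofReal_le_ofReal
    apply le_of_eq
    ring
  calc ENNReal.ofReal ((2 * √3)⁻¹ * (3 * A ^ 2 - n * e))
      = ENNReal.ofReal ((2 * √3)⁻¹ * (3 * A ^ 2)) - ENNReal.ofReal ((2 * √3)⁻¹ * (n * e)) := by
        rw [← ENNReal.ofReal_sub _ (by positivity)]
        congr 1
        ring
    _ ≤ volume (⋃ i, R i) - volume (⋃ i, Cc i) := by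
        rw [hU]
        exact tsub_le_tsub_left hV _
    _ ≤ volume ((⋃ i, R i) \ (⋃ i, Cc i)) := le_measure_sdiff
    _ ≤ volume S := measure_mono hS

lemma area_big : ENNReal.ofReal ((2 * √3)⁻¹ * 119850) ≤ volume big := by
  have h := area_lower (S := big) (A := 200) (e := 25) (n := 6) (by norm_num) (by norm_num)
    (fun i => {p | co i p ∈ Ioo 0 200 ∧ co (i + 1) p ∈ Ioo (-200) 0}) rfl
    (ι := {q : Fin 3 × Fin 3 // q.1 ≠ q.2}) (by decide)
    (fun q => {p | co q.1.1 p ∈ Icc 195 200 ∧ co q.1.2 p ∈ Icc (-200) (-195)}) ?_ ?_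
  · convert h using 3
    norm_num
  · intro q
    rw [area_co q.2 measurableSet_Icc measurableSet_Icc, Real.volume_Icc, Real.volume_Icc,
      ← ENNReal.ofReal_mul (by norm_num)]
    apply le_of_eq
    congr 2
    norm_num
  · rintro p ⟨hp1, hp2⟩
    rw [mem_iUnion] at hp1 hp2
    obtain ⟨i, ⟨h1, h2⟩, h3, h4⟩ := hp1
    have hs := co_sum' i p
    have hall : ∀ j, -200 < co j p ∧ co j p < 200 := by
      intro j
      by_cases hj : i = j
      · subst hj
        exact ⟨by linarith, h2⟩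
      · rcases (ne_iff i j).1 hj with rfl | rfl
        · exact ⟨h3, by linarith⟩
        · exact ⟨by linarith, by linarith⟩
    refine ⟨fun j => abs_le.2 ⟨(hall j).1.le, (hall j).2.le⟩, fun j k hjk => ?_⟩
    by_contra hno
    rw [not_or, not_or, not_le, not_le, not_le] at hno
    apply hp2
    exact ⟨⟨(j, k), hjk⟩, ⟨hno.1.le, (hall j).2.le⟩, (hall k).1.le, hno.2.2.le⟩

/-! ### The small tile -/

/-- the function defining the small tile -/
def NS (p : Plane) : ℝ :=
  max (max (|co 0 p| / 5) (max (|co 1 p| / 5) (|co 2 p| / 5)))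
    (max ((co 0 p - co 1 p) / 9) (max ((co 1 p - co 2 p) / 9) ((co 2 p - co 0 p) / 9)))

lemma continuous_NS : Continuous NS := by
  have := continuous_co 0
  have := continuous_co 1
  have := continuous_co 2
  unfold NS
  fun_prop

lemma NS_smul (r : ℝ) (p : Plane) (hr : 0 ≤ r) : NS (r • p) = r * NS p := by
  simp only [NS, co_smul, abs_mul, abs_of_nonneg hr, mul_div_assoc, ← mul_sub,
    ← mul_max_of_nonneg _ _ hr]

lemma NS_pos (p : Plane) (hp : p ≠ 0) : 0 < NS p := by
  have : ¬ (|co 0 p| / 5 ≤ 0 ∧ |co 1 p| / 5 ≤ 0) := by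
    rintro ⟨h0, h1⟩
    apply hp
    have e0 : |co 0 p| ≤ 0 := by linarith
    have e1 : |co 1 p| ≤ 0 := by linarith
    exact eq_zero_of_co (abs_nonpos_iff.1 e0) (abs_nonpos_iff.1 e1)
  by_contra hle
  rw [not_lt] at hle
  simp only [NS, max_le_iff] at hle
  exact this ⟨hle.1.1, hle.1.2.1⟩

lemma small_eq : small = {p | NS p ≤ 1} := by
  have h5 : (0 : ℝ) < 5 := by norm_num
  have h9 : (0 : ℝ) < 9 := by norm_num
  ext p
  simp only [small, NS, mem_ofPred_eq, max_le_iff, div_le_one h5, div_le_one h9]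
  constructor
  · intro h
    exact ⟨⟨(h 0).1, (h 1).1, (h 2).1⟩, (h 0).2, (h 1).2, (h 2).2⟩
  · rintro ⟨⟨a, b, c⟩, d, e, f⟩ i
    fin_cases i
    · exact ⟨a, d⟩
    · exact ⟨b, e⟩
    · exact ⟨c, f⟩

lemma frontier_small : frontier small ⊆ ⋃ i : Fin 3,
    ({p | co i p = 5 ∧ co (i + 1) p ∈ Icc (-4) 0} ∪
      {p | co i p = -5 ∧ co (i + 2) p ∈ Icc 0 4}) ∪
      {p | co i p - co (i + 1) p = 9 ∧ co i p ∈ Icc 4 5} := by
  intro p hp
  have h1 : NS p = 1 := by
    rw [small_eq] at hp
    exact frontier_le_subset_eq continuous_NS continuous_const hp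
  have hb : p ∈ small := by
    rw [small_eq]
    exact h1.le
  have key : ∃ i, |co i p| = 5 ∨ co i p - co (i + 1) p = 9 := by
    by_contra hno
    push Not at hno
    have hlt : ∀ i, |co i p| / 5 < 1 := by
      intro i
      rw [div_lt_one (by norm_num)]
      exact lt_of_le_of_ne (hb i).1 (hno i).1
    have hlt2 : ∀ i, (co i p - co (i + 1) p) / 9 < 1 := by
      intro i
      rw [div_lt_one (by norm_num)]
      exact lt_of_le_of_ne (hb i).2 (hno i).2
    have : NS p < 1 := by
      simp only [NS, max_lt_iff]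
      exact ⟨⟨hlt 0, hlt 1, hlt 2⟩, hlt2 0, hlt2 1, hlt2 2⟩
    exact this.ne h1
  have habs : ∀ i, -5 ≤ co i p ∧ co i p ≤ 5 := fun i => abs_le.1 (hb i).1
  obtain ⟨i, hi⟩ := key
  rw [mem_iUnion]
  refine ⟨i, ?_⟩
  have hs := co_sum' i p
  have a1 := habs (i + 1)
  have a2 := habs (i + 2)
  have c0 := (hb i).2
  have c2 := (hb (i + 2)).2
  have e1 : i + 2 + 1 = i := by fin_cases i <;> decide
  rw [e1] at c2
  rcases hi with hi | hi
  · left
    rcases eq_or_eq_neg_of_abs_eq hi with h | h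
    · left
      rw [h] at hs c0
      exact ⟨h, by linarith, by linarith⟩
    · right
      rw [h] at hs c2
      exact ⟨h, by linarith, by linarith⟩
  · right
    exact ⟨hi, by linarith, (habs i).2⟩

lemma length_small : μH[1] (frontier small) ≤ ENNReal.ofReal (8 * √3 + 3) := by
  have h3 := sqrt3_pos
  refine (measure_mono frontier_small).trans ((measure_iUnion_fintype_le _ _).trans ?_)
  have hi : ∀ i : Fin 3, μH[1] (({p | co i p = 5 ∧ co (i + 1) p ∈ Icc (-4) 0} ∪
      {p | co i p = -5 ∧ co (i + 2) p ∈ Icc 0 4}) ∪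
      {p | co i p - co (i + 1) p = 9 ∧ co i p ∈ Icc 4 5} : Set Plane) ≤
      ENNReal.ofReal (8 / √3 + 1) := by
    intro i
    have a1 := length_const (S := {p : Plane | co i p = 5 ∧ co (i + 1) p ∈ Icc (-4) 0})
      (co_sum' i) (norm_sq' i) (fun p hp => hp)
    have a2 := length_const (S := {p : Plane | co i p = -5 ∧ co (i + 2) p ∈ Icc 0 4})
      (co_sum'' i) (norm_sq'' i) (fun p hp => hp)
    have a3 := length_cut (S := {p : Plane | co i p - co (i + 1) p = 9 ∧ co i p ∈ Icc 4 5})
      (co_sum' i) (norm_sq' i) (fun p hp => hp)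
    have hsum : ENNReal.ofReal (8 / √3 + 1) =
        (ENNReal.ofReal ((0 - -4) / √3) + ENNReal.ofReal ((4 - 0) / √3)) +
          ENNReal.ofReal (5 - 4) := by
      have p1 : (0 : ℝ) ≤ (0 - -4) / √3 := div_nonneg (by norm_num) h3.le
      have p2 : (0 : ℝ) ≤ (4 - 0) / √3 := div_nonneg (by norm_num) h3.le
      have p5 : (0 : ℝ) ≤ 5 - 4 := by norm_num
      rw [← ENNReal.ofReal_add p1 p2, ← ENNReal.ofReal_add (add_nonneg p1 p2) p5]
      congr 1
      ring
    rw [hsum]
    refine (measure_union_le _ _).trans (add_le_add ?_ a3)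
    exact (measure_union_le _ _).trans (add_le_add a1 a2)
  refine (Finset.sum_le_sum fun i _ => hi i).trans ?_
  rw [Finset.sum_const, Finset.card_univ, Fintype.card_fin, nsmul_eq_mul]
  have : ((3 : ℕ) : ℝ≥0∞) = ENNReal.ofReal 3 := by norm_num
  rw [this, ← ENNReal.ofReal_mul (by norm_num)]
  apply ENNReal.ofReal_le_ofReal
  apply le_of_eq
  field_simp
  linear_combination (-8) * sqrt3_sq

lemma area_small : ENNReal.ofReal ((2 * √3)⁻¹ * 72) ≤ volume small := by
  have h := area_lower (S := small) (A := 5) (e := 1) (n := 3) (by norm_num) (by norm_num)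
    (fun i => {p | co i p ∈ Ioo 0 5 ∧ co (i + 1) p ∈ Ioo (-5) 0}) rfl
    (ι := Fin 3) (by decide)
    (fun i => {p | co i p ∈ Icc 4 5 ∧ co (i + 1) p ∈ Icc (-5) (-4)}) ?_ ?_
  · convert h using 3
    norm_num
  · intro i
    rw [area_co (i_ne1 i) measurableSet_Icc measurableSet_Icc, Real.volume_Icc, Real.volume_Icc,
      ← ENNReal.ofReal_mul (by norm_num)]
    apply le_of_eq
    congr 2
    norm_num
  · rintro p ⟨hp1, hp2⟩
    rw [mem_iUnion] at hp1 hp2
    obtain ⟨i, ⟨h1, h2⟩, h3, h4⟩ := hp1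
    have hs := co_sum' i p
    have hall : ∀ j, -5 < co j p ∧ co j p < 5 := by
      intro j
      by_cases hj : i = j
      · subst hj
        exact ⟨by linarith, h2⟩
      · rcases (ne_iff i j).1 hj with rfl | rfl
        · exact ⟨h3, by linarith⟩
        · exact ⟨by linarith, by linarith⟩
    intro j
    refine ⟨abs_le.2 ⟨(hall j).1.le, (hall j).2.le⟩, ?_⟩
    by_contra hno
    rw [not_le] at hno
    apply hp2
    have := hall j
    have := hall (j + 1)
    exact ⟨j, ⟨by linarith, by linarith⟩, by linarith, by linarith⟩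

end

end Pool.Agent.V11198.Hex
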