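import Mathlib
import Pool.Agent.V11198.Hex2

/-!
# The tiling
-/

namespace Pool.Agent.V11198.Hex

open MeasureTheory Set Metric
open scoped ENNReal NNReal

noncomputable section

/-! ### Interiors -/

lemma interior_lt (N : Plane → ℝ) (hh : ∀ (r : ℝ) (p : Plane), 0 ≤ r → N (r • p) = r * N p)
    {p : Plane} (hp : p ∈ interior {p : Plane | N p ≤ 1}) : N p < 1 := by
  by_contra hlt
  have h0 : p ∈ {p : Plane | N p ≤ 1} := interior_subset hp
  have h1 : N p ≤ 1 := h0
  have h2 : N p = 1 := le_antisymm h1 (not_lt.1 hlt)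
  have h3 : Filter.Tendsto (fun t : ℝ => (1 + t) • p) (nhds 0) (nhds p) := by
    have : Continuous fun t : ℝ => (1 + t) • p := by fun_prop
    have := this.tendsto 0
    simpa using this
  have h4 : ∀ᶠ t in nhds (0 : ℝ), (1 + t) • p ∈ {p : Plane | N p ≤ 1} :=
    h3 (mem_interior_iff_mem_nhds.1 hp)
  obtain ⟨ε, hε, h5⟩ := Metric.eventually_nhds_iff.1 h4
  have h6 := h5 (y := ε / 2) (by
    rw [Real.dist_eq, sub_zero, abs_of_pos (by positivity)]
    linarith)
  simp only [mem_ofPred_eq] at h6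
  rw [hh _ _ (by positivity), h2] at h6
  linarith

lemma int_big {u : Plane} (hu : u ∈ interior big) : |co 0 u| < 200 ∧ |co 1 u| < 200 ∧
    |co 2 u| < 200 := by
  rw [big_eq] at hu
  have h := interior_lt NB NB_smul hu
  simp only [NB, max_lt_iff] at h
  obtain ⟨⟨h0, h1, h2⟩, -⟩ := h
  rw [div_lt_one (by norm_num)] at h0 h1 h2
  exact ⟨h0, h1, h2⟩

lemma int_small {u : Plane} (hu : u ∈ interior small) : (|co 0 u| < 5 ∧ |co 1 u| < 5 ∧
    |co 2 u| < 5) ∧ co 0 u - co 1 u < 9 ∧ co 1 u - co 2 u < 9 ∧ co 2 u - co 0 u < 9 := by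
  rw [small_eq] at hu
  have h := interior_lt NS NS_smul hu
  simp only [NS, max_lt_iff] at h
  obtain ⟨⟨h0, h1, h2⟩, h3, h4, h5⟩ := h
  rw [div_lt_one (by norm_num)] at h0 h1 h2 h3 h4 h5
  exact ⟨⟨h0, h1, h2⟩, h3, h4, h5⟩

/-! ### The tiles -/

/-- index set -/
abbrev Idx : Type := ℤ × ℤ × Fin 3

/-- centres -/
def ctr (x : Idx) : Plane :=
  match x with
  | (m, n, 0) => pt (200 * (2 * m - n)) (200 * (2 * n - m))
  | (m, n, 1) => pt (200 * (2 * m - n) + 200) (200 * (2 * n - m))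
  | (m, n, 2) => pt (200 * (2 * m - n)) (200 * (2 * n - m) + 200)

/-- shapes -/
def shape (k : Fin 3) : Set Plane :=
  match k with
  | 0 => big
  | _ => small

/-- sign -/
def sg (k : Fin 3) : ℝ :=
  match k with
  | 2 => -1
  | _ => 1

lemma sg_ne (k : Fin 3) : sg k ≠ 0 := by
  fin_cases k <;> simp [sg]

/-- tiles -/
def tl (x : Idx) : Set Plane := {p | sg x.2.2 • (p - ctr x) ∈ shape x.2.2}

lemma mem_small_iff {u : Plane} : u ∈ small ↔ (|co 0 u| ≤ 5 ∧ |co 1 u| ≤ 5 ∧
    |co 2 u| ≤ 5) ∧ co 0 u - co 1 u ≤ 9 ∧ co 1 u - co 2 u ≤ 9 ∧ co 2 u - co 0 u ≤ 9 := by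
  constructor
  · intro h
    exact ⟨⟨(h 0).1, (h 1).1, (h 2).1⟩, (h 0).2, (h 1).2, (h 2).2⟩
  · rintro ⟨⟨a, b, c⟩, d, e, f⟩ i
    fin_cases i
    · exact ⟨a, d⟩
    · exact ⟨b, e⟩
    · exact ⟨c, f⟩

lemma hex_cover (a b : ℝ) : ∃ m n : ℤ, |a - 200 * (2 * m - n)| ≤ 200 ∧
    |b - 200 * (2 * n - m)| ≤ 200 ∧ |(a - 200 * (2 * m - n)) + (b - 200 * (2 * n - m))| ≤ 200 := by
  obtain ⟨s, hs⟩ : ∃ s, s = (2 * a + b) / 3 := ⟨_, rfl⟩
  obtain ⟨t, ht⟩ : ∃ t, t = (a + 2 * b) / 3 := ⟨_, rfl⟩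
  obtain ⟨m, hm⟩ : ∃ m : ℤ, m = ⌊s / 200⌋ := ⟨_, rfl⟩
  obtain ⟨n, hn⟩ : ∃ n : ℤ, n = ⌊t / 200⌋ := ⟨_, rfl⟩
  have m1 := Int.floor_le (s / 200)
  have m2 := Int.lt_floor_add_one (s / 200)
  have n1 := Int.floor_le (t / 200)
  have n2 := Int.lt_floor_add_one (t / 200)
  rw [← hm] at m1 m2
  rw [← hn] at n1 n2
  have ha : a = 2 * s - t := by rw [hs, ht]; ring
  have hb : b = 2 * t - s := by rw [hs, ht]; ring
  obtain ⟨σ, hσ⟩ : ∃ σ, σ = s - 200 * m := ⟨_, rfl⟩
  obtain ⟨ρ, hρ⟩ : ∃ ρ, ρ = t - 200 * n := ⟨_, rfl⟩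
  have s1 : 0 ≤ σ := by rw [hσ]; linarith
  have s2 : σ ≤ 200 := by rw [hσ]; linarith
  have r1 : 0 ≤ ρ := by rw [hρ]; linarith
  have r2 : ρ ≤ 200 := by rw [hρ]; linarith
  have hsm : s = σ + 200 * m := by rw [hσ]; ring
  have htn : t = ρ + 200 * n := by rw [hρ]; ring
  by_cases c1 : 2 * σ - ρ ≤ 200
  · by_cases c2 : 2 * ρ - σ ≤ 200
    · by_cases c3 : σ + ρ ≤ 200
      · refine ⟨m, n, ?_, ?_, ?_⟩ <;> rw [abs_le] <;> constructor <;> linarith
      · refine ⟨m + 1, n + 1, ?_, ?_, ?_⟩ <;> rw [abs_le] <;> push_cast <;> constructor <;> linarith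
    · by_cases c4 : 2 * σ ≤ ρ
      · refine ⟨m, n + 1, ?_, ?_, ?_⟩ <;> rw [abs_le] <;> push_cast <;> constructor <;> linarith
      · refine ⟨m + 1, n + 1, ?_, ?_, ?_⟩ <;> rw [abs_le] <;> push_cast <;> constructor <;> linarith
  · by_cases c4 : 2 * ρ ≤ σ
    · refine ⟨m + 1, n, ?_, ?_, ?_⟩ <;> rw [abs_le] <;> push_cast <;> constructor <;> linarith
    · refine ⟨m + 1, n + 1, ?_, ?_, ?_⟩ <;> rw [abs_le] <;> push_cast <;> constructor <;> linarith

lemma tl_cover (p : Plane) : ∃ x, p ∈ tl x := by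
  obtain ⟨m, n, h0, h1, h2⟩ := hex_cover (co 0 p) (co 1 p)
  have hs := co_sum p
  obtain ⟨a, ha⟩ : ∃ a, a = co 0 p := ⟨_, rfl⟩
  obtain ⟨b, hb⟩ : ∃ b, b = co 1 p := ⟨_, rfl⟩
  have hc : co 2 p = -a - b := by rw [ha, hb]; linarith
  rw [← ha] at h0 h2
  rw [← hb] at h1 h2
  rw [abs_le] at h0 h1 h2
  by_cases hbig : p - ctr (m, n, 0) ∈ big
  · refine ⟨(m, n, 0), ?_⟩
    simpa [tl, sg, shape] using hbig
  · have hno : ∃ i j, i ≠ j ∧ 195 < co i (p - ctr (m, n, 0)) ∧
        391 < co i (p - ctr (m, n, 0)) - co j (p - ctr (m, n, 0)) ∧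
        co j (p - ctr (m, n, 0)) < -195 := by
      by_contra hcon
      push Not at hcon
      apply hbig
      refine ⟨fun i => ?_, fun i j hij => ?_⟩
      · fin_cases i
        · change |co 0 (p - ctr (m, n, 0))| ≤ 200
          rw [co_sub, ctr, co_pt_zero, ← ha, abs_le]
          exact h0
        · change |co 1 (p - ctr (m, n, 0))| ≤ 200
          rw [co_sub, ctr, co_pt_one, ← hb, abs_le]
          exact h1
        · change |co 2 (p - ctr (m, n, 0))| ≤ 200
          rw [co_sub, ctr, co_pt_two, hc, abs_le]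
          constructor <;> linarith
      · by_cases c1 : co i (p - ctr (m, n, 0)) ≤ 195
        · exact Or.inl c1
        · by_cases c2 : co i (p - ctr (m, n, 0)) - co j (p - ctr (m, n, 0)) ≤ 391
          · exact Or.inr (Or.inl c2)
          · exact Or.inr (Or.inr (hcon i j hij (not_le.1 c1) (not_le.1 c2)))
    obtain ⟨i, j, hij, q1, q2, q3⟩ := hno
    have key : ∃ x : Idx, sg x.2.2 • (p - ctr x) ∈ shape x.2.2 := by
      fin_cases i <;> fin_cases j <;> simp only [Fin.zero_eta, Fin.mk_one, Fin.reduceFinMk] at q1 q2 q3 <;>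
        simp only [co_sub, ctr, co_pt_zero, co_pt_one, co_pt_two, ← ha, ← hb, hc] at q1 q2 q3
      · exact absurd rfl hij
      · refine ⟨(m, n - 1, 2), ?_⟩
        simp only [sg, shape, mem_small_iff, co_smul, co_sub, ctr, co_pt_zero, co_pt_one,
          co_pt_two, ← ha, ← hb, hc, abs_le]
        push_cast
        refine ⟨⟨⟨?_, ?_⟩, ⟨?_, ?_⟩, ?_, ?_⟩, ?_, ?_, ?_⟩ <;> linarith
      · refine ⟨(m, n, 1), ?_⟩
        simp only [sg, shape, mem_small_iff, co_smul, co_sub, ctr, co_pt_zero, co_pt_one,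
          co_pt_two, ← ha, ← hb, hc, abs_le]
        refine ⟨⟨⟨?_, ?_⟩, ⟨?_, ?_⟩, ?_, ?_⟩, ?_, ?_, ?_⟩ <;> linarith
      · refine ⟨(m - 1, n, 1), ?_⟩
        simp only [sg, shape, mem_small_iff, co_smul, co_sub, ctr, co_pt_zero, co_pt_one,
          co_pt_two, ← ha, ← hb, hc, abs_le]
        push_cast
        refine ⟨⟨⟨?_, ?_⟩, ⟨?_, ?_⟩, ?_, ?_⟩, ?_, ?_, ?_⟩ <;> linarith
      · exact absurd rfl hij
      · refine ⟨(m, n, 2), ?_⟩
        simp only [sg, shape, mem_small_iff, co_smul, co_sub, ctr, co_pt_zero, co_pt_one,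
          co_pt_two, ← ha, ← hb, hc, abs_le]
        refine ⟨⟨⟨?_, ?_⟩, ⟨?_, ?_⟩, ?_, ?_⟩, ?_, ?_, ?_⟩ <;> linarith
      · refine ⟨(m - 1, n - 1, 2), ?_⟩
        simp only [sg, shape, mem_small_iff, co_smul, co_sub, ctr, co_pt_zero, co_pt_one,
          co_pt_two, ← ha, ← hb, hc, abs_le]
        push_cast
        refine ⟨⟨⟨?_, ?_⟩, ⟨?_, ?_⟩, ?_, ?_⟩, ?_, ?_, ?_⟩ <;> linarith
      · refine ⟨(m - 1, n - 1, 1), ?_⟩
        simp only [sg, shape, mem_small_iff, co_smul, co_sub, ctr, co_pt_zero, co_pt_one,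
          co_pt_two, ← ha, ← hb, hc, abs_le]
        push_cast
        refine ⟨⟨⟨?_, ?_⟩, ⟨?_, ?_⟩, ?_, ?_⟩, ?_, ?_, ?_⟩ <;> linarith
      · exact absurd rfl hij
    exact key

/-! ### Similarities -/

/-- `p ↦ a • (p + w)` -/
def sim (a : ℝ) (ha : a ≠ 0) (w : Plane) : Plane ≃ₜ Plane :=
  (Homeomorph.addRight w).trans (Homeomorph.smulOfNeZero a ha)

lemma sim_apply (a : ℝ) (ha : a ≠ 0) (w p : Plane) : sim a ha w p = a • (p + w) := rfl

lemma tl_eq (x : Idx) : tl x = sim (sg x.2.2) (sg_ne _) (-ctr x) ⁻¹' shape x.2.2 := by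
  ext p
  simp only [tl, mem_preimage, sim_apply, mem_ofPred_eq, sub_eq_add_neg]

lemma interior_tl {x : Idx} {p : Plane} (hp : p ∈ interior (tl x)) :
    sg x.2.2 • (p - ctr x) ∈ interior (shape x.2.2) := by
  rw [tl_eq, ← Homeomorph.preimage_interior] at hp
  simpa [sim_apply, sub_eq_add_neg] using hp

lemma tl_disjoint {x y : Idx} (hxy : x ≠ y) : Disjoint (interior (tl x)) (interior (tl y)) := by
  rw [Set.disjoint_left]
  intro p hx hy
  apply hxy
  have hx' := interior_tl hx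
  have hy' := interior_tl hy
  have hx0 : sg x.2.2 • (p - ctr x) ∈ shape x.2.2 := interior_subset hx'
  have hy0 : sg y.2.2 • (p - ctr y) ∈ shape y.2.2 := interior_subset hy'
  have hs := co_sum p
  obtain ⟨a, ha⟩ : ∃ a, a = co 0 p := ⟨_, rfl⟩
  obtain ⟨b, hb⟩ : ∃ b, b = co 1 p := ⟨_, rfl⟩
  have hc : co 2 p = -a - b := by rw [ha, hb]; linarith
  obtain ⟨m, n, k⟩ := x
  obtain ⟨m', n', k'⟩ := y
  simp only at hx' hy' hx0 hy0
  -- the big tile against a small tile
  have bigsmall : ∀ (m n m' n' : ℤ) (k : Fin 3), k ≠ 0 → p - ctr (m, n, 0) ∈ interior big →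
      sg k • (p - ctr (m', n', k)) ∈ interior small → False := by
    intro m n m' n' k hk h1 h2
    obtain ⟨h10, h11, h12⟩ := int_big h1
    obtain ⟨-, hd⟩ : p - ctr (m, n, 0) ∈ big := interior_subset h1
    have d01 := hd 0 1 (by decide)
    have d02 := hd 0 2 (by decide)
    have d10 := hd 1 0 (by decide)
    have d12 := hd 1 2 (by decide)
    have d20 := hd 2 0 (by decide)
    have d21 := hd 2 1 (by decide)
    obtain ⟨⟨h20, h21, h22⟩, h23, h24, h25⟩ := int_small h2
    fin_cases k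
    · exact hk rfl
    · simp only [co_sub, ctr, co_pt_zero, co_pt_one, co_pt_two, ← ha, ← hb, hc, co_smul, sg,
        one_mul, Fin.mk_one] at *
      rw [abs_lt] at h10 h11 h12 h20 h21 h22
      have i1 : (-1 : ℤ) ≤ 2 * (m' - m) - (n' - n) + 1 ∧ 2 * (m' - m) - (n' - n) + 1 ≤ 1 := by
        constructor
        · have : (-2 : ℝ) < 2 * (m' - m) - (n' - n) + 1 := by linarith
          have : (-2 : ℤ) < 2 * (m' - m) - (n' - n) + 1 := by exact_mod_cast this
          omega
        · have : 2 * (m' - m) - (n' - n) + 1 < (2 : ℝ) := by linarith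
          have : 2 * (m' - m) - (n' - n) + 1 < (2 : ℤ) := by exact_mod_cast this
          omega
      have i2 : (-1 : ℤ) ≤ 2 * (n' - n) - (m' - m) ∧ 2 * (n' - n) - (m' - m) ≤ 1 := by
        constructor
        · have : (-2 : ℝ) < 2 * (n' - n) - (m' - m) := by linarith
          have : (-2 : ℤ) < 2 * (n' - n) - (m' - m) := by exact_mod_cast this
          omega
        · have : 2 * (n' - n) - (m' - m) < (2 : ℝ) := by linarith
          have : 2 * (n' - n) - (m' - m) < (2 : ℤ) := by exact_mod_cast this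
          omega
      have i3 : (-1 : ℤ) ≤ (m' - m) + (n' - n) + 1 ∧ (m' - m) + (n' - n) + 1 ≤ 1 := by
        constructor
        · have : (-2 : ℝ) < (m' - m) + (n' - n) + 1 := by linarith
          have : (-2 : ℤ) < (m' - m) + (n' - n) + 1 := by exact_mod_cast this
          omega
        · have : (m' - m) + (n' - n) + 1 < (2 : ℝ) := by linarith
          have : (m' - m) + (n' - n) + 1 < (2 : ℤ) := by exact_mod_cast this
          omega
      have hcases : (m' = m ∧ n' = n) ∨ (m' = m - 1 ∧ n' = n) ∨ (m' = m - 1 ∧ n' = n - 1) := by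
        omega
      rcases hcases with ⟨rfl, rfl⟩ | ⟨rfl, rfl⟩ | ⟨rfl, rfl⟩
      · rcases d02 with d | d | d <;> linarith
      · push_cast at *
        rcases d10 with d | d | d <;> linarith
      · push_cast at *
        rcases d21 with d | d | d <;> linarith
    · simp only [co_sub, ctr, co_pt_zero, co_pt_one, co_pt_two, ← ha, ← hb, hc, co_smul, sg,
        Fin.reduceFinMk] at *
      rw [abs_lt] at h10 h11 h12 h20 h21 h22
      have i1 : (-1 : ℤ) ≤ 2 * (m' - m) - (n' - n) ∧ 2 * (m' - m) - (n' - n) ≤ 1 := by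
        constructor
        · have : (-2 : ℝ) < 2 * (m' - m) - (n' - n) := by linarith
          have : (-2 : ℤ) < 2 * (m' - m) - (n' - n) := by exact_mod_cast this
          omega
        · have : 2 * (m' - m) - (n' - n) < (2 : ℝ) := by linarith
          have : 2 * (m' - m) - (n' - n) < (2 : ℤ) := by exact_mod_cast this
          omega
      have i2 : (-1 : ℤ) ≤ 2 * (n' - n) - (m' - m) + 1 ∧ 2 * (n' - n) - (m' - m) + 1 ≤ 1 := by
        constructor
        · have : (-2 : ℝ) < 2 * (n' - n) - (m' - m) + 1 := by linarith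
          have : (-2 : ℤ) < 2 * (n' - n) - (m' - m) + 1 := by exact_mod_cast this
          omega
        · have : 2 * (n' - n) - (m' - m) + 1 < (2 : ℝ) := by linarith
          have : 2 * (n' - n) - (m' - m) + 1 < (2 : ℤ) := by exact_mod_cast this
          omega
      have i3 : (-1 : ℤ) ≤ (m' - m) + (n' - n) + 1 ∧ (m' - m) + (n' - n) + 1 ≤ 1 := by
        constructor
        · have : (-2 : ℝ) < (m' - m) + (n' - n) + 1 := by linarith
          have : (-2 : ℤ) < (m' - m) + (n' - n) + 1 := by exact_mod_cast this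
          omega
        · have : (m' - m) + (n' - n) + 1 < (2 : ℝ) := by linarith
          have : (m' - m) + (n' - n) + 1 < (2 : ℤ) := by exact_mod_cast this
          omega
      have hcases : (m' = m ∧ n' = n) ∨ (m' = m ∧ n' = n - 1) ∨ (m' = m - 1 ∧ n' = n - 1) := by
        omega
      rcases hcases with ⟨rfl, rfl⟩ | ⟨rfl, rfl⟩ | ⟨rfl, rfl⟩
      · rcases d12 with d | d | d <;> linarith
      · push_cast at *
        rcases d01 with d | d | d <;> linarith
      · push_cast at *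
        rcases d20 with d | d | d <;> linarith
  fin_cases k <;> fin_cases k' <;>
    simp only [Fin.zero_eta, Fin.mk_one, Fin.reduceFinMk, shape] at hx' hy' hx0 hy0 ⊢
  · -- big, big
    simp only [sg, one_smul] at hx' hy'
    obtain ⟨h10, h11, h12⟩ := int_big hx'
    obtain ⟨h20, h21, h22⟩ := int_big hy'
    simp only [co_sub, ctr, co_pt_zero, co_pt_one, co_pt_two, ← ha, ← hb, hc, abs_lt] at h10 h11 h12 h20 h21 h22
    have i1 : (-1 : ℤ) ≤ 2 * (m' - m) - (n' - n) ∧ 2 * (m' - m) - (n' - n) ≤ 1 := by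
      constructor
      · have : (-2 : ℝ) < 2 * (m' - m) - (n' - n) := by linarith
        have : (-2 : ℤ) < 2 * (m' - m) - (n' - n) := by exact_mod_cast this
        omega
      · have : 2 * (m' - m) - (n' - n) < (2 : ℝ) := by linarith
        have : 2 * (m' - m) - (n' - n) < (2 : ℤ) := by exact_mod_cast this
        omega
    have i2 : (-1 : ℤ) ≤ 2 * (n' - n) - (m' - m) ∧ 2 * (n' - n) - (m' - m) ≤ 1 := by
      constructor
      · have : (-2 : ℝ) < 2 * (n' - n) - (m' - m) := by linarith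
        have : (-2 : ℤ) < 2 * (n' - n) - (m' - m) := by exact_mod_cast this
        omega
      · have : 2 * (n' - n) - (m' - m) < (2 : ℝ) := by linarith
        have : 2 * (n' - n) - (m' - m) < (2 : ℤ) := by exact_mod_cast this
        omega
    have i3 : (-1 : ℤ) ≤ (m' - m) + (n' - n) ∧ (m' - m) + (n' - n) ≤ 1 := by
      constructor
      · have : (-2 : ℝ) < (m' - m) + (n' - n) := by linarith
        have : (-2 : ℤ) < (m' - m) + (n' - n) := by exact_mod_cast this
        omega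
      · have : (m' - m) + (n' - n) < (2 : ℝ) := by linarith
        have : (m' - m) + (n' - n) < (2 : ℤ) := by exact_mod_cast this
        omega
    have e1 : m' = m := by omega
    have e2 : n' = n := by omega
    rw [e1, e2]
  · exact (bigsmall m n m' n' 1 (by decide) (by simpa [sg] using hx') hy').elim
  · exact (bigsmall m n m' n' 2 (by decide) (by simpa [sg] using hx') hy').elim
  · exact (bigsmall m' n' m n 1 (by decide) (by simpa [sg] using hy') hx').elim
  · obtain ⟨⟨h10, h11, h12⟩, -⟩ := int_small hx'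
    obtain ⟨⟨h20, h21, h22⟩, -⟩ := int_small hy'
    simp only [co_sub, ctr, co_pt_zero, co_pt_one, co_pt_two, ← ha, ← hb, hc, abs_lt, co_smul, sg] at h10 h11 h12 h20 h21 h22
    have i1 : 2 * (m' - m) - (n' - n) = 0 := by
      have h1 : (-1 : ℝ) < 2 * (m' - m) - (n' - n) := by linarith
      have h2 : 2 * (m' - m) - (n' - n) < (1 : ℝ) := by linarith
      have h3 : (-1 : ℤ) < 2 * (m' - m) - (n' - n) := by exact_mod_cast h1
      have h4 : 2 * (m' - m) - (n' - n) < (1 : ℤ) := by exact_mod_cast h2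
      omega
    have i2 : 2 * (n' - n) - (m' - m) = 0 := by
      have h1 : (-1 : ℝ) < 2 * (n' - n) - (m' - m) := by linarith
      have h2 : 2 * (n' - n) - (m' - m) < (1 : ℝ) := by linarith
      have h3 : (-1 : ℤ) < 2 * (n' - n) - (m' - m) := by exact_mod_cast h1
      have h4 : 2 * (n' - n) - (m' - m) < (1 : ℤ) := by exact_mod_cast h2
      omega
    have e1 : m' = m := by omega
    have e2 : n' = n := by omega
    rw [e1, e2]
  · exfalso
    obtain ⟨⟨h10, h11, h12⟩, -⟩ := int_small hx'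
    obtain ⟨⟨h20, h21, h22⟩, -⟩ := int_small hy'
    simp only [co_sub, ctr, co_pt_zero, co_pt_one, co_pt_two, ← ha, ← hb, hc, abs_lt, co_smul, sg] at h10 h11 h12 h20 h21 h22
    have i1 : 2 * (m' - m) - (n' - n) - 1 = 0 := by
      have h1 : (-1 : ℝ) < 2 * (m' - m) - (n' - n) - 1 := by linarith
      have h2 : 2 * (m' - m) - (n' - n) - 1 < (1 : ℝ) := by linarith
      have h3 : (-1 : ℤ) < 2 * (m' - m) - (n' - n) - 1 := by exact_mod_cast h1
      have h4 : 2 * (m' - m) - (n' - n) - 1 < (1 : ℤ) := by exact_mod_cast h2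
      omega
    have i2 : 2 * (n' - n) - (m' - m) + 1 = 0 := by
      have h1 : (-1 : ℝ) < 2 * (n' - n) - (m' - m) + 1 := by linarith
      have h2 : 2 * (n' - n) - (m' - m) + 1 < (1 : ℝ) := by linarith
      have h3 : (-1 : ℤ) < 2 * (n' - n) - (m' - m) + 1 := by exact_mod_cast h1
      have h4 : 2 * (n' - n) - (m' - m) + 1 < (1 : ℤ) := by exact_mod_cast h2
      omega
    omega
  · exact (bigsmall m' n' m n 2 (by decide) (by simpa [sg] using hy') hx').elim
  · exfalso
    obtain ⟨⟨h10, h11, h12⟩, -⟩ := int_small hx'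
    obtain ⟨⟨h20, h21, h22⟩, -⟩ := int_small hy'
    simp only [co_sub, ctr, co_pt_zero, co_pt_one, co_pt_two, ← ha, ← hb, hc, abs_lt, co_smul, sg] at h10 h11 h12 h20 h21 h22
    have i1 : 2 * (m' - m) - (n' - n) + 1 = 0 := by
      have h1 : (-1 : ℝ) < 2 * (m' - m) - (n' - n) + 1 := by linarith
      have h2 : 2 * (m' - m) - (n' - n) + 1 < (1 : ℝ) := by linarith
      have h3 : (-1 : ℤ) < 2 * (m' - m) - (n' - n) + 1 := by exact_mod_cast h1
      have h4 : 2 * (m' - m) - (n' - n) + 1 < (1 : ℤ) := by exact_mod_cast h2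
      omega
    have i2 : 2 * (n' - n) - (m' - m) - 1 = 0 := by
      have h1 : (-1 : ℝ) < 2 * (n' - n) - (m' - m) - 1 := by linarith
      have h2 : 2 * (n' - n) - (m' - m) - 1 < (1 : ℝ) := by linarith
      have h3 : (-1 : ℤ) < 2 * (n' - n) - (m' - m) - 1 := by exact_mod_cast h1
      have h4 : 2 * (n' - n) - (m' - m) - 1 < (1 : ℤ) := by exact_mod_cast h2
      omega
    omega
  · obtain ⟨⟨h10, h11, h12⟩, -⟩ := int_small hx'
    obtain ⟨⟨h20, h21, h22⟩, -⟩ := int_small hy'
    simp only [co_sub, ctr, co_pt_zero, co_pt_one, co_pt_two, ← ha, ← hb, hc, abs_lt, co_smul, sg] at h10 h11 h12 h20 h21 h22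
    have i1 : 2 * (m' - m) - (n' - n) = 0 := by
      have h1 : (-1 : ℝ) < 2 * (m' - m) - (n' - n) := by linarith
      have h2 : 2 * (m' - m) - (n' - n) < (1 : ℝ) := by linarith
      have h3 : (-1 : ℤ) < 2 * (m' - m) - (n' - n) := by exact_mod_cast h1
      have h4 : 2 * (m' - m) - (n' - n) < (1 : ℤ) := by exact_mod_cast h2
      omega
    have i2 : 2 * (n' - n) - (m' - m) = 0 := by
      have h1 : (-1 : ℝ) < 2 * (n' - n) - (m' - m) := by linarith
      have h2 : 2 * (n' - n) - (m' - m) < (1 : ℝ) := by linarith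
      have h3 : (-1 : ℤ) < 2 * (n' - n) - (m' - m) := by exact_mod_cast h1
      have h4 : 2 * (n' - n) - (m' - m) < (1 : ℤ) := by exact_mod_cast h2
      omega
    have e1 : m' = m := by omega
    have e2 : n' = n := by omega
    rw [e1, e2]

/-! ### Good sets -/

/-- the properties of a tile, invariant under similarities -/
structure Good (C : ℝ≥0∞) (D : ℝ) (S : Set Plane) : Prop where
  bdd : Bornology.IsBounded S
  closed : IsClosed S
  disc : Nonempty (S ≃ₜ closedBall (0 : Plane) 1)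
  ratio : μH[1] (frontier S) ^ 2 / volume S ≤ C
  far : ∃ p ∈ S, ∃ q ∈ S, D ≤ dist p q
  pos : 0 < volume S

lemma Good.preimage {C : ℝ≥0∞} {D : ℝ} {S : Set Plane} (h : Good C D S) (a : ℝ) (ha : a ≠ 0)
    (w : Plane) : Good C (D / |a|) (sim a ha w ⁻¹' S) := by
  have ha' : 0 < |a| := abs_pos.2 ha
  have hdist : ∀ p q : Plane, dist (sim a ha w p) (sim a ha w q) = |a| * dist p q := by
    intro p q
    rw [sim_apply, sim_apply, dist_smul₀, dist_add_right, Real.norm_eq_abs]
  have h2 : volume (sim a ha w ⁻¹' S) = ENNReal.ofReal |a|⁻¹ ^ 2 * volume S := by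
    have e1 : sim a ha w ⁻¹' S = (fun p : Plane => p + w) ⁻¹' ((fun p : Plane => a • p) ⁻¹' S) :=
      rfl
    rw [e1, measure_preimage_add_right, Measure.addHaar_preimage_smul _ ha,
      finrank_euclideanSpace_fin, ← ENNReal.ofReal_pow (by positivity)]
    congr 2
    rw [abs_inv, abs_pow, inv_pow]
  have h0 : ENNReal.ofReal |a|⁻¹ ^ 2 ≠ 0 := by
    apply pow_ne_zero
    rw [Ne, ENNReal.ofReal_eq_zero, not_le]
    positivity
  refine ⟨?_, ?_, ?_, ?_, ?_, ?_⟩
  · obtain ⟨r, hr⟩ := (isBounded_iff_subset_closedBall (sim a ha w 0)).1 h.bdd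
    rw [isBounded_iff_subset_closedBall 0]
    refine ⟨r / |a|, fun p hp => ?_⟩
    have := hr hp
    rw [mem_closedBall, hdist] at this
    rw [mem_closedBall, le_div_iff₀ ha']
    linarith
  · exact h.closed.preimage (sim a ha w).continuous
  · obtain ⟨e⟩ := h.disc
    exact ⟨((sim a ha w).subtype fun p => Iff.rfl).trans e⟩
  · have h1 : μH[1] (frontier (sim a ha w ⁻¹' S)) =
        ENNReal.ofReal |a|⁻¹ * μH[1] (frontier S) := by
      rw [← Homeomorph.preimage_frontier]
      have e1 : sim a ha w ⁻¹' frontier S =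
          IsometryEquiv.addRight w ⁻¹' ((fun p : Plane => a • p) ⁻¹' frontier S) := rfl
      rw [e1, IsometryEquiv.hausdorffMeasure_preimage, preimage_smul₀ ha,
        Measure.hausdorffMeasure_smul₀ zero_le_one (inv_ne_zero ha), NNReal.rpow_one]
      rw [ENNReal.smul_def, smul_eq_mul]
      congr 1
      rw [← Real.norm_eq_abs, ← norm_inv, ofReal_norm_eq_enorm]
      rfl
    rw [h1, h2, mul_pow]
    rw [ENNReal.mul_div_mul_left _ _ h0 (by
      apply ENNReal.pow_ne_top
      exact ENNReal.ofReal_ne_top)]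
    exact h.ratio
  · obtain ⟨p, hp, q, hq, hpq⟩ := h.far
    refine ⟨(sim a ha w).symm p, by simpa using hp, (sim a ha w).symm q, by simpa using hq, ?_⟩
    rw [div_le_iff₀ ha', mul_comm, ← hdist]
    simpa using hpq
  · rw [h2]
    exact ENNReal.mul_pos h0 h.pos.ne'

lemma ratio_le {S : Set Plane} {L A C : ℝ} (hL : μH[1] (frontier S) ≤ ENNReal.ofReal L)
    (hA : ENNReal.ofReal A ≤ volume S) (hA0 : 0 < A) (hL0 : 0 ≤ L) (h : L ^ 2 ≤ C * A) :
    μH[1] (frontier S) ^ 2 / volume S ≤ ENNReal.ofReal C := by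
  have h1 : μH[1] (frontier S) ^ 2 / volume S ≤ ENNReal.ofReal L ^ 2 / ENNReal.ofReal A :=
    ENNReal.div_le_div (pow_le_pow_left' hL 2) hA
  refine h1.trans ?_
  rw [← ENNReal.ofReal_pow hL0, ← ENNReal.ofReal_div_of_pos hA0]
  apply ENNReal.ofReal_le_ofReal
  rw [div_le_iff₀ hA0]
  exact h

lemma sqrt3_bounds : 1.732 < √3 ∧ √3 < 1.7321 := by
  constructor
  · rw [Real.lt_sqrt (by norm_num)]
    norm_num
  · rw [Real.sqrt_lt' (by norm_num)]
    norm_num

lemma good_big : Good (ENNReal.ofReal (7.992 * √3)) 1 big := by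
  obtain ⟨b1, b2⟩ := sqrt3_bounds
  have h3 := sqrt3_pos
  have hs := sqrt3_sq
  refine ⟨?_, ?_, ?_, ?_, ?_, ?_⟩
  · rw [isBounded_iff_subset_closedBall 0]
    refine ⟨200, fun p hp => ?_⟩
    rw [mem_closedBall]
    apply dist_le_of (by norm_num)
    obtain ⟨hp, -⟩ := hp
    have h0 := sq_le_sq' (abs_le.1 (hp 0)).1 (abs_le.1 (hp 0)).2
    have h1 := sq_le_sq' (abs_le.1 (hp 1)).1 (abs_le.1 (hp 1)).2
    have h2 := sq_le_sq' (abs_le.1 (hp 2)).1 (abs_le.1 (hp 2)).2
    have z : ∀ i, co i (0 : Plane) = 0 := by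
      intro i
      have := co_smul i 0 (0 : Plane)
      simpa using this
    rw [z, z, z]
    simp only [sub_zero]
    linarith
  · rw [big_eq]
    exact isClosed_le continuous_NB continuous_const
  · rw [big_eq]
    exact disc_of_homogeneous NB continuous_NB (fun r p hr => NB_smul r p hr) NB_pos
  · refine ratio_le length_big area_big (by positivity) (by positivity) ?_
    have e : 7.992 * √3 * ((2 * √3)⁻¹ * 119850) = 7.992 * 119850 / 2 := by
      field_simp
    rw [e]
    nlinarith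
  · refine ⟨pt 4 (-4), ?_, pt (-4) 4, ?_, ?_⟩
    · refine ⟨fun i => ?_, fun i j _ => ?_⟩
      · fin_cases i <;> simp [abs_le] <;> norm_num
      · left
        fin_cases i <;> simp <;> norm_num
    · refine ⟨fun i => ?_, fun i j _ => ?_⟩
      · fin_cases i <;> simp [abs_le] <;> norm_num
      · left
        fin_cases i <;> simp <;> norm_num
    · apply le_dist_of
      simp only [co_pt_zero, co_pt_one, co_pt_two]
      norm_num
  · refine lt_of_lt_of_le ?_ area_big
    rw [ENNReal.ofReal_pos]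
    positivity

lemma good_small : Good (ENNReal.ofReal (7.992 * √3)) 1 small := by
  obtain ⟨b1, b2⟩ := sqrt3_bounds
  have h3 := sqrt3_pos
  have hs := sqrt3_sq
  refine ⟨?_, ?_, ?_, ?_, ?_, ?_⟩
  · rw [isBounded_iff_subset_closedBall 0]
    refine ⟨200, fun p hp => ?_⟩
    rw [mem_closedBall]
    apply dist_le_of (by norm_num)
    have h0 := sq_le_sq' (abs_le.1 (hp 0).1).1 (abs_le.1 (hp 0).1).2
    have h1 := sq_le_sq' (abs_le.1 (hp 1).1).1 (abs_le.1 (hp 1).1).2
    have h2 := sq_le_sq' (abs_le.1 (hp 2).1).1 (abs_le.1 (hp 2).1).2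
    have z : ∀ i, co i (0 : Plane) = 0 := by
      intro i
      have := co_smul i 0 (0 : Plane)
      simpa using this
    rw [z, z, z]
    simp only [sub_zero]
    linarith
  · rw [small_eq]
    exact isClosed_le continuous_NS continuous_const
  · rw [small_eq]
    exact disc_of_homogeneous NS continuous_NS (fun r p hr => NS_smul r p hr) NS_pos
  · refine ratio_le length_small area_small (by positivity) (by positivity) ?_
    have e : 7.992 * √3 * ((2 * √3)⁻¹ * 72) = 7.992 * 72 / 2 := by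
      field_simp
    rw [e]
    nlinarith
  · refine ⟨pt 4 (-4), ?_, pt (-4) 4, ?_, ?_⟩
    · rw [mem_small_iff]
      simp only [co_pt_zero, co_pt_one, co_pt_two, abs_le]
      norm_num
    · rw [mem_small_iff]
      simp only [co_pt_zero, co_pt_one, co_pt_two, abs_le]
      norm_num
    · apply le_dist_of
      simp only [co_pt_zero, co_pt_one, co_pt_two]
      norm_num
  · refine lt_of_lt_of_le ?_ area_small
    rw [ENNReal.ofReal_pos]
    positivity

lemma good_shape (k : Fin 3) : Good (ENNReal.ofReal (7.992 * √3)) 1 (shape k) := by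
  fin_cases k
  · exact good_big
  · exact good_small
  · exact good_small

lemma good_tl (x : Idx) : Good (ENNReal.ofReal (7.992 * √3)) 1 (tl x) := by
  rw [tl_eq]
  have h := (good_shape x.2.2).preimage (sg x.2.2) (sg_ne _) (-ctr x)
  have e : |sg x.2.2| = 1 := by
    obtain ⟨m, n, k⟩ := x
    fin_cases k <;> simp [sg]
  rw [e, div_one] at h
  exact h

/-- the tiles, scaled so that all diameters are at least `D` -/
def tlD (D : ℝ) (hD : D⁻¹ ≠ 0) (x : Idx) : Set Plane := sim D⁻¹ hD 0 ⁻¹' tl x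

theorem main (D : ℝ) (hD : 0 < D) : ∃ T : ℕ → Set Plane,
    (∀ n, Good (ENNReal.ofReal (7.992 * √3)) D (T n)) ∧ (⋃ n, T n) = univ ∧
    ∀ m n, m ≠ n → Disjoint (interior (T m)) (interior (T n)) := by
  have hD' : D⁻¹ ≠ 0 := inv_ne_zero hD.ne'
  haveI : Infinite Idx := inferInstance
  obtain ⟨e⟩ : Nonempty (ℕ ≃ Idx) := by
    obtain ⟨d⟩ := nonempty_denumerable Idx
    exact ⟨(Denumerable.eqv Idx).symm⟩
  refine ⟨fun n => tlD D hD' (e n), fun n => ?_, ?_, fun m n hmn => ?_⟩
  · have h := (good_tl (e n)).preimage D⁻¹ hD' 0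
    have e1 : 1 / |D⁻¹| = D := by
      rw [abs_of_pos (by positivity)]
      simp
    rw [e1] at h
    exact h
  · rw [eq_univ_iff_forall]
    intro p
    obtain ⟨x, hx⟩ := tl_cover (sim D⁻¹ hD' 0 p)
    rw [mem_iUnion]
    refine ⟨e.symm x, ?_⟩
    simp only [Equiv.apply_symm_apply]
    exact hx
  · have h := tl_disjoint (e.injective.ne hmn)
    simp only [tlD]
    rw [← Homeomorph.preimage_interior, ← Homeomorph.preimage_interior]
    exact h.preimage _

end

end Pool.Agent.V11198.Hex
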