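import Mathlib

/-! Utilities on reduced words in free products, and balanced separators. -/

namespace V11198.Sep

open Monoid

section words

variable {I : Type} {G : I → Type} [∀ i, Group (G i)]

/-- The reduced word of an element of the free product. -/
noncomputable def wd (k : CoprodI G) : CoprodI.Word G := by
  classical exact CoprodI.Word.equiv k

theorem wd_prod (k : CoprodI G) : (wd k).prod = k := by
  classical
  have := (CoprodI.Word.equiv (M := G)).symm_apply_apply k
  exact this

theorem wd_of_prod (w : CoprodI.Word G) : wd w.prod = w := by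
  classical
  have := (CoprodI.Word.equiv (M := G)).apply_symm_apply w
  exact this

theorem wd_unique {k : CoprodI G} {w : CoprodI.Word G} (h : w.prod = k) : wd k = w := by
  rw [← h, wd_of_prod]

theorem wd_one : wd (1 : CoprodI G) = CoprodI.Word.empty :=
  wd_unique (by simp)

theorem prod_injective {w w' : CoprodI.Word G} (h : w.prod = w'.prod) : w = w' := by
  rw [← wd_of_prod w, h, wd_of_prod]

theorem decomp (i : I) (k : CoprodI G) :
    ∃ (a : G i) (w : CoprodI.Word G), w.fstIdx ≠ some i ∧ k = CoprodI.of a * w.prod := by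
  classical
  refine ⟨(CoprodI.Word.equivPair i (wd k)).head, (CoprodI.Word.equivPair i (wd k)).tail,
    (CoprodI.Word.equivPair i (wd k)).fstIdx_ne, ?_⟩
  rw [← CoprodI.Word.prod_smul, CoprodI.Word.equivPair_head_smul_equivPair_tail, wd_prod]

theorem wd_cons {i : I} (a : G i) (w : CoprodI.Word G) (h : w.fstIdx ≠ some i) (h1 : a ≠ 1) :
    wd (CoprodI.of a * w.prod) = CoprodI.Word.cons a w h h1 :=
  wd_unique (CoprodI.Word.prod_cons i a w h1 h)

/-- Length of the reduced word. -/
noncomputable def wlen (k : CoprodI G) : ℕ := (wd k).toList.length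

/-- Last letter of the reduced word. -/
noncomputable def lastL (k : CoprodI G) : Option (Σ i, G i) := (wd k).toList.getLast?

theorem wlen_one : wlen (1 : CoprodI G) = 0 := by simp [wlen, wd_one]

theorem lastL_one : lastL (1 : CoprodI G) = none := by simp [lastL, wd_one]

theorem lastL_none {k : CoprodI G} (h : lastL k = none) : k = 1 := by
  unfold lastL at h
  rw [List.getLast?_eq_none_iff] at h
  have : wd k = CoprodI.Word.empty := by
    apply CoprodI.Word.ext; rw [h]; rfl
  rw [← wd_prod k, this]; simp

theorem wlen_of_mul_le {i : I} (s : G i) (k : CoprodI G) :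
    wlen (CoprodI.of s * k) ≤ wlen k + 1 := by
  obtain ⟨a, w, hw, rfl⟩ := decomp i k
  rw [← mul_assoc, ← map_mul]
  have h1 : wlen (CoprodI.of (s * a) * w.prod) ≤ w.toList.length + 1 := by
    by_cases h : s * a = 1
    · rw [h, map_one, one_mul]; unfold wlen; rw [wd_of_prod]; omega
    · unfold wlen; rw [wd_cons _ _ hw h]; simp [CoprodI.Word.cons]
  by_cases h : a = 1
  · subst h
    simp only [mul_one, map_one, one_mul] at *
    have : wlen w.prod = w.toList.length := by unfold wlen; rw [wd_of_prod]
    omega
  · have : wlen (CoprodI.of a * w.prod) = w.toList.length + 1 := by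
      unfold wlen; rw [wd_cons _ _ hw h]; simp [CoprodI.Word.cons]
    omega

theorem wlen_word_mul (w : CoprodI.Word G) (b : CoprodI G) :
    wlen (w.prod * b) ≤ w.toList.length + wlen b := by
  induction w using CoprodI.Word.consRecOn with
  | empty => simp
  | cons i m w h1 h2 ih =>
    rw [CoprodI.Word.prod_cons, mul_assoc]
    have := wlen_of_mul_le m (w.prod * b)
    simp only [CoprodI.Word.cons, List.length_cons]
    omega

theorem wlen_mul_le (a b : CoprodI G) : wlen (a * b) ≤ wlen a + wlen b := by
  have := wlen_word_mul (wd a) b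
  rw [wd_prod] at this
  exact this

theorem wlen_of_le {i : I} (s : G i) : wlen (CoprodI.of s : CoprodI G) ≤ 1 := by
  have := wlen_of_mul_le s (1 : CoprodI G)
  rwa [mul_one, wlen_one] at this

theorem wd_of {i : I} (a : G i) (h1 : a ≠ 1) :
    wd (CoprodI.of a : CoprodI G) = CoprodI.Word.cons a CoprodI.Word.empty
      (by simp [CoprodI.Word.fstIdx, CoprodI.Word.empty]) h1 :=
  wd_unique (by rw [CoprodI.Word.prod_cons]; simp)

theorem lastL_of {i : I} (a : G i) (h1 : a ≠ 1) :
    lastL (CoprodI.of a : CoprodI G) = some ⟨i, a⟩ := by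
  simp [lastL, wd_of a h1, CoprodI.Word.cons, CoprodI.Word.empty]

theorem lastL_ne_one {k : CoprodI G} {i : I} {z : G i} (h : lastL k = some ⟨i, z⟩) : z ≠ 1 := by
  have : (⟨i, z⟩ : Σ i, G i) ∈ (wd k).toList := List.mem_of_getLast? h
  exact (wd k).ne_one _ this

/-- Left multiplication by a letter does not change the last letter, unless the element lies in
the corresponding factor. -/
theorem lastL_of_mul {i : I} (s : G i) (k : CoprodI G) (hk : ∀ a : G i, k ≠ CoprodI.of a) :
    lastL (CoprodI.of s * k) = lastL k := by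
  obtain ⟨a, w, hw, rfl⟩ := decomp i k
  have hne : w.toList ≠ [] := by
    intro h
    have : w = CoprodI.Word.empty := CoprodI.Word.ext h
    subst this
    exact hk a (by simp)
  have key : ∀ b : G i, lastL (CoprodI.of b * w.prod) = w.toList.getLast? := by
    intro b
    by_cases h : b = 1
    · subst h; rw [map_one, one_mul]; unfold lastL; rw [wd_of_prod]
    · unfold lastL; rw [wd_cons _ _ hw h]
      simp only [CoprodI.Word.cons]
      obtain ⟨x, l, hl⟩ := List.exists_cons_of_ne_nil hne
      rw [hl, List.getLast?_cons_cons]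
  rw [← mul_assoc, ← map_mul, key, key]

theorem wlen_mul_last {k : CoprodI G} {i : I} {z : G i} (h : lastL k = some ⟨i, z⟩) :
    wlen (k * (CoprodI.of z)⁻¹) + 1 ≤ wlen k := by
  unfold lastL at h
  have hl : (wd k).toList = (wd k).toList.dropLast ++ [⟨i, z⟩] := by
    rw [List.dropLast_append_getLast?]
    exact h
  set l := (wd k).toList.dropLast with hldef
  have h1 : ∀ x ∈ l, Sigma.snd x ≠ 1 := fun x hx =>
    (wd k).ne_one x (by rw [hl]; exact List.mem_append_left _ hx)
  have h2 : l.IsChain fun x y => Sigma.fst x ≠ Sigma.fst y := by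
    have := (wd k).chain_ne
    rw [hl] at this
    exact this.left_of_append
  let w' : CoprodI.Word G := ⟨l, h1, h2⟩
  have hprod : w'.prod * CoprodI.of z = k := by
    conv_rhs => rw [← wd_prod k]
    unfold CoprodI.Word.prod
    rw [hl]
    simp [w']
  have : k * (CoprodI.of z)⁻¹ = w'.prod := by rw [← hprod]; group
  rw [this]
  unfold wlen
  rw [wd_of_prod, hl]
  simp [w']

/-- An element with nontrivial first letter times a word is nontrivial. -/
theorem of_mul_prod_ne_one {i : I} (a : G i) (w : CoprodI.Word G) (h : w.fstIdx ≠ some i)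
    (h1 : a ≠ 1) : (CoprodI.of a * w.prod : CoprodI G) ≠ 1 := by
  intro he
  have h2 := wd_cons a w h h1
  rw [he, wd_one] at h2
  have := congrArg CoprodI.Word.toList h2
  simp [CoprodI.Word.cons, CoprodI.Word.empty] at this

end words

section counting

/-- number of elements of a list satisfying a predicate -/
noncomputable def cnt {α : Type} (s : List α) (P : α → Prop) : ℕ := by
  classical exact s.countP (fun x => decide (P x))

variable {α β : Type}

theorem cnt_nil (P : α → Prop) : cnt [] P = 0 := by simp [cnt]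

theorem cnt_cons_pos {P : α → Prop} {x : α} (s : List α) (h : P x) :
    cnt (x :: s) P = cnt s P + 1 := by
  classical
  unfold cnt; rw [List.countP_cons_of_pos]; simpa using h

theorem cnt_cons_neg {P : α → Prop} {x : α} (s : List α) (h : ¬ P x) :
    cnt (x :: s) P = cnt s P := by
  classical
  unfold cnt; rw [List.countP_cons_of_neg]; simpa using h

theorem cnt_mono (s : List α) {P Q : α → Prop} (h : ∀ x, P x → Q x) : cnt s P ≤ cnt s Q := by
  classical
  unfold cnt
  apply List.countP_mono_left
  intro x _ hx
  simp only [decide_eq_true_eq] at *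
  exact h x hx

theorem cnt_mono_mem (s : List α) {P Q : α → Prop} (h : ∀ x ∈ s, P x → Q x) :
    cnt s P ≤ cnt s Q := by
  classical
  unfold cnt
  apply List.countP_mono_left
  intro x hx1 hx
  simp only [decide_eq_true_eq] at *
  exact h x hx1 hx

theorem cnt_le_length (s : List α) (P : α → Prop) : cnt s P ≤ s.length := by
  classical
  unfold cnt; exact List.countP_le_length

theorem cnt_add_not (s : List α) (P : α → Prop) : cnt s P + cnt s (fun x => ¬ P x) = s.length := by
  induction s with
  | nil => simp [cnt_nil]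
  | cons x s ih =>
    by_cases h : P x
    · rw [cnt_cons_pos s h, cnt_cons_neg (P := fun x => ¬ P x) s (by simpa using h)]
      simp only [List.length_cons]; omega
    · rw [cnt_cons_neg s h, cnt_cons_pos (P := fun x => ¬ P x) s h]
      simp only [List.length_cons]; omega

theorem cnt_map (s : List α) (f : α → β) (P : β → Prop) :
    cnt (s.map f) P = cnt s (fun x => P (f x)) := by
  classical
  unfold cnt; rw [List.countP_map]; rfl

theorem cnt_pos {s : List α} {P : α → Prop} (h : 0 < cnt s P) : ∃ x ∈ s, P x := by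
  classical
  unfold cnt at h
  rw [List.countP_pos_iff] at h
  simpa using h

theorem sum_shift (s : List α) (P : α → Prop) (f g : α → ℕ)
    (h1 : ∀ x, P x → f x + 1 ≤ g x) (h2 : ∀ x, f x ≤ g x + 1) :
    (s.map f).sum + cnt s P ≤ (s.map g).sum + cnt s (fun x => ¬ P x) := by
  induction s with
  | nil => simp [cnt_nil]
  | cons x s ih =>
    simp only [List.map_cons, List.sum_cons]
    by_cases h : P x
    · rw [cnt_cons_pos s h, cnt_cons_neg (P := fun x => ¬ P x) s (by simpa using h)]
      have := h1 x h; omega
    · rw [cnt_cons_neg s h, cnt_cons_pos (P := fun x => ¬ P x) s h]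
      have := h2 x; omega

end counting

/-- Balanced separators of size at most `t`: for every finite multiset of points there are at most
`t` points whose deletion leaves a colouring constant along the relation, each colour class having
at most half of the mass. -/
def BS {α : Type} (R : α → α → Prop) (t : ℕ) : Prop :=
  ∀ s : List α, ∃ (Q : Finset α) (ι : Type) (κ : α → ι), Q.card ≤ t ∧
    (∀ x y, R x y → x ∉ Q → y ∉ Q → κ x = κ y) ∧
    ∀ c, 2 * cnt s (fun x => x ∉ Q ∧ κ x = c) ≤ s.length

theorem BS.mono {α : Type} {R R' : α → α → Prop} {t t' : ℕ} (h : BS R t) (ht : t ≤ t')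
    (hR : ∀ x y, R' x y → R x y) : BS R' t' := by
  intro s
  obtain ⟨Q, ι, κ, h1, h2, h3⟩ := h s
  exact ⟨Q, ι, κ, h1.trans ht, fun x y hxy => h2 x y (hR x y hxy), h3⟩

/-- Adjacency in a free product with locations. -/
def RV {I L : Type} {G : I → Type} [∀ i, Group (G i)] (S : ∀ i, Set (G i)) (loc : I → L)
    (RL : L → L → Prop) (x y : CoprodI G × L) : Prop :=
  (x.1 = y.1 ∧ RL x.2 y.2) ∨
    ∃ i, x.2 = loc i ∧ y.2 = loc i ∧ ∃ s ∈ S i, y.1 = CoprodI.of s * x.1

theorem exists_centroid {I L : Type} {G : I → Type} [∀ i, Group (G i)]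
    (s : List (CoprodI G × L)) :
    ∃ g0 : CoprodI G, ∀ (i : I) (z : G i),
      2 * cnt s (fun x => lastL (x.1 * g0⁻¹) = some ⟨i, z⟩) ≤ s.length := by
  let Φ : CoprodI G → ℕ := fun g => (s.map (fun x => wlen (x.1 * g⁻¹))).sum
  obtain ⟨g0, hg0⟩ : ∃ g0, ∀ g, Φ g0 ≤ Φ g := ⟨Function.argmin Φ, fun g => Function.argmin_le Φ g⟩
  refine ⟨g0, fun i z => ?_⟩
  by_contra hcon
  rw [not_le] at hcon
  set P : CoprodI G × L → Prop := fun x => lastL (x.1 * g0⁻¹) = some ⟨i, z⟩ with hP
  have h0 := hg0 (CoprodI.of z * g0)
  have hs := sum_shift s P (fun x => wlen (x.1 * (CoprodI.of z * g0)⁻¹))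
    (fun x => wlen (x.1 * g0⁻¹)) ?_ ?_
  · have hc := cnt_add_not s P
    simp only [Φ] at h0
    omega
  · intro x hx
    have := wlen_mul_last hx
    simp only [mul_inv_rev]
    rwa [← mul_assoc]
  · intro x
    simp only [mul_inv_rev]
    rw [← mul_assoc, ← map_inv]
    have h1 := wlen_mul_le (x.1 * g0⁻¹) (CoprodI.of z⁻¹)
    have h2 := wlen_of_le (G := G) z⁻¹
    omega

end V11198.Sep
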