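import Pool.Agent.V11198.SepFP

namespace V11198.Sep

open Monoid

/-! Balanced separators: cycles, the tree, fattening. -/

theorem BS_nil_case {α : Type} {R : α → α → Prop} {t : ℕ} :
    ∃ (Q : Finset α) (ι : Type) (κ : α → ι), Q.card ≤ t ∧
    (∀ x y, R x y → x ∉ Q → y ∉ Q → κ x = κ y) ∧
    ∀ c, 2 * cnt ([] : List α) (fun x => x ∉ Q ∧ κ x = c) ≤ ([] : List α).length :=
  ⟨∅, Unit, fun _ => (), by simp, fun _ _ _ _ _ => rfl, fun c => by simp [cnt_nil]⟩

theorem BS_subsingleton {α : Type} [Subsingleton α] (R : α → α → Prop) : BS R 1 := by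
  classical
  intro s
  cases s with
  | nil => exact BS_nil_case
  | cons a s =>
    refine ⟨{a}, Unit, fun _ => (), by simp, fun _ _ _ _ _ => rfl, fun c => ?_⟩
    dsimp only
    have : cnt (a :: s) (fun x => x ∉ ({a} : Finset α) ∧ () = c) ≤ 0 := by
      by_contra h
      push Not at h
      obtain ⟨x, _, hx, _⟩ := cnt_pos h
      exact hx (by rw [Subsingleton.elim x a]; simp)
    omega

/-- generators of a cyclic group -/
def cycS (m : ℕ) : Set (Multiplicative (ZMod m)) :=
  {Multiplicative.ofAdd 1, Multiplicative.ofAdd (-1)}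

theorem BS_cyc (m : ℕ) [NeZero m] :
    BS (fun x y : Multiplicative (ZMod m) => ∃ s ∈ cycS m, y = s * x) 2 := by
  classical
  intro s
  by_cases hs : s = []
  · subst hs; exact BS_nil_case
  have hlen : 0 < s.length := List.length_pos_of_ne_nil hs
  let v : Multiplicative (ZMod m) → ℕ := fun x => (Multiplicative.toAdd x).val
  have hex : ∃ a : ℕ, s.length < 2 * cnt s (fun x => v x ≤ a) := by
    refine ⟨m, ?_⟩
    have : s.length ≤ cnt s (fun x => v x ≤ m) := by
      have h1 := cnt_add_not s (fun x => v x ≤ m)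
      have h2 : cnt s (fun x => ¬ v x ≤ m) = 0 := by
        by_contra h
        obtain ⟨x, _, hx⟩ := cnt_pos (Nat.pos_of_ne_zero h)
        exact hx (ZMod.val_lt _).le
      omega
    omega
  let a := Nat.find hex
  have ha : s.length < 2 * cnt s (fun x => v x ≤ a) := Nat.find_spec hex
  have hmin : 2 * cnt s (fun x => v x < a) ≤ s.length := by
    by_cases h0 : a = 0
    · have : cnt s (fun x => v x < a) ≤ 0 := by
        by_contra h
        push Not at h
        obtain ⟨x, _, hx⟩ := cnt_pos h
        omega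
      omega
    · have h1 : ¬ (s.length < 2 * cnt s (fun x => v x ≤ a - 1)) := Nat.find_min hex (by omega)
      have h2 : cnt s (fun x => v x < a) ≤ cnt s (fun x => v x ≤ a - 1) :=
        cnt_mono s (fun x hx => by omega)
      omega
  have hsucc : ∀ x y : Multiplicative (ZMod m), y = Multiplicative.ofAdd 1 * x → y ≠ 1 →
      v y = v x + 1 := by
    intro x y hy hy1
    have e1 : Multiplicative.toAdd y = Multiplicative.toAdd x + 1 := by
      rw [hy, toAdd_mul, toAdd_ofAdd, add_comm]
    have hval := ZMod.val_add (Multiplicative.toAdd x) 1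
    have hv1 : v y = (v x + (1 : ZMod m).val) % m := by
      simp only [v]; rw [e1, hval]
    by_cases hm : m = 1
    · subst hm
      exact absurd (Subsingleton.elim y 1) hy1
    · have : Fact (1 < m) := ⟨by have := NeZero.ne m; omega⟩
      rw [ZMod.val_one] at hv1
      have hlt : v x < m := ZMod.val_lt _
      by_cases h2 : v x + 1 < m
      · rw [hv1, Nat.mod_eq_of_lt h2]
      · have h3 : v x + 1 = m := by omega
        rw [h3, Nat.mod_self] at hv1
        exfalso
        apply hy1
        have : Multiplicative.toAdd y = 0 := (ZMod.val_eq_zero _).mp hv1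
        exact toAdd_eq_zero.mp this
  refine ⟨{1, Multiplicative.ofAdd (a : ZMod m)}, Prop, fun x => v x < a,
    Finset.card_le_two, ?_, ?_⟩
  · have main : ∀ x y : Multiplicative (ZMod m), y = Multiplicative.ofAdd 1 * x →
        x ∉ ({1, Multiplicative.ofAdd (a : ZMod m)} : Finset (Multiplicative (ZMod m))) →
        y ∉ ({1, Multiplicative.ofAdd (a : ZMod m)} : Finset (Multiplicative (ZMod m))) →
        (v x < a) = (v y < a) := by
      intro x y hy hxQ hyQ
      simp only [Finset.mem_insert, Finset.mem_singleton, not_or] at hxQ hyQ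
      have h1 := hsucc x y hy hyQ.1
      have h2 : v y ≠ a := by
        intro h
        apply hyQ.2
        have : ((v y : ℕ) : ZMod m) = Multiplicative.toAdd y := ZMod.natCast_zmod_val _
        rw [h] at this
        rw [this]; rfl
      apply propext
      constructor <;> intro h <;> omega
    rintro x y ⟨σ, hσ, hy⟩ hxQ hyQ
    rcases hσ with rfl | rfl
    · exact main x y hy hxQ hyQ
    · refine (main y x ?_ hyQ hxQ).symm
      rw [hy, ← mul_assoc, ← ofAdd_add]
      simp
  · intro c
    dsimp only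
    by_cases hc : c
    · refine le_trans (Nat.mul_le_mul_left 2 (cnt_mono s ?_)) hmin
      rintro x ⟨_, hx⟩
      rw [hx]; exact hc
    · have h1 : cnt s (fun x => x ∉ ({1, Multiplicative.ofAdd (a : ZMod m)} :
          Finset (Multiplicative (ZMod m))) ∧ (v x < a) = c) ≤
          cnt s (fun x => ¬ v x ≤ a) := by
        apply cnt_mono
        rintro x ⟨hxQ, hx⟩
        simp only [Finset.mem_insert, Finset.mem_singleton, not_or] at hxQ
        have h2 : ¬ v x < a := by rw [hx]; exact hc
        have h3 : v x ≠ a := by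
          intro h
          apply hxQ.2
          have : ((v x : ℕ) : ZMod m) = Multiplicative.toAdd x := ZMod.natCast_zmod_val _
          rw [h] at this
          rw [this]; rfl
        omega
      have h4 := cnt_add_not s (fun x => v x ≤ a)
      omega

/-! The tree. -/

/-- vertices of the tree -/
abbrev TT : Type := ℤ × ℕ

/-- parent map -/
def par (v : TT) : TT := (v.1 + 1, v.2 / 2)

theorem par_iter (k : ℕ) (v : TT) : par^[k] v = (v.1 + k, v.2 / 2 ^ k) := by
  induction k with
  | zero => simp
  | succ k ih =>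
    rw [Function.iterate_succ_apply', ih]
    simp only [par]
    rw [Nat.div_div_eq_div_mul, pow_succ]
    ext
    · push_cast; ring
    · rfl

/-- `v` is a descendant of `u` -/
def Desc (u v : TT) : Prop := ∃ k : ℕ, par^[k] v = u

theorem Desc.par {u v : TT} (h : Desc u (par v)) : Desc u v := by
  obtain ⟨k, hk⟩ := h
  exact ⟨k + 1, by rw [Function.iterate_succ_apply]; exact hk⟩

theorem desc_ht {u v : TT} (h : Desc u v) : v.1 ≤ u.1 := by
  obtain ⟨k, hk⟩ := h
  rw [par_iter] at hk
  rw [← hk]; simp

theorem desc_top (v : TT) : ∃ N0 : ℤ, ∀ N, N0 ≤ N → Desc (N, 0) v := by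
  refine ⟨v.1 + v.2, fun N hN => ⟨(N - v.1).toNat, ?_⟩⟩
  rw [par_iter]
  have h1 : ((N - v.1).toNat : ℤ) = N - v.1 := Int.toNat_of_nonneg (by omega)
  ext
  · simp only; rw [h1]; ring
  · simp only
    apply Nat.div_eq_of_lt
    have h2 : v.2 ≤ (N - v.1).toNat := by omega
    exact lt_of_lt_of_le Nat.lt_two_pow_self (Nat.pow_le_pow_right (by norm_num) h2)

theorem list_top (s : List TT) : ∃ N0 : ℤ, ∀ N, N0 ≤ N → ∀ v ∈ s, Desc (N, 0) v := by
  induction s with
  | nil => exact ⟨0, by simp⟩
  | cons a s ih =>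
    obtain ⟨N1, h1⟩ := ih
    obtain ⟨N2, h2⟩ := desc_top a
    refine ⟨max N1 N2, fun N hN v hv => ?_⟩
    rcases List.mem_cons.mp hv with rfl | hv
    · exact h2 N (le_trans (le_max_right _ _) hN)
    · exact h1 N (le_trans (le_max_left _ _) hN) v hv

theorem list_bot (s : List TT) : ∃ b : ℤ, ∀ v ∈ s, b ≤ v.1 := by
  induction s with
  | nil => exact ⟨0, by simp⟩
  | cons a s ih =>
    obtain ⟨b, hb⟩ := ih
    refine ⟨min a.1 b, fun v hv => ?_⟩
    rcases List.mem_cons.mp hv with rfl | hv
    · exact min_le_left _ _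
    · exact (min_le_right _ _).trans (hb v hv)

theorem BS_tree : BS (fun v w : TT => w = par v) 1 := by
  classical
  intro s
  by_cases hs : s = []
  · subst hs; exact BS_nil_case
  have hlen : 0 < s.length := List.length_pos_of_ne_nil hs
  let heavy : TT → Prop := fun u => s.length < 2 * cnt s (fun v => Desc u v)
  obtain ⟨b, hb⟩ := list_bot s
  obtain ⟨N0, hN0⟩ := list_top s
  obtain ⟨lb, ⟨u, hu, hulb⟩, hlb⟩ := Int.exists_least_of_bdd (P := fun z => ∃ u, heavy u ∧ u.1 = z)
    ⟨b, by
      rintro z ⟨u, hu, rfl⟩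
      have : 0 < cnt s (fun v => Desc u v) := by
        simp only [heavy] at hu; omega
      obtain ⟨v, hv, hd⟩ := cnt_pos this
      exact (hb v hv).trans (desc_ht hd)⟩
    ⟨N0, (N0, 0), by
      simp only [heavy]
      have h1 := cnt_add_not s (fun v => Desc (N0, 0) v)
      have h2 : cnt s (fun v => ¬ Desc (N0, 0) v) = 0 := by
        by_contra h
        obtain ⟨x, hx1, hx⟩ := cnt_pos (Nat.pos_of_ne_zero h)
        exact hx (hN0 N0 le_rfl x hx1)
      omega, rfl⟩
  refine ⟨{u}, Set TT, fun v => {c | par c = u ∧ Desc c v}, by simp, ?_, ?_⟩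
  · rintro v w rfl hv hw
    simp only [Finset.mem_singleton] at hv hw
    ext c
    simp only [Set.mem_ofPred_eq]
    constructor
    · rintro ⟨h1, k, hk⟩
      refine ⟨h1, ?_⟩
      cases k with
      | zero =>
        simp only [Function.iterate_zero, id] at hk
        subst hk
        exact absurd h1 hw
      | succ k =>
        exact ⟨k, by rw [Function.iterate_succ_apply] at hk; exact hk⟩
    · rintro ⟨h1, h2⟩
      exact ⟨h1, h2.par⟩
  · intro c0
    dsimp only
    by_cases hne : ∃ c, c ∈ c0
    · obtain ⟨c, hc⟩ := hne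
      by_cases hpc : par c = u
      · have h1 : ¬ heavy c := by
          intro h
          have := hlb c.1 ⟨c, h, rfl⟩
          have h2 : c.1 + 1 = u.1 := by rw [← hpc]; rfl
          omega
        simp only [heavy, not_lt] at h1
        refine le_trans (Nat.mul_le_mul_left 2 (cnt_mono s ?_)) h1
        rintro v ⟨_, hv⟩
        rw [← hv] at hc
        exact hc.2
      · have : cnt s (fun v => v ∉ ({u} : Finset TT) ∧ {c | par c = u ∧ Desc c v} = c0) ≤ 0 := by
          by_contra h
          push Not at h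
          obtain ⟨v, _, _, hv⟩ := cnt_pos h
          rw [← hv] at hc
          exact hpc hc.1
        omega
    · have h1 : cnt s (fun v => v ∉ ({u} : Finset TT) ∧ {c | par c = u ∧ Desc c v} = c0) ≤
          cnt s (fun v => ¬ Desc u v) := by
        apply cnt_mono
        rintro v ⟨hv1, hv⟩ ⟨k, hk⟩
        simp only [Finset.mem_singleton] at hv1
        cases k with
        | zero => exact hv1 hk
        | succ k =>
          apply hne
          refine ⟨par^[k] v, ?_⟩
          rw [← hv]
          exact ⟨by rw [Function.iterate_succ_apply'] at hk; exact hk, k, rfl⟩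
      have h2 := cnt_add_not s (fun v => Desc u v)
      simp only [heavy] at hu
      omega

/-! Fattening. -/

/-- chains of given length for the symmetrized relation -/
inductive Chn {α : Type} (R : α → α → Prop) : ℕ → α → α → Prop
  | nil (x : α) : Chn R 0 x x
  | step {k : ℕ} {x z y : α} : (R x z ∨ R z x) → Chn R k z y → Chn R (k + 1) x y

variable {α : Type} {R : α → α → Prop}

theorem Chn.snoc {k : ℕ} {x y z : α} (h : Chn R k x y) (hz : R y z ∨ R z y) :
    Chn R (k + 1) x z := by
  induction h with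
  | nil x => exact .step hz (.nil z)
  | step h1 _ ih => exact .step h1 (ih hz)

theorem Chn.symm {k : ℕ} {x y : α} (h : Chn R k x y) : Chn R k y x := by
  induction h with
  | nil x => exact .nil x
  | step h1 _ ih => exact ih.snoc (h1.symm)

theorem Chn.trans {k l : ℕ} {x y z : α} (h : Chn R k x y) (h' : Chn R l y z) :
    Chn R (k + l) x z := by
  induction h with
  | nil x => simpa using h'
  | @step k x w y h1 _ ih =>
    have := Chn.step h1 (ih h')
    have e : k + 1 + l = k + l + 1 := by ring
    rw [e]; exact this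

/-- finite balls -/
noncomputable def ball {α : Type} (N : α → Finset α) : ℕ → α → Finset α
  | 0, x => {x}
  | k + 1, x => by
      classical exact {x} ∪ (N x).biUnion (ball N k)

theorem self_mem_ball (N : α → Finset α) (k : ℕ) (x : α) : x ∈ ball N k x := by
  classical
  cases k <;> simp [ball]

theorem mem_ball (N : α → Finset α) (hN : ∀ x z, (R x z ∨ R z x) → z ∈ N x) {j : ℕ} {x y : α}
    (h : Chn R j x y) : ∀ k, j ≤ k → y ∈ ball N k x := by
  classical
  induction h with
  | nil x => intro k _; exact self_mem_ball N k x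
  | step h1 _ ih =>
    intro k hk
    obtain ⟨k', rfl⟩ : ∃ k', k = k' + 1 := ⟨k - 1, by omega⟩
    simp only [ball]
    apply Finset.mem_union_right
    rw [Finset.mem_biUnion]
    exact ⟨_, hN _ _ h1, ih k' (by omega)⟩

theorem card_ball (N : α → Finset α) (Δ : ℕ) (hΔ : ∀ x, (N x).card ≤ Δ) (k : ℕ) (x : α) :
    (ball N k x).card ≤ (Δ + 1) ^ k := by
  classical
  induction k generalizing x with
  | zero => simp [ball]
  | succ k ih =>
    simp only [ball]
    refine (Finset.card_union_le _ _).trans ?_
    have h1 : ((N x).biUnion (ball N k)).card ≤ Δ * (Δ + 1) ^ k := by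
      refine Finset.card_biUnion_le.trans ?_
      refine (Finset.sum_le_card_nsmul _ _ ((Δ + 1) ^ k) (fun z _ => ih z)).trans ?_
      rw [smul_eq_mul]
      exact Nat.mul_le_mul_right _ (hΔ x)
    rw [Finset.card_singleton]
    have h2 : 1 ≤ (Δ + 1) ^ k := Nat.one_le_pow _ _ (by omega)
    calc 1 + ((N x).biUnion (ball N k)).card ≤ (Δ + 1) ^ k + Δ * (Δ + 1) ^ k := by omega
      _ = (Δ + 1) ^ (k + 1) := by ring

theorem col_chain {ι : Type} {κ : α → ι} {Q : Finset α}
    (hκ : ∀ x y, R x y → x ∉ Q → y ∉ Q → κ x = κ y) {k : ℕ} {x y : α} (h : Chn R k x y) :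
    (∀ z j, j ≤ k → Chn R j x z → z ∉ Q) → κ x = κ y := by
  induction h with
  | nil x => intro _; rfl
  | @step k x z y h1 _ ih =>
    intro hav
    have hx : x ∉ Q := hav x 0 (by omega) (.nil x)
    have hz : z ∉ Q := hav z 1 (by omega) (.step h1 (.nil z))
    have e1 : κ x = κ z := by
      rcases h1 with h | h
      · exact hκ x z h hx hz
      · exact (hκ z x h hz hx).symm
    rw [e1]
    exact ih (fun w j hj hw => hav w (j + 1) (by omega) (.step h1 hw))

theorem BS_fat {R' : α → α → Prop} {t : ℕ} (h : BS R t) (N : α → Finset α) (Δ k : ℕ)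
    (hN : ∀ x z, (R x z ∨ R z x) → z ∈ N x) (hΔ : ∀ x, (N x).card ≤ Δ)
    (hR : ∀ x y, R' x y → Chn R k x y) : BS R' (t * (Δ + 1) ^ k) := by
  classical
  intro s
  obtain ⟨Q, ι, κ, h1, h2, h3⟩ := h s
  refine ⟨Q.biUnion (ball N k), ι, κ, ?_, ?_, ?_⟩
  · refine Finset.card_biUnion_le.trans ?_
    refine (Finset.sum_le_card_nsmul _ _ ((Δ + 1) ^ k) (fun z _ => card_ball N Δ hΔ k z)).trans ?_
    rw [smul_eq_mul]
    exact Nat.mul_le_mul_right _ h1
  · intro x y hxy hx _
    refine col_chain h2 (hR x y hxy) (fun z j hj hz hzQ => hx ?_)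
    rw [Finset.mem_biUnion]
    exact ⟨z, hzQ, mem_ball N hN hz.symm k hj⟩
  · intro c
    refine le_trans (Nat.mul_le_mul_left 2 (cnt_mono s ?_)) (h3 c)
    rintro x ⟨hx, hc⟩
    refine ⟨fun hxQ => hx ?_, hc⟩
    rw [Finset.mem_biUnion]
    exact ⟨x, hxQ, self_mem_ball N k x⟩

/-- Pulling back along a map with small fibres. -/
theorem BS_comap {β : Type} {R' : β → β → Prop} {t d : ℕ} (h : BS R t) (p : β → α)
    (F : α → Finset β) (hF : ∀ x b, p b = x → b ∈ F x) (hd : ∀ x, (F x).card ≤ d)
    (hR : ∀ x y, R' x y → p x = p y ∨ R (p x) (p y)) : BS R' (t * d) := by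
  classical
  intro s
  obtain ⟨Q, ι, κ, h1, h2, h3⟩ := h (s.map p)
  have key : ∀ b, b ∉ Q.biUnion F → p b ∉ Q := by
    intro b hb hpb
    apply hb
    rw [Finset.mem_biUnion]
    exact ⟨p b, hpb, hF _ b rfl⟩
  refine ⟨Q.biUnion F, ι, fun b => κ (p b), ?_, ?_, ?_⟩
  · refine Finset.card_biUnion_le.trans ?_
    refine (Finset.sum_le_card_nsmul _ _ d (fun z _ => hd z)).trans ?_
    rw [smul_eq_mul]
    exact Nat.mul_le_mul_right _ h1
  · intro x y hxy hx hy
    rcases hR x y hxy with h | h
    · simp only [h]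
    · exact h2 _ _ h (key x hx) (key y hy)
  · intro c
    refine le_trans (Nat.mul_le_mul_left 2 ?_) ((h3 c).trans (by simp))
    rw [cnt_map]
    apply cnt_mono
    rintro x ⟨hx, hc⟩
    exact ⟨key x hx, hc⟩

end V11198.Sep
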