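import Pool.Agent.V11198.SepGen
import Pool.Agent.V11198.SepDefs

namespace V11198.Sep

open Monoid

theorem ncard_le_cnt {α : Type} (F : Finset α) (P : α → Prop) :
    {x | x ∈ F ∧ P x}.ncard ≤ cnt F.toList P := by
  classical
  have : {x | x ∈ F ∧ P x} = ((F.toList.filter (fun x => decide (P x))).toFinset : Set α) := by
    ext x; simp
  rw [this, Set.ncard_coe_finset]
  refine (List.toFinset_card_le _).trans ?_
  unfold cnt
  rw [List.countP_eq_length_filter]

theorem walk_supp {V : Type} {Γ : SimpleGraph V} (Λ : Γ.Subgraph) {x y : V}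
    (p : Λ.spanningCoe.Walk x y) (hx : x ∈ Λ.verts) : ∀ z ∈ p.support, z ∈ Λ.verts := by
  induction p with
  | nil => intro z hz; rw [SimpleGraph.Walk.support_nil, List.mem_singleton] at hz; rwa [hz]
  | cons h p ih =>
    intro z hz
    rw [SimpleGraph.Walk.support_cons, List.mem_cons] at hz
    rcases hz with rfl | hz
    · exact hx
    · rw [SimpleGraph.Subgraph.spanningCoe_adj] at h
      exact ih h.snd_mem z hz

theorem walk_short {V : Type} {Γ : SimpleGraph V} (Λ : Γ.Subgraph) (hfin : Λ.verts.Finite)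
    {x y : V} (hx : x ∈ Λ.verts) (h : Λ.spanningCoe.Reachable x y) :
    ∃ p : Γ.Walk x y, p.length < Λ.verts.ncard := by
  classical
  obtain ⟨p, hp⟩ := h.exists_isPath
  refine ⟨p.mapLe Λ.spanningCoe_le, ?_⟩
  rw [SimpleGraph.Walk.length_map]
  have h1 : p.support.toFinset.card = p.length + 1 := by
    rw [List.toFinset_card_of_nodup hp.support_nodup, SimpleGraph.Walk.length_support]
  have h2 : (p.support.toFinset : Set V).ncard ≤ Λ.verts.ncard := by
    apply Set.ncard_le_ncard _ hfin
    intro z hz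
    rw [Finset.mem_coe, List.mem_toFinset] at hz
    exact walk_supp Λ p hx z hz
  rw [Set.ncard_coe_finset, h1] at h2
  omega

variable (M : ℕ → ℕ)

theorem cut_GX (hodd : ∀ j, Odd (M j)) (hmono : Monotone M) (J n : ℕ) (hJ : 2 * n ≤ M J)
    (Λ : (GX M).Subgraph) (hfin : Λ.verts.Finite) (hn : Λ.verts.ncard ≤ n) :
    cut Λ ≤ BB J := by
  classical
  by_cases hbig : ∃ x0 ∈ Λ.verts,
      Λ.verts.ncard < 2 * {y | y ∈ Λ.verts ∧ Λ.spanningCoe.Reachable x0 y}.ncard
  · obtain ⟨x0, hx0, hbig⟩ := hbig
    set V1 : Set (VX M) := {y | y ∈ Λ.verts ∧ Λ.spanningCoe.Reachable x0 y} with hV1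
    have hV1s : V1 ⊆ Λ.verts := fun x hx => hx.1
    have hV1f : V1.Finite := hfin.subset hV1s
    have hex : ∀ y, ∃ g : CT IG0, y ∈ V1 → ∃ p : (GX M).Walk x0 y,
        p.length < Λ.verts.ncard ∧ wt M p = g := by
      intro y
      by_cases hy : y ∈ V1
      · obtain ⟨p, hp⟩ := walk_short Λ hfin hx0 hy.2
        exact ⟨wt M p, fun _ => ⟨p, hp, rfl⟩⟩
      · exact ⟨1, fun h => absurd h hy⟩
    choose g hg using hex
    let l : VX M → CT (IGs M J) × TT := fun y => (th M J (g y), y.2)
    have hinj : ∀ y ∈ V1, ∀ y' ∈ V1, l y = l y' → y = y' := by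
      intro y hy y' hy' h
      obtain ⟨p, _, hp⟩ := hg y hy
      obtain ⟨p', _, hp'⟩ := hg y' hy'
      have e1 : th M J (g y) = th M J (g y') := congrArg Prod.fst h
      have e2 : y.2 = y'.2 := (Prod.ext_iff.mp h).2
      have e3 := wt_act M p
      have e4 := wt_act M p'
      rw [hp] at e3
      rw [hp'] at e4
      have e5 : (g y : CQ M) = (g y' : CQ M) := by
        rw [QuotientGroup.eq]
        exact ⟨J, by rw [map_mul, map_inv, e1, inv_mul_cancel]⟩
      apply Prod.ext _ e2
      rw [e3, e4, e5]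
    have hadj : ∀ y ∈ V1, ∀ y' ∈ V1, (GX M).Adj y y' → RC M J (l y) (l y') ∨
        RC M J (l y') (l y) := by
      intro y hy y' hy' h
      obtain ⟨p, hpl, hp⟩ := hg y hy
      obtain ⟨p', hpl', hp'⟩ := hg y' hy'
      have hs := wt_short M hodd hmono (J := J) (p.append (SimpleGraph.Walk.cons h p'.reverse)) (by
        simp only [SimpleGraph.Walk.length_append, SimpleGraph.Walk.length_cons,
          SimpleGraph.Walk.length_reverse]
        omega)
      rw [wt_append, wt_cons, wt_reverse, hp, hp'] at hs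
      have e : th M J (g y') = th M J (dw M y y') * th M J (g y) := by
        simp only [map_mul, map_inv] at hs
        rw [mul_assoc, inv_mul_eq_one] at hs
        exact hs
      rw [GX_adj] at h
      rcases h.2 with (⟨h1, h2⟩ | ⟨h1, h2⟩) | (⟨h1, h2⟩ | ⟨h1, h2⟩)
      · left; left
        refine ⟨?_, h2⟩
        have hne : y.2 ≠ y'.2 := by rw [h2]; exact (par_ne _).symm
        rw [dw, if_neg hne, map_one, one_mul] at e
        exact e.symm
      · left; right
        refine ⟨h1, ?_⟩
        rw [dw, if_pos h1] at e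
        exact e
      · right; left
        refine ⟨?_, h2⟩
        have hne : y.2 ≠ y'.2 := by rw [h2]; exact (par_ne _)
        rw [dw, if_neg hne, map_one, one_mul] at e
        exact e
      · left; right
        refine ⟨h1.symm, ?_⟩
        rw [dw, if_pos h1.symm] at e
        exact e
    obtain ⟨Q, ι, κ, hQ, hκ, hc⟩ := BS_RC M hodd J (hV1f.toFinset.toList.map l)
    let S : Set (VX M) := {y | y ∈ V1 ∧ l y ∈ Q}
    have hScard : S.ncard ≤ BB J := by
      refine le_trans ?_ hQ
      rw [← Set.ncard_coe_finset]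
      exact Set.ncard_le_ncard_of_injOn l (fun y hy => hy.2)
        (fun y hy y' hy' h => hinj y hy.1 y' hy'.1 h) Q.finite_toSet
    refine le_trans (cut_le_of_col Λ hfin (ι := Option ι) S
      (fun y => if y ∈ V1 then some (κ (l y)) else none) (fun y hy => hV1s hy.1) ?_ ?_) hScard
    · intro y y' hyy' hy hy'
      have hr : y ∈ V1 ↔ y' ∈ V1 := by
        have h1 : Λ.spanningCoe.Adj y y' := hyy'
        constructor
        · rintro ⟨_, h⟩
          exact ⟨hyy'.snd_mem, h.trans h1.reachable⟩
        · rintro ⟨_, h⟩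
          exact ⟨hyy'.fst_mem, h.trans h1.symm.reachable⟩
      by_cases hV : y ∈ V1
      · have hV' := hr.mp hV
        rw [if_pos hV, if_pos hV']
        have hq : l y ∉ Q := fun h => hy ⟨hV, h⟩
        have hq' : l y' ∉ Q := fun h => hy' ⟨hV', h⟩
        rcases hadj y hV y' hV' (Λ.adj_sub hyy') with h | h
        · rw [hκ _ _ h hq hq']
        · rw [hκ _ _ h hq' hq]
      · rw [if_neg hV, if_neg (fun h => hV (hr.mpr h))]
    · intro c
      cases c with
      | none =>
        have h1 : {x | x ∈ Λ.verts ∧ x ∉ S ∧ (if x ∈ V1 then some (κ (l x)) else none) = none} ⊆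
            Λ.verts \ V1 := by
          rintro x ⟨hx1, _, hx2⟩
          refine ⟨hx1, fun hx => ?_⟩
          rw [if_pos hx] at hx2
          cases hx2
        have h2 := Set.ncard_le_ncard h1 (hfin.subset Set.sdiff_subset)
        have h3 := Set.ncard_sdiff_add_ncard_of_subset hV1s hfin
        omega
      | some c =>
        have h1 : {x | x ∈ Λ.verts ∧ x ∉ S ∧ (if x ∈ V1 then some (κ (l x)) else none) = some c} ⊆
            {x | x ∈ hV1f.toFinset ∧ (l x ∉ Q ∧ κ (l x) = c)} := by
          rintro x ⟨hx1, hx3, hx2⟩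
          by_cases hx : x ∈ V1
          · rw [if_pos hx] at hx2
            exact ⟨hV1f.mem_toFinset.mpr hx, fun h => hx3 ⟨hx, h⟩, Option.some.inj hx2⟩
          · rw [if_neg hx] at hx2
            cases hx2
        have h2 := Set.ncard_le_ncard h1 (hV1f.subset (fun x hx => hV1f.mem_toFinset.mp hx.1))
        have h3 := ncard_le_cnt hV1f.toFinset (fun x => l x ∉ Q ∧ κ (l x) = c)
        have h4 := hc c
        rw [cnt_map, List.length_map, Finset.length_toList] at h4
        have h5 : hV1f.toFinset.card = V1.ncard := (Set.ncard_eq_toFinset_card _ hV1f).symm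
        have h6 := Set.ncard_le_ncard hV1s hfin
        omega
  · push Not at hbig
    refine le_trans (cut_le_of_col Λ hfin (ι := Set (VX M)) ∅
      (fun x => {y | Λ.spanningCoe.Reachable x y}) (Set.empty_subset _) ?_ ?_) ?_
    · intro x y hxy _ _
      have h1 : Λ.spanningCoe.Adj x y := hxy
      ext z
      exact ⟨fun h => h1.symm.reachable.trans h, fun h => h1.reachable.trans h⟩
    · intro c
      by_cases hne : ∃ x, x ∈ Λ.verts ∧ {y | Λ.spanningCoe.Reachable x y} = c
      · obtain ⟨x, hx1, hx2⟩ := hne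
        refine le_trans (Nat.mul_le_mul_left 2 (Set.ncard_le_ncard ?_
          (hfin.subset (fun y hy => hy.1)))) (hbig x hx1)
        rintro y ⟨hy1, _, hy2⟩
        refine ⟨hy1, ?_⟩
        have : y ∈ {z | Λ.spanningCoe.Reachable y z} := SimpleGraph.Reachable.refl y
        rw [hy2, ← hx2] at this
        exact this
      · have : {x | x ∈ Λ.verts ∧ x ∉ (∅ : Set (VX M)) ∧
            {y | Λ.spanningCoe.Reachable x y} = c} = ∅ := by
          ext x
          simp only [Set.mem_ofPred_eq, Set.mem_empty_iff_false, iff_false]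
          rintro ⟨h1, _, h2⟩
          exact hne ⟨x, h1, h2⟩
        rw [this]
        simp
    · simp

end V11198.Sep
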