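import Pool.Agent.V11198.SepA

namespace V11198.Sep

open Monoid

variable {I L : Type} {G : I → Type} [∀ i, Group (G i)]

theorem lastL_of' {i : I} (a : G i) :
    (a = 1 ∧ lastL (CoprodI.of a : CoprodI G) = none) ∨
      (a ≠ 1 ∧ lastL (CoprodI.of a : CoprodI G) = some ⟨i, a⟩) := by
  by_cases h : a = 1
  · left; refine ⟨h, ?_⟩; rw [h, map_one, lastL_one]
  · right; exact ⟨h, lastL_of a h⟩

open Classical in
/-- The letter in the factor `i`, or `1`. -/
noncomputable def prO (i : I) (o : Option (Σ i, G i)) : G i :=
  if h : ∃ z : G i, o = some ⟨i, z⟩ then h.choose else 1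

/-- Projection of a word to its last letter, if it lies in the factor `i`. -/
noncomputable def pr (i : I) (k : CoprodI G) : G i := prO i (lastL k)

theorem pr_of_some {i : I} {k : CoprodI G} {z : G i} (h : lastL k = some ⟨i, z⟩) :
    pr i k = z := by
  have hex : ∃ z : G i, lastL k = some ⟨i, z⟩ := ⟨z, h⟩
  unfold pr prO
  rw [dif_pos hex]
  have h2 := h.symm.trans hex.choose_spec
  have := Option.some.inj h2
  exact (eq_of_heq (Sigma.mk.inj this).2).symm

theorem pr_of_none {i : I} {k : CoprodI G} (h : ¬ ∃ z : G i, lastL k = some ⟨i, z⟩) :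
    pr i k = 1 := by
  unfold pr prO
  rw [dif_neg h]

theorem pr_congr {i : I} {k k' : CoprodI G} (h : lastL k = lastL k') : pr i k = pr i k' := by
  unfold pr
  rw [h]

theorem pr_of (i : I) (a : G i) : pr i (CoprodI.of a : CoprodI G) = a := by
  rcases lastL_of' a with ⟨h, h2⟩ | ⟨h, h2⟩
  · rw [pr_of_none (by rw [h2]; simp), h]
  · exact pr_of_some h2

theorem pr_of_ne {i j : I} (hij : j ≠ i) (a : G j) : pr i (CoprodI.of a : CoprodI G) = 1 := by
  apply pr_of_none
  rintro ⟨z, hz⟩
  rcases lastL_of' a with ⟨h, h2⟩ | ⟨h, h2⟩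
  · rw [h2] at hz; cases hz
  · rw [h2] at hz
    exact hij (Sigma.mk.inj (Option.some.inj hz)).1

theorem lastL_of_pr {i : I} {k : CoprodI G} {z : G i} (hz : z ≠ 1) (h : pr i k = z) :
    lastL k = some ⟨i, z⟩ := by
  by_cases hex : ∃ z : G i, lastL k = some ⟨i, z⟩
  · obtain ⟨z', hz'⟩ := hex
    have := pr_of_some hz'
    rw [h] at this
    rw [this]; exact hz'
  · rw [pr_of_none hex] at h
    exact absurd h.symm hz

theorem BS_fp (S : ∀ i, Set (G i)) (loc : I → L) (RL : L → L → Prop) (t : ℕ)
    (hG : ∀ i, BS (fun x y : G i => ∃ s ∈ S i, y = s * x) t) (hL : BS RL t) :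
    BS (RV S loc RL) t := by
  classical
  intro s
  obtain ⟨g0, hg0⟩ := exists_centroid s
  by_cases hA : ∃ i, s.length < 2 * cnt s (fun x => ∃ z : G i, lastL (x.1 * g0⁻¹) = some ⟨i, z⟩)
  · obtain ⟨i, hi⟩ := hA
    obtain ⟨Qi, ι, κ, hc, hadj, hmass⟩ := hG i (s.map (fun x => pr i (x.1 * g0⁻¹)))
    refine ⟨Qi.image (fun a => (CoprodI.of a * g0, loc i)), ι ⊕ G i,
      fun x => if pr i (x.1 * g0⁻¹) ∈ Qi then Sum.inr (pr i (x.1 * g0⁻¹))
        else Sum.inl (κ (pr i (x.1 * g0⁻¹))), Finset.card_image_le.trans hc, ?_, ?_⟩
    · rintro ⟨x1, x2⟩ ⟨y1, y2⟩ hxy hx hy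
      rcases hxy with ⟨h1, _⟩ | ⟨j, hxj, hyj, σ, hσ, h1⟩
      · simp only at h1; subst h1; rfl
      · simp only at hxj hyj h1
        subst hxj; subst hyj; subst h1
        by_cases hk : ∃ a : G j, x1 * g0⁻¹ = CoprodI.of a
        · obtain ⟨a, ha⟩ := hk
          have hx1 : x1 = CoprodI.of a * g0 := by rw [← ha]; group
          subst hx1
          have e1 : (CoprodI.of a * g0 * g0⁻¹ : CoprodI G) = CoprodI.of a := by group
          have e2 : (CoprodI.of σ * (CoprodI.of a * g0) * g0⁻¹ : CoprodI G)
              = CoprodI.of (σ * a) := by rw [map_mul]; group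
          by_cases hji : j = i
          · subst hji
            simp only [e1, e2, pr_of]
            have n1 : a ∉ Qi := fun h => hx (Finset.mem_image.mpr ⟨a, h, rfl⟩)
            have n2 : σ * a ∉ Qi := fun h => hy (Finset.mem_image.mpr ⟨σ * a, h, by
              rw [map_mul, mul_assoc]⟩)
            rw [if_neg n1, if_neg n2]
            rw [hadj a (σ * a) ⟨σ, hσ, rfl⟩ n1 n2]
          · simp only [e1, e2, pr_of_ne hji]
        · push Not at hk
          have : lastL (CoprodI.of σ * x1 * g0⁻¹) = lastL (x1 * g0⁻¹) := by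
            rw [mul_assoc]; exact lastL_of_mul σ _ hk
          simp only [pr_congr this]
    · intro c
      rcases c with c | z
      · refine le_trans ?_ ((hmass c).trans (by simp))
        rw [cnt_map]
        apply Nat.mul_le_mul_left
        apply cnt_mono
        rintro x ⟨_, hx⟩
        dsimp only at hx
        split_ifs at hx with h
        exact ⟨h, Sum.inl.inj hx⟩
      · by_cases hz : z = 1
        · dsimp only
          have h1 : cnt s (fun x => x ∉ Qi.image (fun a => (CoprodI.of a * g0, loc i)) ∧
              (if pr i (x.1 * g0⁻¹) ∈ Qi then Sum.inr (pr i (x.1 * g0⁻¹))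
              else Sum.inl (κ (pr i (x.1 * g0⁻¹)))) = (Sum.inr z : ι ⊕ G i)) ≤
              cnt s (fun x => ¬ ∃ z : G i, lastL (x.1 * g0⁻¹) = some ⟨i, z⟩) := by
            apply cnt_mono
            rintro x ⟨_, hx⟩
            split_ifs at hx with h
            have h2 : pr i (x.1 * g0⁻¹) = 1 := by rw [← hz]; exact Sum.inr.inj hx
            rintro ⟨z', hz'⟩
            rw [pr_of_some hz'] at h2
            exact lastL_ne_one hz' h2
          have h3 := cnt_add_not s (fun x => ∃ z : G i, lastL (x.1 * g0⁻¹) = some ⟨i, z⟩)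
          omega
        · refine le_trans (Nat.mul_le_mul_left 2 ?_) (hg0 i z)
          apply cnt_mono
          rintro x ⟨_, hx⟩
          dsimp only at hx
          split_ifs at hx with h
          exact lastL_of_pr hz (Sum.inr.inj hx)
  · push Not at hA
    let locf : CoprodI G × L → L := fun x =>
      match lastL (x.1 * g0⁻¹) with
      | none => x.2
      | some p => loc p.1
    obtain ⟨QL, ι, κ, hc, hadj, hmass⟩ := hL (s.map locf)
    let col : CoprodI G × L → ι ⊕ I := fun x =>
      match lastL (x.1 * g0⁻¹) with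
      | none => Sum.inl (κ x.2)
      | some p => if loc p.1 ∈ QL then Sum.inr p.1 else Sum.inl (κ (loc p.1))
    have memQ : ∀ l, (g0, l) ∈ QL.image (fun l => (g0, l)) ↔ l ∈ QL := by
      intro l; simp
    refine ⟨QL.image (fun l => (g0, l)), ι ⊕ I, col, Finset.card_image_le.trans hc, ?_, ?_⟩
    · rintro ⟨x1, x2⟩ ⟨y1, y2⟩ hxy hx hy
      rcases hxy with ⟨h1, h2⟩ | ⟨j, hxj, hyj, σ, hσ, h1⟩
      · simp only at h1 h2; subst h1
        simp only [col]
        cases hl : lastL (x1 * g0⁻¹) with
        | none =>
          have hx1 : x1 = g0 := by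
            have := lastL_none hl
            exact mul_inv_eq_one.mp this
          subst hx1
          rw [memQ] at hx hy
          simp only
          rw [hadj x2 y2 h2 hx hy]
        | some p => rfl
      · simp only at hxj hyj h1
        subst hxj; subst hyj; subst h1
        by_cases hk : ∃ a : G j, x1 * g0⁻¹ = CoprodI.of a
        · obtain ⟨a, ha⟩ := hk
          have key : ∀ (b : G j), (CoprodI.of b * g0, loc j) ∉ QL.image (fun l => (g0, l)) →
              col (CoprodI.of b * g0, loc j) =
                if loc j ∈ QL then Sum.inr j else Sum.inl (κ (loc j)) := by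
            intro b hb
            have e1 : (CoprodI.of b * g0 * g0⁻¹ : CoprodI G) = CoprodI.of b := by group
            simp only [col, e1]
            rcases lastL_of' b with ⟨h, h2⟩ | ⟨h, h2⟩
            · rw [h2]
              subst h
              rw [map_one, one_mul, memQ] at hb
              rw [if_neg hb]
            · rw [h2]
          have hx1 : x1 = CoprodI.of a * g0 := by rw [← ha]; group
          subst hx1
          have e3 : (CoprodI.of σ * (CoprodI.of a * g0) : CoprodI G) = CoprodI.of (σ * a) * g0 := by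
            rw [map_mul, mul_assoc]
          rw [e3] at hy ⊢
          rw [key a hx, key (σ * a) hy]
        · push Not at hk
          have : lastL (CoprodI.of σ * x1 * g0⁻¹) = lastL (x1 * g0⁻¹) := by
            rw [mul_assoc]; exact lastL_of_mul σ _ hk
          simp only [col, this]
    · intro c
      rcases c with c | i
      · refine le_trans ?_ ((hmass c).trans (by simp))
        rw [cnt_map]
        apply Nat.mul_le_mul_left
        apply cnt_mono
        rintro ⟨x1, x2⟩ ⟨hxQ, hx⟩
        simp only [col] at hx
        simp only [locf]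
        cases hl : lastL (x1 * g0⁻¹) with
        | none =>
          rw [hl] at hx
          have hx1 : x1 = g0 := mul_inv_eq_one.mp (lastL_none hl)
          subst hx1
          rw [memQ] at hxQ
          exact ⟨hxQ, Sum.inl.inj hx⟩
        | some p =>
          rw [hl] at hx
          simp only at hx ⊢
          split_ifs at hx with h
          exact ⟨h, Sum.inl.inj hx⟩
      · refine le_trans (Nat.mul_le_mul_left 2 ?_) (hA i)
        apply cnt_mono
        rintro ⟨x1, x2⟩ ⟨hxQ, hx⟩
        simp only [col] at hx
        cases hl : lastL (x1 * g0⁻¹) with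
        | none => rw [hl] at hx; cases hx
        | some p =>
          rw [hl] at hx
          simp only at hx
          split_ifs at hx with h
          obtain ⟨p1, p2⟩ := p
          have := Sum.inr.inj hx
          simp only at this
          subst this
          exact ⟨p2, rfl⟩

end V11198.Sep
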