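import Pool.Agent.V11198.SepX

namespace V11198.Sep

open Monoid

/-! Separation in the approximating groups. -/

variable (M : ℕ → ℕ)

/-- embedding -/
def eFS (j : ℕ) (b : Bool) : (IGs M j).F →* (IGs M (j + 1)).F := eF (M j) (IGs M j) b

/-- rotation -/
def rrS (j : ℕ) (e : ℤ) : (IGs M (j + 1)).F := rr (M j) (IGs M j) e

/-- embedding -/
def emS (j : ℕ) (b : Bool) : CC (IGs M j) →* CC (IGs M (j + 1)) := em (M j) (IGs M j) b

/-- rotation -/
def RtS (j : ℕ) (e : ℤ) : CC (IGs M (j + 1)) := Rt (M j) (IGs M j) e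

/-- generators of the groups -/
def gl : (j : ℕ) → List (IGs M j).F
  | 0 => []
  | j + 1 => (gl j).map (eFS M j false) ++ (gl j).map (eFS M j true) ++ [rrS M j 1, rrS M j (-1)]

theorem gl_len (j : ℕ) : (gl M j).length + 2 = 2 ^ (j + 1) := by
  induction j with
  | zero => rfl
  | succ j ih =>
    have : (gl M (j + 1)).length = (gl M j).length + (gl M j).length + 2 := by
      change ((gl M j).map (eFS M j false) ++ (gl M j).map (eFS M j true) ++
        [rrS M j 1, rrS M j (-1)]).length = _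
      simp
      ring
    rw [this, pow_succ, ← ih]; ring

theorem mem_gl_succ (j : ℕ) (s : (IGs M (j + 1)).F) : s ∈ gl M (j + 1) ↔
    (∃ b, ∃ t ∈ gl M j, eFS M j b t = s) ∨ s = rrS M j 1 ∨ s = rrS M j (-1) := by
  change s ∈ (gl M j).map (eFS M j false) ++ (gl M j).map (eFS M j true) ++
    [rrS M j 1, rrS M j (-1)] ↔ _
  rw [List.mem_append, List.mem_append, List.mem_map, List.mem_map, Bool.exists_bool]
  simp only [List.mem_cons, List.not_mem_nil, or_false]

theorem gl_τ (j : ℕ) : ∀ s ∈ gl M j, (IGs M j).τ s ∈ gl M j := by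
  induction j with
  | zero => intro s hs; simp [gl] at hs
  | succ j ih =>
    intro s hs
    rw [mem_gl_succ] at hs ⊢
    rcases hs with ⟨b, t, ht, rfl⟩ | rfl | rfl
    · left
      exact ⟨b, (IGs M j).τ t, ih t ht, (τ_eF (M j) (IGs M j) b t).symm⟩
    · right; right; exact τ_rr (M j) (IGs M j) 1
    · right; left; exact τ_rr (M j) (IGs M j) (-1)

theorem gl_tw (j : ℕ) (d : Bool) (s : (IGs M j).F) (hs : s ∈ gl M j) :
    (IGs M j).tw d s ∈ gl M j := by
  cases d
  · exact hs
  · exact gl_τ M j s hs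

/-- a fattening lemma with shorter chains allowed -/
theorem BS_fat' {α : Type} {R R' : α → α → Prop} {t : ℕ} (h : BS R t) (N : α → Finset α)
    (Δ k : ℕ) (hN : ∀ x z, (R x z ∨ R z x) → z ∈ N x) (hΔ : ∀ x, (N x).card ≤ Δ)
    (hR : ∀ x y, R' x y → ∃ j ≤ k, Chn R j x y) : BS R' (t * (Δ + 1) ^ k) := by
  classical
  intro s
  obtain ⟨Q, ι, κ, h1, h2, h3⟩ := h s
  refine ⟨Q.biUnion (ball N k), ι, κ, ?_, ?_, ?_⟩
  · refine Finset.card_biUnion_le.trans ?_
    refine (Finset.sum_le_card_nsmul _ _ ((Δ + 1) ^ k) (fun z _ => card_ball N Δ hΔ k z)).trans ?_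
    rw [smul_eq_mul]
    exact Nat.mul_le_mul_right _ h1
  · intro x y hxy hx _
    obtain ⟨i, hi, hc⟩ := hR x y hxy
    refine col_chain h2 hc (fun z j hj hz hzQ => hx ?_)
    rw [Finset.mem_biUnion]
    exact ⟨z, hzQ, mem_ball N hN hz.symm k (hj.trans hi)⟩
  · intro c
    refine le_trans (Nat.mul_le_mul_left 2 (cnt_mono s ?_)) (h3 c)
    rintro x ⟨hx, hc⟩
    refine ⟨fun hxQ => hx ?_, hc⟩
    rw [Finset.mem_biUnion]
    exact ⟨x, hxQ, self_mem_ball N k x⟩

/-- generator sets of the factors -/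
def famS (j : ℕ) : ∀ i : Option Bool, Set (Fam (M j) (IGs M j) i)
  | none => cycS (M j)
  | some _ => {s : (IGs M j).F | s ∈ gl M j}

theorem BS_F (hodd : ∀ j, Odd (M j)) (j : ℕ) :
    BS (fun x y : (IGs M j).F => ∃ s ∈ gl M j, y = s * x) 2 := by
  induction j with
  | zero =>
    have : Subsingleton (IGs M 0).F := inferInstanceAs (Subsingleton PUnit)
    exact (BS_subsingleton _).mono (by norm_num) (fun _ _ h => h)
  | succ j ih =>
    have : NeZero (M j) := ⟨by have := hodd j; rintro h; rw [h] at this; exact absurd this (by decide)⟩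
    have h1 := BS_fp (G := Fam (M j) (IGs M j)) (L := Unit) (famS M j) (fun _ => ())
      (fun _ _ => False) 2 (by
        intro i
        cases i with
        | none => exact BS_cyc (M j)
        | some b => exact ih)
      ((BS_subsingleton _).mono (by norm_num) (fun _ _ h => h))
    have h2 := BS_comap (β := (IGs M (j + 1)).F)
      (R' := fun x y : (IGs M (j + 1)).F => ∃ s ∈ gl M (j + 1), y = s * x) (d := 1) h1
      (fun x => (x, ())) (fun x => ({x.1} : Finset (IGs M (j + 1)).F)) (by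
        rintro x b rfl
        exact Finset.mem_singleton_self (α := (IGs M (j + 1)).F) b) (by
        intro x
        exact (Finset.card_singleton (α := (IGs M (j + 1)).F) x.1).le) (by
        rintro x y ⟨s, hs, rfl⟩
        right
        right
        rw [mem_gl_succ] at hs
        rcases hs with ⟨b, t, ht, rfl⟩ | rfl | rfl
        · exact ⟨some b, rfl, rfl, t, ht, rfl⟩
        · refine ⟨none, rfl, rfl, Multiplicative.ofAdd (1 : ZMod (M j)), Or.inl rfl, ?_⟩
          unfold rrS rr
          simp only [Int.cast_one]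
          rfl
        · refine ⟨none, rfl, rfl, Multiplicative.ofAdd (-1 : ZMod (M j)), Or.inr rfl, ?_⟩
          unfold rrS rr
          simp only [Int.cast_neg, Int.cast_one]
          rfl)
    simpa using h2

/-- generators of the lamp groups -/
def cS (j : ℕ) : Set (CC (IGs M j)) := {x | x = zt (IGs M j) ∨ ∃ s ∈ gl M j, x = emF _ s}

theorem BS_CC (hodd : ∀ j, Odd (M j)) (j : ℕ) :
    BS (fun x y : CC (IGs M j) => ∃ s ∈ cS M j, y = s * x) 4 := by
  classical
  refine BS_comap (t := 2) (d := 2) (BS_F M hodd j) CC.f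
    (fun f => {⟨true, f⟩, ⟨false, f⟩}) ?_ (fun _ => Finset.card_le_two) ?_
  · rintro x ⟨d, f⟩ h
    simp only at h
    subst h
    cases d <;> simp
  · rintro x y ⟨s, hs | ⟨u, hu, hs⟩, rfl⟩
    · left
      rw [hs, CC.mul_f]
      change x.f = (IGs M j).tw x.d 1 * x.f
      rw [map_one, one_mul]
    · right
      refine ⟨(IGs M j).tw x.d u, gl_tw M j _ _ hu, ?_⟩
      rw [hs, CC.mul_f]
      rfl

/-- relation of the fine graph -/
def RF (j : ℕ) : CT (IGs M j) × TT → CT (IGs M j) × TT → Prop :=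
  RV (fun _ => cS M j) id (fun v w => w = par v)

theorem BS_RF (hodd : ∀ j, Odd (M j)) (j : ℕ) : BS (RF M j) 4 :=
  BS_fp (fun _ => cS M j) id (fun v w => w = par v) 4 (fun _ => BS_CC M hodd j)
    (BS_tree.mono (by norm_num) (fun _ _ h => h))

/-- neighbours in the fine graph -/
noncomputable def nbL (j : ℕ) (x : CT (IGs M j) × TT) : List (CT (IGs M j) × TT) :=
  [(x.1, par x.2), (x.1, (x.2.1 - 1, 2 * x.2.2)), (x.1, (x.2.1 - 1, 2 * x.2.2 + 1))] ++
  (zt (IGs M j) :: (gl M j).map (emF _)).map (fun s => (CoprodI.of (i := x.2) s * x.1, x.2)) ++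
  (zt (IGs M j) :: (gl M j).map (emF _)).map (fun s => ((CoprodI.of (i := x.2) s)⁻¹ * x.1, x.2))

theorem nbL_len (j : ℕ) (x : CT (IGs M j) × TT) : (nbL M j x).length ≤ 2 ^ (j + 2) + 1 := by
  have h := gl_len M j
  unfold nbL
  simp only [List.length_append, List.length_map, List.length_cons, List.length_nil]
  rw [pow_succ]
  omega

theorem child_cases {u v : TT} (h : u = par v) :
    v = (u.1 - 1, 2 * u.2) ∨ v = (u.1 - 1, 2 * u.2 + 1) := by
  have h3 : u.1 = v.1 + 1 := congrArg Prod.fst h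
  have h4 : u.2 = v.2 / 2 := congrArg Prod.snd h
  rcases Nat.mod_two_eq_zero_or_one v.2 with h | h
  · left; ext <;> simp only <;> omega
  · right; ext <;> simp only <;> omega

theorem mem_nbL (j : ℕ) (x z : CT (IGs M j) × TT) (h : RF M j x z ∨ RF M j z x) :
    z ∈ nbL M j x := by
  obtain ⟨g, v⟩ := x
  obtain ⟨g', v'⟩ := z
  unfold nbL
  rw [List.mem_append, List.mem_append]
  rcases h with (⟨h1, h2⟩ | ⟨i, h1, h2, s, hs, h3⟩) | (⟨h1, h2⟩ | ⟨i, h1, h2, s, hs, h3⟩)
  · left; left
    simp only at h1 h2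
    subst h1; subst h2
    simp
  · left; right
    simp only [id] at h1 h2 h3
    subst h1; subst h2; subst h3
    rw [List.mem_map]
    refine ⟨s, ?_, rfl⟩
    rcases hs with rfl | ⟨t, ht, rfl⟩
    · simp
    · simp only [List.mem_cons, List.mem_map]
      right; exact ⟨t, ht, rfl⟩
  · left; left
    simp only at h1 h2
    subst h1
    rcases child_cases h2 with h | h
    · rw [h]; simp
    · rw [h]; simp
  · right
    simp only [id] at h1 h2 h3
    subst h1; subst h2
    rw [List.mem_map]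
    refine ⟨s, ?_, ?_⟩
    · rcases hs with rfl | ⟨t, ht, rfl⟩
      · simp
      · simp only [List.mem_cons, List.mem_map]
        right; exact ⟨t, ht, rfl⟩
    · simp only [h3]
      rw [inv_mul_cancel_left]

/-- short words for the lamps -/
theorem lam_word (v : TT) (j : ℕ) : ∃ l : List (CC (IGs M j)), l.length ≤ 2 * j + 1 ∧
    (∀ s ∈ l, s ∈ cS M j) ∧ l.prod = lam M v j (zt IG0) := by
  induction j with
  | zero =>
    refine ⟨[zt IG0], by simp, ?_, by simp; rfl⟩
    intro s hs
    rw [List.mem_singleton] at hs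
    exact Or.inl hs
  | succ j ih =>
    obtain ⟨l, h1, h2, h3⟩ := ih
    refine ⟨RtS M j (sg (bt (par^[j] v))) ::
      (l.map (emS M j (bt (par^[j] v))) ++ [RtS M j (-sg (bt (par^[j] v)))]), ?_, ?_, ?_⟩
    · simp only [List.length_cons, List.length_append, List.length_map, List.length_nil]
      omega
    · have hR : ∀ b, RtS M j (sg b) ∈ cS M (j + 1) := by
        intro b
        right
        cases b
        · exact ⟨_, (mem_gl_succ M j _).mpr (Or.inr (Or.inl rfl)), rfl⟩
        · exact ⟨_, (mem_gl_succ M j _).mpr (Or.inr (Or.inr rfl)), rfl⟩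
      intro s hs
      rw [List.mem_cons, List.mem_append, List.mem_map, List.mem_singleton] at hs
      rcases hs with rfl | ⟨t, ht, rfl⟩ | rfl
      · exact hR _
      · rcases h2 t ht with rfl | ⟨u, hu, rfl⟩
        · left
          apply CC.ext
          · rfl
          · exact map_one (eFS M j _)
        · right
          exact ⟨eFS M j _ u, (mem_gl_succ M j _).mpr (Or.inl ⟨_, u, hu, rfl⟩), rfl⟩
      · rw [← sg_not]; exact hR _
    · rw [List.prod_cons, List.prod_append, List.prod_singleton, ← map_list_prod, h3,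
        ← mul_assoc]
      exact (io_apply (M j) (IGs M j) _ _).symm

theorem chn_up (j k : ℕ) (g : CT (IGs M j)) (v : TT) : Chn (RF M j) k (g, v) (g, par^[k] v) := by
  induction k with
  | zero => exact .nil _
  | succ k ih =>
    rw [Function.iterate_succ_apply']
    exact ih.snoc (Or.inl (Or.inl ⟨rfl, rfl⟩))

theorem chn_word (j : ℕ) (u : TT) (l : List (CC (IGs M j))) (hl : ∀ s ∈ l, s ∈ cS M j)
    (g : CT (IGs M j)) : Chn (RF M j) l.length (g, u)
      (CoprodI.of (M := fun _ : TT => CC (IGs M j)) (i := u) l.prod * g, u) := by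
  induction l with
  | nil => simp only [List.prod_nil, map_one, one_mul]; exact .nil _
  | cons s l ih =>
    rw [List.prod_cons, map_mul, mul_assoc]
    refine (ih (fun t ht => hl t (List.mem_cons_of_mem _ ht))).snoc (Or.inl (Or.inr ⟨u, rfl, rfl, s,
      hl s (List.mem_cons_self), rfl⟩))

/-- relation of the coarse graph -/
def RC (j : ℕ) (x y : CT (IGs M j) × TT) : Prop :=
  (x.1 = y.1 ∧ y.2 = par x.2) ∨ (x.2 = y.2 ∧ y.1 = th M j (lmp x.2) * x.1)

theorem RC_chn (j : ℕ) (x y : CT (IGs M j) × TT) (h : RC M j x y) :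
    ∃ i ≤ 4 * j + 1, Chn (RF M j) i x y := by
  obtain ⟨g, v⟩ := x
  obtain ⟨g', v'⟩ := y
  rcases h with ⟨h1, h2⟩ | ⟨h1, h2⟩
  · simp only at h1 h2
    subst h1; subst h2
    exact ⟨1, by omega, chn_up M j 1 g v⟩
  · simp only at h1 h2
    subst h1; subst h2
    obtain ⟨l, hl1, hl2, hl3⟩ := lam_word M v j
    refine ⟨j + (l.length + j), by omega, ?_⟩
    refine (chn_up M j j g v).trans ((chn_word M j _ l hl2 g).trans ?_)
    have e : th M j (lmp v) = CoprodI.of (M := fun _ : TT => CC (IGs M j)) (i := par^[j] v)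
        l.prod := by
      rw [hl3]; exact th_of M j v _
    rw [← e]
    exact (chn_up M j j _ v).symm

/-- the bound -/
def BB (j : ℕ) : ℕ := 4 * (2 ^ (j + 2) + 2) ^ (4 * j + 1)

theorem BS_RC (hodd : ∀ j, Odd (M j)) (j : ℕ) : BS (RC M j) (BB j) := by
  classical
  exact BS_fat' (BS_RF M hodd j) (fun x => (nbL M j x).toFinset) (2 ^ (j + 2) + 1) (4 * j + 1)
    (fun x z h => List.mem_toFinset.mpr (mem_nbL M j x z h))
    (fun x => (List.toFinset_card_le _).trans (nbL_len M j x)) (RC_chn M j)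

end V11198.Sep
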