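import Pool.Agent.V11198.SepBS

namespace V11198.Sep

open Monoid

/-- a group with an involutive endomorphism -/
structure IG where
  /-- the group -/
  F : Type
  [gF : Group F]
  /-- the involution -/
  τ : F →* F
  ττ : ∀ x, τ (τ x) = x

attribute [instance] IG.gF

/-- `τ` or the identity -/
def IG.tw (A : IG) : Bool → (A.F →* A.F)
  | true => A.τ
  | false => MonoidHom.id _

theorem IG.tw_tw (A : IG) (a b : Bool) (f : A.F) : A.tw a (A.tw b f) = A.tw (xor b a) f := by
  cases a <;> cases b <;> simp [IG.tw, A.ττ]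

theorem IG.tw_ne_one (A : IG) (a : Bool) {f : A.F} (h : f ≠ 1) : A.tw a f ≠ 1 := by
  intro h2
  apply h
  have : A.tw a (A.tw a f) = 1 := by rw [h2, map_one]
  rw [A.tw_tw] at this
  simpa [IG.tw] using this

/-- the semidirect product with the involution -/
@[ext]
structure CC (A : IG) where
  /-- sign -/
  d : Bool
  /-- group part -/
  f : A.F

variable {A : IG}

instance : Mul (CC A) := ⟨fun x y => ⟨xor x.d y.d, A.tw y.d x.f * y.f⟩⟩
instance : One (CC A) := ⟨⟨false, 1⟩⟩
instance : Inv (CC A) := ⟨fun x => ⟨x.d, A.tw x.d x.f⁻¹⟩⟩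

theorem CC.mul_d (x y : CC A) : (x * y).d = xor x.d y.d := rfl
theorem CC.mul_f (x y : CC A) : (x * y).f = A.tw y.d x.f * y.f := rfl
theorem CC.one_d : (1 : CC A).d = false := rfl
theorem CC.one_f : (1 : CC A).f = 1 := rfl

instance : Group (CC A) := Group.ofLeftAxioms
  (by
    intro x y z
    apply CC.ext
    · simp [CC.mul_d]
    · simp only [CC.mul_f, CC.mul_d, map_mul, A.tw_tw]
      rw [mul_assoc])
  (by
    intro x
    apply CC.ext
    · simp [CC.mul_d, CC.one_d]
    · simp [CC.mul_f, CC.one_f])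
  (by
    intro x
    apply CC.ext
    · change xor x.d x.d = false
      simp
    · change A.tw x.d (A.tw x.d x.f⁻¹) * x.f = 1
      rw [A.tw_tw]
      simp [IG.tw])

/-- the sign element -/
def zt (A : IG) : CC A := ⟨true, 1⟩

/-- embedding of the group part -/
def emF (A : IG) : A.F →* CC A where
  toFun f := ⟨false, f⟩
  map_one' := rfl
  map_mul' x y := by
    apply CC.ext
    · rfl
    · rfl

theorem zt_ne_one : zt A ≠ 1 := by
  intro h
  have := congrArg CC.d h
  simp [zt, CC.one_d] at this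

theorem zt_mul_self : zt A * zt A = 1 := by
  apply CC.ext
  · rfl
  · simp [CC.mul_f, zt, CC.one_f]

theorem cc_eq (x : CC A) : x = (if x.d then zt A else 1) * emF A x.f := by
  rcases x with ⟨d, f⟩
  cases d
  · simp [emF]
  · apply CC.ext
    · rfl
    · simp [CC.mul_f, zt, emF, IG.tw]

/-- the family of factors -/
def Fam (m : ℕ) (A : IG) : Option Bool → Type
  | none => Multiplicative (ZMod m)
  | some _ => A.F

instance (m : ℕ) (A : IG) : ∀ i, Group (Fam m A i)
  | none => inferInstanceAs (Group (Multiplicative (ZMod m)))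
  | some _ => inferInstanceAs (Group A.F)

/-- involution on the factors -/
def famτ (m : ℕ) (A : IG) : ∀ i, Fam m A i →* Fam m A i
  | none => (invMonoidHom : Multiplicative (ZMod m) →* Multiplicative (ZMod m))
  | some _ => A.τ

theorem famττ (m : ℕ) (A : IG) : ∀ i (x : Fam m A i), famτ m A i (famτ m A i x) = x
  | none, x => by
      show (((x : Multiplicative (ZMod m))⁻¹)⁻¹) = x
      exact inv_inv _
  | some _, x => A.ττ x

/-- involution of the free product -/
def stepτ (m : ℕ) (A : IG) : CoprodI (Fam m A) →* CoprodI (Fam m A) :=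
  CoprodI.lift (fun i => (CoprodI.of).comp (famτ m A i))

theorem stepτ_of (m : ℕ) (A : IG) (i : Option Bool) (x : Fam m A i) :
    stepτ m A (CoprodI.of x) = CoprodI.of (famτ m A i x) := by
  simp [stepτ]

theorem stepττ (m : ℕ) (A : IG) (x : CoprodI (Fam m A)) : stepτ m A (stepτ m A x) = x := by
  have : (stepτ m A).comp (stepτ m A) = MonoidHom.id _ := by
    apply CoprodI.ext_hom
    intro i
    ext x
    simp only [MonoidHom.comp_apply, stepτ_of, famττ, MonoidHom.id_apply]
  exact DFunLike.congr_fun this x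

/-- the next group -/
def stepIG (m : ℕ) (A : IG) : IG where
  F := CoprodI (Fam m A)
  τ := stepτ m A
  ττ := stepττ m A

/-- powers of the rotation -/
def rr (m : ℕ) (A : IG) (e : ℤ) : (stepIG m A).F :=
  CoprodI.of (M := Fam m A) (i := none) (Multiplicative.ofAdd ((e : ℤ) : ZMod m) :
    Multiplicative (ZMod m))

/-- left and right embeddings of the group parts -/
def eF (m : ℕ) (A : IG) (b : Bool) : A.F →* (stepIG m A).F :=
  (CoprodI.of (M := Fam m A) (i := some b))

theorem rr_add (m : ℕ) (A : IG) (e e' : ℤ) : rr m A e * rr m A e' = rr m A (e + e') := by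
  unfold rr
  rw [Int.cast_add, ofAdd_add]
  exact (map_mul (CoprodI.of (M := Fam m A) (i := none)) _ _).symm

theorem rr_zero (m : ℕ) (A : IG) : rr m A 0 = 1 := by
  unfold rr
  rw [Int.cast_zero, ofAdd_zero]
  exact map_one (CoprodI.of (M := Fam m A) (i := none))

theorem rr_inv (m : ℕ) (A : IG) (e : ℤ) : (rr m A e)⁻¹ = rr m A (-e) := by
  rw [inv_eq_iff_mul_eq_one, rr_add, add_neg_cancel, rr_zero]

theorem τ_rr (m : ℕ) (A : IG) (e : ℤ) : (stepIG m A).τ (rr m A e) = rr m A (-e) := by
  unfold rr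
  change stepτ m A (CoprodI.of _) = _
  rw [stepτ_of]
  congr 1
  rw [Int.cast_neg, ofAdd_neg]
  rfl

theorem τ_eF (m : ℕ) (A : IG) (b : Bool) (x : A.F) :
    (stepIG m A).τ (eF m A b x) = eF m A b (A.τ x) := by
  unfold eF
  change stepτ m A (CoprodI.of _) = _
  rw [stepτ_of]
  rfl

/-- sign of a Boolean -/
def sg : Bool → ℤ
  | false => 1
  | true => -1

theorem sg_not (b : Bool) : sg (!b) = - sg b := by cases b <;> rfl
theorem sg_xor (a b : Bool) : sg (xor a b) = sg a * sg b := by cases a <;> cases b <;> rfl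
theorem sg_sq (b : Bool) : sg b * sg b = 1 := by cases b <;> rfl

theorem tw_rr (m : ℕ) (A : IG) (d : Bool) (e : ℤ) :
    (stepIG m A).tw d (rr m A e) = rr m A (sg d * e) := by
  cases d
  · simp [IG.tw, sg]
  · simp only [IG.tw, sg, τ_rr]
    ring_nf

theorem tw_eF (m : ℕ) (A : IG) (d b : Bool) (x : A.F) :
    (stepIG m A).tw d (eF m A b x) = eF m A b (A.tw d x) := by
  cases d
  · rfl
  · exact τ_eF m A b x

/-- embedding of the semidirect products -/
def em (m : ℕ) (A : IG) (b : Bool) : CC A →* CC (stepIG m A) where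
  toFun x := ⟨x.d, eF m A b x.f⟩
  map_one' := by
    apply CC.ext
    · rfl
    · exact map_one _
  map_mul' x y := by
    apply CC.ext
    · rfl
    · change eF m A b (A.tw y.d x.f * y.f) = (stepIG m A).tw y.d (eF m A b x.f) * eF m A b y.f
      rw [map_mul, tw_eF]

/-- the rotation of the semidirect product -/
def Rt (m : ℕ) (A : IG) (e : ℤ) : CC (stepIG m A) := emF _ (rr m A e)

theorem Rt_add (m : ℕ) (A : IG) (e e' : ℤ) : Rt m A e * Rt m A e' = Rt m A (e + e') := by
  unfold Rt; rw [← map_mul, rr_add]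

theorem Rt_inv (m : ℕ) (A : IG) (e : ℤ) : (Rt m A e)⁻¹ = Rt m A (-e) := by
  unfold Rt; rw [← map_inv, rr_inv]

/-- the two embeddings of lamp groups -/
def io (m : ℕ) (A : IG) (b : Bool) : CC A →* CC (stepIG m A) :=
  (MulAut.conj (Rt m A (sg b))).toMonoidHom.comp (em m A b)

theorem io_apply (m : ℕ) (A : IG) (b : Bool) (x : CC A) :
    io m A b x = Rt m A (sg b) * em m A b x * Rt m A (-sg b) := by
  rw [← Rt_inv]; rfl

theorem io_d (m : ℕ) (A : IG) (b : Bool) (x : CC A) : (io m A b x).d = x.d := by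
  rw [io_apply]
  simp [CC.mul_d, Rt, emF, em]

theorem io_f (m : ℕ) (A : IG) (b : Bool) (x : CC A) :
    (io m A b x).f = rr m A (sg x.d * sg b) * eF m A b x.f * rr m A (-sg b) := by
  rw [io_apply]
  simp only [CC.mul_f, Rt, emF, em, MonoidHom.coe_mk, OneHom.coe_mk]
  rw [tw_rr]
  rfl

theorem io_mul_f (m : ℕ) (A : IG) (b : Bool) (x : CC A) (a : CC (stepIG m A)) :
    (io m A b x * a).f = rr m A (sg a.d * sg x.d * sg b) * eF m A b (A.tw a.d x.f) *
      rr m A (-(sg a.d * sg b)) * a.f := by
  rw [CC.mul_f, io_f, map_mul, map_mul, tw_rr, tw_rr, tw_eF]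
  ring_nf

/-- alternating products -/
inductive Alt (m : ℕ) (A : IG) : Bool → ℕ → CC (stepIG m A) → Prop
  | one (b : Bool) (y : CC A) (hy : y ≠ 1) : Alt m A b 1 (io m A b y)
  | cons (b : Bool) (t : ℕ) (a : CC (stepIG m A)) (y : CC A) (hy : y ≠ 1) (ha : Alt m A b t a) :
      Alt m A (!b) (t + 1) (io m A (!b) y * a)

/-- product of a word, as an element of the new group -/
def wpr (m : ℕ) (A : IG) (w : CoprodI.Word (Fam m A)) : (stepIG m A).F := w.prod

/-- starts with a letter which is not a rotation -/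
def NR (m : ℕ) (A : IG) (g : (stepIG m A).F) : Prop :=
  ∃ (b : Bool) (y : A.F) (w : CoprodI.Word (Fam m A)), y ≠ 1 ∧ w.fstIdx ≠ some (some b) ∧
    g = eF m A b y * wpr m A w

theorem wr (m : ℕ) (A : IG) (e : ℤ) : ∃ w : CoprodI.Word (Fam m A),
    wpr m A w = rr m A e ∧ ∀ b, w.fstIdx ≠ some (some b) := by
  by_cases h : ((e : ℤ) : ZMod m) = 0
  · refine ⟨CoprodI.Word.empty, ?_, fun b => by simp [CoprodI.Word.fstIdx, CoprodI.Word.empty]⟩
    unfold rr
    rw [h, ofAdd_zero]
    unfold wpr
    rw [CoprodI.Word.prod_empty]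
    exact (map_one (CoprodI.of (M := Fam m A) (i := none))).symm
  · refine ⟨CoprodI.Word.cons (M := Fam m A) (i := none)
      (Multiplicative.ofAdd ((e : ℤ) : ZMod m) : Multiplicative (ZMod m)) CoprodI.Word.empty
      (by simp [CoprodI.Word.fstIdx, CoprodI.Word.empty]) ?_, ?_, ?_⟩
    · intro h2
      apply h
      exact ofAdd_eq_one.mp h2
    · unfold wpr
      rw [CoprodI.Word.prod_cons, CoprodI.Word.prod_empty, mul_one]
      rfl
    · intro b; simp

theorem wr_mul (m : ℕ) (A : IG) (e : ℤ) (he : ((e : ℤ) : ZMod m) ≠ 0) {g : (stepIG m A).F}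
    (hg : NR m A g) : ∃ w : CoprodI.Word (Fam m A), wpr m A w = rr m A e * g ∧
      ∀ b, w.fstIdx ≠ some (some b) := by
  obtain ⟨b, y, w, hy, hw, rfl⟩ := hg
  refine ⟨CoprodI.Word.cons (M := Fam m A) (i := none)
      (Multiplicative.ofAdd ((e : ℤ) : ZMod m) : Multiplicative (ZMod m))
      (CoprodI.Word.cons (M := Fam m A) (i := some b) y w hw hy) (by simp) ?_, ?_, ?_⟩
  · intro h2
    exact he (ofAdd_eq_one.mp h2)
  · unfold wpr
    rw [CoprodI.Word.prod_cons, CoprodI.Word.prod_cons]
    rfl
  · intro b; simp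

theorem NR_ne_one {m : ℕ} {A : IG} {g : (stepIG m A).F} (hg : NR m A g) : g ≠ 1 := by
  obtain ⟨b, y, w, hy, hw, rfl⟩ := hg
  exact of_mul_prod_ne_one (G := Fam m A) (i := some b) y w hw hy

theorem rr_mul_NR_ne_one {m : ℕ} {A : IG} (e : ℤ) {g : (stepIG m A).F} (hg : NR m A g) :
    rr m A e * g ≠ 1 := by
  by_cases he : ((e : ℤ) : ZMod m) = 0
  · have : rr m A e = 1 := by
      unfold rr
      rw [he, ofAdd_zero]
      exact (map_one (CoprodI.of (M := Fam m A) (i := none)))
    rw [this, one_mul]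
    exact NR_ne_one hg
  · obtain ⟨b, y, w, hy, hw, rfl⟩ := hg
    have := of_mul_prod_ne_one (G := Fam m A) (i := none)
      (Multiplicative.ofAdd ((e : ℤ) : ZMod m) : Multiplicative (ZMod m))
      (CoprodI.Word.cons (M := Fam m A) (i := some b) y w hw hy) (by simp)
      (fun h2 => he (ofAdd_eq_one.mp h2))
    rw [CoprodI.Word.prod_cons] at this
    exact this

theorem rr_eq_one {m : ℕ} {A : IG} {e : ℤ} (h : rr m A e = 1) : ((e : ℤ) : ZMod m) = 0 := by
  unfold rr at h
  have h2 : CoprodI.of (M := Fam m A) (i := none) (Multiplicative.ofAdd ((e : ℤ) : ZMod m) :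
    Multiplicative (ZMod m)) = CoprodI.of (M := Fam m A) (i := none) (1 : Fam m A none) :=
      h.trans (map_one (CoprodI.of (M := Fam m A) (i := none))).symm
  have h3 := CoprodI.of_injective (M := Fam m A) none h2
  exact ofAdd_eq_one.mp h3

/-- invariant of alternating products -/
def InvP (m : ℕ) (A : IG) (b : Bool) (t : ℕ) (a : CC (stepIG m A)) : Prop :=
  (∃ k : ℕ, 1 ≤ k ∧ k ≤ t ∧ ∃ g, NR m A g ∧
    a.f = rr m A (sg a.d * sg b * (2 * k - 1)) * g) ∨
  a.f = rr m A (sg a.d * sg b * (2 * t))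

theorem two_mul_ne {m : ℕ} (hm : Odd m) {k : ℕ} (h1 : 1 ≤ k) (h2 : k < m) (s : ℤ)
    (hs : s * s = 1) : ((s * (2 * k) : ℤ) : ZMod m) ≠ 0 := by
  intro h
  rw [ZMod.intCast_zmod_eq_zero_iff_dvd] at h
  have h3 : (m : ℤ) ∣ 2 * k := by
    have : (2 * k : ℤ) = s * (s * (2 * k)) := by rw [← mul_assoc, hs, one_mul]
    rw [this]
    exact Dvd.dvd.mul_left h s
  have h4 : m ∣ 2 * k := by exact_mod_cast h3
  have h5 : m ∣ k := (Nat.Coprime.dvd_mul_left (Nat.Coprime.symm
    ((Nat.coprime_two_left).mpr hm))).mp h4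
  exact absurd (Nat.le_of_dvd (by omega) h5) (by omega)

theorem alt_inv {m : ℕ} {A : IG} (hm : Odd m) {b : Bool} {t : ℕ} {a : CC (stepIG m A)}
    (h : Alt m A b t a) (ht : t < m) : InvP m A b t a := by
  induction h with
  | one b y hy =>
    by_cases hf : y.f = 1
    · right
      have hd : y.d = true := by
        by_contra hd
        apply hy
        apply CC.ext
        · simpa [CC.one_d] using hd
        · rw [hf]; rfl
      rw [io_f, io_d, hf, map_one, mul_one, hd, rr_add]
      congr 1
      simp only [sg]; push_cast; ring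
    · left
      refine ⟨1, le_rfl, le_rfl, eF m A b y.f * rr m A (-sg b), ?_, ?_⟩
      · obtain ⟨w, hw1, hw2⟩ := wr m A (-sg b)
        exact ⟨b, y.f, w, hf, hw2 b, by rw [hw1]⟩
      · rw [io_f, io_d, mul_assoc]
        congr 2
        push_cast; ring
  | cons b t a y hy ha ih =>
    have iha := ih (by omega)
    have hd : (io m A (!b) y * a).d = xor y.d a.d := by rw [CC.mul_d, io_d]
    have hmid : -(sg a.d * sg (!b)) = sg a.d * sg b := by rw [sg_not]; ring
    by_cases hf : y.f = 1
    · have hyd : y.d = true := by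
        by_contra hd
        apply hy
        apply CC.ext
        · simpa [CC.one_d] using hd
        · rw [hf]; rfl
      have hfirst : ∀ g, rr m A (sg a.d * sg y.d * sg (!b)) * eF m A (!b) (A.tw a.d y.f) *
          rr m A (-(sg a.d * sg (!b))) * g = rr m A (2 * (sg a.d * sg b)) * g := by
        intro g
        rw [hf, map_one, map_one, mul_one, rr_add, hyd, sg_not]
        congr 2
        simp only [sg]; ring
      have hsgn : sg (xor y.d a.d) * sg (!b) = sg a.d * sg b := by
        rw [sg_xor, hyd, sg_not]; simp only [sg]; ring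
      rcases iha with ⟨k, hk1, hk2, g, hg, hag⟩ | hag
      · left
        refine ⟨k + 1, by omega, by omega, g, hg, ?_⟩
        rw [io_mul_f, hfirst, hd, hsgn, hag, ← mul_assoc, rr_add]
        congr 2
        push_cast; ring
      · right
        rw [io_mul_f, hfirst, hd, hsgn, hag, rr_add]
        congr 1
        push_cast; ring
    · left
      have htw : A.tw a.d y.f ≠ 1 := A.tw_ne_one a.d hf
      have hex : ∃ w : CoprodI.Word (Fam m A), wpr m A w = rr m A (-(sg a.d * sg (!b))) * a.f ∧
          ∀ b, w.fstIdx ≠ some (some b) := by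
        rcases iha with ⟨k, hk1, hk2, g, hg, hag⟩ | hag
        · rw [hag, hmid, ← mul_assoc, rr_add]
          apply wr_mul _ _ _ _ hg
          have := two_mul_ne hm hk1 (by omega : k < m) (sg a.d * sg b)
            (by rw [mul_mul_mul_comm, sg_sq, sg_sq, one_mul])
          convert this using 2
          ring
        · rw [hag, rr_add]
          exact wr m A _
      obtain ⟨w, hw1, hw2⟩ := hex
      refine ⟨1, le_rfl, by omega, eF m A (!b) (A.tw a.d y.f) * wpr m A w,
        ⟨!b, _, w, htw, hw2 _, rfl⟩, ?_⟩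
      rw [io_mul_f, hd, hw1, sg_xor]
      simp only [mul_assoc]
      congr 2
      push_cast; ring

theorem alt_ne_one {m : ℕ} {A : IG} (hm : Odd m) {b : Bool} {t : ℕ} {a : CC (stepIG m A)}
    (h : Alt m A b t a) (ht : t < m) : a ≠ 1 := by
  have ht1 : 1 ≤ t := by cases h <;> omega
  intro ha
  have haf : a.f = 1 := by rw [ha]; rfl
  rcases alt_inv hm h ht with ⟨k, hk1, hk2, g, hg, hag⟩ | hag
  · rw [hag] at haf
    exact rr_mul_NR_ne_one _ hg haf
  · rw [haf] at hag
    exact two_mul_ne hm ht1 ht (sg a.d * sg b)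
      (by rw [mul_mul_mul_comm, sg_sq, sg_sq, one_mul]) (rr_eq_one hag.symm)

/-! Free products over the tree. -/

/-- label of a vertex as a child of its parent -/
def bt (r : TT) : Bool := decide (r.2 % 2 = 1)

theorem bt_ne {r r' : TT} (h : r ≠ r') (hp : par r = par r') : bt r = !bt r' := by
  have h1 : r.1 = r'.1 := by
    have := congrArg Prod.fst hp; simp only [par] at this; omega
  have h2 : r.2 / 2 = r'.2 / 2 := congrArg Prod.snd hp
  have h3 : r.2 ≠ r'.2 := fun h' => h (Prod.ext h1 h')
  unfold bt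
  by_cases h4 : r.2 % 2 = 1 <;> by_cases h5 : r'.2 % 2 = 1 <;> simp [h4, h5] <;> omega

/-- the free product of lamp groups over the tree -/
abbrev CT (A : IG) : Type := CoprodI (fun _ : TT => CC A)

/-- connecting homomorphism -/
def stepT (m : ℕ) (A : IG) : CT A →* CT (stepIG m A) :=
  CoprodI.lift (fun r => (CoprodI.of (M := fun _ : TT => CC (stepIG m A)) (i := par r)).comp
    (io m A (bt r)))

theorem stepT_of (m : ℕ) (A : IG) (r : TT) (x : CC A) :
    stepT m A (CoprodI.of (M := fun _ : TT => CC A) (i := r) x) =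
      CoprodI.of (M := fun _ : TT => CC (stepIG m A)) (i := par r) (io m A (bt r) x) := by
  simp [stepT]

theorem stepT_word {m : ℕ} {A : IG} (hm : Odd m) (w : CoprodI.Word (fun _ : TT => CC A)) :
    w.toList.length < m → w.toList ≠ [] →
    ∃ (r : TT) (h : CC (stepIG m A)) (t : ℕ) (w' : CoprodI.Word (fun _ : TT => CC (stepIG m A))),
      w.fstIdx = some r ∧ Alt m A (bt r) t h ∧ t ≤ w.toList.length ∧ w'.fstIdx ≠ some (par r) ∧
      stepT m A w.prod = CoprodI.of (M := fun _ : TT => CC (stepIG m A)) (i := par r) h *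
        w'.prod := by
  induction w using CoprodI.Word.consRecOn with
  | empty => intro _ h; simp [CoprodI.Word.empty] at h
  | cons r y w1 h1 h2 ih =>
    intro hlen _
    have hlen' : w1.toList.length + 1 < m := by
      simpa [CoprodI.Word.cons] using hlen
    by_cases hemp : w1.toList = []
    · have : w1 = CoprodI.Word.empty := CoprodI.Word.ext hemp
      subst this
      refine ⟨r, io m A (bt r) y, 1, CoprodI.Word.empty, by simp, .one _ _ h2, ?_, ?_, ?_⟩
      · simp [CoprodI.Word.cons]
      · simp [CoprodI.Word.fstIdx, CoprodI.Word.empty]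
      · rw [CoprodI.Word.prod_cons, map_mul, stepT_of]
        simp
    · obtain ⟨r1, g1, t1, w', hfst, halt, ht1, hw', hprod⟩ := ih (by omega) hemp
      have hr : r ≠ r1 := by
        rintro rfl; exact h1 hfst
      by_cases hp : par r = par r1
      · have hb := bt_ne hr hp
        refine ⟨r, io m A (bt r) y * g1, t1 + 1, w', by simp, ?_, ?_, ?_, ?_⟩
        · rw [hb]; exact .cons _ _ _ _ h2 halt
        · simp only [CoprodI.Word.cons, List.length_cons]; omega
        · rw [hp]; exact hw'
        · rw [CoprodI.Word.prod_cons, map_mul, stepT_of, hprod, map_mul]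
          rw [hp, mul_assoc]
      · have hg1 : g1 ≠ 1 := alt_ne_one hm halt (by omega)
        refine ⟨r, io m A (bt r) y, 1, CoprodI.Word.cons g1 w' hw' hg1, by simp,
          .one _ _ h2, ?_, ?_, ?_⟩
        · simp [CoprodI.Word.cons]
        · rw [CoprodI.Word.fstIdx_cons]
          intro h; exact hp (Option.some.inj h).symm
        · rw [CoprodI.Word.prod_cons, map_mul, stepT_of, hprod, CoprodI.Word.prod_cons]

/-- short elements survive -/
theorem stepT_inj {m : ℕ} {A : IG} (hm : Odd m) (x : CT A) (hx : wlen x < m)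
    (h : stepT m A x = 1) : x = 1 := by
  by_contra hne
  have hw : (wd x).toList ≠ [] := by
    intro h0
    apply hne
    have : wd x = CoprodI.Word.empty := CoprodI.Word.ext h0
    rw [← wd_prod x, this]; simp
  obtain ⟨r, g, t, w', hfst, halt, ht1, hw', hprod⟩ := stepT_word hm (wd x) hx hw
  rw [wd_prod, h] at hprod
  unfold wlen at hx
  exact of_mul_prod_ne_one (G := fun _ : TT => CC (stepIG m A)) (i := par r) g w' hw'
    (alt_ne_one hm halt (by omega)) hprod.symm

end V11198.Sep
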