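import Pool.Agent.V11198.SepIG

namespace V11198.Sep

open Monoid

/-- the trivial group with involution -/
def IG0 : IG where
  F := PUnit
  τ := MonoidHom.id _
  ττ := fun _ => rfl

/-- the sequence of groups -/
def IGs (M : ℕ → ℕ) : ℕ → IG
  | 0 => IG0
  | j + 1 => stepIG (M j) (IGs M j)

/-- the lamp homomorphisms -/
def th (M : ℕ → ℕ) : (j : ℕ) → CT IG0 →* CT (IGs M j)
  | 0 => MonoidHom.id _
  | j + 1 => (stepT (M j) (IGs M j)).comp (th M j)

/-- lamp embeddings -/
def lam (M : ℕ → ℕ) (v : TT) : (j : ℕ) → CC IG0 →* CC (IGs M j)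
  | 0 => MonoidHom.id _
  | j + 1 => (io (M j) (IGs M j) (bt (par^[j] v))).comp (lam M v j)

variable (M : ℕ → ℕ)

theorem th_succ (j : ℕ) (w : CT IG0) : th M (j + 1) w = stepT (M j) (IGs M j) (th M j w) := rfl

theorem th_of (j : ℕ) (v : TT) (x : CC IG0) :
    th M j (CoprodI.of (M := fun _ : TT => CC IG0) (i := v) x) =
      CoprodI.of (M := fun _ : TT => CC (IGs M j)) (i := par^[j] v) (lam M v j x) := by
  induction j with
  | zero => rfl
  | succ j ih =>
    rw [th_succ, ih, stepT_of]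
    have : par (par^[j] v) = par^[j + 1] v := by rw [Function.iterate_succ_apply']
    rw [this]
    rfl

theorem th_mono {j k : ℕ} (hjk : j ≤ k) {w : CT IG0} (h : th M j w = 1) : th M k w = 1 := by
  induction hjk with
  | refl => exact h
  | step _ ih => rw [th_succ, ih]; exact map_one _

/-- the kernel of the limit -/
def NN : Subgroup (CT IG0) where
  carrier := {w | ∃ K, th M K w = 1}
  mul_mem' := by
    rintro a b ⟨K, hK⟩ ⟨L, hL⟩
    refine ⟨max K L, ?_⟩
    rw [map_mul, th_mono M (le_max_left K L) hK, th_mono M (le_max_right K L) hL, one_mul]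
  one_mem' := ⟨0, map_one _⟩
  inv_mem' := by
    rintro a ⟨K, hK⟩
    exact ⟨K, by rw [map_inv, hK, inv_one]⟩

theorem mem_NN {w : CT IG0} : w ∈ NN M ↔ ∃ K, th M K w = 1 := Iff.rfl

instance : (NN M).Normal where
  conj_mem := by
    rintro n ⟨K, hK⟩ g
    exact ⟨K, by rw [map_mul, map_mul, hK, mul_one, map_inv, mul_inv_cancel]⟩

theorem mem_NN_short (hodd : ∀ j, Odd (M j)) {w : CT IG0} {s J : ℕ}
    (hs : ∀ j, wlen (th M j w) ≤ s) (hJ : ∀ j, J ≤ j → s < M j) (hw : w ∈ NN M) :
    th M J w = 1 := by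
  obtain ⟨K, hK⟩ := hw
  have key : ∀ d, th M (J + d) w = 1 → th M J w = 1 := by
    intro d
    induction d with
    | zero => intro h; exact h
    | succ d ih =>
      intro h
      apply ih
      have h' : stepT (M (J + d)) (IGs M (J + d)) (th M (J + d) w) = 1 := h
      exact stepT_inj (hodd _) _ (lt_of_le_of_lt (hs _) (hJ _ (by omega))) h'
  apply key K
  exact th_mono M (by omega) hK

/-- a lamp -/
def lmp (v : TT) : CT IG0 := CoprodI.of (M := fun _ : TT => CC IG0) (i := v) (zt IG0)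

theorem lmp_mul_self (v : TT) : lmp v * lmp v = 1 := by
  unfold lmp
  rw [← map_mul, zt_mul_self, map_one]

theorem lmp_inv (v : TT) : (lmp v)⁻¹ = lmp v := by
  rw [inv_eq_iff_mul_eq_one, lmp_mul_self]

theorem wlen_th_lmp (j : ℕ) (v : TT) : wlen (th M j (lmp v)) ≤ 1 := by
  unfold lmp
  rw [th_of]
  exact wlen_of_le _

theorem lmp_ne_one (v : TT) : lmp v ≠ 1 := by
  intro h
  unfold lmp at h
  have h2 := CoprodI.of_injective (M := fun _ : TT => CC IG0) v
    (h.trans (map_one (CoprodI.of (M := fun _ : TT => CC IG0) (i := v))).symm)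
  exact zt_ne_one h2

theorem lmp_not_mem (hodd : ∀ j, Odd (M j)) (h1 : ∀ j, 1 < M j) (v : TT) : lmp v ∉ NN M := by
  intro h
  have := mem_NN_short M hodd (s := 1) (J := 0) (fun j => wlen_th_lmp M j v) (fun j _ => h1 j) h
  exact lmp_ne_one v this

/-- the lamp group -/
abbrev CQ : Type := CT IG0 ⧸ NN M

/-- vertices of the graph -/
abbrev VX : Type := CQ M × TT

/-- oriented adjacency -/
def EX (x y : VX M) : Prop :=
  (x.1 = y.1 ∧ y.2 = par x.2) ∨ (x.2 = y.2 ∧ y.1 = (lmp x.2 : CQ M) * x.1)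

/-- the graph -/
def GX : SimpleGraph (VX M) := SimpleGraph.fromRel (EX M)

theorem GX_adj {x y : VX M} : (GX M).Adj x y ↔ x ≠ y ∧ (EX M x y ∨ EX M y x) := by
  unfold GX; rw [SimpleGraph.fromRel_adj]

theorem par_ne (v : TT) : par v ≠ v := by
  intro h
  have := congrArg Prod.fst h
  simp only [par] at this
  omega

/-- weight of a dart -/
def dw (x y : VX M) : CT IG0 := if x.2 = y.2 then lmp x.2 else 1

theorem dw_symm (x y : VX M) : dw M y x = (dw M x y)⁻¹ := by
  unfold dw
  by_cases h : x.2 = y.2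
  · rw [if_pos h, if_pos h.symm, lmp_inv, h]
  · rw [if_neg h, if_neg (Ne.symm h), inv_one]

theorem adj_dw {x y : VX M} (h : (GX M).Adj x y) : y.1 = (dw M x y : CQ M) * x.1 := by
  rw [GX_adj] at h
  obtain ⟨_, h | h⟩ := h
  · rcases h with ⟨h1, h2⟩ | ⟨h1, h2⟩
    · have : x.2 ≠ y.2 := by rw [h2]; exact (par_ne _).symm
      unfold dw
      rw [if_neg this]
      simp [h1]
    · unfold dw; rw [if_pos h1]; exact h2
  · rcases h with ⟨h1, h2⟩ | ⟨h1, h2⟩
    · have : x.2 ≠ y.2 := by rw [h2]; exact (par_ne _)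
      unfold dw
      rw [if_neg this]
      simp [h1]
    · unfold dw; rw [if_pos h1.symm, h2, ← h1, ← mul_assoc]
      rw [← QuotientGroup.mk_mul, lmp_mul_self]
      simp

theorem wlen_dw (j : ℕ) (x y : VX M) : wlen (th M j (dw M x y)) ≤ 1 := by
  unfold dw
  split_ifs
  · exact wlen_th_lmp M j _
  · rw [map_one, wlen_one]; omega

/-- weight of a walk -/
noncomputable def wt : ∀ {x y : VX M}, (GX M).Walk x y → CT IG0
  | _, _, .nil => 1
  | u, _, .cons (v := v) _ p => wt p * dw M u v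

@[simp] theorem wt_nil (x : VX M) : wt M (SimpleGraph.Walk.nil : (GX M).Walk x x) = 1 := rfl

@[simp] theorem wt_cons {x z y : VX M} (h : (GX M).Adj x z) (p : (GX M).Walk z y) :
    wt M (SimpleGraph.Walk.cons h p) = wt M p * dw M x z := rfl

theorem wt_append {x y z : VX M} (p : (GX M).Walk x y) (q : (GX M).Walk y z) :
    wt M (p.append q) = wt M q * wt M p := by
  induction p with
  | nil => simp
  | cons h p ih => rw [SimpleGraph.Walk.cons_append, wt_cons, wt_cons, ih, mul_assoc]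

theorem wt_reverse {x y : VX M} (p : (GX M).Walk x y) : wt M p.reverse = (wt M p)⁻¹ := by
  induction p with
  | nil => simp
  | cons h p ih =>
    rw [SimpleGraph.Walk.reverse_cons, wt_append, ih, wt_cons, wt_cons, wt_nil, mul_inv_rev,
      dw_symm, one_mul]

theorem wt_act {x y : VX M} (p : (GX M).Walk x y) : y.1 = (wt M p : CQ M) * x.1 := by
  induction p with
  | nil => simp
  | cons h p ih =>
    rw [ih, wt_cons, adj_dw M h, QuotientGroup.mk_mul, mul_assoc]

theorem wt_closed {x : VX M} (p : (GX M).Walk x x) : wt M p ∈ NN M := by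
  have h := wt_act M p
  have : (wt M p : CQ M) = 1 := by
    have := mul_right_cancel (b := x.1) (a := (1 : CQ M)) (c := (wt M p : CQ M)) (by
      rw [one_mul]; exact h)
    exact this.symm
  exact (QuotientGroup.eq_one_iff _).mp this

theorem wlen_wt (j : ℕ) {x y : VX M} (p : (GX M).Walk x y) :
    wlen (th M j (wt M p)) ≤ p.length := by
  induction p with
  | nil => rw [wt_nil, map_one, wlen_one]; simp
  | cons h p ih =>
    rw [wt_cons, map_mul, SimpleGraph.Walk.length_cons]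
    exact (wlen_mul_le _ _).trans (Nat.add_le_add ih (wlen_dw M j _ _))

/-- closed walks that are short lift to closed walks -/
theorem wt_short (hodd : ∀ j, Odd (M j)) (hmono : Monotone M) {J : ℕ} {x : VX M}
    (p : (GX M).Walk x x) (hp : p.length < M J) : th M J (wt M p) = 1 :=
  mem_NN_short M hodd (s := p.length) (fun j => wlen_wt M j p)
    (fun _ hj => lt_of_lt_of_le hp (hmono hj)) (wt_closed M p)

theorem adj_par (g : CQ M) (v : TT) : (GX M).Adj (g, v) (g, par v) := by
  rw [GX_adj]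
  refine ⟨?_, Or.inl (Or.inl ⟨rfl, rfl⟩)⟩
  intro h
  exact par_ne v (congrArg Prod.snd h).symm

theorem adj_lmp (hodd : ∀ j, Odd (M j)) (h1 : ∀ j, 1 < M j) (g : CQ M) (v : TT) :
    (GX M).Adj (g, v) ((lmp v : CQ M) * g, v) := by
  rw [GX_adj]
  refine ⟨?_, Or.inl (Or.inr ⟨rfl, rfl⟩)⟩
  intro h
  have h2 : g = (lmp v : CQ M) * g := congrArg Prod.fst h
  have h3 : (lmp v : CQ M) = 1 := by
    have := mul_right_cancel (b := g) (a := (1 : CQ M)) (c := (lmp v : CQ M)) (by
      rw [one_mul]; exact h2)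
    exact this.symm
  exact lmp_not_mem M hodd h1 v ((QuotientGroup.eq_one_iff _).mp h3)

theorem walk_up (g : CQ M) (v : TT) (k : ℕ) :
    ∃ p : (GX M).Walk (g, v) (g, par^[k] v), wt M p = 1 := by
  induction k with
  | zero => exact ⟨SimpleGraph.Walk.nil, rfl⟩
  | succ k ih =>
    obtain ⟨p, hp⟩ := ih
    rw [Function.iterate_succ_apply']
    refine ⟨p.append (SimpleGraph.Walk.cons (adj_par M g _) SimpleGraph.Walk.nil), ?_⟩
    rw [wt_append, hp, wt_cons, wt_nil, mul_one, one_mul]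
    unfold dw
    rw [if_neg]
    exact (par_ne _).symm

theorem walk_T (g : CQ M) (v u : TT) : ∃ p : (GX M).Walk (g, v) (g, u), wt M p = 1 := by
  obtain ⟨N1, h1⟩ := desc_top v
  obtain ⟨N2, h2⟩ := desc_top u
  obtain ⟨k, hk⟩ := h1 (max N1 N2) (le_max_left _ _)
  obtain ⟨l, hl⟩ := h2 (max N1 N2) (le_max_right _ _)
  have h3 := walk_up M g v k
  have h4 := walk_up M g u l
  rw [hk] at h3
  rw [hl] at h4
  obtain ⟨p, hp⟩ := h3
  obtain ⟨q, hq⟩ := h4
  exact ⟨p.append q.reverse, by rw [wt_append, wt_reverse, hp, hq]; simp⟩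

theorem cc0_cases (x : CC IG0) : x = 1 ∨ x = zt IG0 := by
  rcases x with ⟨d, f⟩
  cases d
  · left; rfl
  · right; rfl

theorem walk_el (hodd : ∀ j, Odd (M j)) (h1 : ∀ j, 1 < M j) (w : CT IG0) :
    ∀ (g : CQ M) (v : TT), ∃ p : (GX M).Walk (g, v) ((w : CQ M) * g, v), wt M p = w := by
  induction w using CoprodI.induction_on with
  | one =>
    intro g v
    have : ((1 : CT IG0) : CQ M) * g = g := by simp
    rw [this]
    exact ⟨SimpleGraph.Walk.nil, rfl⟩
  | of u x =>
    intro g v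
    rcases cc0_cases x with rfl | rfl
    · rw [map_one]
      have : ((1 : CT IG0) : CQ M) * g = g := by simp
      rw [this]
      exact ⟨SimpleGraph.Walk.nil, rfl⟩
    · obtain ⟨p, hp⟩ := walk_T M g v u
      obtain ⟨q, hq⟩ := walk_T M ((lmp u : CQ M) * g) u v
      change ∃ p : (GX M).Walk (g, v) ((lmp u : CQ M) * g, v), wt M p = lmp u
      refine ⟨p.append (SimpleGraph.Walk.cons (adj_lmp M hodd h1 g u) q), ?_⟩
      rw [wt_append, wt_cons, hp, hq, mul_one, one_mul]
      unfold dw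
      rw [if_pos rfl]
  | mul a b ha hb =>
    intro g v
    obtain ⟨p, hp⟩ := hb g v
    obtain ⟨q, hq⟩ := ha ((b : CQ M) * g) v
    have e : ((a * b : CT IG0) : CQ M) * g = (a : CQ M) * ((b : CQ M) * g) := by
      rw [QuotientGroup.mk_mul, mul_assoc]
    rw [e]
    exact ⟨p.append q, by rw [wt_append, hp, hq]⟩

theorem GX_connected (hodd : ∀ j, Odd (M j)) (h1 : ∀ j, 1 < M j) : (GX M).Connected := by
  rw [SimpleGraph.connected_iff]
  refine ⟨?_, ⟨(1, (0, 0))⟩⟩
  rintro ⟨g, v⟩ ⟨g', v'⟩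
  obtain ⟨w, hw⟩ := QuotientGroup.mk_surjective (s := NN M) (g' * g⁻¹)
  obtain ⟨p, _⟩ := walk_el M hodd h1 w g v
  obtain ⟨q, _⟩ := walk_T M ((w : CQ M) * g) v v'
  have e : (w : CQ M) * g = g' := by
    rw [hw]; group
  rw [e] at p q
  exact ⟨p.append q⟩

theorem GX_locfin (x : VX M) : ((GX M).neighborSet x).Finite := by
  apply Set.Finite.subset (Set.toFinite ({(x.1, par x.2), (x.1, (x.2.1 - 1, 2 * x.2.2)),
    (x.1, (x.2.1 - 1, 2 * x.2.2 + 1)), ((lmp x.2 : CQ M) * x.1, x.2)} : Set (VX M)))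
  rintro ⟨g, v⟩ hy
  obtain ⟨h, u⟩ := x
  rw [SimpleGraph.mem_neighborSet, GX_adj] at hy
  obtain ⟨_, hy | hy⟩ := hy
  · rcases hy with ⟨h1, h2⟩ | ⟨h1, h2⟩
    · simp only at h1 h2; subst h1; subst h2; simp
    · simp only at h1 h2; subst h1; subst h2; simp
  · rcases hy with ⟨h1, h2⟩ | ⟨h1, h2⟩
    · simp only at h1 h2; subst h1
      have h3 : u.1 = v.1 + 1 := congrArg Prod.fst h2
      have h4 : u.2 = v.2 / 2 := congrArg Prod.snd h2
      have h5 : v = (u.1 - 1, 2 * u.2) ∨ v = (u.1 - 1, 2 * u.2 + 1) := by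
        rcases Nat.mod_two_eq_zero_or_one v.2 with h | h
        · left; ext <;> simp only <;> omega
        · right; ext <;> simp only <;> omega
      rcases h5 with rfl | rfl <;> simp
    · simp only at h1 h2; subst h1
      have : g = (lmp v : CQ M) * h := by
        rw [h2, ← mul_assoc, ← QuotientGroup.mk_mul, lmp_mul_self]; simp
      rw [this]; simp

end V11198.Sep
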