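import Pool.Agent.W614.SC.Main
import Pool.Agent.TH362.TF.Main

/-!
# Double covers through a circuit all of whose bridges have at most sixteen odd vertices

The bridges of a two-regular subgraph `S`, after the contraction of the circuits of `S`, have
nowhere-zero 4-flows if they have at most sixteen vertices of odd degree and no Petersen quotient
(`Pool.Agent.TH362.TF.main16`).  With `Pool.Agent.W614.SC.four_of_flows` this gives double covers
which contain `S`.
-/

set_option autoImplicit false
set_option linter.unusedSectionVars false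

open Finset

namespace Pool.Agent.V11198.Six

open Pool.Agent.Helper347.Sab
open Pool.Agent.Helper998.Near (Rch join rch_symm even_iff_cast)
open Pool.Agent.W614.SC (four_of_flows)
open Pool.Agent.TH362.TF (NZ PQ N1 IsPQ Cons Joins)

variable {V E : Type} [Fintype V] [DecidableEq V] [Fintype E] [DecidableEq E]

/-- number of the ends of `e` at `x`, after the identification `κ` -/
def en (κ : V → V) (al be : E → V) (e : E) (x : V) : ℕ :=
  (if κ (al e) = x then 1 else 0) + (if κ (be e) = x then 1 else 0)

theorem deg_def (κ : V → V) (al be : E → V) (M : Finset E) (x : V) :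
    TH362.TF.deg (κ ∘ al) (κ ∘ be) M x = ∑ e ∈ M, en κ al be e x := rfl

/-- the degree sum over a class -/
theorem sum_dg_class (G : MGraph V E) (al be : E → V) (hab : ∀ e, al e ≠ be e)
    (hends : ∀ e, G.ends e = s(al e, be e)) (κ : V → V) (M : Finset E) (x : V) :
    ∑ v ∈ univ.filter (fun v => κ v = x), dg G M v = ∑ e ∈ M, en κ al be e x := by
  have h1 : ∀ v, dg G M v = ∑ e ∈ M, if v ∈ G.ends e then 1 else 0 := by
    intro v; unfold dg; rw [card_filter]
  rw [sum_congr rfl fun v _ => h1 v, sum_comm]
  refine sum_congr rfl fun e _ => ?_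
  rw [sum_filter]
  have h2 : ∀ v, (if κ v = x then (if v ∈ G.ends e then 1 else 0) else 0) =
      (if v = al e then (if κ (al e) = x then 1 else 0) else 0) +
      (if v = be e then (if κ (be e) = x then 1 else 0) else 0) := by
    intro v
    have hm : v ∈ G.ends e ↔ v = al e ∨ v = be e := by rw [hends e]; exact Sym2.mem_iff
    simp only [hm]
    by_cases h3 : v = al e
    · subst h3
      have := hab e
      simp [this]
    · by_cases h4 : v = be e
      · subst h4
        simp [h3]
      · simp [h3, h4]
  rw [sum_congr rfl fun v _ => h2 v, sum_add_distrib]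
  simp [en]

/-- completion inside `S` -/
theorem complete (G : MGraph V E) (al be : E → V) (hab : ∀ e, al e ≠ be e)
    (hends : ∀ e, G.ends e = s(al e, be e)) (S : Finset E) (κ : V → V)
    (hκ : ∀ v, Rch G S v (κ v)) (M : Finset E) (hSM : Disjoint S M)
    (hM : ∀ x, Even (∑ e ∈ M, en κ al be e x)) :
    ∃ J ⊆ S, Ev G (M ∪ J) := by
  obtain ⟨J, hJS, hJ⟩ := join G S (fun v => ((dg G M v : ℕ) : ZMod 2)) κ (fun v _ => hκ v)
  have hJ' : ∀ x, ((dg G J x : ℕ) : ZMod 2) = ((dg G M x : ℕ) : ZMod 2) := by
    intro x
    rw [hJ x]
    have h1 : ∑ v, (if x = κ v then ((dg G M v : ℕ) : ZMod 2) else 0) = 0 := by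
      have h2 : ∑ v, (if x = κ v then ((dg G M v : ℕ) : ZMod 2) else 0) =
          ((∑ v ∈ univ.filter (fun v => κ v = x), dg G M v : ℕ) : ZMod 2) := by
        rw [Nat.cast_sum, sum_filter]
        refine sum_congr rfl fun v _ => ?_
        by_cases h : κ v = x
        · rw [if_pos h.symm, if_pos h]
        · rw [if_neg (fun h' => h h'.symm), if_neg h]
      rw [h2, sum_dg_class G al be hab hends κ M x]
      exact (even_iff_cast _).1 (hM x)
    rw [h1, add_zero]
  refine ⟨J, hJS, fun v => ?_⟩
  have h1 := dg_sdiff (G := G) (X := M ∪ J) (Y := M) subset_union_left v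
  have h3 : (M ∪ J) \ M = J := by
    rw [union_sdiff_left]
    exact sdiff_eq_self_of_disjoint (disjoint_of_subset_left hJS hSM)
  rw [h3] at h1
  rw [even_iff_cast, ← h1, Nat.cast_add, hJ' v]
  exact CharTwo.add_self_eq_zero _

/-- the edge set where a coordinate of a flow is nonzero -/
theorem even_coord (κ : V → V) (al be : E → V) (K : Finset E) (g : E → ZMod 2)
    (h : ∀ v, ∑ e ∈ K, ((if (κ ∘ al) e = v then g e else 0) +
      (if (κ ∘ be) e = v then g e else 0)) = 0) (x : V) :
    Even (∑ e ∈ K.filter (fun e => g e = 1), en κ al be e x) := by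
  rw [← ZMod.natCast_eq_zero_iff_even, ← h x]
  push_cast
  rw [sum_filter]
  refine sum_congr rfl fun e _ => ?_
  have h2 : g e = 0 ∨ g e = 1 := by
    generalize g e = y
    revert y
    decide
  rcases h2 with h2 | h2
  · rw [h2]; simp
  · rw [h2]; simp [en]

/-- **Core.** Nowhere-zero flows on the bridges of `S` (with the circuits of `S` contracted) give
four even sets that cover the edges of `S` once and all other edges twice. -/
theorem four_of_nz (G : MGraph V E) (al be : E → V) (hab : ∀ e, al e ≠ be e)
    (hends : ∀ e, G.ends e = s(al e, be e)) (S : Finset E)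
    (hS : ∀ v, dg G S v = 0 ∨ dg G S v = 2) (κ : V → V) (hκ : ∀ v, Rch G S v (κ v))
    (K : V → Finset E)
    (hK : ∀ v e, e ∈ K v ↔ e ∉ S ∧ ∀ u ∈ G.ends e, Rch G (univ \ S) v u)
    (hnz : ∀ v, NZ (κ ∘ al) (κ ∘ be) (K v)) :
    ∃ X : Fin 4 → Finset E, (∀ i, Ev G (X i)) ∧
      (∀ e ∈ S, (univ.filter fun i => e ∈ X i).card = 1) ∧
      (∀ e, e ∉ S → (univ.filter fun i => e ∈ X i).card = 2) := by
  obtain ⟨X, h1, h2, h3, _⟩ := four_of_flows G S ∅ hS (fun v => by
    obtain ⟨φ, hφ1, hφ2⟩ := hnz v
    have hdis : ∀ (p : E → Prop) [DecidablePred p], Disjoint S ((K v).filter p) := by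
      intro p _
      rw [disjoint_left]
      intro e he h
      exact ((hK v e).1 (mem_filter.1 h).1).1 he
    obtain ⟨JA, hJA, hA⟩ := complete G al be hab hends S κ hκ
      ((K v).filter (fun e => (φ e).1 = 1)) (hdis _) (even_coord κ al be (K v)
        (fun e => (φ e).1) (fun x => by
          have h3 := congrArg Prod.fst (hφ2 x)
          rw [Prod.fst_sum] at h3
          refine Eq.trans (Finset.sum_congr rfl fun e _ => ?_) h3
          split_ifs <;> rfl))
    obtain ⟨JB, hJB, hB⟩ := complete G al be hab hends S κ hκ
      ((K v).filter (fun e => (φ e).2 = 1)) (hdis _) (even_coord κ al be (K v)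
        (fun e => (φ e).2) (fun x => by
          have h3 := congrArg Prod.snd (hφ2 x)
          rw [Prod.snd_sum] at h3
          refine Eq.trans (Finset.sum_congr rfl fun e _ => ?_) h3
          split_ifs <;> rfl))
    refine ⟨_, _, hA, hB, ?_, ?_⟩
    · intro f hf h
      rcases h with h | h
      · rcases mem_union.1 h with h | h
        · exact ((hK v f).1 (mem_filter.1 h).1).2
        · exact absurd (hJA h) hf
      · rcases mem_union.1 h with h | h
        · exact ((hK v f).1 (mem_filter.1 h).1).2
        · exact absurd (hJB h) hf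
    · intro f hf _ hr
      have hfK : f ∈ K v := (hK v f).2 ⟨hf, hr⟩
      have h0 := hφ1 f hfK
      have h4 : (φ f).1 = 1 ∨ (φ f).2 = 1 := by
        revert h0
        generalize φ f = y
        revert y
        decide
      rcases h4 with h4 | h4
      · exact Or.inl (mem_union_left _ (mem_filter.2 ⟨hfK, h4⟩))
      · exact Or.inr (mem_union_left _ (mem_filter.2 ⟨hfK, h4⟩)))
  exact ⟨X, h1, h2, fun e he => h3 e he (notMem_empty e)⟩

/-- the parity of a cut of an edge set that is even at all vertices but one -/
theorem cut_even (s t : E → V) (D : Finset E) (p : V)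
    (h : ∀ v, v ≠ p → Even (TH362.TF.deg s t D v)) (x : V → Bool) :
    Even (TH362.TF.cut s t D x).card := by
  -- it suffices to treat `x p = false`
  have key : ∀ x : V → Bool, x p = false → Even (TH362.TF.cut s t D x).card := by
    intro x hx
    have h1 : Even (∑ v ∈ univ.filter (fun v => x v = true), TH362.TF.deg s t D v) := by
      apply Finset.even_sum
      intro v hv
      apply h v
      rintro rfl
      rw [mem_filter, hx] at hv
      exact absurd hv.2 (by decide)
    have h2 : ∑ v ∈ univ.filter (fun v => x v = true), TH362.TF.deg s t D v =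
        ∑ e ∈ D, ((if x (s e) = true then 1 else 0) + (if x (t e) = true then 1 else 0)) := by
      unfold TH362.TF.deg
      rw [sum_comm]
      refine sum_congr rfl fun e _ => ?_
      rw [sum_add_distrib, sum_filter, sum_filter]
      congr 1
      · rw [Finset.sum_eq_single (s e)]
        · simp
        · intro b _ hb
          simp [Ne.symm hb]
        · simp
      · rw [Finset.sum_eq_single (t e)]
        · simp
        · intro b _ hb
          simp [Ne.symm hb]
        · simp
    rw [h2, ← ZMod.natCast_eq_zero_iff_even] at h1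
    rw [← ZMod.natCast_eq_zero_iff_even, ← h1]
    unfold TH362.TF.cut
    rw [card_filter]
    push_cast
    refine sum_congr rfl fun e _ => ?_
    cases x (s e) <;> cases x (t e) <;> simp
    exact (by decide : (0 : ZMod 2) = 1 + 1)
  cases hx : x p
  · exact key x hx
  · have h1 := key (fun v => !x v) (by simp [hx])
    have h2 : TH362.TF.cut s t D (fun v => !x v) = TH362.TF.cut s t D x := by
      unfold TH362.TF.cut
      apply filter_congr
      intro e _
      show (!x (s e)) ≠ (!x (t e)) ↔ x (s e) ≠ x (t e)
      cases x (s e) <;> cases x (t e) <;> simp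
    rwa [h2] at h1

/-- the number of the vertices of odd degree is even -/
theorem odd_even (s t : E → V) (D : Finset E) : Even (TH362.TF.odd s t D).card := by
  unfold TH362.TF.odd
  rw [← Finset.even_sum_iff_even_card_odd]
  have h2 : ∑ v, TH362.TF.deg s t D v = 2 * D.card := by
    unfold TH362.TF.deg
    rw [sum_comm]
    simp only [sum_add_distrib, Finset.sum_ite_eq, mem_univ, if_true, sum_const, smul_eq_mul,
      mul_one]
    ring
  rw [h2]
  exact even_two_mul _

/-- no cut of size one, from even sets -/
theorem n1_of (s t : E → V) (K : Finset E) (p : V)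
    (h : ∀ e ∈ K, ∃ D ⊆ K, e ∈ D ∧ ∀ v, v ≠ p → Even (TH362.TF.deg s t D v)) : N1 s t K := by
  intro x hx
  obtain ⟨e, he⟩ := card_eq_one.1 hx
  have heK : e ∈ TH362.TF.cut s t K x := by rw [he]; exact mem_singleton_self e
  unfold TH362.TF.cut at heK
  rw [mem_filter] at heK
  obtain ⟨D, hDK, heD, hD⟩ := h e heK.1
  have h1 := cut_even s t D p hD x
  have h2 : TH362.TF.cut s t D x = {e} := by
    apply Subset.antisymm
    · intro f hf
      unfold TH362.TF.cut at hf
      rw [mem_filter] at hf
      rw [← he]
      unfold TH362.TF.cut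
      rw [mem_filter]
      exact ⟨hDK hf.1, hf.2⟩
    · intro f hf
      rw [mem_singleton] at hf
      subst hf
      unfold TH362.TF.cut
      rw [mem_filter]
      exact ⟨heD, heK.2⟩
  rw [h2, card_singleton] at h1
  exact absurd h1 (by decide)

end Pool.Agent.V11198.Six
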