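import Pool.Agent.V11198.Sixteen

/-!
# Circuits all of whose bridges have at most sixteen odd vertices lie in 5-cycle double covers
-/

set_option autoImplicit false
set_option linter.unusedSectionVars false

open Finset

namespace Pool.Agent.V11198.Six

open Pool.Agent.Helper347.Sab
open Pool.Agent.Helper998.Near (Rch join rch_symm even_iff_cast circ_reach)
open Pool.Agent.TH362.TF (NZ PQ N1 IsPQ Cons Joins)

variable {V E : Type} [Fintype V] [DecidableEq V] [Fintype E] [DecidableEq E]

/-- Four even sets that cover `C` once and the other edges twice, for a circuit `C` of a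
bridgeless graph such that every component of `G - E(C)` has at most sixteen vertices of odd degree
off `C`, and no set of at least nine vertices off `C` in one component is left by exactly three
edges. -/
theorem four_of_sixteen (G : MGraph V E) (C : Finset E) (hC : IsCircuit G C)
    (hb : ∀ e, ∃ D, Ev G D ∧ e ∈ D)
    (h16 : ∀ v, ({w | dg G C w = 0 ∧ Odd (dg G univ w) ∧ Rch G (univ \ C) v w} : Set V).ncard ≤ 16)
    (h3 : ∀ (v : V) (X : Finset V), (∀ w ∈ X, dg G C w = 0 ∧ Rch G (univ \ C) v w) →
      9 ≤ X.card → ({e | ∃ a ∈ X, ∃ b ∉ X, G.ends e = s(a, b)} : Set E).ncard ≠ 3) :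
    ∃ X : Fin 4 → Finset E, (∀ i, Ev G (X i)) ∧
      (∀ e ∈ C, (univ.filter fun i => e ∈ X i).card = 1) ∧
      (∀ e, e ∉ C → (univ.filter fun i => e ∈ X i).card = 2) := by
  classical
  have hends' : ∀ e, ∃ u v, u ≠ v ∧ G.ends e = s(u, v) := fun e => exists_ends G e
  choose al be hab hends using hends'
  have hmem : ∀ e v, v ∈ G.ends e ↔ v = al e ∨ v = be e := fun e v => by
    rw [hends e]; exact Sym2.mem_iff
  obtain ⟨e0, he0⟩ := hC.1
  obtain ⟨p0, hp0⟩ : ∃ p0, dg G C p0 = 2 := ⟨al e0, (hC.2.1 _).resolve_left (by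
    have := dg_pos_of_mem (G := G) he0 ((hmem e0 (al e0)).2 (Or.inl rfl)); omega)⟩
  obtain ⟨κ, hκdef⟩ : ∃ κ : V → V, ∀ v, κ v = if dg G C v = 2 then p0 else v := ⟨_, fun _ => rfl⟩
  have hκ2 : ∀ v, dg G C v = 2 → κ v = p0 := fun v hv => by rw [hκdef, if_pos hv]
  have hκ0 : ∀ v, dg G C v = 0 → κ v = v := fun v hv => by rw [hκdef, if_neg (by omega)]
  have hκn : ∀ v, κ v ≠ p0 → dg G C v = 0 ∧ κ v = v := by
    intro v hv
    rcases hC.2.1 v with h | h
    · exact ⟨h, hκ0 v h⟩
    · exact absurd (hκ2 v h) hv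
  have hκr : ∀ v, Rch G C v (κ v) := by
    intro v
    rcases hC.2.1 v with h | h
    · rw [hκ0 v h]
    · rw [hκ2 v h]
      exact circ_reach G C hC v p0 h hp0
  obtain ⟨K, hK⟩ : ∃ K : V → Finset E, ∀ v e, e ∈ K v ↔ e ∉ C ∧
      ∀ u ∈ G.ends e, Rch G (univ \ C) v u :=
    ⟨fun v => univ.filter fun e => e ∉ C ∧ ∀ u ∈ G.ends e, Rch G (univ \ C) v u,
      fun v e => by simp⟩
  -- edges at a reachable vertex off `C`
  have hnC : ∀ v, dg G C v = 0 → ∀ e, v ∈ G.ends e → e ∉ C := by
    intro v hv e he h
    have := dg_pos_of_mem (G := G) h he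
    omega
  have hKof : ∀ v w, Rch G (univ \ C) v w → ∀ e, w ∈ G.ends e → e ∉ C → e ∈ K v := by
    intro v w hr e he heC
    rw [hK]
    refine ⟨heC, fun u hu => ?_⟩
    by_cases huw : w = u
    · rw [← huw]; exact hr
    · exact hr.tail ⟨e, mem_sdiff.2 ⟨mem_univ _, heC⟩, (Sym2.mem_and_mem_iff huw).1 ⟨he, hu⟩⟩
  -- degrees in the contracted graph
  have hdeg : ∀ (M : Finset E) v, v ≠ p0 → TH362.TF.deg (κ ∘ al) (κ ∘ be) M v =
      if dg G C v = 0 then dg G M v else 0 := by
    intro M v hv
    rw [deg_def, ← sum_dg_class G al be hab hends κ M v]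
    by_cases h0 : dg G C v = 0
    · rw [if_pos h0]
      have h1 : univ.filter (fun w => κ w = v) = {v} := by
        ext w
        rw [mem_filter, mem_singleton]
        constructor
        · rintro ⟨_, h⟩
          have := hκn w (by rw [h]; exact hv)
          rw [← h]; exact this.2.symm
        · rintro rfl
          exact ⟨mem_univ _, hκ0 w h0⟩
      rw [h1, sum_singleton]
    · rw [if_neg h0]
      have h1 : univ.filter (fun w => κ w = v) = ∅ := by
        rw [filter_eq_empty_iff]
        intro w _ h
        have := hκn w (by rw [h]; exact hv)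
        rw [← h, this.2] at h0
        exact h0 this.1
      rw [h1, sum_empty]
  -- degrees of parts of the bridge
  have hpart : ∀ (v w : V) (D : Finset E), dg G C w = 0 →
      dg G (D ∩ K v) w = if Rch G (univ \ C) v w then dg G D w else 0 := by
    intro v w D hw
    by_cases hr : Rch G (univ \ C) v w
    · rw [if_pos hr]
      unfold dg
      congr 1
      ext e
      rw [mem_filter, mem_filter, mem_inter]
      constructor
      · rintro ⟨⟨h1, _⟩, h2⟩; exact ⟨h1, h2⟩
      · rintro ⟨h1, h2⟩
        exact ⟨⟨h1, hKof v w hr e h2 (hnC w hw e h2)⟩, h2⟩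
    · rw [if_neg hr]
      unfold dg
      rw [card_eq_zero, filter_eq_empty_iff]
      intro e he hv'
      exact hr (((hK v e).1 (mem_inter.1 he).2).2 w hv')
  apply four_of_nz G al be hab hends C hC.2.1 κ hκr K hK
  intro v0
  have hN1 : N1 (κ ∘ al) (κ ∘ be) (K v0) := by
    apply n1_of (κ ∘ al) (κ ∘ be) (K v0) p0
    intro e he
    obtain ⟨D, hD, heD⟩ := hb e
    refine ⟨D ∩ K v0, inter_subset_right, mem_inter.2 ⟨heD, he⟩, fun v hv => ?_⟩
    rw [hdeg _ v hv]
    by_cases h0 : dg G C v = 0
    · rw [if_pos h0, hpart v0 v D h0]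
      split_ifs
      · exact hD v
      · exact ⟨0, rfl⟩
    · rw [if_neg h0]; exact ⟨0, rfl⟩
  have hodd : (TH362.TF.odd (κ ∘ al) (κ ∘ be) (K v0)).card ≤ 16 := by
    obtain ⟨W, hW⟩ : ∃ W : Finset V, W = univ.filter fun w => dg G C w = 0 ∧
      Odd (dg G univ w) ∧ Rch G (univ \ C) v0 w := ⟨_, rfl⟩
    have hW16 : W.card ≤ 16 := by
      have h1 := h16 v0
      have h2 : ({w | dg G C w = 0 ∧ Odd (dg G univ w) ∧ Rch G (univ \ C) v0 w} : Set V) =
          (W : Set V) := by
        rw [hW]; ext w; simp
      rw [h2, Set.ncard_coe_finset] at h1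
      exact h1
    have hsub : TH362.TF.odd (κ ∘ al) (κ ∘ be) (K v0) ⊆ insert p0 W := by
      intro w hw
      unfold TH362.TF.odd at hw
      rw [mem_filter] at hw
      by_cases hwp : w = p0
      · rw [hwp]; exact mem_insert_self _ _
      · apply mem_insert_of_mem
        have h1 := hw.2
        rw [hdeg _ w hwp] at h1
        by_cases h0 : dg G C w = 0
        · rw [if_pos h0] at h1
          have h2 := hpart v0 w univ h0
          rw [univ_inter] at h2
          rw [h2] at h1
          by_cases hr : Rch G (univ \ C) v0 w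
          · rw [if_pos hr] at h1
            rw [hW, mem_filter]
            exact ⟨mem_univ _, h0, h1, hr⟩
          · rw [if_neg hr] at h1
            exact absurd h1 (by decide)
        · rw [if_neg h0] at h1
          exact absurd h1 (by decide)
    have h1 := card_le_card hsub
    have h2 := card_insert_le p0 W
    have h4 := odd_even (κ ∘ al) (κ ∘ be) (K v0)
    rw [Nat.even_iff] at h4
    omega
  rcases TH362.TF.main16 (κ ∘ al) (κ ∘ be) (K v0) hN1 hodd with h | ⟨c, hc⟩
  · exact h
  · exfalso
    have hpn : ∀ k, TH362.TF.padj k (TH362.TF.nb k 0) = true := by decide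
    obtain ⟨X, hX⟩ : ∃ X : Finset V, X = univ.filter fun w => dg G C w = 0 ∧
      Rch G (univ \ C) v0 w ∧ c w ≠ c p0 := ⟨_, rfl⟩
    have hXmem : ∀ w, w ∈ X ↔ dg G C w = 0 ∧ Rch G (univ \ C) v0 w ∧ c w ≠ c p0 := by
      intro w; rw [hX, mem_filter]; simp
    -- an end of an edge of the bridge in a class other than that of `p0` is in `X`
    have hend : ∀ e ∈ K v0, ∀ u ∈ G.ends e, c (κ u) ≠ c p0 → u ∈ X ∧ κ u = u := by
      intro e he u hu hcu
      have h1 : κ u ≠ p0 := fun h => hcu (by rw [h])
      have h2 := hκn u h1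
      refine ⟨(hXmem u).2 ⟨h2.1, ((hK v0 e).1 he).2 u hu, ?_⟩, h2.2⟩
      rw [h2.2] at hcu
      exact hcu
    have hend' : ∀ u ∈ X, c (κ u) ≠ c p0 := by
      intro u hu
      have h1 := (hXmem u).1 hu
      rw [hκ0 u h1.1]
      exact h1.2.2
    apply h3 v0 X (fun w hw => ⟨((hXmem w).1 hw).1, ((hXmem w).1 hw).2.1⟩)
    · -- nine classes
      have h1 : univ.erase (c p0) ⊆ X.image c := by
        intro k hk
        have hk' : k ≠ c p0 := ne_of_mem_erase hk
        obtain ⟨e, heK, he⟩ := hc.2 k (TH362.TF.nb k 0) (hpn k)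
        rw [mem_image]
        rcases he with ⟨a, _⟩ | ⟨_, a⟩
        · have h2 := hend e heK (al e) ((hmem e _).2 (Or.inl rfl)) (by
            have : c (κ (al e)) = k := a
            rw [this]; exact hk')
          refine ⟨al e, h2.1, ?_⟩
          have : c (κ (al e)) = k := a
          rwa [h2.2] at this
        · have h2 := hend e heK (be e) ((hmem e _).2 (Or.inr rfl)) (by
            have : c (κ (be e)) = k := a
            rw [this]; exact hk')
          refine ⟨be e, h2.1, ?_⟩
          have : c (κ (be e)) = k := a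
          rwa [h2.2] at this
      have h2 := card_le_card h1
      rw [card_erase_of_mem (mem_univ _), card_univ, Fintype.card_fin] at h2
      exact le_trans h2 card_image_le
    · -- three edges
      have h1 : ({e | ∃ a ∈ X, ∃ b ∉ X, G.ends e = s(a, b)} : Set E) =
          (TH362.TF.cut (κ ∘ al) (κ ∘ be) (K v0) (fun v => decide (c v = c p0)) : Set E) := by
        ext e
        rw [mem_coe]
        unfold TH362.TF.cut
        rw [mem_filter]
        simp only [Set.mem_ofPred_eq, Function.comp_apply, ne_eq, decide_eq_decide]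
        constructor
        · rintro ⟨a, ha, b, hbX, he⟩
          have ha' := (hXmem a).1 ha
          have hae : a ∈ G.ends e := by rw [he]; exact Sym2.mem_mk_left _ _
          have hbe : b ∈ G.ends e := by rw [he]; exact Sym2.mem_mk_right _ _
          have heK := hKof v0 a ha'.2.1 e hae (hnC a ha'.1 e hae)
          refine ⟨heK, ?_⟩
          have h5 : c (κ a) ≠ c p0 := hend' a ha
          have h6 : c (κ b) = c p0 := by
            by_contra h7
            exact hbX (hend e heK b hbe h7).1
          have h7 : (al e = a ∧ be e = b) ∨ (al e = b ∧ be e = a) := by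
            have h8 := hends e
            rw [he] at h8
            rcases Sym2.eq_iff.1 h8 with ⟨h9, h10⟩ | ⟨h9, h10⟩
            · exact Or.inl ⟨h9.symm, h10.symm⟩
            · exact Or.inr ⟨h10.symm, h9.symm⟩
          rcases h7 with ⟨h9, h10⟩ | ⟨h9, h10⟩
          · rw [h9, h10]; tauto
          · rw [h9, h10]; tauto
        · rintro ⟨heK, hne⟩
          by_cases h5 : c (κ (al e)) = c p0
          · have h6 : c (κ (be e)) ≠ c p0 := by tauto
            have h7 := hend e heK (be e) ((hmem e _).2 (Or.inr rfl)) h6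
            refine ⟨be e, h7.1, al e, fun h => hend' _ h h5, ?_⟩
            rw [hends e, Sym2.eq_swap]
          · have h6 : c (κ (be e)) = c p0 := by tauto
            have h7 := hend e heK (al e) ((hmem e _).2 (Or.inl rfl)) h5
            exact ⟨al e, h7.1, be e, fun h => hend' _ h h6, hends e⟩
      rw [h1, Set.ncard_coe_finset]
      exact hc.1 (c p0)

end Pool.Agent.V11198.Six
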