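import Pool.Agent.V11198.SixteenC

/-!
# 5-cycle double covers through circuits with small bridges: the final form
-/

set_option autoImplicit false
set_option linter.unusedSectionVars false

open Finset

namespace Pool.Agent.V11198.Six

open Pool.Agent.Helper347.Sab
open Pool.Agent.Helper998.Near (Rch rch_symm)

variable {V E : Type} [Fintype V] [DecidableEq V] [Fintype E] [DecidableEq E]

theorem five_of_four (G : MGraph V E) (C : Finset E) (hCe : Ev G C)
    (h : ∃ X : Fin 4 → Finset E, (∀ i, Ev G (X i)) ∧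
      (∀ e ∈ C, (univ.filter fun i => e ∈ X i).card = 1) ∧
      (∀ e, e ∉ C → (univ.filter fun i => e ∈ X i).card = 2)) :
    ∃ D : Fin 5 → Finset E, (∀ i, Ev G (D i)) ∧ D 0 = C ∧
      ∀ e, (univ.filter fun i => e ∈ D i).card = 2 := by
  classical
  obtain ⟨X, h1, h2, h3⟩ := h
  refine ⟨Fin.cons C X, ?_, rfl, ?_⟩
  · intro i
    refine Fin.cases ?_ (fun j => ?_) i
    · exact hCe
    · exact h1 j
  · intro e
    have h4 : (univ.filter fun i : Fin 5 => e ∈ (Fin.cons C X : Fin 5 → Finset E) i).card =
        (if e ∈ C then 1 else 0) + (univ.filter fun i => e ∈ X i).card := by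
      rw [card_filter, Fin.sum_univ_succ, card_filter]
      rfl
    rw [h4]
    by_cases h5 : e ∈ C
    · rw [if_pos h5, h2 e h5]
    · rw [if_neg h5, h3 e h5]

theorem ev_of_circuit (G : MGraph V E) (C : Finset E) (hC : IsCircuit G C) : Ev G C := by
  intro v; rcases hC.2.1 v with h | h <;> rw [h] <;> decide

/-- the general form, with the hypotheses for vertices off `C` only -/
theorem five_general (G : MGraph V E) (hb : ∀ e, ∃ D, IsCircuit G D ∧ e ∈ D) (C : Finset E)
    (hC : IsCircuit G C)
    (h16 : ∀ v, dg G C v = 0 →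
      ({w | dg G C w = 0 ∧ Odd (dg G univ w) ∧ Rch G (univ \ C) v w} : Set V).ncard ≤ 16)
    (h3 : ∀ (v : V) (X : Finset V), dg G C v = 0 →
      (∀ w ∈ X, dg G C w = 0 ∧ Rch G (univ \ C) v w) →
      9 ≤ X.card → ({e | ∃ a ∈ X, ∃ b ∉ X, G.ends e = s(a, b)} : Set E).ncard ≠ 3) :
    ∃ D : Fin 5 → Finset E, (∀ i, Ev G (D i)) ∧ D 0 = C ∧
      ∀ e, (univ.filter fun i => e ∈ D i).card = 2 := by
  apply five_of_four G C (ev_of_circuit G C hC)
  apply four_of_sixteen G C hC (fun e => by
    obtain ⟨D, hD, he⟩ := hb e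
    exact ⟨D, ev_of_circuit G D hD, he⟩)
  · intro v
    by_cases h : ∃ u, dg G C u = 0 ∧ Rch G (univ \ C) v u
    · obtain ⟨u, hu, hvu⟩ := h
      have h1 : ({w | dg G C w = 0 ∧ Odd (dg G univ w) ∧ Rch G (univ \ C) v w} : Set V) =
          {w | dg G C w = 0 ∧ Odd (dg G univ w) ∧ Rch G (univ \ C) u w} := by
        ext w
        constructor
        · rintro ⟨a, b, c⟩; exact ⟨a, b, (rch_symm G _ _ _ hvu).trans c⟩
        · rintro ⟨a, b, c⟩; exact ⟨a, b, hvu.trans c⟩
      rw [h1]
      exact h16 u hu
    · have h1 : ({w | dg G C w = 0 ∧ Odd (dg G univ w) ∧ Rch G (univ \ C) v w} : Set V) = ∅ := by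
        ext w
        constructor
        · rintro ⟨a, b, c⟩; exact absurd ⟨w, a, c⟩ h
        · intro hw; exact absurd hw (Set.notMem_empty w)
      rw [h1, Set.ncard_empty]
      omega
  · intro v X hX h9
    obtain ⟨u, hu⟩ : X.Nonempty := card_pos.1 (by omega)
    apply h3 u X (hX u hu).1 (fun w hw => ⟨(hX w hw).1, ?_⟩) h9
    exact (rch_symm G _ _ _ (hX u hu).2).trans (hX w hw).2

/-- a path which avoids the vertices of `C` -/
def OffJoined (G : MGraph V E) (C : Finset E) (a b : V) : Prop :=
  Relation.ReflTransGen (fun x y => dg G C x = 0 ∧ dg G C y = 0 ∧ ∃ e, G.ends e = s(x, y)) a b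

/-- In a cubic graph the components of `G - E(C)` off `C` are those of `G - V(C)`. -/
theorem off_of_rch (G : MGraph V E) (hG : IsCubic G) (C : Finset E) (hC : IsCircuit G C)
    (v : V) (hv : dg G C v = 0) (z : V) (hr : Rch G (univ \ C) v z) :
    (dg G C z = 0 → OffJoined G C v z) ∧
    (dg G C z = 2 → ∀ e, e ∉ C → z ∈ G.ends e → ∃ u, G.ends e = s(u, z) ∧ dg G C u = 0 ∧
      OffJoined G C v u) := by
  induction hr with
  | refl => exact ⟨fun _ => Relation.ReflTransGen.refl, fun h => by omega⟩
  | @tail w w' _ hstep ih =>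
    obtain ⟨e, he, hends⟩ := hstep
    have heC : e ∉ C := (mem_sdiff.1 he).2
    have hwe : w ∈ G.ends e := by rw [hends]; exact Sym2.mem_mk_left _ _
    have hwe' : w' ∈ G.ends e := by rw [hends]; exact Sym2.mem_mk_right _ _
    rcases hC.2.1 w with h0 | h2
    · have hvw := ih.1 h0
      constructor
      · intro h0'
        exact hvw.tail ⟨h0, h0', e, hends⟩
      · intro h2' f hf hfw
        -- the only edge at `w'` outside `C`
        have hfe : f = e := by
          by_contra hne
          have h3 := hG w'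
          have h4 : insert f (insert e (C.filter fun g => w' ∈ G.ends g)) ⊆
              univ.filter fun g => w' ∈ G.ends g := by
            intro g hg
            rw [mem_insert, mem_insert] at hg
            rw [mem_filter]
            rcases hg with rfl | rfl | hg
            · exact ⟨mem_univ _, hfw⟩
            · exact ⟨mem_univ _, hwe'⟩
            · exact ⟨mem_univ _, (mem_filter.1 hg).2⟩
          have h5 := card_le_card h4
          rw [card_insert_of_notMem (by
            rw [mem_insert]
            rintro (h | h)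
            · exact hne h
            · exact hf (mem_filter.1 h).1), card_insert_of_notMem (fun h =>
              heC (mem_filter.1 h).1)] at h5
          unfold dg at h3 h2'
          omega
        subst hfe
        exact ⟨w, hends, h0, hvw⟩
    · obtain ⟨u, hu, hu0, hvu⟩ := ih.2 h2 e heC hwe
      have hwu : w' = u := by
        rw [hends] at hu
        rcases Sym2.eq_iff.1 hu with ⟨h5, h6⟩ | ⟨_, h6⟩
        · rw [h6, h5]
        · exact h6
      subst hwu
      exact ⟨fun _ => hvu, fun h => by omega⟩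

/-- the form for cubic graphs -/
theorem five_cubic (G : MGraph V E) (hG : IsCubic G) (hb : ∀ e, ∃ D, IsCircuit G D ∧ e ∈ D)
    (C : Finset E) (hC : IsCircuit G C)
    (h16 : ∀ v, dg G C v = 0 → ({w | OffJoined G C v w} : Set V).ncard ≤ 16)
    (h3 : ∀ (v : V) (X : Finset V), dg G C v = 0 → (∀ w ∈ X, OffJoined G C v w) →
      9 ≤ X.card → ({e | ∃ a ∈ X, ∃ b ∉ X, G.ends e = s(a, b)} : Set E).ncard ≠ 3) :
    ∃ D : Fin 5 → Finset E, (∀ i, Ev G (D i)) ∧ D 0 = C ∧
      ∀ e, (univ.filter fun i => e ∈ D i).card = 2 := by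
  apply five_general G hb C hC
  · intro v hv
    refine le_trans (Set.ncard_le_ncard ?_ (Set.toFinite _)) (h16 v hv)
    rintro w ⟨h0, _, hr⟩
    exact (off_of_rch G hG C hC v hv w hr).1 h0
  · intro v X hv hX h9
    exact h3 v X hv (fun w hw => (off_of_rch G hG C hC v hv w (hX w hw).2).1 (hX w hw).1) h9

end Pool.Agent.V11198.Six
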