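import Pool.Agent.V11198.SixteenD

/-!
# Two-regular subgraphs `S` with `G - E(S)` connected and few odd classes
-/

set_option autoImplicit false
set_option linter.unusedSectionVars false

open Finset

namespace Pool.Agent.V11198.Six

open Pool.Agent.Helper347.Sab
open Pool.Agent.Helper998.Near (Rch join rch_symm even_iff_cast)
open Pool.Agent.TH362.TF (NZ PQ N1 IsPQ Cons Joins)

variable {V E : Type} [Fintype V] [DecidableEq V] [Fintype E] [DecidableEq E]

/-- representatives of the components of the graph with edge set `S` -/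
theorem exists_rep (G : MGraph V E) (S : Finset E) :
    ∃ κ : V → V, (∀ v, Rch G S v (κ v)) ∧ ∀ u v, κ u = κ v ↔ Rch G S u v := by
  classical
  let st : Setoid V := ⟨Rch G S, ⟨fun _ => Relation.ReflTransGen.refl,
    fun hab => rch_symm G _ _ _ hab, fun hab hbc => hab.trans hbc⟩⟩
  have h1 : ∀ v, Rch G S v (Quotient.mk st v).out := fun v =>
    rch_symm G _ _ _ (Quotient.exact (s := st) (Quotient.out_eq (Quotient.mk st v)))
  refine ⟨fun v => (Quotient.mk st v).out, h1, fun u v => ?_⟩
  constructor
  · intro h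
    have h2 := h1 u
    have h3 := h1 v
    simp only at h
    rw [h] at h2
    exact h2.trans (rch_symm G _ _ _ h3)
  · intro h
    have h2 : Quotient.mk st u = Quotient.mk st v := Quotient.sound (s := st) h
    simp only [h2]

/-- **The flows.**  If `G - E(S)` is connected and the graph `G / S` has at most sixteen vertices of
odd degree, it has a nowhere-zero flow or a Petersen quotient. -/
theorem four_of_reg (G : MGraph V E) (S : Finset E) (hS : ∀ v, dg G S v = 0 ∨ dg G S v = 2)
    (hb : ∀ e, ∃ D, Ev G D ∧ e ∈ D) (hconn : ∀ u v, Rch G (univ \ S) u v)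
    (al be : E → V) (hab : ∀ e, al e ≠ be e) (hends : ∀ e, G.ends e = s(al e, be e))
    (κ : V → V) (hκr : ∀ v, Rch G S v (κ v)) (hκ : ∀ u v, κ u = κ v ↔ Rch G S u v)
    (h16 : (univ.filter fun x => κ x = x ∧
      Odd (∑ v ∈ univ.filter (fun v => κ v = x), dg G univ v)).card ≤ 16)
    (hPQ : ∀ c : V → Fin 10, ¬ IsPQ (κ ∘ al) (κ ∘ be) (univ \ S) c) :
    ∃ X : Fin 4 → Finset E, (∀ i, Ev G (X i)) ∧
      (∀ e ∈ S, (univ.filter fun i => e ∈ X i).card = 1) ∧
      (∀ e, e ∉ S → (univ.filter fun i => e ∈ X i).card = 2) := by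
  classical
  have hκS : ∀ e ∈ S, κ (al e) = κ (be e) := fun e he =>
    (hκ _ _).2 (Relation.ReflTransGen.single ⟨e, he, hends e⟩)
  -- the `S`-part of the degrees is even
  have hpar : ∀ (D : Finset E) (x : V), (Even (∑ e ∈ D \ S, en κ al be e x) ↔
      Even (∑ v ∈ univ.filter (fun v => κ v = x), dg G D v)) := by
    intro D x
    rw [sum_dg_class G al be hab hends κ D x]
    have h1 : ∑ e ∈ D, en κ al be e x =
        ∑ e ∈ D \ S, en κ al be e x + ∑ e ∈ D ∩ S, en κ al be e x := by
      rw [← sum_union (disjoint_of_subset_right inter_subset_right sdiff_disjoint),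
        sdiff_union_inter]
    have h2 : Even (∑ e ∈ D ∩ S, en κ al be e x) := by
      apply Finset.even_sum
      intro e he
      unfold en
      rw [hκS e (mem_inter.1 he).2]
      split_ifs <;> decide
    rw [h1, Nat.even_add]
    simp [h2]
  apply four_of_nz G al be hab hends S hS κ hκr (fun _ => univ \ S) (fun v e => by
    rw [mem_sdiff]
    constructor
    · rintro ⟨_, h⟩; exact ⟨h, fun u _ => hconn v u⟩
    · rintro ⟨h, _⟩; exact ⟨mem_univ _, h⟩)
  intro v0
  have hN1 : N1 (κ ∘ al) (κ ∘ be) (univ \ S) := by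
    apply n1_of (κ ∘ al) (κ ∘ be) (univ \ S) v0
    intro e he
    obtain ⟨D, hD, heD⟩ := hb e
    refine ⟨D \ S, sdiff_subset_sdiff (subset_univ _) le_rfl,
      mem_sdiff.2 ⟨heD, (mem_sdiff.1 he).2⟩, fun v _ => ?_⟩
    rw [deg_def, hpar D v]
    apply Finset.even_sum
    intro w _
    exact hD w
  have hodd : (TH362.TF.odd (κ ∘ al) (κ ∘ be) (univ \ S)).card ≤ 16 := by
    refine le_trans (card_le_card ?_) h16
    intro x hx
    unfold TH362.TF.odd at hx
    rw [mem_filter] at hx
    have hx2 := hx.2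
    rw [deg_def] at hx2
    have h1 : Odd (∑ v ∈ univ.filter (fun v => κ v = x), dg G univ v) := by
      rw [← Nat.not_even_iff_odd, ← hpar univ x, Nat.not_even_iff_odd]
      exact hx2
    rw [mem_filter]
    refine ⟨mem_univ _, ?_, h1⟩
    obtain ⟨w, hw⟩ : (univ.filter (fun v => κ v = x)).Nonempty := by
      rw [nonempty_iff_ne_empty]
      intro h
      rw [h, sum_empty] at h1
      exact absurd h1 (by decide)
    have hwx := (mem_filter.1 hw).2
    have h2 := (hκ w (κ w)).2 (hκr w)
    rw [hwx] at h2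
    exact h2.symm
  rcases TH362.TF.main16 (κ ∘ al) (κ ∘ be) (univ \ S) hN1 hodd with h | ⟨c, hc⟩
  · exact h
  · exact absurd hc (hPQ c)

/-- `S` and four even sets give a double cover containing the circuits of `S`. -/
theorem cdc_of_four (G : MGraph V E) (S : Finset E) (hS : ∀ v, dg G S v = 0 ∨ dg G S v = 2)
    (h : ∃ X : Fin 4 → Finset E, (∀ i, Ev G (X i)) ∧
      (∀ e ∈ S, (univ.filter fun i => e ∈ X i).card = 1) ∧
      (∀ e, e ∉ S → (univ.filter fun i => e ∈ X i).card = 2)) :
    ∃ F : Multiset (Finset E), (∀ X ∈ F, IsCircuit G X) ∧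
      (∀ e, F.countP (e ∈ ·) = 2) ∧ ∀ D, IsCircuit G D → D ⊆ S → D ∈ F := by
  classical
  obtain ⟨X, h1, h2, h3⟩ := h
  choose T hT1 hT2 using fun i => Pool.Agent.W831.HI.decompose_ev G (X i) (h1 i)
  obtain ⟨N, hN1, hN2⟩ := decompose G _ S le_rfl hS
  refine ⟨N + ∑ i, T i, ?_, ?_, ?_⟩
  · intro Y hY
    rw [Multiset.mem_add] at hY
    rcases hY with h | h
    · exact hN1 Y h
    · rw [Multiset.mem_sum] at h
      obtain ⟨i, _, hi⟩ := h
      exact hT1 i Y hi
  · intro e
    rw [Multiset.countP_add, hN2, Pool.Agent.W831.HI.countP_sum, sum_congr rfl fun i _ => hT2 i e,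
      ← card_filter]
    by_cases h5 : e ∈ S
    · rw [if_pos h5, h2 e h5]
    · rw [if_neg h5, h3 e h5]
  · intro D hD hDS
    rw [Multiset.mem_add]
    left
    obtain ⟨e, he⟩ := hD.1
    have h4 := hN2 e
    rw [if_pos (hDS he)] at h4
    obtain ⟨X, hX, heX⟩ := Multiset.countP_pos.1 (by rw [h4]; norm_num : 0 < N.countP (e ∈ ·))
    have hXS : X ⊆ S := by
      intro f hf
      by_contra hcon
      have h5 := hN2 f
      rw [if_neg hcon] at h5
      exact absurd (Multiset.countP_pos.2 ⟨X, hX, hf⟩) (by rw [h5]; norm_num)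
    -- D and X are both the component of S through e
    have hcl : ∀ (A B : Finset E), IsCircuit G A → IsCircuit G B → A ⊆ S → B ⊆ S → e ∈ A →
        e ∈ B → A ⊆ B := by
      intro A B hA hB hAS hBS heA heB f hf
      have := hA.2.2 e heA f hf
      induction this with
      | refl => exact heB
      | tail h6 h7 ih =>
        rename_i a b
        have haA : a ∈ A := by
          rcases Relation.ReflTransGen.cases_tail h6 with h | ⟨c, _, h⟩
          · rw [h]; exact heA
          · exact h.1
        have haB := ih haA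
        obtain ⟨v, hva, hvb⟩ := h7.2
        have hBv : dg G B v = 2 :=
          (hB.2.1 v).resolve_left (by have := dg_pos_of_mem (G := G) haB hva; omega)
        have hSv : dg G S v = 2 := by
          have h8 := dg_mono (G := G) hBS v
          rcases hS v with h | h
          · omega
          · exact h
        have heq : (B.filter fun e => v ∈ G.ends e) = S.filter fun e => v ∈ G.ends e := by
          apply eq_of_subset_of_card_le (filter_subset_filter _ hBS)
          unfold dg at hBv hSv
          omega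
        have : b ∈ S.filter fun e => v ∈ G.ends e := mem_filter.2 ⟨hAS h7.1, hvb⟩
        rw [← heq, mem_filter] at this
        exact this.1
    have : D = X := Subset.antisymm (hcl D X hD (hN1 X hX) hDS hXS he heX)
      (hcl X D (hN1 X hX) hD hXS hDS heX he)
    rw [this]
    exact hX

/-- few classes: no Petersen quotient -/
theorem no_pq_few (al be : E → V) (S : Finset E) (κ : V → V)
    (h9 : (univ.image κ).card ≤ 9) (c : V → Fin 10) :
    ¬ IsPQ (κ ∘ al) (κ ∘ be) (univ \ S) c := by
  classical
  intro hc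
  have hpn : ∀ k, TH362.TF.padj k (TH362.TF.nb k 0) = true := by decide
  have h1 : (univ : Finset (Fin 10)) ⊆ (univ.image κ).image c := by
    intro k _
    obtain ⟨e, _, he⟩ := hc.2 k (TH362.TF.nb k 0) (hpn k)
    rw [mem_image]
    rcases he with ⟨a, _⟩ | ⟨_, a⟩
    · exact ⟨κ (al e), mem_image_of_mem _ (mem_univ _), a⟩
    · exact ⟨κ (be e), mem_image_of_mem _ (mem_univ _), a⟩
  have h2 := card_le_card h1
  rw [card_univ, Fintype.card_fin] at h2
  have h3 : ((univ.image κ).image c).card ≤ (univ.image κ).card := card_image_le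
  omega

/-- no nontrivial cuts with three edges: no Petersen quotient -/
theorem no_pq_cut (G : MGraph V E) (al be : E → V) (hab : ∀ e, al e ≠ be e)
    (hends : ∀ e, G.ends e = s(al e, be e)) (S : Finset E) (hSne : S.Nonempty) (κ : V → V)
    (hκS : ∀ e ∈ S, κ (al e) = κ (be e))
    (hcut : ∀ X : Finset V, 2 ≤ X.card → 2 ≤ Xᶜ.card →
      ({e | ∃ a ∈ X, ∃ b ∉ X, G.ends e = s(a, b)} : Set E).ncard ≠ 3)
    (c : V → Fin 10) : ¬ IsPQ (κ ∘ al) (κ ∘ be) (univ \ S) c := by
  classical
  intro hc
  have hpn : ∀ k, TH362.TF.padj k (TH362.TF.nb k 0) = true := by decide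
  obtain ⟨e0, he0⟩ := hSne
  obtain ⟨k, hk⟩ : ∃ k, k = c (κ (al e0)) := ⟨_, rfl⟩
  obtain ⟨X, hX⟩ : ∃ X : Finset V, X = univ.filter fun v => c (κ v) = k := ⟨_, rfl⟩
  have hXmem : ∀ v, v ∈ X ↔ c (κ v) = k := by intro v; rw [hX, mem_filter]; simp
  apply hcut X
  · -- both ends of `e0`
    have h1 : ({al e0, be e0} : Finset V) ⊆ X := by
      intro v hv
      rw [mem_insert, mem_singleton] at hv
      rw [hXmem]
      rcases hv with rfl | rfl
      · exact hk.symm
      · rw [← hκS e0 he0]; exact hk.symm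
    have h2 := card_le_card h1
    rwa [card_pair (hab e0)] at h2
  · -- vertices in two other classes
    have hex : ∀ j, ∃ v, c (κ v) = j := by
      intro j
      obtain ⟨e, _, he⟩ := hc.2 j (TH362.TF.nb j 0) (hpn j)
      rcases he with ⟨a, _⟩ | ⟨_, a⟩
      · exact ⟨al e, a⟩
      · exact ⟨be e, a⟩
    obtain ⟨v1, hv1⟩ := hex (k + 1)
    obtain ⟨v2, hv2⟩ := hex (k + 2)
    have hne : v1 ≠ v2 := by
      rintro rfl
      rw [hv1] at hv2
      revert hv2
      generalize k = k'
      revert k'
      decide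
    have h1 : ({v1, v2} : Finset V) ⊆ Xᶜ := by
      intro v hv
      rw [mem_insert, mem_singleton] at hv
      rw [mem_compl, hXmem]
      rcases hv with rfl | rfl
      · rw [hv1]; generalize k = k'; revert k'; decide
      · rw [hv2]; generalize k = k'; revert k'; decide
    have h2 := card_le_card h1
    rwa [card_pair hne] at h2
  · have h1 : ({e | ∃ a ∈ X, ∃ b ∉ X, G.ends e = s(a, b)} : Set E) =
        (TH362.TF.cut (κ ∘ al) (κ ∘ be) (univ \ S) (fun v => decide (c v = k)) : Set E) := by
      ext e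
      rw [mem_coe]
      unfold TH362.TF.cut
      rw [mem_filter]
      simp only [Set.mem_ofPred_eq, Function.comp_apply, ne_eq, decide_eq_decide]
      constructor
      · rintro ⟨a, ha, b, hbX, he⟩
        have h5 := (hXmem a).1 ha
        have h6 : c (κ b) ≠ k := fun h => hbX ((hXmem b).2 h)
        have h7 : (al e = a ∧ be e = b) ∨ (al e = b ∧ be e = a) := by
          have h8 := hends e
          rw [he] at h8
          rcases Sym2.eq_iff.1 h8 with ⟨h9, h10⟩ | ⟨h9, h10⟩
          · exact Or.inl ⟨h9.symm, h10.symm⟩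
          · exact Or.inr ⟨h10.symm, h9.symm⟩
        have hne : ¬ (c (κ (al e)) = k ↔ c (κ (be e)) = k) := by
          rcases h7 with ⟨h9, h10⟩ | ⟨h9, h10⟩
          · rw [h9, h10]; tauto
          · rw [h9, h10]; tauto
        refine ⟨mem_sdiff.2 ⟨mem_univ _, fun heS => hne ?_⟩, hne⟩
        rw [hκS e heS]
      · rintro ⟨_, hne⟩
        by_cases h5 : c (κ (al e)) = k
        · have h6 : ¬ c (κ (be e)) = k := by tauto
          exact ⟨al e, (hXmem _).2 h5, be e, fun h => h6 ((hXmem _).1 h), hends e⟩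
        · have h6 : c (κ (be e)) = k := by tauto
          refine ⟨be e, (hXmem _).2 h6, al e, fun h => h5 ((hXmem _).1 h), ?_⟩
          rw [hends e, Sym2.eq_swap]
    rw [h1, Set.ncard_coe_finset]
    exact hc.1 k

end Pool.Agent.V11198.Six
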