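import Pool.Agent.V11198.SixteenS

/-!
# Short covers and weighted covers from four even subgraphs
-/

set_option autoImplicit false
set_option linter.unusedSectionVars false

open Finset

namespace Pool.Agent.V11198.Six

open Pool.Agent.Helper347.Sab

variable {V E : Type} [Fintype V] [DecidableEq V] [Fintype E] [DecidableEq E]

/-- the total length is the sum of the multiplicities -/
theorem length_eq (F : Multiset (Finset E)) :
    (F.map Finset.card).sum = ∑ e : E, F.countP (fun X => e ∈ X) := by
  induction F using Multiset.induction_on with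
  | empty => simp
  | cons X F ih =>
    rw [Multiset.map_cons, Multiset.sum_cons, ih]
    simp only [Multiset.countP_cons]
    rw [sum_add_distrib, add_comm]
    congr 1
    rw [← Finset.card_filter]
    congr 1
    ext e; simp

/-- four of the five even subgraphs, cut into circuits -/
theorem cover_of_five (G : MGraph V E) (S : Finset E)
    (h : ∃ D : Fin 5 → Finset E, (∀ i, Ev G (D i)) ∧ D 0 = S ∧
      ∀ e, (univ.filter fun i => e ∈ D i).card = 2) :
    ∃ F : Multiset (Finset E), (∀ X ∈ F, IsCircuit G X) ∧
      (∀ e, F.countP (fun X => e ∈ X) = if e ∈ S then 1 else 2) ∧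
      (F.map Finset.card).sum + S.card = 2 * Fintype.card E := by
  classical
  obtain ⟨D, h1, h2, h3⟩ := h
  choose T hT1 hT2 using fun i : Fin 4 =>
    Pool.Agent.W831.HI.decompose_ev G (D i.succ) (h1 i.succ)
  have hcount : ∀ e, (∑ i, T i).countP (fun X => e ∈ X) = if e ∈ S then 1 else 2 := by
    intro e
    rw [Pool.Agent.W831.HI.countP_sum, sum_congr rfl fun i _ => hT2 i e]
    have h4 := h3 e
    rw [card_filter, Fin.sum_univ_succ, h2] at h4
    split_ifs at h4 ⊢ <;> omega
  refine ⟨∑ i, T i, ?_, hcount, ?_⟩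
  · intro Y hY
    rw [Multiset.mem_sum] at hY
    obtain ⟨i, _, hi⟩ := hY
    exact hT1 i Y hi
  · rw [length_eq, sum_congr rfl fun e _ => hcount e]
    have h5 : S.card = ∑ e : E, if e ∈ S then 1 else 0 := by
      rw [← Finset.card_filter]; congr 1; ext e; simp
    rw [h5, ← sum_add_distrib]
    have h6 : ∀ e : E, ((if e ∈ S then 1 else 2) + if e ∈ S then 1 else 0) = 2 := by
      intro e; split_ifs <;> rfl
    rw [sum_congr rfl fun e _ => h6 e, sum_const, card_univ, smul_eq_mul, mul_comm]

/-- handshake -/
theorem sum_dg (G : MGraph V E) (X : Finset E) : ∑ v, dg G X v = 2 * X.card := by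
  unfold dg
  simp only [card_filter]
  rw [sum_comm]
  have h : ∀ e ∈ X, (∑ v : V, if v ∈ G.ends e then 1 else 0) = 2 := by
    intro e _
    rw [← card_filter, card_ends]
  rw [sum_congr rfl h, sum_const, smul_eq_mul, mul_comm]

/-- the number of the edges of a circuit is the number of its vertices -/
theorem card_circuit (G : MGraph V E) (C : Finset E) (hC : ∀ v, dg G C v = 0 ∨ dg G C v = 2) :
    C.card = (univ.filter fun v => dg G C v ≠ 0).card := by
  have h2 : ∑ v, dg G C v = 2 * C.card := sum_dg G C
  have h3 : ∑ v, dg G C v = 2 * (univ.filter fun v => dg G C v ≠ 0).card := by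
    rw [card_filter, mul_sum]
    apply sum_congr rfl
    intro v _
    rcases hC v with h | h <;> simp [h]
  omega

theorem countP_bind' (N : Multiset (Finset E)) (g : Finset E → ℕ) (e : E) :
    (N.bind fun X => Multiset.replicate (g X) X).countP (fun X => e ∈ X) =
      (N.map fun X => if e ∈ X then g X else 0).sum := by
  induction N using Multiset.induction_on with
  | empty => simp
  | cons X N ih =>
    rw [Multiset.cons_bind, Multiset.countP_add, ih, Multiset.map_cons, Multiset.sum_cons]
    congr 1
    by_cases h : e ∈ X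
    · rw [if_pos h, Multiset.countP_eq_card_filter, Multiset.filter_eq_self.2, Multiset.card_replicate]
      intro a ha
      rw [Multiset.eq_of_mem_replicate ha]; exact h
    · rw [if_neg h, Multiset.countP_eq_zero]
      intro a ha
      rw [Multiset.eq_of_mem_replicate ha]; exact h

theorem sum_ite_const (N : Multiset (Finset E)) (c : ℕ) (e : E) :
    (N.map fun X => if e ∈ X then c else 0).sum = N.countP (fun X => e ∈ X) * c := by
  induction N using Multiset.induction_on with
  | empty => simp
  | cons X N ih =>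
    rw [Multiset.map_cons, Multiset.sum_cons, ih, Multiset.countP_cons]
    split_ifs <;> ring

theorem const_on_circuit (G : MGraph V E) (S : Finset E) (w : E → ℕ)
    (hconst : ∀ v, ∀ e ∈ S, ∀ f ∈ S, v ∈ G.ends e → v ∈ G.ends f → w e = w f)
    (X : Finset E) (hX : IsCircuit G X) (hXS : X ⊆ S) (e : E) (he : e ∈ X) (f : E) (hf : f ∈ X) :
    w e = w f := by
  have h1 := hX.2.2 e he f hf
  have h2 : e ∈ S ∧ w e = w f ∧ f ∈ S := by
    clear hf
    induction h1 with
    | refl => exact ⟨hXS he, rfl, hXS he⟩
    | tail _ h4 ih =>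
      obtain ⟨v, hv1, hv2⟩ := h4.2
      exact ⟨ih.1, ih.2.1.trans (hconst v _ ih.2.2 _ (hXS h4.1) hv1 hv2), hXS h4.1⟩
  exact h2.2.1

/-- weights which are constant off `S` and constant on the circuits of `S` -/
theorem weights_of_five (G : MGraph V E) (S : Finset E) (hS : ∀ v, dg G S v = 0 ∨ dg G S v = 2)
    (h : ∃ D : Fin 5 → Finset E, (∀ i, Ev G (D i)) ∧ D 0 = S ∧
      ∀ e, (univ.filter fun i => e ∈ D i).card = 2)
    (w : E → ℕ) (k : ℕ) (hoff : ∀ e, e ∉ S → w e = 2 * k) (hge : ∀ e ∈ S, k ≤ w e)
    (hconst : ∀ v, ∀ e ∈ S, ∀ f ∈ S, v ∈ G.ends e → v ∈ G.ends f → w e = w f) :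
    ∃ F : Multiset (Finset E), (∀ X ∈ F, IsCircuit G X) ∧
      ∀ e, F.countP (fun X => e ∈ X) = w e := by
  classical
  obtain ⟨F, h1, h2, _⟩ := cover_of_five G S h
  obtain ⟨N, hN1, hN2⟩ := decompose G _ S le_rfl hS
  have hNS : ∀ X ∈ N, X ⊆ S := by
    intro X hX f hf
    by_contra hcon
    have h5 := hN2 f
    rw [if_neg hcon] at h5
    exact absurd (Multiset.countP_pos.2 ⟨X, hX, hf⟩) (by rw [h5]; norm_num)
  obtain ⟨g, hg⟩ : ∃ g : Finset E → ℕ, ∀ X ∈ N, ∀ e ∈ X, g X = w e - k := by
    refine ⟨fun X => if h : X.Nonempty then w h.choose - k else 0, ?_⟩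
    intro X hX e he
    have hne : X.Nonempty := ⟨e, he⟩
    simp only [dif_pos hne]
    rw [const_on_circuit G S w hconst X (hN1 X hX) (hNS X hX) _ hne.choose_spec e he]
  refine ⟨k • F + N.bind fun X => Multiset.replicate (g X) X, ?_, ?_⟩
  · intro X hX
    rw [Multiset.mem_add] at hX
    rcases hX with hX | hX
    · exact h1 X (Multiset.mem_of_mem_nsmul hX)
    · rw [Multiset.mem_bind] at hX
      obtain ⟨Y, hY, hXY⟩ := hX
      rw [Multiset.eq_of_mem_replicate hXY]
      exact hN1 Y hY
  · intro e
    rw [Multiset.countP_add, Multiset.countP_nsmul, h2, countP_bind']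
    have h6 : (N.map fun X => if e ∈ X then g X else 0) =
        N.map fun X => if e ∈ X then w e - k else 0 := by
      apply Multiset.map_congr rfl
      intro X hX
      by_cases he : e ∈ X
      · rw [if_pos he, if_pos he, hg X hX e he]
      · rw [if_neg he, if_neg he]
    rw [h6, sum_ite_const, hN2]
    by_cases he : e ∈ S
    · rw [if_pos he, if_pos he]
      have := hge e he
      omega
    · rw [if_neg he, if_neg he, hoff e he]
      ring

end Pool.Agent.V11198.Six
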