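import Pool.Agent.V11198.SixteenW

/-!
# Circuits inside sets left by three edges, cyclic connectivity
-/

set_option autoImplicit false
set_option linter.unusedSectionVars false

open Finset

namespace Pool.Agent.V11198.Six

open Pool.Agent.Helper347.Sab

variable {V E : Type} [Fintype V] [DecidableEq V] [Fintype E] [DecidableEq E]

/-- more edges than vertices: there is a circuit -/
theorem exists_circuit_of_card (G : MGraph V E) (F : Finset E) (X : Finset V)
    (hF : ∀ e ∈ F, ∀ v ∈ G.ends e, v ∈ X) (hcard : X.card < F.card) :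
    ∃ D ⊆ F, IsCircuit G D := by
  classical
  obtain ⟨A, hA, B, hB, hAB, hf⟩ := Finset.exists_ne_map_eq_of_card_lt_of_maps_to
    (s := F.powerset) (t := X.powerset) (f := fun A => X.filter fun v => Odd (dg G A v))
    (by rw [card_powerset, card_powerset]; exact Nat.pow_lt_pow_right (by norm_num) hcard)
    (fun A _ => by rw [mem_coe, mem_powerset]; exact filter_subset _ _)
  rw [mem_powerset] at hA hB
  have hsub : symmDiff A B ⊆ F := by
    intro e he
    rw [mem_symmDiff] at he
    rcases he with h | h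
    · exact hA h.1
    · exact hB h.1
  have hev : Ev G (symmDiff A B) := by
    intro v
    by_cases hv : v ∈ X
    · have h1 := dg_symmDiff G A B v
      have h2 : Odd (dg G A v) ↔ Odd (dg G B v) := by
        have h3 : v ∈ (X.filter fun v => Odd (dg G A v)) ↔ v ∈ X.filter fun v => Odd (dg G B v) := by
          rw [hf]
        rw [mem_filter, mem_filter] at h3
        constructor
        · intro h; exact (h3.1 ⟨hv, h⟩).2
        · intro h; exact (h3.2 ⟨hv, h⟩).2
      have h4 : Even (dg G A v + dg G B v) := by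
        rw [Nat.even_add, ← Nat.not_odd_iff_even, ← Nat.not_odd_iff_even, h2]
      rw [← h1, Nat.even_add] at h4
      exact h4.2 ⟨dg G (A ∩ B) v, by ring⟩
    · have h1 : dg G (symmDiff A B) v = 0 := by
        unfold dg
        rw [card_eq_zero, filter_eq_empty_iff]
        intro e he hve
        exact hv (hF e (hsub he) v hve)
      rw [h1]; decide
  obtain ⟨M, hM1, hM2⟩ := Pool.Agent.W831.HI.decompose_ev G _ hev
  have hne : (symmDiff A B).Nonempty := by
    rw [nonempty_iff_ne_empty]
    intro h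
    exact hAB (symmDiff_eq_bot.1 h)
  obtain ⟨e, he⟩ := hne
  have h5 := hM2 e
  rw [if_pos he] at h5
  obtain ⟨D, hD, heD⟩ := Multiset.countP_pos.1 (by rw [h5]; norm_num : 0 < M.countP (e ∈ ·))
  refine ⟨D, fun f hf' => hsub ?_, hM1 D hD⟩
  by_contra hcon
  have h6 := hM2 f
  rw [if_neg hcon] at h6
  exact absurd (Multiset.countP_pos.2 ⟨D, hD, hf'⟩) (by rw [h6]; norm_num)

/-- the degrees in `X` count the inner edges twice and the leaving edges once -/
theorem sum_dg_on (G : MGraph V E) (X : Finset V) :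
    ∑ v ∈ X, dg G univ v = 2 * (univ.filter fun e => ∀ v ∈ G.ends e, v ∈ X).card +
      (univ.filter fun e => ∃ a ∈ X, ∃ b ∉ X, G.ends e = s(a, b)).card := by
  classical
  have h1 : ∑ v ∈ X, dg G univ v = ∑ e : E, (X.filter fun v => v ∈ G.ends e).card := by
    unfold dg
    simp only [card_filter]
    rw [sum_comm]
  rw [h1, card_filter, card_filter, mul_sum, ← sum_add_distrib]
  apply sum_congr rfl
  intro e _
  obtain ⟨a, b, hab, he⟩ := exists_ends G e
  have h2 : (X.filter fun v => v ∈ G.ends e) = ({a, b} : Finset V).filter (· ∈ X) := by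
    ext v
    rw [mem_filter, mem_filter, he, Sym2.mem_iff, mem_insert, mem_singleton]
    tauto
  have h3 : (∀ v ∈ G.ends e, v ∈ X) ↔ a ∈ X ∧ b ∈ X := by
    rw [he]
    constructor
    · intro h; exact ⟨h a (Sym2.mem_mk_left _ _), h b (Sym2.mem_mk_right _ _)⟩
    · rintro ⟨h, h'⟩ v hv
      rcases Sym2.mem_iff.1 hv with rfl | rfl
      · exact h
      · exact h'
  have h4 : (∃ c ∈ X, ∃ d ∉ X, G.ends e = s(c, d)) ↔ (a ∈ X ∧ b ∉ X) ∨ (b ∈ X ∧ a ∉ X) := by
    rw [he]
    constructor
    · rintro ⟨c, hc, d, hd, h⟩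
      rcases Sym2.eq_iff.1 h with ⟨rfl, rfl⟩ | ⟨rfl, rfl⟩
      · exact Or.inl ⟨hc, hd⟩
      · exact Or.inr ⟨hc, hd⟩
    · rintro (⟨h, h'⟩ | ⟨h, h'⟩)
      · exact ⟨a, h, b, h', rfl⟩
      · exact ⟨b, h, a, h', Sym2.eq_swap⟩
  rw [h2, filter_insert, filter_singleton]
  simp only [h3, h4]
  by_cases ha : a ∈ X <;> by_cases hb : b ∈ X <;> simp [ha, hb, hab]

/-- In a cubic graph a set of at least five vertices which is left by three edges contains a
circuit. -/
theorem circuit_of_three (G : MGraph V E) (hG : IsCubic G) (X : Finset V) (h5 : 5 ≤ X.card)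
    (h3 : (univ.filter fun e => ∃ a ∈ X, ∃ b ∉ X, G.ends e = s(a, b)).card = 3) :
    ∃ D, IsCircuit G D ∧ ∀ e ∈ D, ∀ v ∈ G.ends e, v ∈ X := by
  classical
  have h1 := sum_dg_on G X
  rw [sum_congr rfl fun v _ => hG v, sum_const, smul_eq_mul, h3] at h1
  obtain ⟨D, hD, hDc⟩ := exists_circuit_of_card G (univ.filter fun e => ∀ v ∈ G.ends e, v ∈ X) X
    (fun e he => (mem_filter.1 he).2) (by omega)
  exact ⟨D, hDc, fun e he => (mem_filter.1 (hD he)).2⟩

end Pool.Agent.V11198.Six
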