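import Pool.Agent.V11198.SixteenX

/-!
# Weights constant off a two-regular set: cone and lattice
-/

set_option autoImplicit false
set_option linter.unusedSectionVars false

open Finset

namespace Pool.Agent.V11198.Six

open Pool.Agent.Helper347.Sab

variable {V E : Type} [Fintype V] [DecidableEq V] [Fintype E] [DecidableEq E]

theorem star_sum {R : Type} [CommRing R] (G : MGraph V E) (v : V) (c : Finset E → R) :
    ∑ e ∈ univ.filter (fun e => v ∈ G.ends e), ∑ X : Finset E, (if e ∈ X then c X else 0) =
      ∑ X : Finset E, (dg G X v : R) * c X := by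
  rw [sum_comm]
  apply sum_congr rfl
  intro X _
  rw [← sum_filter, sum_const, nsmul_eq_mul]
  congr 2
  unfold dg
  congr 1
  ext e
  simp only [mem_filter, mem_univ, true_and]
  tauto

/-- the vertex conditions hold in the cone and the lattice -/
theorem adm_of_cone (G : MGraph V E) (p : E → ℕ)
    (hc : ∃ c : Finset E → ℝ, (∀ X, 0 ≤ c X) ∧ (∀ X, ¬ IsCircuit G X → c X = 0) ∧
      ∀ e, (p e : ℝ) = ∑ X : Finset E, if e ∈ X then c X else 0)
    (hz : ∃ z : Finset E → ℤ, (∀ X, ¬ IsCircuit G X → z X = 0) ∧
      ∀ e, (p e : ℤ) = ∑ X : Finset E, if e ∈ X then z X else 0) (v : V) :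
    Even (∑ e ∈ univ.filter (fun e => v ∈ G.ends e), p e) ∧
    ∀ e, v ∈ G.ends e → 2 * p e ≤ ∑ f ∈ univ.filter (fun f => v ∈ G.ends f), p f := by
  classical
  obtain ⟨c, c0, c1, c2⟩ := hc
  obtain ⟨z, z1, z2⟩ := hz
  constructor
  · rw [← Int.even_coe_nat, Nat.cast_sum, sum_congr rfl fun e _ => z2 e, star_sum]
    apply Finset.even_sum
    intro X _
    by_cases hX : IsCircuit G X
    · apply Even.mul_right
      rcases hX.2.1 v with h | h <;> rw [h] <;> decide
    · rw [z1 X hX, mul_zero]
      decide
  · intro e he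
    have h1 : (2 : ℝ) * p e ≤ ((∑ f ∈ univ.filter (fun f => v ∈ G.ends f), p f : ℕ) : ℝ) := by
      rw [Nat.cast_sum, sum_congr rfl fun e _ => c2 e, star_sum, c2 e, mul_sum]
      apply sum_le_sum
      intro X _
      by_cases hX : IsCircuit G X
      · by_cases heX : e ∈ X
        · rw [if_pos heX]
          have h2 := dg_pos_of_mem (G := G) heX he
          have h3 : dg G X v = 2 := (hX.2.1 v).resolve_left (by omega)
          rw [h3]
          norm_num
        · rw [if_neg heX, mul_zero]
          exact mul_nonneg (Nat.cast_nonneg _) (c0 X)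
      · rw [c1 X hX]; simp
    exact_mod_cast h1

theorem countP_eq_sum (F : Multiset (Finset E)) (e : E) :
    F.countP (fun X => e ∈ X) = ∑ X : Finset E, if e ∈ X then F.count X else 0 := by
  classical
  induction F using Multiset.induction_on with
  | empty => simp
  | cons Y F ih =>
    rw [Multiset.countP_cons, ih]
    have h1 : ∀ X : Finset E, (if e ∈ X then (Y ::ₘ F).count X else 0) =
        (if e ∈ X then F.count X else 0) + if X = Y then (if e ∈ Y then 1 else 0) else 0 := by
      intro X
      rw [Multiset.count_cons]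
      by_cases h : X = Y
      · subst h
        split_ifs <;> simp
      · rw [if_neg h, if_neg h, add_zero, add_zero]
    rw [sum_congr rfl fun X _ => h1 X, sum_add_distrib, sum_ite_eq' univ Y, if_pos (mem_univ _)]

/-- a sum of circuits is in the cone and the lattice -/
theorem cone_of_cover (G : MGraph V E) (p : E → ℕ) (F : Multiset (Finset E))
    (hF : ∀ X ∈ F, IsCircuit G X) (hp : ∀ e, F.countP (fun X => e ∈ X) = p e) :
    (∃ c : Finset E → ℝ, (∀ X, 0 ≤ c X) ∧ (∀ X, ¬ IsCircuit G X → c X = 0) ∧
      ∀ e, (p e : ℝ) = ∑ X : Finset E, if e ∈ X then c X else 0) ∧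
    (∃ z : Finset E → ℤ, (∀ X, ¬ IsCircuit G X → z X = 0) ∧
      ∀ e, (p e : ℤ) = ∑ X : Finset E, if e ∈ X then z X else 0) := by
  classical
  have h0 : ∀ X, ¬ IsCircuit G X → F.count X = 0 := by
    intro X hX
    rw [Multiset.count_eq_zero]
    exact fun h => hX (hF X h)
  refine ⟨⟨fun X => F.count X, fun X => Nat.cast_nonneg _, fun X hX => ?_, fun e => ?_⟩,
    ⟨fun X => F.count X, fun X hX => ?_, fun e => ?_⟩⟩
  · simp only [h0 X hX, Nat.cast_zero]
  · rw [← hp e, countP_eq_sum]
    push_cast
    rfl
  · simp only [h0 X hX, Nat.cast_zero]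
  · rw [← hp e, countP_eq_sum]
    push_cast
    rfl

end Pool.Agent.V11198.Six
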