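import Pool.Agent.V11198.SixteenX

/-!
# Expanding vertices into triangles and covering with four perfect matchings
-/

set_option autoImplicit false
set_option linter.unusedSectionVars false

open Finset

namespace Pool.Agent.V11198.Tri

open Pool.Agent.Helper347.Sab

variable {V E : Type} [Fintype V] [DecidableEq V] [Fintype E] [DecidableEq E]

/-- The new edges of `G_U`: for every vertex `v` of `U` and every unordered pair of different edges
at `v`, an edge which joins the two corresponding corners of the triangle at `v`. -/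
def TriangleEdge (G : MGraph V E) (U : Finset V) : Type :=
  {x : V × Sym2 E // x.1 ∈ U ∧ ¬ x.2.IsDiag ∧ ∀ e ∈ x.2, x.1 ∈ G.ends e}

/-- The end of the edge `e` at `v` in `G_U`: the corner `(v, some e)` of the triangle at `v` if `v`
is in `U`, and the old vertex `(v, none)` otherwise. -/
def corner (U : Finset V) (e : E) (v : V) : V × Option E := (v, if v ∈ U then some e else none)

/-- The graph `G_U`, with some additional isolated vertices: its vertices are `(v, none)` for `v`
outside `U` and `(v, some e)` for `v` in `U` and the three edges `e` at `v`; the other pairs are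
isolated vertices. -/
def expand (G : MGraph V E) (U : Finset V) : MGraph (V × Option E) (E ⊕ TriangleEdge G U) where
  ends := Sum.elim (fun e => (G.ends e).map (corner U e))
    (fun x => x.1.2.map fun e => (x.1.1, some e))
  loopless := by
    rintro (e | ⟨⟨v, q⟩, hv, hq, he⟩)
    · intro h
      obtain ⟨a, b, hab, hends⟩ := exists_ends G e
      simp only [Sum.elim_inl, hends, Sym2.map_mk, Sym2.mk_isDiag_iff] at h
      exact hab (congrArg Prod.fst h)
    · intro h
      induction q using Sym2.ind with
      | _ a b =>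
        simp only [Sum.elim_inr, Sym2.map_mk, Sym2.mk_isDiag_iff] at h
        apply hq
        rw [Sym2.mk_isDiag_iff]
        exact Option.some_injective _ (congrArg Prod.snd h)

theorem mem_inl (G : MGraph V E) (U : Finset V) (f : E) (w : V × Option E) :
    w ∈ (expand G U).ends (Sum.inl f) ↔
      w.1 ∈ G.ends f ∧ w.2 = if w.1 ∈ U then some f else none := by
  show w ∈ (G.ends f).map (corner U f) ↔ _
  rw [Sym2.mem_map]
  constructor
  · rintro ⟨a, ha, rfl⟩
    exact ⟨ha, rfl⟩
  · rintro ⟨h1, h2⟩
    exact ⟨w.1, h1, Prod.ext rfl h2.symm⟩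

theorem mem_inr (G : MGraph V E) (U : Finset V) (x : TriangleEdge G U) (w : V × Option E) :
    w ∈ (expand G U).ends (Sum.inr x) ↔ w.1 = x.1.1 ∧ ∃ e ∈ x.1.2, w.2 = some e := by
  show w ∈ (x.1.2).map (fun e => (x.1.1, some e)) ↔ _
  rw [Sym2.mem_map]
  constructor
  · rintro ⟨a, ha, rfl⟩
    exact ⟨rfl, a, ha, rfl⟩
  · rintro ⟨h1, e, he, h2⟩
    exact ⟨e, he, Prod.ext h1.symm h2.symm⟩

/-- `M` is a perfect matching of `H`, apart from isolated vertices of `H`. -/
def IsPM {W D : Type} (H : MGraph W D) (M : Set D) : Prop :=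
  ∀ w, (∃ d, w ∈ H.ends d) → ∃! d, d ∈ M ∧ w ∈ H.ends d

/-- `H` is coverable by four perfect matchings. -/
def CoverableByFour {W D : Type} (H : MGraph W D) : Prop :=
  ∃ M : Fin 4 → Set D, (∀ i, IsPM H (M i)) ∧ ∀ d, ∃ i, d ∈ M i

/-- the matching of an even subgraph -/
def mat (G : MGraph V E) (C : Finset E) (U : Finset V) (X : Finset E) :
    Set (E ⊕ TriangleEdge G U) :=
  {d | (∀ e, d = Sum.inl e → e ∉ symmDiff X C) ∧ ∀ x, d = Sum.inr x → ∀ e ∈ x.1.2, e ∈ X}

theorem isPM_mat (G : MGraph V E) (hG : IsCubic G) (C : Finset E) (hC : IsCircuit G C)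
    (U : Finset V) (hU : ∀ v, v ∈ U ↔ dg G C v = 0) (X : Finset E) (hX : Ev G X)
    (hon : ∀ v, dg G C v = 2 → dg G (symmDiff X C) v ≠ 0) : IsPM (expand G U) (mat G C U X) := by
  classical
  rintro ⟨v, o⟩ ⟨d, hd⟩
  have hle : ∀ Y : Finset E, dg G Y v ≤ 3 := fun Y => by
    rw [← hG v]; exact dg_mono (subset_univ _) v
  cases o with
  | none =>
    -- an old vertex
    have hvU : v ∉ U := by
      rcases d with f | x
      · rw [mem_inl] at hd
        intro h
        rw [if_pos h] at hd
        exact absurd hd.2 (by simp)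
      · rw [mem_inr] at hd
        obtain ⟨_, e, _, h⟩ := hd
        exact absurd h (by simp)
    have h2 : dg G C v = 2 := (hC.2.1 v).resolve_left (fun h => hvU ((hU v).2 h))
    have hev : Even (dg G (symmDiff X C) v) :=
      ev_symmDiff hX (Pool.Agent.V11198.Six.ev_of_circuit G C hC) v
    have h3 : dg G (symmDiff X C) v = 2 := by
      have h4 := hon v h2
      have h5 := hle (symmDiff X C)
      obtain ⟨k, hk⟩ := hev
      omega
    have h4 : dg G (univ \ symmDiff X C) v = 1 := by
      have h5 := dg_sdiff (G := G) (X := univ) (Y := symmDiff X C) (subset_univ _) v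
      rw [hG v] at h5
      omega
    unfold dg at h4
    obtain ⟨e, he⟩ := card_eq_one.1 h4
    have he' : ∀ f, (f ∉ symmDiff X C ∧ v ∈ G.ends f) ↔ f = e := by
      intro f
      have h5 : f ∈ (univ \ symmDiff X C).filter (fun e => v ∈ G.ends e) ↔ f ∈ ({e} : Finset E) := by
        rw [he]
      rw [mem_filter, mem_sdiff, mem_singleton] at h5
      simpa using h5
    refine ⟨Sum.inl e, ⟨⟨?_, ?_⟩, ?_⟩, ?_⟩
    · intro f hf
      have : e = f := Sum.inl_injective hf
      subst this
      exact ((he' e).2 rfl).1
    · intro x hx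
      exact absurd hx (by simp)
    · rw [mem_inl]
      exact ⟨((he' e).2 rfl).2, by rw [if_neg hvU]⟩
    · rintro (f | x) ⟨h6, h7⟩
      · rw [mem_inl] at h7
        rw [(he' f).1 ⟨h6.1 f rfl, h7.1⟩]
      · rw [mem_inr] at h7
        obtain ⟨_, g, _, h⟩ := h7
        exact absurd h (by simp)
  | some e =>
    have hve : v ∈ U ∧ v ∈ G.ends e := by
      rcases d with f | x
      · rw [mem_inl] at hd
        by_cases h : v ∈ U
        · rw [if_pos h] at hd
          have : e = f := Option.some_injective _ hd.2
          subst this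
          exact ⟨h, hd.1⟩
        · rw [if_neg h] at hd
          exact absurd hd.2 (by simp)
      · rw [mem_inr] at hd
        obtain ⟨h1, g, hg, h2⟩ := hd
        have : e = g := Option.some_injective _ h2
        subst this
        have h3 : v = x.1.1 := h1
        rw [h3]
        exact ⟨x.2.1, x.2.2.2 e hg⟩
    obtain ⟨hvU, hve⟩ := hve
    have hC0 : ∀ f, v ∈ G.ends f → f ∉ C := by
      intro f hf hfC
      have := dg_pos_of_mem (G := G) hfC hf
      rw [(hU v).1 hvU] at this
      omega
    by_cases heX : e ∈ X
    · have hpos := dg_pos_of_mem (G := G) heX hve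
      have h2 : dg G X v = 2 := by
        have h5 := hle X
        obtain ⟨k, hk⟩ := hX v
        omega
      have h3 : ((X.filter fun f => v ∈ G.ends f).erase e).card = 1 := by
        rw [card_erase_of_mem (mem_filter.2 ⟨heX, hve⟩)]
        unfold dg at h2
        omega
      obtain ⟨f, hf⟩ := card_eq_one.1 h3
      have hf' : ∀ g, (g ≠ e ∧ g ∈ X ∧ v ∈ G.ends g) ↔ g = f := by
        intro g
        have h5 : g ∈ (X.filter fun f => v ∈ G.ends f).erase e ↔ g ∈ ({f} : Finset E) := by
          rw [hf]
        rw [mem_erase, mem_filter, mem_singleton] at h5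
        exact h5
      obtain ⟨hfe, hfX, hvf⟩ := (hf' f).2 rfl
      have hx : v ∈ U ∧ ¬ (s(e, f) : Sym2 E).IsDiag ∧ ∀ g ∈ s(e, f), v ∈ G.ends g := by
        refine ⟨hvU, ?_, ?_⟩
        · rw [Sym2.mk_isDiag_iff]
          exact fun h => hfe h.symm
        · intro g hg
          rcases Sym2.mem_iff.1 hg with rfl | rfl
          · exact hve
          · exact hvf
      refine ⟨Sum.inr ⟨(v, s(e, f)), hx⟩, ⟨⟨?_, ?_⟩, ?_⟩, ?_⟩
      · intro g hg
        exact absurd hg (by simp)
      · intro x hxx g hg
        have : (⟨(v, s(e, f)), hx⟩ : TriangleEdge G U) = x := Sum.inr_injective hxx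
        subst this
        rcases Sym2.mem_iff.1 hg with rfl | rfl
        · exact heX
        · exact hfX
      · rw [mem_inr]
        exact ⟨rfl, e, Sym2.mem_mk_left _ _, rfl⟩
      · rintro (g | x) ⟨h6, h7⟩
        · exfalso
          rw [mem_inl, if_pos hvU] at h7
          have : e = g := Option.some_injective _ h7.2
          subst this
          exact h6.1 e rfl (mem_symmDiff.2 (Or.inl ⟨heX, hC0 e hve⟩))
        · rw [mem_inr] at h7
          obtain ⟨h8, g, hg, h9⟩ := h7
          have : e = g := Option.some_injective _ h9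
          subst this
          have h8' : v = x.1.1 := h8
          obtain ⟨⟨v', q⟩, hx1, hx2, hx3⟩ := x
          simp only at h8' hg
          subst h8'
          obtain ⟨g, rfl⟩ := hg
          have hgq : g ∈ s(e, g) := Sym2.mem_mk_right _ _
          have hge : g ≠ e := by
            intro h
            apply hx2
            show (s(e, g) : Sym2 E).IsDiag
            rw [Sym2.mk_isDiag_iff]
            exact h.symm
          have hgX : g ∈ X := h6.2 _ rfl g hgq
          have := (hf' g).1 ⟨hge, hgX, hx3 g hgq⟩
          subst this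
          rfl
    · refine ⟨Sum.inl e, ⟨⟨?_, ?_⟩, ?_⟩, ?_⟩
      · intro f hf hcon
        have : e = f := Sum.inl_injective hf
        subst this
        rcases mem_symmDiff.1 hcon with h | h
        · exact heX h.1
        · exact hC0 e hve h.1
      · intro x hx
        exact absurd hx (by simp)
      · rw [mem_inl]
        exact ⟨hve, by rw [if_pos hvU]⟩
      · rintro (g | x) ⟨h6, h7⟩
        · rw [mem_inl, if_pos hvU] at h7
          have : e = g := Option.some_injective _ h7.2
          rw [this]
        · exfalso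
          rw [mem_inr] at h7
          obtain ⟨_, g, hg, h9⟩ := h7
          have : e = g := Option.some_injective _ h9
          subst this
          exact heX (h6.2 x rfl e hg)

theorem on_ne (G : MGraph V E) (hG : IsCubic G) (C : Finset E) (X : Fin 4 → Finset E)
    (hX : ∀ i, Ev G (X i)) (h1 : ∀ e ∈ C, (univ.filter fun i => e ∈ X i).card = 1)
    (h2 : ∀ e, e ∉ C → (univ.filter fun i => e ∈ X i).card = 2) (i : Fin 4) (v : V)
    (hv : dg G C v = 2) : dg G (symmDiff (X i) C) v ≠ 0 := by
  classical
  intro h0
  have hout : dg G (univ \ C) v = 1 := by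
    have h5 := dg_sdiff (G := G) (X := univ) (Y := C) (subset_univ _) v
    rw [hG v] at h5
    omega
  obtain ⟨e3, he3, hve3⟩ := exists_mem_of_dg_pos (G := G) (X := univ \ C) (v := v) (by omega)
  have he3C : e3 ∉ C := (mem_sdiff.1 he3).2
  have hno : ∀ g, v ∈ G.ends g → g ∉ symmDiff (X i) C := by
    intro g hvg hg
    have := dg_pos_of_mem (G := G) hg hvg
    omega
  have he3i : e3 ∉ X i := fun h => hno e3 hve3 (mem_symmDiff.2 (Or.inl ⟨h, he3C⟩))
  obtain ⟨j, hj⟩ : (univ.filter fun j => e3 ∈ X j).Nonempty := by
    rw [← card_pos, h2 e3 he3C]; norm_num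
  have hj' : e3 ∈ X j := (mem_filter.1 hj).2
  have hji : j ≠ i := fun h => he3i (h ▸ hj')
  have hpos := dg_pos_of_mem (G := G) hj' hve3
  have hge : 0 < (((X j).filter fun f => v ∈ G.ends f).erase e3).card := by
    rw [card_erase_of_mem (mem_filter.2 ⟨hj', hve3⟩)]
    obtain ⟨k, hk⟩ := hX j v
    unfold dg at hpos hk
    omega
  obtain ⟨g, hg⟩ := card_pos.1 hge
  rw [mem_erase, mem_filter] at hg
  obtain ⟨hge3, hgj, hvg⟩ := hg
  have hgC : g ∈ C := by
    by_contra hcon
    have h5 : ({e3, g} : Finset E) ⊆ (univ \ C).filter fun e => v ∈ G.ends e := by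
      intro x hx
      rw [mem_insert, mem_singleton] at hx
      rw [mem_filter, mem_sdiff]
      rcases hx with rfl | rfl
      · exact ⟨⟨mem_univ _, he3C⟩, hve3⟩
      · exact ⟨⟨mem_univ _, hcon⟩, hvg⟩
    have h6 := card_le_card h5
    rw [card_pair (Ne.symm hge3)] at h6
    unfold dg at hout
    omega
  have hgi : g ∈ X i := by
    by_contra hcon
    exact hno g hvg (mem_symmDiff.2 (Or.inr ⟨hgC, hcon⟩))
  have h5 : ({i, j} : Finset (Fin 4)) ⊆ univ.filter fun i => g ∈ X i := by
    intro x hx
    rw [mem_insert, mem_singleton] at hx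
    rw [mem_filter]
    rcases hx with rfl | rfl
    · exact ⟨mem_univ _, hgi⟩
    · exact ⟨mem_univ _, hgj⟩
  have h6 := card_le_card h5
  rw [card_pair (Ne.symm hji), h1 g hgC] at h6
  omega

theorem coverable (G : MGraph V E) (hG : IsCubic G) (C : Finset E) (hC : IsCircuit G C)
    (X : Fin 4 → Finset E) (hX : ∀ i, Ev G (X i))
    (h1 : ∀ e ∈ C, (univ.filter fun i => e ∈ X i).card = 1)
    (h2 : ∀ e, e ∉ C → (univ.filter fun i => e ∈ X i).card = 2)
    (U : Finset V) (hU : ∀ v, v ∈ U ↔ dg G C v = 0) : CoverableByFour (expand G U) := by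
  classical
  refine ⟨fun i => mat G C U (X i), fun i => isPM_mat G hG C hC U hU (X i) (hX i)
    (fun v hv => on_ne G hG C X hX h1 h2 i v hv), ?_⟩
  rintro (e | ⟨⟨v, q⟩, hx1, hx2, hx3⟩)
  · by_cases he : e ∈ C
    · obtain ⟨i, hi⟩ : (univ.filter fun j => e ∈ X j).Nonempty := by
        rw [← card_pos, h1 e he]; norm_num
      have hi' : e ∈ X i := (mem_filter.1 hi).2
      refine ⟨i, fun f hf => ?_, fun x hx => absurd hx (by simp)⟩
      have : e = f := Sum.inl_injective hf
      subst this
      intro hcon
      rcases mem_symmDiff.1 hcon with h | h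
      · exact h.2 he
      · exact h.2 hi'
    · have h3 : ∃ i, e ∉ X i := by
        by_contra hcon
        push Not at hcon
        have h4 := h2 e he
        rw [filter_true_of_mem (fun i _ => hcon i), card_univ, Fintype.card_fin] at h4
        omega
      obtain ⟨i, hi⟩ := h3
      refine ⟨i, fun f hf => ?_, fun x hx => absurd hx (by simp)⟩
      have : e = f := Sum.inl_injective hf
      subst this
      intro hcon
      rcases mem_symmDiff.1 hcon with h | h
      · exact hi h.1
      · exact he h.1
  · induction q using Sym2.ind with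
    | _ f g =>
    have hvf : v ∈ G.ends f := hx3 f (Sym2.mem_mk_left _ _)
    have hvg : v ∈ G.ends g := hx3 g (Sym2.mem_mk_right _ _)
    have hfg : f ≠ g := by
      intro h
      exact hx2 (Sym2.mk_isDiag_iff.2 h)
    have hC0 : ∀ e, v ∈ G.ends e → e ∉ C := by
      intro e he heC
      have h5 := dg_pos_of_mem (G := G) heC he
      have h6 := (hU v).1 hx1
      have h7 : dg G C v = 0 := h6
      omega
    obtain ⟨h, hh⟩ : ∃ h, ((univ.filter fun e => v ∈ G.ends e).erase f).erase g = {h} := by
      rw [← card_eq_one, card_erase_of_mem, card_erase_of_mem]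
      · have := hG v
        unfold dg at this
        omega
      · exact mem_filter.2 ⟨mem_univ _, hvf⟩
      · exact mem_erase.2 ⟨Ne.symm hfg, mem_filter.2 ⟨mem_univ _, hvg⟩⟩
    have hmem : ∀ e, (e ≠ g ∧ e ≠ f ∧ v ∈ G.ends e) ↔ e = h := by
      intro e
      have h5 : e ∈ ((univ.filter fun e => v ∈ G.ends e).erase f).erase g ↔ e ∈ ({h} : Finset E) := by
        rw [hh]
      rw [mem_erase, mem_erase, mem_filter, mem_singleton] at h5
      simpa using h5
    obtain ⟨hhg, hhf, hvh⟩ := (hmem h).2 rfl
    suffices hex : ∃ i, f ∈ X i ∧ g ∈ X i by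
      obtain ⟨i, hi1, hi2⟩ := hex
      refine ⟨i, fun e he => absurd he (by simp), fun x hx e he => ?_⟩
      have : (⟨(v, s(f, g)), hx1, hx2, hx3⟩ : TriangleEdge G U) = x := Sum.inr_injective hx
      subst this
      rcases Sym2.mem_iff.1 he with rfl | rfl
      · exact hi1
      · exact hi2
    by_contra hcon
    push Not at hcon
    -- every set contains `f` or `g`
    have hsum : ∑ i, ((if f ∈ X i then 1 else 0) + if g ∈ X i then 1 else 0) = 4 := by
      rw [sum_add_distrib, ← card_filter, ← card_filter, h2 f (hC0 f hvf), h2 g (hC0 g hvg)]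
    have hle : ∀ i, ((if f ∈ X i then 1 else 0) + if g ∈ X i then 1 else 0) ≤ 1 := by
      intro i
      by_cases hf : f ∈ X i
      · rw [if_pos hf, if_neg (hcon i hf)]
      · rw [if_neg hf]
        split_ifs <;> omega
    have hall : ∀ i, h ∈ X i := by
      intro i
      have h5 : ((if f ∈ X i then 1 else 0) + if g ∈ X i then 1 else 0) = 1 := by
        by_contra hne
        have h6 : ((if f ∈ X i then 1 else 0) + if g ∈ X i then 1 else 0) = 0 := by
          have := hle i
          omega
        have h7 : ∑ i, ((if f ∈ X i then 1 else 0) + if g ∈ X i then 1 else 0) <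
            ∑ _i : Fin 4, 1 := sum_lt_sum (fun i _ => hle i) ⟨i, mem_univ _, by omega⟩
        rw [hsum] at h7
        simp at h7
      by_contra hhi
      have h8 : (X i).filter (fun e => v ∈ G.ends e) =
          if f ∈ X i then {f} else {g} := by
        ext e
        rw [mem_filter]
        by_cases hf : f ∈ X i
        · rw [if_pos hf, mem_singleton]
          constructor
          · rintro ⟨h9, h10⟩
            by_contra hef
            have heg : e ≠ g := fun h => hcon i hf (h ▸ h9)
            exact hhi ((hmem e).1 ⟨heg, hef, h10⟩ ▸ h9)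
          · rintro rfl
            exact ⟨hf, hvf⟩
        · rw [if_neg hf, mem_singleton]
          have hg : g ∈ X i := by
            by_contra hg
            rw [if_neg hf, if_neg hg] at h5
            omega
          constructor
          · rintro ⟨h9, h10⟩
            by_contra heg
            have hef : e ≠ f := fun h => hf (h ▸ h9)
            exact hhi ((hmem e).1 ⟨heg, hef, h10⟩ ▸ h9)
          · rintro rfl
            exact ⟨hg, hvg⟩
      have h9 := hX i v
      unfold dg at h9
      rw [h8] at h9
      split_ifs at h9 <;> simp at h9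
    have h10 := h2 h (hC0 h hvh)
    rw [filter_true_of_mem (fun i _ => hall i), card_univ, Fintype.card_fin] at h10
    omega

end Pool.Agent.V11198.Tri
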